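import Mathlib

/-! Two-way finite-state passes (a right-to-left scan followed by a left-to-right scan), their
closure under composition, and automatic functions. -/

namespace TF

/-- A two-pass machine: a right-to-left scan with states `P`, then a left-to-right scan with
states `Q` that reads the letter and the right-to-left state of the rest of the word. -/
structure BM (A B : Type) where
  Q : Type
  P : Type
  finQ : Finite Q
  finP : Finite P
  q0 : Q
  p0 : P
  d : Q → A → P → Q
  e : A → P → P
  out : Q → A → P → B

namespace BM
variable {A B : Type}

def run (m : BM A B) : m.Q → List A → m.P → List B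
  | _, [], _ => []
  | q, a :: w, p =>
      m.out q a (w.foldr m.e p) :: m.run (m.d q a (w.foldr m.e p)) w p

def eval (m : BM A B) (w : List A) : List B := m.run m.q0 w m.p0

/-- The left state reached after reading `w`, with right state `p` behind `w`. -/
def st (m : BM A B) : m.Q → List A → m.P → m.Q
  | q, [], _ => q
  | q, a :: w, p => m.st (m.d q a (w.foldr m.e p)) w p

theorem run_append (m : BM A B) (q : m.Q) (u v : List A) (p : m.P) :
    m.run q (u ++ v) p = m.run q u (v.foldr m.e p) ++ m.run (m.st q u (v.foldr m.e p)) v p := by
  induction u generalizing q with
  | nil => rfl
  | cons a u ih => simp [run, st, ih]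

theorem st_append (m : BM A B) (q : m.Q) (u v : List A) (p : m.P) :
    m.st q (u ++ v) p = m.st (m.st q u (v.foldr m.e p)) v p := by
  induction u generalizing q with
  | nil => rfl
  | cons a u ih => simp [st, ih]

theorem length_run (m : BM A B) (q : m.Q) (u : List A) (p : m.P) :
    (m.run q u p).length = u.length := by
  induction u generalizing q with
  | nil => rfl
  | cons a u ih => simp [run, ih]

end BM

/-- Length-preserving functions obtained by composing two-pass machines. -/
inductive Reg : {A B : Type} → (List A → List B) → Prop
  | bm {A B : Type} (m : BM A B) : Reg m.eval
  | comp {A B C : Type} (hB : Finite B) {f : List A → List B} {g : List B → List C}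
      (hf : Reg f) (hg : Reg g) : Reg (fun w => g (f w))

end TF
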