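import Mathlib
import Pool.Agent.LibTF.Auto

/-! Automatic functions, Thompson's group, and the property of the problem. -/

namespace TF

/-- Convolution of two words; `none` is the padding symbol. -/
def conv {A : Type} (u v : List A) : List (Option A × Option A) :=
  (List.range (max u.length v.length)).map (fun k => (u[k]?, v[k]?))

/-- A total function on words is automatic if the convolutions `u ⊗ f u` form a regular
language. -/
def IsAutomatic {A : Type} (f : List A → List A) : Prop :=
  Language.IsRegular ({w | ∃ u : List A, w = conv u (f u)} : Language (Option A × Option A))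

/-- The two generators. -/
def fx0 : FreeGroup (Fin 2) := FreeGroup.of 0
def fx1 : FreeGroup (Fin 2) := FreeGroup.of 1

/-- The commutator of two elements. -/
def cmt (a b : FreeGroup (Fin 2)) : FreeGroup (Fin 2) := a * b * a⁻¹ * b⁻¹

/-- The two relators `[x₀ x₁⁻¹, x₀⁻¹ x₁ x₀]` and `[x₀ x₁⁻¹, x₀⁻² x₁ x₀²]` of Thompson's group. -/
def thompsonRels : Set (FreeGroup (Fin 2)) :=
  {cmt (fx0 * fx1⁻¹) (fx0⁻¹ * fx1 * fx0), cmt (fx0 * fx1⁻¹) (fx0⁻¹ ^ 2 * fx1 * fx0 ^ 2)}

/-- Thompson's group `F`. -/
abbrev ThompsonF : Type := PresentedGroup thompsonRels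

def gx0 : ThompsonF := PresentedGroup.of 0
def gx1 : ThompsonF := PresentedGroup.of 1

/-- `G` has a normal form over a finite alphabet for which right multiplication by every element
of `S` is realised by an automatic function (Cayley position-faithful linear-time
computability with respect to `S`). -/
def CayleyLinear (G : Type) [Group G] (S : Set G) : Prop :=
  ∃ (A : Type) (_ : Finite A) (L : Set (List A)) (ψ : L ≃ G),
    ∀ s ∈ S, ∃ f : List A → List A, IsAutomatic f ∧
      ∀ w : L, ∃ h : f w.1 ∈ L, ψ ⟨f w.1, h⟩ = ψ w * s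

/-! ### Trees and states -/

/-- Binary trees whose leaves carry a natural number. -/
inductive DT
  | leaf (a : ℕ)
  | node (l r : DT)
  deriving DecidableEq

/-- The code of a decorated tree, given the three plain letters and a shift function. -/
def WW {A : Type} (lp br lf : A) (Sh : List A → List A) : DT → List A
  | .leaf a => List.replicate a br ++ [lf]
  | .node l r => lp :: (Sh (WW lp br lf Sh l) ++ WW lp br lf Sh r)

/-- No caret whose left leaf is positive and whose right leaf is zero. -/
def DT.red : DT → Prop
  | .leaf _ => True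
  | .node l r => l.red ∧ r.red ∧ ¬ ((∃ a, l = .leaf (a + 1)) ∧ r = .leaf 0)

def DT.join : DT → DT → DT
  | .leaf (a + 1), .leaf 0 => .leaf a
  | l, r => .node l r

def DT.split : DT → DT × DT
  | .leaf a => (.leaf (a + 1), .leaf 0)
  | .node l r => (l, r)

def joinAt (n : ℕ) (s : ℕ → DT) (i : ℕ) : DT :=
  if i < n then s i else if i = n then (s n).join (s (n + 1)) else s (i + 1)

def splitAt (n : ℕ) (s : ℕ → DT) (i : ℕ) : DT :=
  if i < n then s i else if i = n then (s n).split.1
  else if i = n + 1 then (s n).split.2 else s (i - 1)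

/-- Reduced and eventually trivial sequences of decorated trees. -/
structure GoodSt (s : ℕ → DT) : Prop where
  red : ∀ i, (s i).red
  fin : ∃ m, ∀ i, m ≤ i → s i = .leaf 0

/-- What is needed from the combinatorial part: an alphabet with a shift and its inverse. -/
structure TreeCode (A : Type) where
  fin : Finite A
  lp : A
  br : A
  lf : A
  ne1 : lp ≠ br
  ne2 : lp ≠ lf
  ne3 : br ≠ lf
  Sh : List A → List A
  Un : List A → List A
  regSh : Reg Sh
  regUn : Reg Un
  unSh : ∀ t, Un (Sh (WW lp br lf Sh t)) = WW lp br lf Sh t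
  plain : ∀ t, ∀ a ∈ Sh (WW lp br lf Sh t), a ≠ lp ∧ a ≠ br ∧ a ≠ lf

end TF
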