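import Mathlib
import Pool.Agent.LibTF.Main0

/-! TASK A1: regularity of the graph of a composition of two-pass machines; automatic functions. -/

namespace TF

/-- Graph of a length-preserving function, as a language of words of pairs. -/
def graphL {A B : Type} (f : List A → List B) : Language (A × B) :=
  {w | f (w.map Prod.fst) = w.map Prod.snd}

theorem Reg.length {A B : Type} {f : List A → List B} (hf : Reg f) (w : List A) :
    (f w).length = w.length := by
  induction hf with
  | bm m => exact m.length_run _ _ _
  | comp hB hf hg ihf ihg => rw [ihg, ihf]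

/-! ### Regular languages: a toolbox -/

/-- A language is regular if membership is decided by a finite summary of the word. -/
theorem A1_summary {X S : Type} [Finite S] (L : Language X) (st : List X → S)
    (step : S → X → S) (acc : S → Prop)
    (hstep : ∀ w x, st (w ++ [x]) = step (st w) x) (hacc : ∀ w, w ∈ L ↔ acc (st w)) :
    L.IsRegular := by
  refine ⟨S, Fintype.ofFinite S, ⟨step, st [], {s | acc s}⟩, ?_⟩
  have h : ∀ w, (⟨step, st [], {s | acc s}⟩ : DFA X S).eval w = st w := by
    intro w
    induction w using List.reverseRecOn with
    | nil => rfl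
    | append_singleton w x ih => rw [DFA.eval_append_singleton, ih, hstep]
  ext w
  rw [DFA.mem_accepts, h, hacc]
  rfl

/-- Outputs of a Mealy machine. -/
def A1_mz {X Y τ : Type} (out : τ → X → Y) (nx : τ → X → τ) : τ → List X → List Y
  | _, [] => []
  | t, x :: w => out t x :: A1_mz out nx (nx t x) w

theorem A1_mz_append {X Y τ : Type} (out : τ → X → Y) (nx : τ → X → τ) (t : τ) (w : List X)
    (x : X) : A1_mz out nx t (w ++ [x]) = A1_mz out nx t w ++ [out (w.foldl nx t) x] := by
  induction w generalizing t with
  | nil => rfl
  | cons a w ih => simp [A1_mz, ih]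

/-- The image of a regular language under a Mealy machine is regular. -/
theorem A1_mealy {X Y τ : Type} [Finite τ] (out : τ → X → Y) (nx : τ → X → τ) (t0 : τ)
    {L : Language X} (hL : L.IsRegular) :
    Language.IsRegular ({w | ∃ z ∈ L, A1_mz out nx t0 z = w} : Language Y) := by
  obtain ⟨σ, _, M, rfl⟩ := hL
  refine A1_summary (S := σ × τ → Prop) _
    (fun w p => ∃ z, A1_mz out nx t0 z = w ∧ M.eval z = p.1 ∧ z.foldl nx t0 = p.2)
    (fun P y p => ∃ p', P p' ∧ ∃ x, out p'.2 x = y ∧ M.step p'.1 x = p.1 ∧ nx p'.2 x = p.2)
    (fun P => ∃ p, P p ∧ p.1 ∈ M.accept) ?_ ?_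
  · intro w y
    funext p
    apply propext
    constructor
    · rintro ⟨z, h1, h2, h3⟩
      rcases List.eq_nil_or_concat z with rfl | ⟨z', x, rfl⟩
      · simp [A1_mz] at h1
      · rw [List.concat_eq_append] at h1 h2 h3
        rw [A1_mz_append] at h1
        rw [DFA.eval_append_singleton] at h2
        rw [List.foldl_append] at h3
        obtain ⟨h4, h5⟩ := List.append_inj' h1 rfl
        exact ⟨(M.eval z', z'.foldl nx t0), ⟨z', h4, rfl, rfl⟩, x, by simpa using h5, h2, h3⟩
    · rintro ⟨p', ⟨z, h1, h2, h3⟩, x, h4, h5, h6⟩
      refine ⟨z ++ [x], ?_, ?_, ?_⟩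
      · rw [A1_mz_append, h1, h3, h4]
      · rw [DFA.eval_append_singleton, h2, h5]
      · rw [List.foldl_append, h3]
        exact h6
  · intro w
    constructor
    · rintro ⟨z, hz, h1⟩
      exact ⟨(M.eval z, z.foldl nx t0), ⟨z, h1, rfl, rfl⟩, hz⟩
    · rintro ⟨p, ⟨z, h1, h2, h3⟩, h4⟩
      refine ⟨z, ?_, h1⟩
      rw [DFA.mem_accepts, h2]
      exact h4

theorem A1_map {X Y : Type} (f : X → Y) {L : Language X} (hL : L.IsRegular) :
    Language.IsRegular ({w | ∃ z ∈ L, z.map f = w} : Language Y) := by
  have h : ∀ (z : List X), A1_mz (fun (_ : Unit) x => f x) (fun t _ => t) () z = z.map f := by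
    intro z
    induction z with
    | nil => rfl
    | cons a z ih => simp [A1_mz, ih]
  have := A1_mealy (fun (_ : Unit) x => f x) (fun t _ => t) () hL
  simpa only [h] using this

theorem A1_comap {X Y : Type} (f : X → Y) {L : Language Y} (hL : L.IsRegular) :
    Language.IsRegular ({w | w.map f ∈ L} : Language X) := by
  obtain ⟨σ, hσ, M, rfl⟩ := hL
  refine ⟨σ, hσ, M.comap f, ?_⟩
  rw [DFA.accepts_comap]
  rfl

theorem A1_inter {X : Type} {L L' : Language X} (hL : L.IsRegular) (hL' : L'.IsRegular) :
    Language.IsRegular ({w | w ∈ L ∧ w ∈ L'} : Language X) := hL.inf hL'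

/-- Words that become members of `L` after appending copies of a letter. -/
theorem A1_strip {X : Type} (a : X) {L : Language X} (hL : L.IsRegular) :
    Language.IsRegular ({w | ∃ n, w ++ List.replicate n a ∈ L} : Language X) := by
  obtain ⟨σ, _, M, rfl⟩ := hL
  refine A1_summary _ M.eval M.step
    (fun s => ∃ n, M.evalFrom s (List.replicate n a) ∈ M.accept)
    (fun w x => M.eval_append_singleton w x) ?_
  intro w
  constructor
  · rintro ⟨n, hn⟩
    refine ⟨n, ?_⟩
    rw [DFA.mem_accepts, DFA.eval, DFA.evalFrom_of_append] at hn
    exact hn
  · rintro ⟨n, hn⟩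
    refine ⟨n, ?_⟩
    rw [DFA.mem_accepts, DFA.eval, DFA.evalFrom_of_append]
    exact hn

theorem A1_notlast {X : Type} (a : X) :
    Language.IsRegular ({w | w.getLast? ≠ some a} : Language X) := by
  refine A1_summary (S := Prop) _ (fun w => w.getLast? ≠ some a) (fun _ x => x ≠ a) (fun p => p)
    ?_ ?_
  · intro w x
    simp
  · intro w
    rfl

theorem A1_snoc {X : Type} (a : X) {L : Language X} (hL : L.IsRegular) :
    Language.IsRegular ({w | ∃ x ∈ L, w = x ++ [a]} : Language X) := by
  obtain ⟨σ, _, M, rfl⟩ := hL
  refine A1_summary (S := σ × Prop) _ (fun w => (M.eval w, ∃ x ∈ M.accepts, w = x ++ [a]))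
    (fun s y => (M.step s.1 y, s.1 ∈ M.accept ∧ y = a)) (fun s => s.2) ?_ ?_
  · intro w y
    refine Prod.ext (M.eval_append_singleton w y) (propext ?_)
    constructor
    · rintro ⟨x, hx, h⟩
      obtain ⟨h1, h2⟩ := List.append_inj' h rfl
      subst h1
      exact ⟨hx, by simpa using h2⟩
    · rintro ⟨h1, rfl⟩
      exact ⟨w, h1, rfl⟩
  · intro w
    rfl

/-- Words `u ++ none^c`. -/
theorem A1_padded (A : Type) (c : ℕ) :
    Language.IsRegular ({w | ∃ u : List A, w = u.map some ++ List.replicate c none} :
      Language (Option A)) := by
  induction c with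
  | zero =>
    refine A1_summary (S := Prop) _ (fun w => ∃ u : List A, w = u.map some)
      (fun p x => p ∧ ∃ a, x = some a) (fun p => p) ?_ ?_
    · intro w x
      apply propext
      constructor
      · rintro ⟨u, h⟩
        rcases List.eq_nil_or_concat u with rfl | ⟨u', a, rfl⟩
        · simp at h
        · rw [List.concat_eq_append, List.map_append] at h
          obtain ⟨h1, h2⟩ := List.append_inj' h rfl
          exact ⟨⟨u', h1⟩, a, by simpa using h2⟩
      · rintro ⟨⟨u, rfl⟩, a, rfl⟩
        exact ⟨u ++ [a], by simp⟩
    · intro w
      simp only [List.replicate_zero, List.append_nil]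
      rfl
  | succ c ih =>
    have := A1_snoc (none : Option A) ih
    refine (congrArg Language.IsRegular ?_).mp this
    ext w
    constructor
    · rintro ⟨x, ⟨u, rfl⟩, rfl⟩
      exact ⟨u, by rw [List.replicate_succ', List.append_assoc]⟩
    · rintro ⟨u, rfl⟩
      exact ⟨_, ⟨u, rfl⟩, by rw [List.replicate_succ', List.append_assoc]⟩

/-! ### The graph of a composition of machines -/

theorem A1_bm {A B : Type} (m : BM A B) : (graphL m.eval).IsRegular := by
  classical
  have := m.finQ
  have := m.finP
  refine A1_summary (S := m.P → Option m.Q) _
    (fun w p => if m.run m.q0 (w.map Prod.fst) p = w.map Prod.snd then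
      some (m.st m.q0 (w.map Prod.fst) p) else none)
    (fun S x p => match S (m.e x.1 p) with
      | some q => if m.out q x.1 p = x.2 then some (m.d q x.1 p) else none
      | none => none)
    (fun S => S m.p0 ≠ none) ?_ ?_
  · intro w x
    funext p
    have h1 : m.run m.q0 ((w ++ [x]).map Prod.fst) p = (w ++ [x]).map Prod.snd ↔
        m.run m.q0 (w.map Prod.fst) (m.e x.1 p) = w.map Prod.snd ∧
          m.out (m.st m.q0 (w.map Prod.fst) (m.e x.1 p)) x.1 p = x.2 := by
      rw [List.map_append, List.map_append, BM.run_append]
      constructor
      · intro h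
        obtain ⟨h2, h3⟩ := List.append_inj' h (by simp [BM.run])
        exact ⟨h2, by simpa [BM.run] using h3⟩
      · rintro ⟨h2, h3⟩
        simp only [List.map_cons, List.map_nil, List.foldr_cons, List.foldr_nil, h2, BM.run, h3]
    have h2 : m.st m.q0 ((w ++ [x]).map Prod.fst) p =
        m.d (m.st m.q0 (w.map Prod.fst) (m.e x.1 p)) x.1 p := by
      rw [List.map_append, BM.st_append]
      rfl
    by_cases h3 : m.run m.q0 (w.map Prod.fst) (m.e x.1 p) = w.map Prod.snd
    · by_cases h4 : m.out (m.st m.q0 (w.map Prod.fst) (m.e x.1 p)) x.1 p = x.2
      · simp only [h1, h3, h4, h2, and_self, if_true]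
      · simp only [h1, h3, h4, and_false, if_true, if_false]
    · simp only [h1, h3, false_and, if_false]
  · intro w
    change m.eval (w.map Prod.fst) = w.map Prod.snd ↔ _
    simp only [BM.eval, ne_eq, ite_eq_right_iff, reduceCtorEq, imp_false, not_not]

/-- Triples from pairs and middle letters. -/
def A1_tri {A B C : Type} : List (A × C) → List B → List (A × B × C)
  | x :: w, b :: v => (x.1, b, x.2) :: A1_tri w v
  | _, _ => []

theorem A1_tri_spec {A B C : Type} (w : List (A × C)) (v : List B) (h : v.length = w.length) :
    (A1_tri w v).map (fun t => (t.1, t.2.2)) = w ∧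
    (A1_tri w v).map (fun t => t.1) = w.map Prod.fst ∧
    (A1_tri w v).map (fun t => t.2.1) = v ∧
    (A1_tri w v).map (fun t => t.2.2) = w.map Prod.snd := by
  induction w generalizing v with
  | nil =>
    have : v = [] := by simpa using h
    subst this
    simp [A1_tri]
  | cons x w ih =>
    cases v with
    | nil => simp at h
    | cons b v =>
      obtain ⟨h1, h2, h3, h4⟩ := ih v (by simpa using h)
      simp [A1_tri, h1, h2, h3, h4]

/-- NFA guessing the right-to-left states; for a composition, guess the middle word. -/
theorem Reg.isRegular {A B : Type} (hA : Finite A) (hB : Finite B) {f : List A → List B}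
    (hf : Reg f) : (graphL f).IsRegular := by
  induction hf with
  | bm m => exact A1_bm m
  | @comp A B C hM f g hf hg ihf ihg =>
    have h1 := A1_comap (fun t : A × B × C => (t.1, t.2.1)) (ihf hA hM)
    have h2 := A1_comap (fun t : A × B × C => t.2) (ihg hM hB)
    have h3 := A1_map (fun t : A × B × C => (t.1, t.2.2)) (A1_inter h1 h2)
    refine (congrArg Language.IsRegular ?_).mp h3
    ext w
    constructor
    · rintro ⟨z, ⟨hz1, hz2⟩, rfl⟩
      change f ((z.map _).map _) = (z.map _).map _ at hz1
      change g ((z.map _).map _) = (z.map _).map _ at hz2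
      change g (f ((z.map _).map _)) = (z.map _).map _
      simp only [List.map_map] at hz1 hz2 ⊢
      have e1 : (Prod.fst ∘ fun t : A × B × C => (t.1, t.2.2)) =
          (Prod.fst ∘ fun t : A × B × C => (t.1, t.2.1)) := rfl
      rw [e1, hz1]
      exact hz2
    · intro hw
      have hw' : g (f (w.map Prod.fst)) = w.map Prod.snd := hw
      have hl : (f (w.map Prod.fst)).length = w.length := by
        rw [hf.length, List.length_map]
      obtain ⟨s1, s2, s3, s4⟩ := A1_tri_spec w (f (w.map Prod.fst)) hl
      refine ⟨A1_tri w (f (w.map Prod.fst)), ⟨?_, ?_⟩, s1⟩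
      · change f ((List.map _ _).map _) = (List.map _ _).map _
        simp only [List.map_map]
        exact (congrArg f s2).trans s3.symm
      · change g ((List.map _ _).map _) = (List.map _ _).map _
        simp only [List.map_map]
        exact (congrArg g s3).trans (hw'.trans s4.symm)

/-- The part of a word before its first blank. -/
def unpad {A : Type} : List (Option A) → List A
  | [] => []
  | none :: _ => []
  | some a :: w => a :: unpad w

/-! ### Automatic functions -/

theorem A1_unpad_le {A : Type} (y : List (Option A)) : (unpad y).length ≤ y.length := by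
  induction y with
  | nil => simp [unpad]
  | cons x y ih =>
    cases x with
    | none => simp [unpad]
    | some a => simpa [unpad] using ih

/-- cleaning: replace everything after the first blank by blanks -/
theorem A1_clean_true {A : Type} (z : List (Option A × Option A)) :
    A1_mz (fun (b : Bool) (x : Option A × Option A) => (x.1, if b then none else x.2))
      (fun b x => b || x.2.isNone) true z = z.map fun x => (x.1, none) := by
  induction z with
  | nil => rfl
  | cons x z ih => simp [A1_mz, ih]

theorem A1_clean {A : Type} (z : List (Option A × Option A)) :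
    A1_mz (fun (b : Bool) (x : Option A × Option A) => (x.1, if b then none else x.2))
      (fun b x => b || x.2.isNone) false z =
      (List.range z.length).map fun k => ((z.map Prod.fst)[k]?.join, (unpad (z.map Prod.snd))[k]?) := by
  induction z with
  | nil => rfl
  | cons x z ih =>
    rw [List.length_cons, List.range_succ_eq_map, List.map_cons, List.map_map]
    obtain ⟨x1, x2⟩ := x
    cases x2 with
    | none =>
      simp only [A1_mz, Option.isNone_none, Bool.or_true, A1_clean_true]
      refine congrArg₂ _ ?_ ?_
      · simp [unpad]
      · apply List.ext_getElem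
        · simp
        · intro n h1 h2
          simp only [List.length_map] at h1
          simp [unpad, h1]
    | some a =>
      simp only [A1_mz, Option.isNone_some, Bool.or_false, ih]
      refine congrArg₂ _ ?_ ?_
      · simp [unpad]
      · apply List.map_congr_left
        intro k _
        simp [unpad]

theorem A1_pad_get {A : Type} (u : List A) (c k : ℕ) (hk : k < u.length + c) :
    (u.map some ++ List.replicate c none)[k]?.join = u[k]? := by
  by_cases h : k < u.length
  · rw [List.getElem?_append_left (by simpa using h)]
    simp [h]
  · rw [List.getElem?_append_right (by simpa using h)]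
    simp only [List.length_map]
    rw [List.getElem?_replicate, if_pos (by omega), List.getElem?_eq_none (by omega)]
    rfl

theorem A1_conv_pad {A : Type} (u v : List A) (N : ℕ) (hu : u.length ≤ N) (hv : v.length ≤ N) :
    (List.range N).map (fun k => (u[k]?, v[k]?)) =
      conv u v ++ List.replicate (N - max u.length v.length) (none, none) := by
  have hM : max u.length v.length ≤ N := max_le hu hv
  apply List.ext_getElem
  · simp [conv]
    omega
  · intro n h1 h2
    simp only [List.length_map, List.length_range] at h1
    by_cases h : n < max u.length v.length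
    · rw [List.getElem_append_left (by simpa [conv] using h)]
      simp [conv]
    · rw [List.getElem_append_right (by simpa [conv] using h)]
      have h3 : u.length ≤ n ∧ v.length ≤ n := by omega
      simp [h3.1, h3.2]

theorem A1_conv_last {A : Type} (u v : List A) : (conv u v).getLast? ≠ some (none, none) := by
  intro h
  rcases Nat.eq_zero_or_pos (max u.length v.length) with h0 | h0
  · simp [conv, h0] at h
  · rw [List.getLast?_eq_getElem?] at h
    simp only [conv, List.length_map, List.length_range] at h
    rw [List.getElem?_map, List.getElem?_range (by omega)] at h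
    simp only [Option.map_some, Option.some.injEq, Prod.mk.injEq, List.getElem?_eq_none_iff] at h
    omega

theorem A1_append_replicate {X : Type} (z : X) (a b : List X) (ha : a.getLast? ≠ some z)
    (hb : b.getLast? ≠ some z) (n m : ℕ)
    (h : a ++ List.replicate n z = b ++ List.replicate m z) : a = b := by
  induction n generalizing m with
  | zero =>
    cases m with
    | zero => simpa using h
    | succ m =>
      exfalso
      apply ha
      simp only [List.replicate_zero, List.append_nil] at h
      rw [h, List.replicate_succ', ← List.append_assoc]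
      simp
  | succ n ih =>
    cases m with
    | zero =>
      exfalso
      apply hb
      simp only [List.replicate_zero, List.append_nil] at h
      rw [← h, List.replicate_succ', ← List.append_assoc]
      simp
    | succ m =>
      rw [List.replicate_succ', List.replicate_succ', ← List.append_assoc,
        ← List.append_assoc] at h
      exact ih m (List.append_inj' h rfl).1

/-- Append `c` blanks, apply `F`, and read the result up to its first blank. -/
theorem Reg.isAutomatic {A : Type} (hA : Finite A) {F : List (Option A) → List (Option A)}
    (hF : Reg F) (c : ℕ) :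
    IsAutomatic (fun u : List A => unpad (F (u.map some ++ List.replicate c none))) := by
  have hG : (graphL F).IsRegular := hF.isRegular inferInstance inferInstance
  have h1 := A1_inter hG
    (A1_comap (Prod.fst : Option A × Option A → Option A) (A1_padded A c))
  have h2 := A1_mealy
    (fun (b : Bool) (x : Option A × Option A) => (x.1, if b then none else x.2))
    (fun b x => b || x.2.isNone) false h1
  have h3 := A1_inter (A1_strip (none, none) h2) (A1_notlast ((none, none) : Option A × Option A))
  unfold IsAutomatic
  have key : ∀ (u : List A) (z : List (Option A × Option A)),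
      z.map Prod.fst = u.map some ++ List.replicate c none →
      F (z.map Prod.fst) = z.map Prod.snd →
      A1_mz (fun (b : Bool) (x : Option A × Option A) => (x.1, if b then none else x.2))
        (fun b x => b || x.2.isNone) false z =
      conv u (unpad (F (u.map some ++ List.replicate c none))) ++ List.replicate
        (u.length + c - max u.length (unpad (F (u.map some ++ List.replicate c none))).length)
        (none, none) := by
    intro u z hz1 hz2
    have hlen : z.length = u.length + c := by
      have := congrArg List.length hz1
      simpa using this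
    have hy : F (u.map some ++ List.replicate c none) = z.map Prod.snd := by rw [← hz1, hz2]
    rw [A1_clean, hy, ← A1_conv_pad, hlen]
    · apply List.map_congr_left
      intro k hk
      rw [hz1, A1_pad_get u c k (List.mem_range.mp hk)]
    · omega
    · refine (A1_unpad_le _).trans ?_
      rw [List.length_map, hlen]
  refine (congrArg Language.IsRegular ?_).mp h3
  ext w
  constructor
  · rintro ⟨⟨n, z, ⟨hz1, ⟨u, hz2⟩⟩, hz3⟩, hw⟩
    refine ⟨u, ?_⟩
    have hk := key u z hz2 hz1
    rw [hz3] at hk
    exact A1_append_replicate _ _ _ hw (A1_conv_last _ _) _ _ hk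
  · rintro ⟨u, rfl⟩
    refine ⟨⟨u.length + c -
      max u.length (unpad (F (u.map some ++ List.replicate c none))).length, ?_⟩,
      A1_conv_last _ _⟩
    have hl : (F (u.map some ++ List.replicate c none)).length =
        (u.map some ++ List.replicate c none).length := hF.length _
    have e1 : (List.zip (u.map some ++ List.replicate c none)
        (F (u.map some ++ List.replicate c none))).map Prod.fst =
        u.map some ++ List.replicate c none :=
      List.map_fst_zip (le_of_eq hl.symm)
    have e2 : (List.zip (u.map some ++ List.replicate c none)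
        (F (u.map some ++ List.replicate c none))).map Prod.snd =
        F (u.map some ++ List.replicate c none) :=
      List.map_snd_zip (le_of_eq hl)
    refine ⟨_, ⟨?_, ⟨u, e1⟩⟩, key u _ e1 (by rw [e1, e2])⟩
    change F (List.map _ _) = List.map _ _
    rw [e1, e2]

end TF
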