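import Mathlib
import Pool.Agent.LibTF.Main0

/-! TASK A2: closure properties of `Reg`. -/

namespace TF

/-- Words with marked blocks: a block starts with a `start` letter and continues with `cont`
letters; letters outside the blocks are `off` letters. -/
inductive SegL (A O : Type)
  | start (a : A)
  | cont (a : A)
  | off (o : O)

instance {A O : Type} [Finite A] [Finite O] : Finite (SegL A O) :=
  Finite.of_injective
    (fun x : SegL A O => match x with
      | .start a => (Sum.inl a : A ⊕ (A ⊕ O))
      | .cont a => Sum.inr (Sum.inl a)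
      | .off o => Sum.inr (Sum.inr o))
    (by intro x y h; cases x <;> cases y <;> simp_all)

def encSeg {A O : Type} : List (List A ⊕ O) → List (SegL A O)
  | [] => []
  | .inl [] :: s => encSeg s
  | .inl (a :: u) :: s => .start a :: (u.map .cont ++ encSeg s)
  | .inr o :: s => .off o :: encSeg s

/-- The blockwise version of a machine. -/
abbrev A2_segBM {A B : Type} (O : Type) (m : BM A B) : BM (SegL A O) (SegL B O) where
  Q := m.Q
  P := m.P
  finQ := m.finQ
  finP := m.finP
  q0 := m.q0
  p0 := m.p0
  d := fun q x p => match x with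
    | .start a => m.d m.q0 a p
    | .cont a => m.d q a p
    | .off _ => m.q0
  e := fun x p => match x with
    | .start _ => m.p0
    | .cont a => m.e a p
    | .off _ => m.p0
  out := fun q x p => match x with
    | .start a => .start (m.out m.q0 a p)
    | .cont a => .cont (m.out q a p)
    | .off o => .off o

theorem A2_foldr_encSeg {A B O : Type} (m : BM A B) (s : List (List A ⊕ O)) :
    (encSeg s).foldr (A2_segBM O m).e m.p0 = m.p0 := by
  induction s with
  | nil => rfl
  | cons x s ih =>
    rcases x with u | o
    · cases u with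
      | nil => simpa [encSeg] using ih
      | cons a u => rfl
    · rfl

theorem A2_foldr_cont {A B O : Type} (m : BM A B) (u : List A) (p : m.P) :
    (u.map (SegL.cont (O := O))).foldr (A2_segBM O m).e p = u.foldr m.e p := by
  induction u with
  | nil => rfl
  | cons a u ih =>
    simp only [List.map_cons, List.foldr_cons]
    rw [ih]

theorem A2_run_cont {A B O : Type} (m : BM A B) (q : m.Q) (u : List A) (p : m.P) :
    (A2_segBM O m).run q (u.map SegL.cont) p = (m.run q u p).map SegL.cont := by
  induction u generalizing q with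
  | nil => rfl
  | cons a u ih =>
    have h := A2_foldr_cont (O := O) m u p
    simp only [List.map_cons, BM.run]
    rw [h]
    have h2 := ih (m.d q a (u.foldr m.e p))
    congr 1

theorem A2_run_seg {A B O : Type} (m : BM A B) (s : List (List A ⊕ O)) (q : m.Q) :
    (A2_segBM O m).run q (encSeg s) m.p0 = encSeg (s.map (Sum.map m.eval id)) := by
  induction s generalizing q with
  | nil => rfl
  | cons x s ih =>
    rcases x with u | o
    · cases u with
      | nil => simpa [encSeg, BM.eval, BM.run] using ih q
      | cons a u =>
        have h1 : (u.map (SegL.cont (O := O)) ++ encSeg s).foldr (A2_segBM O m).e m.p0 =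
            u.foldr m.e m.p0 := by
          rw [List.foldr_append, A2_foldr_encSeg, A2_foldr_cont]
        have h2 : (A2_segBM O m).run m.q0 (encSeg (.inl (a :: u) :: s)) m.p0 =
            .start (m.out m.q0 a (u.foldr m.e m.p0)) ::
              (A2_segBM O m).run (m.d m.q0 a (u.foldr m.e m.p0))
                (u.map SegL.cont ++ encSeg s) m.p0 := by
          simp only [encSeg, BM.run]
          rw [h1]
        have h3 : (A2_segBM O m).run q (encSeg (.inl (a :: u) :: s)) m.p0 =
            (A2_segBM O m).run m.q0 (encSeg (.inl (a :: u) :: s)) m.p0 := rfl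
        rw [h3, h2, BM.run_append, A2_foldr_encSeg, A2_run_cont, ih]
        rfl
    · have h4 : (A2_segBM O m).run q (encSeg (.inr o :: s)) m.p0 =
          .off o :: (A2_segBM O m).run m.q0 (encSeg s) m.p0 := rfl
      rw [h4, ih]
      rfl

/-- A length-preserving regular function can be applied to all marked blocks at once. -/
theorem Reg.seg {A B : Type} (hA : Finite A) (hB : Finite B) {F : List A → List B} (hF : Reg F)
    (O : Type) (hO : Finite O) :
    ∃ F' : List (SegL A O) → List (SegL B O), Reg F' ∧
      ∀ s : List (List A ⊕ O), F' (encSeg s) = encSeg (s.map (Sum.map F id)) := by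
  induction hF with
  | bm m =>
    exact ⟨(A2_segBM O m).eval, Reg.bm _, fun s => A2_run_seg m s m.q0⟩
  | comp hB' _ _ ihf ihg =>
    obtain ⟨f', hf', ef⟩ := ihf hA hB'
    obtain ⟨g', hg', eg⟩ := ihg hB' hB
    have := hB'
    have := hO
    refine ⟨fun w => g' (f' w), Reg.comp inferInstance hf' hg', fun s => ?_⟩
    beta_reduce
    rw [ef, eg, List.map_map]
    congr 1
    apply List.map_congr_left
    intro x _
    rcases x with u | o <;> rfl

theorem A2_map_eval {A B : Type} (f : A → B) (w : List A) :
    (BM.mk (A := A) (B := B) Unit Unit inferInstance inferInstance () () (fun _ _ _ => ())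
      (fun _ _ => ()) (fun _ a _ => f a)).eval w = List.map f w := by
  induction w with
  | nil => rfl
  | cons a w ih =>
    simp only [BM.eval, BM.run, List.map_cons]
    congr 1

theorem Reg.map {A B : Type} (f : A → B) : Reg (List.map f) := by
  have h : (BM.mk (A := A) (B := B) Unit Unit inferInstance inferInstance () ()
      (fun _ _ _ => ()) (fun _ _ => ()) (fun _ a _ => f a)).eval = List.map f :=
    funext (A2_map_eval f)
  rw [← h]
  exact Reg.bm _

theorem Reg.id (A : Type) : Reg (fun w : List A => w) := by
  have h : (fun w : List A => w) = List.map (fun a : A => a) := by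
    funext w
    simp
  rw [h]
  exact Reg.map _

/-- The version of a machine which does nothing on the letters of `C`. -/
abbrev A2_sumBM {A B : Type} (C : Type) (m : BM A B) : BM (A ⊕ C) (B ⊕ C) where
  Q := m.Q
  P := m.P
  finQ := m.finQ
  finP := m.finP
  q0 := m.q0
  p0 := m.p0
  d := fun q x p => match x with
    | .inl a => m.d q a p
    | .inr _ => q
  e := fun x p => match x with
    | .inl a => m.e a p
    | .inr _ => p
  out := fun q x p => match x with
    | .inl a => .inl (m.out q a p)
    | .inr c => .inr c

theorem A2_foldr_inl {A B C : Type} (m : BM A B) (u : List A) (p : m.P) :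
    (u.map (Sum.inl (β := C))).foldr (A2_sumBM C m).e p = u.foldr m.e p := by
  induction u with
  | nil => rfl
  | cons a u ih =>
    simp only [List.map_cons, List.foldr_cons]
    rw [ih]

theorem A2_run_inl {A B C : Type} (m : BM A B) (q : m.Q) (u : List A) (p : m.P) :
    (A2_sumBM C m).run q (u.map Sum.inl) p = (m.run q u p).map Sum.inl := by
  induction u generalizing q with
  | nil => rfl
  | cons a u ih =>
    have h := A2_foldr_inl (C := C) m u p
    simp only [List.map_cons, BM.run]
    rw [h]
    have h2 := ih (m.d q a (u.foldr m.e p))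
    congr 1

theorem A2_run_inr {A B C : Type} (m : BM A B) (q : m.Q) (u : List C) (p : m.P) :
    (A2_sumBM C m).run q (u.map Sum.inr) p = u.map Sum.inr := by
  induction u generalizing q with
  | nil => rfl
  | cons a u ih =>
    simp only [List.map_cons, BM.run]
    have h2 := ih q
    congr 1

theorem A2_sum {A B : Type} {F : List A → List B} (hF : Reg F) (C : Type) (hC : Finite C) :
    ∃ F' : List (A ⊕ C) → List (B ⊕ C), Reg F' ∧
      (∀ w : List A, F' (w.map Sum.inl) = (F w).map Sum.inl) ∧
      (∀ w : List C, F' (w.map Sum.inr) = w.map Sum.inr) := by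
  induction hF with
  | bm m =>
    exact ⟨(A2_sumBM C m).eval, Reg.bm _, fun w => A2_run_inl m _ w _, fun w => A2_run_inr m _ w _⟩
  | comp hB' _ _ ihf ihg =>
    obtain ⟨f', hf', ef1, ef2⟩ := ihf
    obtain ⟨g', hg', eg1, eg2⟩ := ihg
    have := hB'
    have := hC
    refine ⟨fun w => g' (f' w), Reg.comp inferInstance hf' hg', fun w => ?_, fun w => ?_⟩
    · beta_reduce
      rw [ef1, eg1]
    · beta_reduce
      rw [ef2, eg2]

open Classical in
/-- The machine that marks all letters with the value of a regular test. -/
noncomputable abbrev A2_tagBM {A σ : Type} [Finite σ] (M : DFA A σ) : BM A (A ⊕ A) where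
  Q := Option Bool
  P := σ → σ
  finQ := inferInstance
  finP := inferInstance
  q0 := none
  p0 := fun s => s
  d := fun q a f => match q with
    | none => some (decide (f (M.step M.start a) ∈ M.accept))
    | some b => some b
  e := fun a f => fun s => f (M.step s a)
  out := fun q a f => match q with
    | none => if f (M.step M.start a) ∈ M.accept then .inl a else .inr a
    | some b => if b then .inl a else .inr a

theorem A2_foldr_tag {A σ : Type} [Finite σ] (M : DFA A σ) (w : List A) (s : σ) :
    (w.foldr (A2_tagBM M).e (A2_tagBM M).p0 : σ → σ) s = M.evalFrom s w := by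
  induction w generalizing s with
  | nil => rfl
  | cons a w ih =>
    rw [DFA.evalFrom_cons, ← ih]
    rfl

theorem A2_run_tag {A σ : Type} [Finite σ] (M : DFA A σ) (b : Bool) (w : List A)
    (p : (A2_tagBM M).P) :
    (A2_tagBM M).run (some b) w p = w.map (if b then Sum.inl else Sum.inr) := by
  induction w with
  | nil => rfl
  | cons a w ih =>
    have h1 : (A2_tagBM M).run (some b) (a :: w) p =
        (if b then Sum.inl a else Sum.inr a) :: (A2_tagBM M).run (some b) w p := rfl
    rw [h1, ih]
    cases b <;> rfl

open Classical in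
theorem A2_eval_tag {A σ : Type} [Finite σ] (M : DFA A σ) (w : List A) :
    ((A2_tagBM M).eval w = w.map Sum.inl ∧ w ∈ M.accepts) ∨
    ((A2_tagBM M).eval w = w.map Sum.inr ∧ w ∉ M.accepts) := by
  cases w with
  | nil =>
    by_cases h : ([] : List A) ∈ M.accepts
    · exact Or.inl ⟨rfl, h⟩
    · exact Or.inr ⟨rfl, h⟩
  | cons a w =>
    have h0 := A2_foldr_tag M w (M.step M.start a)
    have h1 : M.evalFrom (M.step M.start a) w = M.evalFrom M.start (a :: w) := by
      rw [DFA.evalFrom_cons]
    by_cases h : (a :: w) ∈ M.accepts
    · left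
      refine ⟨?_, h⟩
      have h2 : M.evalFrom (M.step M.start a) w ∈ M.accept := by
        rw [h1]; exact h
      rw [← h0] at h2
      have h3 : (A2_tagBM M).eval (a :: w) =
          (if (w.foldr (A2_tagBM M).e (A2_tagBM M).p0 : σ → σ) (M.step M.start a) ∈ M.accept
            then Sum.inl a else Sum.inr a) ::
          (A2_tagBM M).run (some (decide ((w.foldr (A2_tagBM M).e (A2_tagBM M).p0 : σ → σ)
            (M.step M.start a) ∈ M.accept))) w (A2_tagBM M).p0 := rfl
      rw [h3, A2_run_tag]
      simp [h2]
    · right
      refine ⟨?_, h⟩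
      have h2 : M.evalFrom (M.step M.start a) w ∉ M.accept := by
        rw [h1]; exact h
      rw [← h0] at h2
      have h3 : (A2_tagBM M).eval (a :: w) =
          (if (w.foldr (A2_tagBM M).e (A2_tagBM M).p0 : σ → σ) (M.step M.start a) ∈ M.accept
            then Sum.inl a else Sum.inr a) ::
          (A2_tagBM M).run (some (decide ((w.foldr (A2_tagBM M).e (A2_tagBM M).p0 : σ → σ)
            (M.step M.start a) ∈ M.accept))) w (A2_tagBM M).p0 := rfl
      rw [h3, A2_run_tag]
      simp [h2]

/-- Case distinction by a regular test. -/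
theorem Reg.ite {A : Type} (hA : Finite A) {F G : List A → List A} (hF : Reg F) (hG : Reg G)
    (T : List A → Bool) (hT : Language.IsRegular ({w | T w = true} : Language A)) :
    Reg (fun w => if T w then F w else G w) := by
  obtain ⟨σ, hσ, M, hM⟩ := hT
  have := hA
  obtain ⟨F', hF', f1, f2⟩ := A2_sum hF A hA
  obtain ⟨G', hG', g1, g2⟩ := A2_sum hG A hA
  have key : (fun w => if T w then F w else G w) =
      fun w => List.map (Sum.elim (fun a : A => a) (fun a : A => a))
        (G' (List.map Sum.swap (F' ((A2_tagBM M).eval w)))) := by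
    funext w
    rcases A2_eval_tag M w with ⟨h1, h2⟩ | ⟨h1, h2⟩
    · have hT' : T w = true := by
        rw [hM] at h2
        exact h2
      have h3 : List.map Sum.swap (List.map (Sum.inl (β := A)) (F w)) =
          List.map Sum.inr (F w) := by
        rw [List.map_map]; rfl
      rw [h1, f1, h3, g2, List.map_map]
      simp only [hT', if_true]
      exact (List.map_id _).symm
    · have hT' : T w = false := by
        rw [hM] at h2
        by_contra h4
        have h5 : T w = true := by simpa using h4
        exact h2 h5
      have h3 : List.map Sum.swap (List.map (Sum.inr (α := A)) w) =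
          List.map Sum.inl w := by
        rw [List.map_map]; rfl
      rw [h1, f2, h3, g1, List.map_map]
      simp only [hT']
      exact (List.map_id _).symm
  rw [key]
  refine Reg.comp (B := A ⊕ A) inferInstance (f := fun w =>
    G' (List.map Sum.swap (F' ((A2_tagBM M).eval w)))) ?_ (Reg.map _)
  refine Reg.comp (B := A ⊕ A) inferInstance (f := fun w =>
    List.map Sum.swap (F' ((A2_tagBM M).eval w))) ?_ hG'
  refine Reg.comp (B := A ⊕ A) inferInstance (f := fun w => F' ((A2_tagBM M).eval w)) ?_
    (Reg.map _)
  exact Reg.comp (B := A ⊕ A) inferInstance (Reg.bm _) hF'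

theorem A2_run_hd {A B : Type} (m : BM A B) (hd : A → Prop)
    (h1 : ∀ q q' a p, hd a → m.out q a p = m.out q' a p ∧ m.d q a p = m.d q' a p)
    (q q' : m.Q) (w : List A) (p : m.P) (hw : w = [] ∨ ∃ a u, w = a :: u ∧ hd a) :
    m.run q w p = m.run q' w p := by
  rcases hw with rfl | ⟨a, u, rfl, ha⟩
  · rfl
  · simp only [BM.run]
    rw [(h1 q q' a _ ha).1, (h1 q q' a _ ha).2]

theorem A2_foldr_hd {A B : Type} (m : BM A B) (hd : A → Prop)
    (h2 : ∀ a p, hd a → m.e a p = m.p0)
    (w : List A) (hw : w = [] ∨ ∃ a u, w = a :: u ∧ hd a) :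
    w.foldr m.e m.p0 = m.p0 := by
  rcases hw with rfl | ⟨a, u, rfl, ha⟩
  · rfl
  · exact h2 a _ ha

theorem A2_flatten_hd {A : Type} (hd : A → Prop) (ws : List (List A))
    (hw : ∀ w ∈ ws, ∃ a u, w = a :: u ∧ hd a) :
    ws.flatten = [] ∨ ∃ a u, ws.flatten = a :: u ∧ hd a := by
  cases ws with
  | nil => exact Or.inl rfl
  | cons w ws =>
    obtain ⟨a, u, rfl, ha⟩ := hw w (List.mem_cons_self ..)
    exact Or.inr ⟨a, u ++ ws.flatten, rfl, ha⟩

/-- A machine which forgets everything at the letters satisfying `hd` works blockwise. -/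
theorem BM.eval_blocks {A B : Type} (m : BM A B) (hd : A → Prop)
    (h1 : ∀ q q' a p, hd a → m.out q a p = m.out q' a p ∧ m.d q a p = m.d q' a p)
    (h2 : ∀ a p, hd a → m.e a p = m.p0) (ws : List (List A))
    (hw : ∀ w ∈ ws, ∃ a u, w = a :: u ∧ hd a) :
    m.eval ws.flatten = (ws.map m.eval).flatten := by
  induction ws with
  | nil => rfl
  | cons w ws ih =>
    have hws : ∀ w ∈ ws, ∃ a u, w = a :: u ∧ hd a := fun v hv => hw v (List.mem_cons_of_mem _ hv)
    have h3 := A2_flatten_hd hd ws hws
    have h4 : m.run (m.st m.q0 w m.p0) ws.flatten m.p0 = m.eval ws.flatten :=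
      A2_run_hd m hd h1 _ _ _ _ h3
    have h5 : m.eval (w ++ ws.flatten) = m.eval w ++ m.eval ws.flatten := by
      rw [← h4]
      simp only [BM.eval]
      rw [BM.run_append, A2_foldr_hd m hd h2 _ h3]
    rw [List.flatten_cons, h5, ih hws, List.map_cons, List.flatten_cons]

end TF
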