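import Mathlib
import Pool.Agent.LibTF.Main0
import Pool.Agent.LibTF.A2

/-! TASK C1: joining and splitting at the level of words, for a `TreeCode`. The tools are
`Reg.seg` (apply a regular function to a marked factor), `Reg.ite`, and small machines: pushing a
letter in front (the last letter is lost), removing the first letter (a letter `lf` is added at
the end), marking. The word `W t` ends with its first plain letter `lf`; in
`W (node l r) = lp :: (Sh (W l) ++ W r)` the factor `Sh (W l)` contains no plain letter and `W r`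
starts with a plain letter. -/

namespace TF

/-- The word of a tree. -/
def TreeCode.W {A : Type} (T : TreeCode A) (t : DT) : List A := WW T.lp T.br T.lf T.Sh t

section C1

open Classical

variable {A : Type}

theorem C1_flat (w : List A) : (w.map (fun o => [o])).flatten = w := by
  induction w with
  | nil => rfl
  | cons a w ih => simp [ih]

theorem C1_length_reg {A B : Type} {f : List A → List B} (hf : Reg f) (w : List A) :
    (f w).length = w.length := by
  induction hf with
  | bm m => exact m.length_run _ _ _
  | comp hB hf hg ih1 ih2 => rw [ih2, ih1]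

theorem C1_W_leaf (T : TreeCode A) (a : ℕ) :
    T.W (.leaf a) = List.replicate a T.br ++ [T.lf] := rfl

theorem C1_W_node (T : TreeCode A) (l r : DT) :
    T.W (.node l r) = T.lp :: (T.Sh (T.W l) ++ T.W r) := rfl

theorem C1_W_form (T : TreeCode A) (t : DT) :
    ∃ u, T.W t = u ++ [T.lf] ∧ T.lf ∉ u := by
  induction t with
  | leaf a =>
    refine ⟨List.replicate a T.br, rfl, ?_⟩
    intro h
    exact T.ne3 (List.eq_of_mem_replicate h).symm
  | node l r _ ihr =>
    obtain ⟨u, hu, hlf⟩ := ihr
    refine ⟨T.lp :: (T.Sh (T.W l) ++ u), ?_, ?_⟩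
    · rw [C1_W_node, hu]; simp
    · intro h
      rcases List.mem_cons.1 h with h | h
      · exact T.ne2 h.symm
      · rcases List.mem_append.1 h with h | h
        · exact (T.plain l _ h).2.2 rfl
        · exact hlf h

/-! #### Unmarking -/

def C1_unm : SegL A A → A
  | .start a => a
  | .cont a => a
  | .off a => a

theorem C1_unm_encSeg (s : List (List A ⊕ A)) :
    (encSeg s).map C1_unm = (s.map (Sum.elim id (fun o => [o]))).flatten := by
  induction s with
  | nil => rfl
  | cons x s ih =>
    rcases x with u | o
    · rcases u with _ | ⟨a, u⟩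
      · simp [encSeg, ih]
      · simp only [encSeg, List.map_cons, List.map_append, ih]
        simp [C1_unm, Function.comp_def]
    · simp [encSeg, ih, C1_unm]

theorem C1_encSeg_inr_append (w : List A) (s : List (List A ⊕ A)) :
    encSeg (w.map Sum.inr ++ s) = w.map SegL.off ++ encSeg s := by
  induction w with
  | nil => rfl
  | cons a w ih => simp [encSeg, ih]

theorem C1_encSeg_inr (w : List A) :
    encSeg (w.map Sum.inr : List (List A ⊕ A)) = w.map SegL.off := by
  have := C1_encSeg_inr_append w []
  simpa [encSeg] using this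

theorem C1_encSeg_inl_cons (a : A) (u : List A) (s : List (List A ⊕ A)) :
    encSeg (.inl (a :: u) :: s) = SegL.start a :: (u.map SegL.cont ++ encSeg s) := rfl

/-- States of the marking machines. -/
inductive C1_St
  | a
  | b
  | c

instance : Finite C1_St :=
  Finite.of_injective (fun x : C1_St => match x with | .a => (0 : Fin 3) | .b => 1 | .c => 2)
    (by intro x y h; cases x <;> cases y <;> simp_all)

/-- Mark the prefix ending with the first `lf` as a block. -/
noncomputable def C1_mk1 (lf : A) : BM A (SegL A A) where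
  Q := C1_St
  P := Unit
  finQ := inferInstance
  finP := inferInstance
  q0 := .a
  p0 := ()
  e _ _ := ()
  d q a _ := match q with
    | .a => if a = lf then .c else .b
    | .b => if a = lf then .c else .b
    | .c => .c
  out q a _ := match q with
    | .a => .start a
    | .b => .cont a
    | .c => .off a

theorem C1_mk1_c (lf : A) (w : List A) (p : Unit) :
    (C1_mk1 lf).run C1_St.c w p = w.map SegL.off := by
  induction w with
  | nil => rfl
  | cons a w ih =>
    change SegL.off a :: (C1_mk1 lf).run C1_St.c w p = _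
    rw [ih]; rfl

theorem C1_mk1_b (lf : A) (u w : List A) (hu : lf ∉ u) (p : Unit) :
    (C1_mk1 lf).run C1_St.b (u ++ lf :: w) p =
      (u ++ [lf]).map SegL.cont ++ w.map SegL.off := by
  induction u with
  | nil =>
    have : (C1_mk1 lf).run C1_St.b (lf :: w) p =
        SegL.cont lf :: (C1_mk1 lf).run (if lf = lf then C1_St.c else C1_St.b) w p := rfl
    simp only [List.nil_append]
    rw [this, if_pos rfl, C1_mk1_c]
    rfl
  | cons a u ih =>
    have ha : a ≠ lf := fun h => hu (by simp [h])
    have hu' : lf ∉ u := fun h => hu (List.mem_cons_of_mem _ h)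
    have : (C1_mk1 lf).run C1_St.b ((a :: u) ++ lf :: w) p =
        SegL.cont a :: (C1_mk1 lf).run (if a = lf then C1_St.c else C1_St.b) (u ++ lf :: w) p :=
      rfl
    rw [this, if_neg ha, ih hu']
    rfl

theorem C1_mk1_eval (lf : A) (u w : List A) (hu : lf ∉ u) :
    (C1_mk1 lf).eval (u ++ lf :: w) = encSeg (.inl (u ++ [lf]) :: w.map Sum.inr) := by
  rcases u with _ | ⟨a, u⟩
  · have : (C1_mk1 lf).eval (lf :: w) =
        SegL.start lf :: (C1_mk1 lf).run (if lf = lf then C1_St.c else C1_St.b) w () := rfl
    simp only [List.nil_append]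
    rw [this, if_pos rfl, C1_mk1_c, C1_encSeg_inl_cons, C1_encSeg_inr]
    rfl
  · have ha : a ≠ lf := fun h => hu (by simp [h])
    have hu' : lf ∉ u := fun h => hu (List.mem_cons_of_mem _ h)
    have : (C1_mk1 lf).eval ((a :: u) ++ lf :: w) =
        SegL.start a :: (C1_mk1 lf).run (if a = lf then C1_St.c else C1_St.b)
          (u ++ lf :: w) () := rfl
    rw [this, if_neg ha, C1_mk1_b lf u w hu']
    rw [List.cons_append, C1_encSeg_inl_cons, C1_encSeg_inr]

/-- Mark everything behind the first `lf` as a block. -/
noncomputable def C1_mk2 (lf : A) : BM A (SegL A A) where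
  Q := C1_St
  P := Unit
  finQ := inferInstance
  finP := inferInstance
  q0 := .a
  p0 := ()
  e _ _ := ()
  d q a _ := match q with
    | .a => if a = lf then .b else .a
    | .b => .c
    | .c => .c
  out q a _ := match q with
    | .a => .off a
    | .b => .start a
    | .c => .cont a

theorem C1_mk2_c (lf : A) (w : List A) (p : Unit) :
    (C1_mk2 lf).run C1_St.c w p = w.map SegL.cont := by
  induction w with
  | nil => rfl
  | cons a w ih =>
    change SegL.cont a :: (C1_mk2 lf).run C1_St.c w p = _
    rw [ih]; rfl

theorem C1_mk2_b (lf : A) (w : List A) (p : Unit) :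
    (C1_mk2 lf).run C1_St.b w p = encSeg [.inl w] := by
  rcases w with _ | ⟨a, w⟩
  · rfl
  · change SegL.start a :: (C1_mk2 lf).run C1_St.c w p = _
    rw [C1_mk2_c, C1_encSeg_inl_cons]
    simp [encSeg]

theorem C1_mk2_a (lf : A) (u w : List A) (hu : lf ∉ u) (p : Unit) :
    (C1_mk2 lf).run C1_St.a (u ++ lf :: w) p =
      encSeg ((u ++ [lf]).map Sum.inr ++ [.inl w]) := by
  rw [C1_encSeg_inr_append]
  induction u with
  | nil =>
    have : (C1_mk2 lf).run C1_St.a (lf :: w) p =
        SegL.off lf :: (C1_mk2 lf).run (if lf = lf then C1_St.b else C1_St.a) w p := rfl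
    simp only [List.nil_append]
    rw [this, if_pos rfl, C1_mk2_b]
    rfl
  | cons a u ih =>
    have ha : a ≠ lf := fun h => hu (by simp [h])
    have hu' : lf ∉ u := fun h => hu (List.mem_cons_of_mem _ h)
    have : (C1_mk2 lf).run C1_St.a ((a :: u) ++ lf :: w) p =
        SegL.off a :: (C1_mk2 lf).run (if a = lf then C1_St.b else C1_St.a) (u ++ lf :: w) p :=
      rfl
    rw [this, if_neg ha, ih hu']
    rfl

/-- Mark the maximal prefix of letters satisfying `np` as a block. -/
noncomputable def C1_mk3 (np : A → Prop) : BM A (SegL A A) where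
  Q := C1_St
  P := Unit
  finQ := inferInstance
  finP := inferInstance
  q0 := .a
  p0 := ()
  e _ _ := ()
  d q a _ := match q with
    | .a => if np a then .b else .c
    | .b => if np a then .b else .c
    | .c => .c
  out q a _ := match q with
    | .a => if np a then .start a else .off a
    | .b => if np a then .cont a else .off a
    | .c => .off a

theorem C1_mk3_c (np : A → Prop) (w : List A) (p : Unit) :
    (C1_mk3 np).run C1_St.c w p = w.map SegL.off := by
  induction w with
  | nil => rfl
  | cons a w ih =>
    change SegL.off a :: (C1_mk3 np).run C1_St.c w p = _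
    rw [ih]; rfl

theorem C1_mk3_b (np : A → Prop) (u w : List A) (a : A) (hu : ∀ x ∈ u, np x) (ha : ¬ np a)
    (p : Unit) :
    (C1_mk3 np).run C1_St.b (u ++ a :: w) p =
      u.map SegL.cont ++ (a :: w).map SegL.off := by
  induction u with
  | nil =>
    have : (C1_mk3 np).run C1_St.b (a :: w) p =
        (if np a then SegL.cont a else SegL.off a) ::
          (C1_mk3 np).run (if np a then C1_St.b else C1_St.c) w p := rfl
    simp only [List.nil_append]
    rw [this, if_neg ha, if_neg ha, C1_mk3_c]
    rfl
  | cons x u ih =>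
    have hx : np x := hu x (by simp)
    have hu' : ∀ y ∈ u, np y := fun y hy => hu y (List.mem_cons_of_mem _ hy)
    have : (C1_mk3 np).run C1_St.b ((x :: u) ++ a :: w) p =
        (if np x then SegL.cont x else SegL.off x) ::
          (C1_mk3 np).run (if np x then C1_St.b else C1_St.c) (u ++ a :: w) p := rfl
    rw [this, if_pos hx, if_pos hx, ih hu']
    rfl

theorem C1_mk3_eval (np : A → Prop) (u w : List A) (a : A) (hu : ∀ x ∈ u, np x) (ha : ¬ np a) :
    (C1_mk3 np).eval (u ++ a :: w) = encSeg (.inl u :: (a :: w).map Sum.inr) := by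
  rcases u with _ | ⟨x, u⟩
  · have : (C1_mk3 np).eval (a :: w) =
        (if np a then SegL.start a else SegL.off a) ::
          (C1_mk3 np).run (if np a then C1_St.b else C1_St.c) w () := rfl
    simp only [List.nil_append]
    rw [this, if_neg ha, if_neg ha, C1_mk3_c]
    simp only [encSeg, List.map_cons]
    rw [C1_encSeg_inr]
  · have hx : np x := hu x (by simp)
    have hu' : ∀ y ∈ u, np y := fun y hy => hu y (List.mem_cons_of_mem _ hy)
    have : (C1_mk3 np).eval ((x :: u) ++ a :: w) =
        (if np x then SegL.start x else SegL.off x) ::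
          (C1_mk3 np).run (if np x then C1_St.b else C1_St.c) (u ++ a :: w) () := rfl
    rw [this, if_pos hx, if_pos hx, C1_mk3_b np u w a hu' ha, C1_encSeg_inl_cons, C1_encSeg_inr]

/-! #### Inserting and deleting -/

/-- Push a letter in front; the last letter is lost. -/
def C1_push [Finite A] (c : A) : BM A A where
  Q := A
  P := Unit
  finQ := inferInstance
  finP := inferInstance
  q0 := c
  p0 := ()
  e _ _ := ()
  d _ a _ := a
  out q _ _ := q

theorem C1_push_run [Finite A] (c q : A) (w : List A) (b : A) (p : Unit) :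
    (C1_push c).run q (w ++ [b]) p = q :: w := by
  induction w generalizing q with
  | nil => rfl
  | cons a w ih =>
    change q :: (C1_push c).run a (w ++ [b]) p = _
    rw [ih]

theorem C1_push_eval [Finite A] (c : A) (w : List A) (b : A) :
    (C1_push c).eval (w ++ [b]) = c :: w := C1_push_run c c w b ()

/-- Delete the first letter; `c` is added at the end. -/
def C1_pop [Finite A] (c : A) : BM A A where
  Q := Unit
  P := A
  finQ := inferInstance
  finP := inferInstance
  q0 := ()
  p0 := c
  e a _ := a
  d _ _ _ := ()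
  out _ _ p := p

theorem C1_pop_run [Finite A] (c : A) (w : List A) (a : A) (p : A) :
    (C1_pop c).run () (a :: w) p = w ++ [p] := by
  induction w generalizing a with
  | nil => rfl
  | cons b w ih =>
    change b :: (C1_pop c).run () (b :: w) p = _
    rw [ih]
    rfl

theorem C1_pop_eval [Finite A] (c : A) (w : List A) (a : A) :
    (C1_pop c).eval (a :: w) = w ++ [c] := C1_pop_run c w a c

/-! #### The marked functions -/

theorem C1_behind (T : TreeCode A) {F : List A → List A} (hF : Reg F) :
    ∃ F' : List A → List A, Reg F' ∧ ∀ t w, F' (T.W t ++ w) = T.W t ++ F w := by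
  have hA := T.fin
  obtain ⟨G, hG, hG2⟩ := Reg.seg hA hA hF A hA
  refine ⟨fun w => ((G ((C1_mk2 T.lf).eval w)).map C1_unm), ?_, ?_⟩
  · have h1 : Reg (C1_mk2 T.lf).eval := Reg.bm _
    have h2 : Reg (fun w => G ((C1_mk2 T.lf).eval w)) := Reg.comp inferInstance h1 hG
    exact Reg.comp inferInstance h2 (Reg.map C1_unm)
  · intro t w
    obtain ⟨u, hu, hlf⟩ := C1_W_form T t
    have h1 : (C1_mk2 T.lf).eval (T.W t ++ w) =
        encSeg ((T.W t).map Sum.inr ++ [.inl w]) := by
      rw [hu]
      have := C1_mk2_a T.lf u w hlf ()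
      rw [List.append_assoc]
      exact this
    show ((G ((C1_mk2 T.lf).eval (T.W t ++ w))).map C1_unm) = _
    rw [h1, hG2, C1_unm_encSeg]
    simp only [List.map_append, List.map_map, List.map_cons, List.map_nil, List.flatten_append]
    congr 1
    · have : (Sum.elim id (fun o => [o]) ∘ Sum.map F id ∘ Sum.inr : A → List A) =
          fun o => [o] := by
        funext o; rfl
      rw [this, C1_flat]
    · simp

/-- Apply `Sh` to the first tree. -/
theorem C1_shFirst (T : TreeCode A) :
    ∃ F' : List A → List A, Reg F' ∧ ∀ t w, F' (T.W t ++ w) = T.Sh (T.W t) ++ w := by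
  have hA := T.fin
  obtain ⟨G, hG, hG2⟩ := Reg.seg hA hA T.regSh A hA
  refine ⟨fun w => ((G ((C1_mk1 T.lf).eval w)).map C1_unm), ?_, ?_⟩
  · have h1 : Reg (C1_mk1 T.lf).eval := Reg.bm _
    have h2 : Reg (fun w => G ((C1_mk1 T.lf).eval w)) := Reg.comp inferInstance h1 hG
    exact Reg.comp inferInstance h2 (Reg.map C1_unm)
  · intro t w
    obtain ⟨u, hu, hlf⟩ := C1_W_form T t
    have h1 : (C1_mk1 T.lf).eval (T.W t ++ w) =
        encSeg (.inl (T.W t) :: w.map Sum.inr) := by
      rw [hu]
      have := C1_mk1_eval T.lf u w hlf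
      simpa using this
    show ((G ((C1_mk1 T.lf).eval (T.W t ++ w))).map C1_unm) = _
    rw [h1, hG2, C1_unm_encSeg]
    simp only [List.map_map, List.map_cons, List.flatten_cons]
    congr 1
    have : (Sum.elim id (fun o => [o]) ∘ Sum.map T.Sh id ∘ Sum.inr : A → List A) =
        fun o => [o] := by
      funext o; rfl
    rw [this, C1_flat]

/-- The first letter of the word of a tree is plain. -/
theorem C1_W_head (T : TreeCode A) (t : DT) :
    ∃ a u, T.W t = a :: u ∧ (a = T.lp ∨ a = T.br ∨ a = T.lf) := by
  cases t with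
  | leaf a =>
    cases a with
    | zero => exact ⟨T.lf, [], rfl, Or.inr (Or.inr rfl)⟩
    | succ a => exact ⟨T.br, List.replicate a T.br ++ [T.lf], rfl, Or.inr (Or.inl rfl)⟩
  | node l r => exact ⟨T.lp, _, rfl, Or.inl rfl⟩

/-- Apply `Un` to the maximal prefix without plain letters. -/
theorem C1_unFirst (T : TreeCode A) :
    ∃ F' : List A → List A, Reg F' ∧
      ∀ l r w, F' (T.Sh (T.W l) ++ (T.W r ++ w)) = T.W l ++ (T.W r ++ w) := by
  have hA := T.fin
  obtain ⟨G, hG, hG2⟩ := Reg.seg hA hA T.regUn A hA
  let np : A → Prop := fun a => a ≠ T.lp ∧ a ≠ T.br ∧ a ≠ T.lf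
  refine ⟨fun w => ((G ((C1_mk3 np).eval w)).map C1_unm), ?_, ?_⟩
  · have h1 : Reg (C1_mk3 np).eval := Reg.bm _
    have h2 : Reg (fun w => G ((C1_mk3 np).eval w)) := Reg.comp inferInstance h1 hG
    exact Reg.comp inferInstance h2 (Reg.map C1_unm)
  · intro l r w
    obtain ⟨a, u, hu, ha⟩ := C1_W_head T r
    have hna : ¬ np a := by
      intro h
      rcases ha with ha | ha | ha
      · exact h.1 ha
      · exact h.2.1 ha
      · exact h.2.2 ha
    have h1 : (C1_mk3 np).eval (T.Sh (T.W l) ++ (T.W r ++ w)) =
        encSeg (.inl (T.Sh (T.W l)) :: (T.W r ++ w).map Sum.inr) := by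
      rw [hu]
      exact C1_mk3_eval np (T.Sh (T.W l)) (u ++ w) a (fun x hx => T.plain l x hx) hna
    show ((G ((C1_mk3 np).eval (T.Sh (T.W l) ++ (T.W r ++ w)))).map C1_unm) = _
    rw [h1, hG2, C1_unm_encSeg]
    simp only [List.map_map, List.map_cons, List.flatten_cons]
    congr 1
    · exact T.unSh l
    · have : (Sum.elim id (fun o => [o]) ∘ Sum.map T.Un id ∘ Sum.inr : A → List A) =
          fun o => [o] := by
        funext o; rfl
      rw [this, C1_flat]

/-! #### The tests -/

/-- `br⁺ lf lf A*` -/
noncomputable def C1_step (br lf : A) (q : Fin 5) (a : A) : Fin 5 :=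
  if q = 0 then (if a = br then 1 else 4)
  else if q = 1 then (if a = br then 1 else if a = lf then 2 else 4)
  else if q = 2 then (if a = lf then 3 else 4)
  else q

noncomputable def C1_dfa (br lf : A) : DFA A (Fin 5) where
  step := C1_step br lf
  start := 0
  accept := {3}

theorem C1_step3 (br lf : A) (w : List A) : w.foldl (C1_step br lf) 3 = 3 := by
  induction w with
  | nil => rfl
  | cons a w ih => simpa [C1_step] using ih

theorem C1_step4 (br lf : A) (w : List A) : w.foldl (C1_step br lf) 4 = 4 := by
  induction w with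
  | nil => rfl
  | cons a w ih => simpa [C1_step] using ih

theorem C1_step1 (br lf : A) (n : ℕ) (w : List A) :
    (List.replicate n br ++ w).foldl (C1_step br lf) 1 = w.foldl (C1_step br lf) 1 := by
  induction n with
  | zero => rfl
  | succ n ih =>
    rw [List.replicate_succ, List.cons_append, List.foldl_cons]
    have : C1_step br lf 1 br = 1 := by simp [C1_step]
    rw [this, ih]

noncomputable def C1_test (br lf : A) (w : List A) : Bool :=
  decide (w.foldl (C1_step br lf) 0 = 3)

theorem C1_test_reg (br lf : A) :
    Language.IsRegular ({w | C1_test br lf w = true} : Language A) := by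
  refine ⟨Fin 5, inferInstance, C1_dfa br lf, ?_⟩
  ext w
  show (C1_dfa br lf).evalFrom (C1_dfa br lf).start w ∈ ({3} : Set (Fin 5)) ↔
    C1_test br lf w = true
  simp only [C1_test, decide_eq_true_eq, Set.mem_singleton_iff]
  rfl

theorem C1_test_true (br lf : A) (h : lf ≠ br) (a : ℕ) (w : List A) :
    C1_test br lf (List.replicate (a + 1) br ++ lf :: lf :: w) = true := by
  have h1 : C1_step br lf 0 br = 1 := by simp [C1_step]
  have h2 : C1_step br lf 1 lf = 2 := by simp [C1_step, h]
  have h3 : C1_step br lf 2 lf = 3 := by simp [C1_step]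
  simp only [C1_test, decide_eq_true_eq]
  rw [List.replicate_succ, List.cons_append, List.foldl_cons, h1, C1_step1, List.foldl_cons, h2,
    List.foldl_cons, h3, C1_step3]

theorem C1_test_head (br lf : A) (a : A) (h : a ≠ br) (w : List A) :
    C1_test br lf (a :: w) = false := by
  have h1 : C1_step br lf 0 a = 4 := by simp [C1_step, h]
  simp only [C1_test, decide_eq_false_iff_not]
  rw [List.foldl_cons, h1, C1_step4]
  decide

theorem C1_test_third (br lf : A) (h : lf ≠ br) (n : ℕ) (a : A) (ha : a ≠ lf) (w : List A) :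
    C1_test br lf (List.replicate (n + 1) br ++ lf :: a :: w) = false := by
  have h1 : C1_step br lf 0 br = 1 := by simp [C1_step]
  have h2 : C1_step br lf 1 lf = 2 := by simp [C1_step, h]
  have h3 : C1_step br lf 2 a = 4 := by simp [C1_step, ha]
  simp only [C1_test, decide_eq_false_iff_not]
  rw [List.replicate_succ, List.cons_append, List.foldl_cons, h1, C1_step1, List.foldl_cons, h2,
    List.foldl_cons, h3, C1_step4]
  decide

/-- words starting with `lp` -/
noncomputable def C1_step' (lp : A) (q : Fin 3) (a : A) : Fin 3 :=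
  if q = 0 then (if a = lp then 1 else 2) else q

noncomputable def C1_dfa' (lp : A) : DFA A (Fin 3) where
  step := C1_step' lp
  start := 0
  accept := {1}

noncomputable def C1_test' (lp : A) (w : List A) : Bool :=
  decide (w.foldl (C1_step' lp) 0 = 1)

theorem C1_test'_reg (lp : A) :
    Language.IsRegular ({w | C1_test' lp w = true} : Language A) := by
  refine ⟨Fin 3, inferInstance, C1_dfa' lp, ?_⟩
  ext w
  show (C1_dfa' lp).evalFrom (C1_dfa' lp).start w ∈ ({1} : Set (Fin 3)) ↔
    C1_test' lp w = true
  simp only [C1_test', decide_eq_true_eq, Set.mem_singleton_iff]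
  rfl

theorem C1_step'_const (lp : A) (q : Fin 3) (hq : q ≠ 0) (w : List A) :
    w.foldl (C1_step' lp) q = q := by
  induction w with
  | nil => rfl
  | cons a w ih =>
    rw [List.foldl_cons]
    have : C1_step' lp q a = q := by simp [C1_step', hq]
    rw [this, ih]

theorem C1_test'_true (lp : A) (w : List A) : C1_test' lp (lp :: w) = true := by
  have h1 : C1_step' lp 0 lp = 1 := by simp [C1_step']
  simp only [C1_test', decide_eq_true_eq]
  rw [List.foldl_cons, h1, C1_step'_const lp 1 (by decide)]

theorem C1_test'_false (lp a : A) (h : a ≠ lp) (w : List A) :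
    C1_test' lp (a :: w) = false := by
  have h1 : C1_step' lp 0 a = 2 := by simp [C1_step', h]
  simp only [C1_test', decide_eq_false_iff_not]
  rw [List.foldl_cons, h1, C1_step'_const lp 2 (by decide)]
  decide

theorem C1_join_leaf (a : ℕ) : DT.join (.leaf (a + 1)) (.leaf 0) = .leaf a := rfl

theorem C1_join_node (l r : DT) (h : ¬ ((∃ a, l = .leaf (a + 1)) ∧ r = .leaf 0)) :
    l.join r = .node l r := by
  cases l with
  | node l1 l2 => rfl
  | leaf a =>
    cases a with
    | zero => rfl
    | succ a =>
      cases r with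
      | node r1 r2 => rfl
      | leaf b =>
        cases b with
        | zero => exact absurd ⟨⟨a, rfl⟩, rfl⟩ h
        | succ b => rfl

end C1

/-- `W t` = non-`lf` letters followed by one `lf`. -/
theorem TreeCode.W_form {A : Type} (T : TreeCode A) (t : DT) :
    ∃ u, T.W t = u ++ [T.lf] ∧ T.lf ∉ u := C1_W_form T t

open Classical in
/-- Joining the first two trees of a word (`split` below is its inverse). -/
theorem TreeCode.exists_join {A : Type} (T : TreeCode A) : ∃ F : List A → List A, Reg F ∧
    ∀ l r rest, ∃ k, F (T.W l ++ T.W r ++ rest ++ List.replicate 2 T.lf) =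
      T.W (l.join r) ++ rest ++ List.replicate k T.lf := by
  have hA := T.fin
  -- deletion of the first letter, then of the letter behind the first `lf`
  obtain ⟨D, hD, hD2⟩ := C1_behind T (Reg.bm (C1_pop T.lf))
  obtain ⟨S, hS, hS2⟩ := C1_shFirst T
  have hF1 : Reg (fun w => D ((C1_pop T.lf).eval w)) := Reg.comp hA (Reg.bm (C1_pop T.lf)) hD
  have hF2 : Reg (fun w => (C1_push T.lp).eval (S w)) := Reg.comp hA hS (Reg.bm (C1_push T.lp))
  refine ⟨_, Reg.ite hA hF1 hF2 (C1_test T.br T.lf) (C1_test_reg _ _), ?_⟩
  intro l r rest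
  by_cases h : (∃ a, l = .leaf (a + 1)) ∧ r = .leaf 0
  · obtain ⟨⟨a, rfl⟩, rfl⟩ := h
    refine ⟨4, ?_⟩
    have e1 : T.W (.leaf (a + 1)) ++ T.W (.leaf 0) ++ rest ++ List.replicate 2 T.lf =
        List.replicate (a + 1) T.br ++ T.lf :: T.lf :: (rest ++ List.replicate 2 T.lf) := by
      simp [C1_W_leaf]
    rw [e1, C1_test_true T.br T.lf T.ne3.symm, if_pos rfl]
    rw [List.replicate_succ, List.cons_append, C1_pop_eval]
    have e2 : List.replicate a T.br ++ T.lf :: T.lf :: (rest ++ List.replicate 2 T.lf) ++ [T.lf] =
        T.W (.leaf a) ++ (T.lf :: (rest ++ List.replicate 2 T.lf ++ [T.lf])) := by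
      simp [C1_W_leaf]
    rw [e2, hD2, C1_pop_eval, C1_join_leaf]
    simp [List.replicate_succ]
  · refine ⟨1, ?_⟩
    have ht : C1_test T.br T.lf (T.W l ++ T.W r ++ rest ++ List.replicate 2 T.lf) = false := by
      cases l with
      | node l1 l2 =>
        rw [C1_W_node]
        exact C1_test_head _ _ _ T.ne1 _
      | leaf a =>
        cases a with
        | zero => exact C1_test_head _ _ _ T.ne3.symm _
        | succ a =>
          obtain ⟨b, u, hu, hb⟩ := C1_W_head T r
          have hb' : b ≠ T.lf := by
            cases r with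
            | node r1 r2 =>
              rw [C1_W_node] at hu
              have := (List.cons.inj hu).1
              rw [← this]; exact T.ne2
            | leaf c =>
              cases c with
              | zero => exact absurd ⟨⟨a, rfl⟩, rfl⟩ h
              | succ c =>
                have : T.br :: (List.replicate c T.br ++ [T.lf]) = b :: u := hu
                rw [← (List.cons.inj this).1]; exact T.ne3
          have e1 : T.W (.leaf (a + 1)) ++ T.W r ++ rest ++ List.replicate 2 T.lf =
              List.replicate (a + 1) T.br ++ T.lf :: b :: (u ++ rest ++ List.replicate 2 T.lf) := by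
            rw [hu, C1_W_leaf]; simp
          rw [e1]
          exact C1_test_third _ _ T.ne3.symm _ _ hb' _
    rw [ht, C1_join_node l r h]
    simp only [Bool.false_eq_true, if_false]
    have e1 : T.W l ++ T.W r ++ rest ++ List.replicate 2 T.lf =
        T.W l ++ (T.W r ++ rest ++ List.replicate 2 T.lf) := by simp
    rw [e1, hS2]
    have e2 : T.Sh (T.W l) ++ (T.W r ++ rest ++ List.replicate 2 T.lf) =
        (T.Sh (T.W l) ++ (T.W r ++ rest ++ [T.lf])) ++ [T.lf] := by
      simp [List.replicate_succ]
    rw [e2, C1_push_eval, C1_W_node]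
    simp

open Classical in
theorem TreeCode.exists_split {A : Type} (T : TreeCode A) : ∃ F : List A → List A, Reg F ∧
    ∀ t rest, ∃ k, F (T.W t ++ rest ++ List.replicate 2 T.lf) =
      T.W t.split.1 ++ T.W t.split.2 ++ rest ++ List.replicate k T.lf := by
  have hA := T.fin
  obtain ⟨I, hI, hI2⟩ := C1_behind T (Reg.bm (C1_push T.lf))
  obtain ⟨U, hU, hU2⟩ := C1_unFirst T
  have hF1 : Reg (fun w => U ((C1_pop T.lf).eval w)) := Reg.comp hA (Reg.bm (C1_pop T.lf)) hU
  have hF2 : Reg (fun w => I ((C1_push T.br).eval w)) := Reg.comp hA (Reg.bm (C1_push T.br)) hI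
  refine ⟨_, Reg.ite hA hF1 hF2 (C1_test' T.lp) (C1_test'_reg _), ?_⟩
  intro t rest
  cases t with
  | node l r =>
    refine ⟨3, ?_⟩
    rw [C1_W_node]
    have e1 : (T.lp :: (T.Sh (T.W l) ++ T.W r)) ++ rest ++ List.replicate 2 T.lf =
        T.lp :: (T.Sh (T.W l) ++ (T.W r ++ rest ++ List.replicate 2 T.lf)) := by simp
    rw [e1, C1_test'_true, if_pos rfl, C1_pop_eval]
    have e2 : T.Sh (T.W l) ++ (T.W r ++ rest ++ List.replicate 2 T.lf) ++ [T.lf] =
        T.Sh (T.W l) ++ (T.W r ++ (rest ++ List.replicate 3 T.lf)) := by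
      simp [List.replicate_succ]
    rw [e2, hU2]
    simp [DT.split]
  | leaf a =>
    refine ⟨0, ?_⟩
    have ht : C1_test' T.lp (T.W (.leaf a) ++ rest ++ List.replicate 2 T.lf) = false := by
      cases a with
      | zero => exact C1_test'_false _ _ T.ne2.symm _
      | succ a => exact C1_test'_false _ _ T.ne1.symm _
    rw [ht]
    simp only [Bool.false_eq_true, if_false]
    have e1 : T.W (.leaf a) ++ rest ++ List.replicate 2 T.lf =
        (T.W (.leaf a) ++ rest ++ [T.lf]) ++ [T.lf] := by simp [List.replicate_succ]
    rw [e1, C1_push_eval]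
    have e2 : T.br :: (T.W (.leaf a) ++ rest ++ [T.lf]) =
        T.W (.leaf (a + 1)) ++ (rest ++ [T.lf]) := by
      simp [C1_W_leaf, List.replicate_succ]
    rw [e2, hI2, C1_push_eval]
    simp [DT.split, C1_W_leaf]

/-- Apply a function behind the first tree. -/
theorem TreeCode.exists_behind {A : Type} (T : TreeCode A) {F : List A → List A} (hF : Reg F) :
    ∃ F' : List A → List A, Reg F' ∧ ∀ t w, F' (T.W t ++ w) = T.W t ++ F w :=
  C1_behind T hF

end TF
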