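import Mathlib
import Pool.Agent.LibTF.Main0

/-! TASK B: Thompson's group acts freely (from the right) on the orbit of the trivial sequence of
decorated trees.

(1) `joinAt n` and `splitAt n` are mutually inverse on the set of good states.
(2) `joinAt k ∘ joinAt (n+1) = joinAt n ∘ joinAt k` for `k < n`; so `x_i ↦ joinAt i` gives a
homomorphism `ρ : F →* Equiv.Perm X`. `st g := ρ (g⁻¹) (trivial state)`.
(3) In `F` put `x_n = x_0^{-(n-1)} x_1 x_0^{n-1}` for `n ≥ 1`; then `x_n x_k = x_k x_{n+1}` for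
`k < n`. The evaluation `ev s = A(s) C(s)⁻¹` satisfies `ev (joinAt n s) = ev s * x_n⁻¹`.
(4) Hence `ev (st g) = g` and `st g` trivial implies `g = 1`. -/

namespace TF

/-! ### Permutations of the good states -/

theorem Grp_split_join (l r : DT) : (l.join r).split = (l, r) := by
  rcases l with (_ | a) | ⟨l1, l2⟩ <;> rcases r with (_ | b) | ⟨r1, r2⟩ <;> rfl

theorem Grp_join_split (t : DT) (h : t.red) : t.split.1.join t.split.2 = t := by
  rcases t with a | ⟨l, r⟩
  · rfl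
  · rcases l with (_ | a) | ⟨l1, l2⟩ <;> rcases r with (_ | b) | ⟨r1, r2⟩ <;> try rfl
    exact absurd ⟨⟨a, rfl⟩, rfl⟩ h.2.2

theorem Grp_red_join (l r : DT) (hl : l.red) (hr : r.red) : (l.join r).red := by
  rcases l with (_ | a) | ⟨l1, l2⟩ <;> rcases r with (_ | b) | ⟨r1, r2⟩ <;>
    simp_all [DT.join, DT.red]

theorem Grp_red_split (t : DT) (h : t.red) : t.split.1.red ∧ t.split.2.red := by
  rcases t with a | ⟨l, r⟩
  · exact ⟨trivial, trivial⟩
  · exact ⟨h.1, h.2.1⟩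

theorem Grp_good_join (n : ℕ) (s : ℕ → DT) (h : GoodSt s) : GoodSt (joinAt n s) := by
  obtain ⟨m, hm⟩ := h.fin
  refine ⟨?_, m + n + 1, ?_⟩
  · intro i
    unfold joinAt
    split_ifs
    · exact h.red i
    · exact Grp_red_join _ _ (h.red _) (h.red _)
    · exact h.red _
  · intro i hi
    unfold joinAt
    rw [if_neg (by omega), if_neg (by omega)]
    exact hm _ (by omega)

theorem Grp_good_split (n : ℕ) (s : ℕ → DT) (h : GoodSt s) : GoodSt (splitAt n s) := by
  obtain ⟨m, hm⟩ := h.fin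
  refine ⟨?_, m + n + 2, ?_⟩
  · intro i
    unfold splitAt
    split_ifs
    · exact h.red i
    · exact (Grp_red_split _ (h.red _)).1
    · exact (Grp_red_split _ (h.red _)).2
    · exact h.red _
  · intro i hi
    unfold splitAt
    rw [if_neg (by omega), if_neg (by omega), if_neg (by omega)]
    exact hm _ (by omega)

theorem Grp_splitAt_joinAt (n : ℕ) (s : ℕ → DT) : splitAt n (joinAt n s) = s := by
  funext i
  unfold splitAt
  split_ifs with h1 h2 h3
  · simp [joinAt, h1]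
  · subst h2
    simp [joinAt, Grp_split_join]
  · subst h3
    simp [joinAt, Grp_split_join]
  · unfold joinAt
    rw [if_neg (by omega), if_neg (by omega)]
    congr 1
    omega

theorem Grp_joinAt_splitAt (n : ℕ) (s : ℕ → DT) (h : GoodSt s) : joinAt n (splitAt n s) = s := by
  funext i
  unfold joinAt
  split_ifs with h1 h2
  · simp [splitAt, h1]
  · subst h2
    have e1 : splitAt i s i = (s i).split.1 := by simp [splitAt]
    have e2 : splitAt i s (i + 1) = (s i).split.2 := by simp [splitAt]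
    rw [e1, e2]
    exact Grp_join_split _ (h.red i)
  · unfold splitAt
    rw [if_neg (by omega), if_neg (by omega), if_neg (by omega)]
    rfl

theorem Grp_jlt {n i : ℕ} (s : ℕ → DT) (h : i < n) : joinAt n s i = s i := if_pos h

theorem Grp_jeq (n : ℕ) (s : ℕ → DT) : joinAt n s n = (s n).join (s (n + 1)) := by
  simp [joinAt]

theorem Grp_jgt {n i : ℕ} (s : ℕ → DT) (h : n < i) : joinAt n s i = s (i + 1) := by
  unfold joinAt
  rw [if_neg (by omega), if_neg (by omega)]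

theorem Grp_comm (k n : ℕ) (h : k < n) (s : ℕ → DT) :
    joinAt k (joinAt (n + 1) s) = joinAt n (joinAt k s) := by
  funext i
  rcases lt_trichotomy i k with hi | hi | hi
  · rw [Grp_jlt _ hi, Grp_jlt _ (by omega), Grp_jlt _ (by omega), Grp_jlt _ hi]
  · subst hi
    rw [Grp_jeq, Grp_jlt _ (by omega), Grp_jlt _ (by omega), Grp_jlt _ (by omega), Grp_jeq]
  · rcases lt_trichotomy i n with hj | hj | hj
    · rw [Grp_jgt _ hi, Grp_jlt _ (by omega), Grp_jlt _ (by omega), Grp_jgt _ hi]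
    · subst hj
      rw [Grp_jgt _ hi, Grp_jeq, Grp_jeq, Grp_jgt _ hi, Grp_jgt _ (by omega)]
    · rw [Grp_jgt _ hi, Grp_jgt _ (by omega), Grp_jgt _ (by omega), Grp_jgt _ (by omega)]

abbrev GrpX : Type := {s : ℕ → DT // GoodSt s}

def GrpJ (n : ℕ) : Equiv.Perm GrpX where
  toFun s := ⟨joinAt n s.1, Grp_good_join n s.1 s.2⟩
  invFun s := ⟨splitAt n s.1, Grp_good_split n s.1 s.2⟩
  left_inv s := Subtype.ext (Grp_splitAt_joinAt n s.1)
  right_inv s := Subtype.ext (Grp_joinAt_splitAt n s.1 s.2)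

theorem GrpJ_comm (k n : ℕ) (h : k < n) : GrpJ n * GrpJ k = GrpJ k * GrpJ (n + 1) := by
  ext s : 1
  exact Subtype.ext (Grp_comm k n h s.1).symm

/-- In any group with `x_n x_k = x_k x_{n+1}` for `k < n` the two relators vanish. -/
theorem Grp_rels {G : Type} [Group G] (X : ℕ → G)
    (hX : ∀ k n, k < n → X n * X k = X k * X (n + 1)) :
    ∀ r ∈ thompsonRels, FreeGroup.lift (fun i : Fin 2 => X i) r = 1 := by
  have h01 : (X 0)⁻¹ * X 1 * X 0 = X 2 := by rw [mul_assoc, hX 0 1 (by omega)]; group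
  have h02 : (X 0)⁻¹ * X 2 * X 0 = X 3 := by rw [mul_assoc, hX 0 2 (by omega)]; group
  have h03 : X 0 * X 4 * (X 0)⁻¹ = X 3 := by rw [← hX 0 3 (by omega)]; group
  have h12 : (X 1)⁻¹ * X 2 * X 1 = X 3 := by rw [mul_assoc, hX 1 2 (by omega)]; group
  have h13 : (X 1)⁻¹ * X 3 * X 1 = X 4 := by rw [mul_assoc, hX 1 3 (by omega)]; group
  have h02' : X 0 * X 3 * (X 0)⁻¹ = X 2 := by rw [← h02]; group
  intro r hr
  rcases hr with hr | hr
  · rw [hr]
    simp only [cmt, fx0, fx1, map_mul, map_inv, FreeGroup.lift_apply_of, Fin.val_zero, Fin.val_one]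
    rw [h01]
    have e : X 0 * (X 1)⁻¹ * X 2 * (X 0 * (X 1)⁻¹)⁻¹ = X 0 * ((X 1)⁻¹ * X 2 * X 1) * (X 0)⁻¹ := by
      group
    rw [e, h12, h02']
    group
  · rw [Set.mem_singleton_iff] at hr
    rw [hr]
    simp only [cmt, fx0, fx1, map_mul, map_inv, map_pow, FreeGroup.lift_apply_of, Fin.val_zero,
      Fin.val_one]
    have e0 : (X 0)⁻¹ ^ 2 * X 1 * X 0 ^ 2 = X 3 := by
      rw [← h02, ← h01, pow_two, pow_two]; group
    rw [e0]
    have e : X 0 * (X 1)⁻¹ * X 3 * (X 0 * (X 1)⁻¹)⁻¹ = X 0 * ((X 1)⁻¹ * X 3 * X 1) * (X 0)⁻¹ := by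
      group
    rw [e, h13, h03]
    group

/-! ### The elements `x_n` of Thompson's group -/

def Grpx : ℕ → ThompsonF
  | 0 => gx0
  | n + 1 => gx0⁻¹ ^ n * gx1 * gx0 ^ n

theorem Grpx_succ (n : ℕ) : Grpx (n + 1) * gx0 = gx0 * Grpx (n + 2) := by
  simp only [Grpx, pow_succ']
  group

theorem Grp_rel1 : cmt (fx0 * fx1⁻¹) (fx0⁻¹ * fx1 * fx0) ∈ thompsonRels := Or.inl rfl

theorem Grp_rel2 : cmt (fx0 * fx1⁻¹) (fx0⁻¹ ^ 2 * fx1 * fx0 ^ 2) ∈ thompsonRels := Or.inr rfl

theorem Grp_r1 : (gx0 * gx1⁻¹) * (gx0⁻¹ * gx1 * gx0) * (gx0 * gx1⁻¹)⁻¹ *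
    (gx0⁻¹ * gx1 * gx0)⁻¹ = 1 :=
  PresentedGroup.one_of_mem Grp_rel1

theorem Grp_r2 : (gx0 * gx1⁻¹) * (gx0⁻¹ ^ 2 * gx1 * gx0 ^ 2) * (gx0 * gx1⁻¹)⁻¹ *
    (gx0⁻¹ ^ 2 * gx1 * gx0 ^ 2)⁻¹ = 1 :=
  PresentedGroup.one_of_mem Grp_rel2

/-- `x_{d+2} x_1 = x_1 x_{d+3}` for `d = 0`. -/
theorem Grp_b0 : Grpx 2 * Grpx 1 = Grpx 1 * Grpx 3 := by
  have h := Grp_r1
  rw [mul_inv_eq_one, mul_inv_eq_iff_eq_mul] at h
  simp only [Grpx]
  have h2 : gx1⁻¹ * (gx0⁻¹ * gx1 * gx0) * gx1 = gx0⁻¹ * (gx0⁻¹ * gx1 * gx0) * gx0 := by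
    have h3 : gx1⁻¹ * (gx0⁻¹ * gx1 * gx0) * gx1 =
        gx0⁻¹ * (gx0 * gx1⁻¹ * (gx0⁻¹ * gx1 * gx0)) * gx1 := by group
    rw [h3, h]
    group
  have h4 : gx0⁻¹ ^ 1 * gx1 * gx0 ^ 1 * (gx0⁻¹ ^ 0 * gx1 * gx0 ^ 0) =
      gx1 * (gx1⁻¹ * (gx0⁻¹ * gx1 * gx0) * gx1) := by group
  rw [h4, h2, pow_two, pow_two]
  group

theorem Grp_b1 : Grpx 3 * Grpx 1 = Grpx 1 * Grpx 4 := by
  have h := Grp_r2
  rw [mul_inv_eq_one, mul_inv_eq_iff_eq_mul] at h
  simp only [Grpx]
  have h2 : gx1⁻¹ * (gx0⁻¹ ^ 2 * gx1 * gx0 ^ 2) * gx1 =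
      gx0⁻¹ * (gx0⁻¹ ^ 2 * gx1 * gx0 ^ 2) * gx0 := by
    have h3 : gx1⁻¹ * (gx0⁻¹ ^ 2 * gx1 * gx0 ^ 2) * gx1 =
        gx0⁻¹ * (gx0 * gx1⁻¹ * (gx0⁻¹ ^ 2 * gx1 * gx0 ^ 2)) * gx1 := by group
    rw [h3, h]
    group
  have h4 : gx0⁻¹ ^ 2 * gx1 * gx0 ^ 2 * (gx0⁻¹ ^ 0 * gx1 * gx0 ^ 0) =
      gx1 * (gx1⁻¹ * (gx0⁻¹ ^ 2 * gx1 * gx0 ^ 2) * gx1) := by group
  rw [h4, h2]
  group

theorem Grp_conj (n k : ℕ) (h : Grpx (n + 1) * Grpx (k + 1) = Grpx (k + 1) * Grpx (n + 2)) :
    Grpx (n + 2) * Grpx (k + 2) = Grpx (k + 2) * Grpx (n + 3) := by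
  have a := Grpx_succ n
  have b := Grpx_succ k
  have c := Grpx_succ (n + 1)
  have a' : Grpx (n + 2) = gx0⁻¹ * (Grpx (n + 1) * gx0) := by rw [a]; group
  have b' : Grpx (k + 2) = gx0⁻¹ * (Grpx (k + 1) * gx0) := by rw [b]; group
  have c' : Grpx (n + 3) = gx0⁻¹ * (Grpx (n + 2) * gx0) := by
    have : Grpx (n + 1 + 1) * gx0 = gx0 * Grpx (n + 1 + 2) := c
    rw [show n + 2 = n + 1 + 1 from rfl, this]; group
  have e1 : gx0⁻¹ * (Grpx (n + 1) * gx0) * (gx0⁻¹ * (Grpx (k + 1) * gx0)) =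
      gx0⁻¹ * (Grpx (n + 1) * Grpx (k + 1)) * gx0 := by group
  have e2 : gx0⁻¹ * (Grpx (k + 1) * gx0) * (gx0⁻¹ * (Grpx (n + 2) * gx0)) =
      gx0⁻¹ * (Grpx (k + 1) * Grpx (n + 2)) * gx0 := by group
  rw [b', c', e2, ← h, ← e1, ← a']

theorem Grp_relk (d : ℕ) (h : Grpx (d + 2) * Grpx 1 = Grpx 1 * Grpx (d + 3)) (k : ℕ) :
    Grpx (k + d + 2) * Grpx (k + 1) = Grpx (k + 1) * Grpx (k + d + 3) := by
  induction k with
  | zero => simpa using h
  | succ k ih =>
    have := Grp_conj (k + d + 1) k ih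
    have e1 : k + 1 + d + 2 = k + d + 1 + 2 := by omega
    have e2 : k + 1 + d + 3 = k + d + 1 + 3 := by omega
    rw [e1, e2]
    exact this

theorem Grp_rel0 (d : ℕ) : Grpx (d + 2) * Grpx 1 = Grpx 1 * Grpx (d + 3) ∧
    Grpx (d + 3) * Grpx 1 = Grpx 1 * Grpx (d + 4) := by
  induction d with
  | zero => exact ⟨Grp_b0, Grp_b1⟩
  | succ d ih =>
    refine ⟨ih.2, ?_⟩
    -- `x_{d+4} x_1 = x_1 x_{d+5}`
    have r1 := Grp_relk d ih.1 1
    have r2 := Grp_relk d ih.1 2
    have e1 : 1 + d + 2 = d + 3 := by omega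
    have e2 : 1 + d + 3 = d + 4 := by omega
    have e3 : 2 + d + 2 = d + 4 := by omega
    have e4 : 2 + d + 3 = d + 5 := by omega
    rw [e1, e2] at r1
    rw [e3, e4] at r2
    have b := Grp_b0
    have i2 := ih.2
    have g1 : d + 1 + 3 = d + 4 := by omega
    have g2 : d + 1 + 4 = d + 5 := by omega
    rw [g1, g2]
    simp only [show (1 : ℕ) + 1 = 2 from rfl, show (2 : ℕ) + 1 = 3 from rfl] at r1 r2
    -- r1 : x_{d+3} x_2 = x_2 x_{d+4};  r2 : x_{d+4} x_3 = x_3 x_{d+5}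
    have k1 : Grpx (d + 4) = (Grpx 2)⁻¹ * Grpx (d + 3) * Grpx 2 := by
      rw [mul_assoc, r1]; group
    have k2 : Grpx (d + 5) = (Grpx 3)⁻¹ * Grpx (d + 4) * Grpx 3 := by
      rw [mul_assoc, r2]; group
    have k3 : Grpx 3 = (Grpx 1)⁻¹ * Grpx 2 * Grpx 1 := by
      rw [mul_assoc, b]; group
    have k4 : Grpx (d + 4) = (Grpx 1)⁻¹ * Grpx (d + 3) * Grpx 1 := by
      rw [mul_assoc, i2]; group
    have k5 : Grpx (d + 5) = (Grpx 1)⁻¹ * Grpx (d + 4) * Grpx 1 := by
      rw [k2, k4, k3]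
      have : ((Grpx 1)⁻¹ * Grpx 2 * Grpx 1)⁻¹ * ((Grpx 1)⁻¹ * Grpx (d + 3) * Grpx 1) *
          ((Grpx 1)⁻¹ * Grpx 2 * Grpx 1) =
          (Grpx 1)⁻¹ * ((Grpx 2)⁻¹ * Grpx (d + 3) * Grpx 2) * Grpx 1 := by group
      rw [this, ← k1, k4]
    rw [k5]
    group

theorem Grpx_comm (k n : ℕ) (h : k < n) : Grpx n * Grpx k = Grpx k * Grpx (n + 1) := by
  obtain ⟨m, rfl⟩ : ∃ m, n = m + 1 := ⟨n - 1, by omega⟩
  rcases k with _ | k
  · exact Grpx_succ m
  · obtain ⟨d, rfl⟩ : ∃ d, m = k + d + 1 := ⟨m - k - 1, by omega⟩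
    exact Grp_relk d (Grp_rel0 d).1 k

/-! ### Evaluation -/

section Ev
variable {G : Type} [Group G] (X : ℕ → G)

/-- Number of carets. -/
def GrpCar : DT → ℕ
  | .leaf _ => 0
  | .node l r => GrpCar l + GrpCar r + 1

def GrpA : ℕ → DT → G
  | i, .leaf a => X i ^ a
  | i, .node l r => GrpA i l * GrpA (i + GrpCar l + 1) r

def GrpC : ℕ → DT → G
  | _, .leaf _ => 1
  | i, .node l r => X i * GrpC i l * GrpC (i + GrpCar l + 1) r

def GrpAL : ℕ → List DT → G
  | _, [] => 1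
  | i, t :: L => GrpA X i t * GrpAL (i + GrpCar t + 1) L

def GrpCL : ℕ → List DT → G
  | _, [] => 1
  | i, t :: L => GrpC X i t * GrpCL (i + GrpCar t + 1) L

variable {X}
variable (hX : ∀ k n, k < n → X n * X k = X k * X (n + 1))
include hX

theorem GrpC_pass (t : DT) : ∀ i m, i < m → X m * GrpC X i t = GrpC X i t * X (m + GrpCar t) := by
  induction t with
  | leaf a => intro i m _; simp [GrpC, GrpCar]
  | node l r hl hr =>
    intro i m h
    simp only [GrpC, GrpCar]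
    rw [← mul_assoc, ← mul_assoc, hX i m h, mul_assoc (X i), hl i (m + 1) (by omega),
      ← mul_assoc (X i), mul_assoc (X i * _), hr (i + GrpCar l + 1) (m + 1 + GrpCar l) (by omega),
      ← mul_assoc]
    congr 2
    omega

theorem GrpA_shift (o : ℕ) (t : DT) : ∀ k, o < k → GrpA X k t * X o = X o * GrpA X (k + 1) t := by
  induction t with
  | leaf a =>
    intro k h
    simp only [GrpA]
    induction a with
    | zero => simp
    | succ a ih => rw [pow_succ, mul_assoc, hX o k h, ← mul_assoc, ih, mul_assoc, ← pow_succ]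
  | node l r hl hr =>
    intro k h
    simp only [GrpA]
    rw [mul_assoc, hr _ (by omega), ← mul_assoc, hl _ h, mul_assoc]
    congr 3
    omega

theorem GrpC_shift (o : ℕ) (t : DT) : ∀ k, o < k → GrpC X k t * X o = X o * GrpC X (k + 1) t := by
  induction t with
  | leaf a => intro k h; simp [GrpC]
  | node l r hl hr =>
    intro k h
    simp only [GrpC]
    rw [mul_assoc, hr _ (by omega), ← mul_assoc, mul_assoc (X k), hl _ h, ← mul_assoc, hX o k h,
      ← mul_assoc, ← mul_assoc]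
    congr 2
    omega

theorem GrpAL_shift (o : ℕ) (L : List DT) :
    ∀ k, o < k → GrpAL X k L * X o = X o * GrpAL X (k + 1) L := by
  induction L with
  | nil => intro k _; simp [GrpAL]
  | cons t L ih =>
    intro k h
    simp only [GrpAL]
    rw [mul_assoc, ih _ (by omega), ← mul_assoc, GrpA_shift hX o t k h, mul_assoc]
    congr 3
    omega

theorem GrpCL_shift (o : ℕ) (L : List DT) :
    ∀ k, o < k → GrpCL X k L * X o = X o * GrpCL X (k + 1) L := by
  induction L with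
  | nil => intro k _; simp [GrpCL]
  | cons t L ih =>
    intro k h
    simp only [GrpCL]
    rw [mul_assoc, ih _ (by omega), ← mul_assoc, GrpC_shift hX o t k h, mul_assoc]
    congr 3
    omega

omit hX in
theorem GrpC_leaf (i a : ℕ) : GrpC X i (.leaf a) = 1 := rfl

/-- Joining the first two trees of a list. -/
theorem Grp_join0 (i : ℕ) (l r : DT) (R : List DT) :
    GrpAL X i (l.join r :: R) * (GrpCL X i (l.join r :: R))⁻¹ =
      GrpAL X i (l :: r :: R) * (GrpCL X i (l :: r :: R))⁻¹ * (X i)⁻¹ := by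
  have key : ∀ l r : DT, l.join r = .node l r →
      GrpAL X i (l.join r :: R) * (GrpCL X i (l.join r :: R))⁻¹ =
      GrpAL X i (l :: r :: R) * (GrpCL X i (l :: r :: R))⁻¹ * (X i)⁻¹ := by
    intro l r h
    rw [h]
    have e : i + (GrpCar l + GrpCar r + 1) + 1 = i + GrpCar l + 1 + GrpCar r + 1 := by omega
    simp only [GrpAL, GrpCL, GrpA, GrpC, GrpCar, e]
    group
  rcases l with (_ | a) | ⟨l1, l2⟩
  · exact key _ _ rfl
  · rcases r with (_ | b) | ⟨r1, r2⟩
    · have hj : (DT.leaf (a + 1)).join (.leaf 0) = .leaf a := rfl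
      rw [hj]
      simp only [GrpAL, GrpCL, GrpA, GrpC, GrpCar, add_zero, pow_zero, one_mul]
      have hA := GrpAL_shift hX i R (i + 1) (by omega)
      have hC := GrpCL_shift hX i R (i + 1) (by omega)
      have hA' : GrpAL X (i + 1) R = X i * GrpAL X (i + 1 + 1) R * (X i)⁻¹ := by
        rw [← hA]; group
      have hC' : GrpCL X (i + 1) R = X i * GrpCL X (i + 1 + 1) R * (X i)⁻¹ := by
        rw [← hC]; group
      rw [hA', hC', pow_succ]
      group
    · exact key _ _ rfl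
    · exact key _ _ rfl
  · exact key _ _ rfl

theorem Grp_joinL (P : List DT) (l r : DT) (R : List DT) : ∀ i,
    GrpAL X i (P ++ l.join r :: R) * (GrpCL X i (P ++ l.join r :: R))⁻¹ =
      GrpAL X i (P ++ l :: r :: R) * (GrpCL X i (P ++ l :: r :: R))⁻¹ * (X (i + P.length))⁻¹ := by
  induction P with
  | nil => intro i; exact Grp_join0 hX i l r R
  | cons t P ih =>
    intro i
    simp only [List.cons_append, GrpAL, GrpCL, List.length_cons]
    have h := ih (i + GrpCar t + 1)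
    have e1 : GrpAL X (i + GrpCar t + 1) (P ++ l.join r :: R) =
        GrpAL X (i + GrpCar t + 1) (P ++ l :: r :: R) *
          (GrpCL X (i + GrpCar t + 1) (P ++ l :: r :: R))⁻¹ *
          (X (i + GrpCar t + 1 + P.length))⁻¹ *
          GrpCL X (i + GrpCar t + 1) (P ++ l.join r :: R) := by
      rw [← h]; group
    have hp := GrpC_pass hX t i (i + (P.length + 1)) (by omega)
    have e2 : i + (P.length + 1) + GrpCar t = i + GrpCar t + 1 + P.length := by omega
    rw [e2] at hp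
    have hp' : (X (i + GrpCar t + 1 + P.length))⁻¹ * (GrpC X i t)⁻¹ =
        (GrpC X i t)⁻¹ * (X (i + (P.length + 1)))⁻¹ := by
      rw [← mul_inv_rev, ← mul_inv_rev, hp]
    rw [e1]
    simp only [mul_inv_rev, mul_assoc]
    rw [mul_inv_cancel_left, hp']

end Ev

/-- The evaluation of the first `N` trees of a state. -/
def GrpE (s : ℕ → DT) (N : ℕ) : ThompsonF :=
  GrpAL Grpx 0 ((List.range N).map s) * (GrpCL Grpx 0 ((List.range N).map s))⁻¹

theorem Grp_list1 (s : ℕ → DT) (n M : ℕ) :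
    (List.range (n + 2 + M)).map s =
      (List.range n).map s ++ s n :: s (n + 1) :: (List.range M).map (fun i => s (n + 2 + i)) := by
  apply List.ext_getElem
  · simp; omega
  · intro i h1 h2
    simp only [List.length_map, List.length_range] at h1
    rw [List.getElem_map, List.getElem_range]
    rcases lt_or_ge i n with hi | hi
    · rw [List.getElem_append_left (by simpa using hi)]
      simp
    · obtain ⟨j, rfl⟩ : ∃ j, i = n + j := ⟨i - n, by omega⟩
      rw [List.getElem_append_right (by simp)]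
      simp only [List.length_map, List.length_range, Nat.add_sub_cancel_left]
      rcases j with _ | _ | j
      · simp
      · simp
      · simp only [List.getElem_cons_succ, List.getElem_map, List.getElem_range]
        congr 1
        omega

theorem Grp_list2 (s : ℕ → DT) (n M : ℕ) :
    (List.range (n + 1 + M)).map (joinAt n s) =
      (List.range n).map s ++ (s n).join (s (n + 1)) ::
        (List.range M).map (fun i => s (n + 2 + i)) := by
  apply List.ext_getElem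
  · simp; omega
  · intro i h1 h2
    simp only [List.length_map, List.length_range] at h1
    rw [List.getElem_map, List.getElem_range]
    rcases lt_or_ge i n with hi | hi
    · rw [List.getElem_append_left (by simpa using hi)]
      simp [joinAt, hi]
    · obtain ⟨j, rfl⟩ : ∃ j, i = n + j := ⟨i - n, by omega⟩
      rw [List.getElem_append_right (by simp)]
      simp only [List.length_map, List.length_range, Nat.add_sub_cancel_left]
      rcases j with _ | j
      · simp [joinAt]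
      · simp only [List.getElem_cons_succ, List.getElem_map, List.getElem_range, joinAt]
        rw [if_neg (by omega), if_neg (by omega)]
        congr 1
        omega

theorem GrpE_join (s : ℕ → DT) (n N : ℕ) (h : n + 1 ≤ N) :
    GrpE (joinAt n s) N = GrpE s (N + 1) * (Grpx n)⁻¹ := by
  obtain ⟨M, rfl⟩ : ∃ M, N = n + 1 + M := ⟨N - (n + 1), by omega⟩
  have e : n + 1 + M + 1 = n + 2 + M := by omega
  unfold GrpE
  rw [e, Grp_list1, Grp_list2]
  have := Grp_joinL (X := Grpx) Grpx_comm ((List.range n).map s) (s n) (s (n + 1))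
    ((List.range M).map (fun i => s (n + 2 + i))) 0
  simpa using this

theorem GrpE_triv (N : ℕ) : GrpE (fun _ => DT.leaf 0) N = 1 := by
  have h1 : ∀ (L : List ℕ) (i : ℕ), GrpAL Grpx i (L.map (fun _ => DT.leaf 0)) = 1 := by
    intro L
    induction L with
    | nil => intro i; rfl
    | cons a L ih =>
      intro i
      rw [List.map_cons, GrpAL, ih, GrpA]
      simp
  have h2 : ∀ (L : List ℕ) (i : ℕ), GrpCL Grpx i (L.map (fun _ => DT.leaf 0)) = 1 := by
    intro L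
    induction L with
    | nil => intro i; rfl
    | cons a L ih =>
      intro i
      rw [List.map_cons, GrpCL, ih, GrpC]
      simp
  unfold GrpE
  rw [h1, h2]
  simp

/-! ### Generation -/

theorem closure_gen :
    Submonoid.closure ({gx0, gx1, gx0⁻¹, gx1⁻¹} : Set ThompsonF) = ⊤ := by
  have h1 : Subgroup.closure (Set.range (PresentedGroup.of (rels := thompsonRels))) = ⊤ :=
    PresentedGroup.closure_range_of thompsonRels
  have h2 : Set.range (PresentedGroup.of (rels := thompsonRels)) = {gx0, gx1} := by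
    ext x
    constructor
    · rintro ⟨i, rfl⟩
      fin_cases i
      · exact Or.inl rfl
      · exact Or.inr rfl
    · rintro (h | h)
      · exact ⟨0, h.symm⟩
      · exact ⟨1, (Set.mem_singleton_iff.1 h).symm⟩
  rw [h2] at h1
  have h3 := Subgroup.closure_toSubmonoid ({gx0, gx1} : Set ThompsonF)
  rw [h1] at h3
  have h4 : ({gx0, gx1} : Set ThompsonF) ∪ ({gx0, gx1} : Set ThompsonF)⁻¹ =
      {gx0, gx1, gx0⁻¹, gx1⁻¹} := by
    rw [Set.inv_insert, Set.inv_singleton]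
    ext x
    simp only [Set.mem_union, Set.mem_insert_iff, Set.mem_singleton_iff]
    tauto
  rw [h4] at h3
  rw [← h3]
  rfl

/-! ### The states -/

def Grprho : ThompsonF →* Equiv.Perm GrpX :=
  PresentedGroup.toGroup (f := fun i : Fin 2 => GrpJ i) (Grp_rels GrpJ GrpJ_comm)

theorem Grprho0 : Grprho gx0 = GrpJ 0 := PresentedGroup.toGroup.of _

theorem Grprho1 : Grprho gx1 = GrpJ 1 := PresentedGroup.toGroup.of _

def GrpTriv : GrpX := ⟨fun _ => DT.leaf 0, ⟨fun _ => trivial, 0, fun _ _ => rfl⟩⟩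

def GrpSt (g : ThompsonF) : ℕ → DT := (Grprho g⁻¹ GrpTriv).1

theorem GrpSt_join (g x : ThompsonF) (n : ℕ) (hx : Grprho x = GrpJ n) :
    GrpSt (g * x⁻¹) = joinAt n (GrpSt g) := by
  unfold GrpSt
  rw [mul_inv_rev, inv_inv, map_mul, hx]
  rfl

theorem GrpSt_split (g x : ThompsonF) (n : ℕ) (hx : Grprho x = GrpJ n) :
    GrpSt (g * x) = splitAt n (GrpSt g) := by
  unfold GrpSt
  rw [mul_inv_rev, map_mul, map_inv Grprho x, hx]
  rfl

theorem GrpE_st (g : ThompsonF) : ∃ M, ∀ N, M ≤ N → GrpE (GrpSt g) N = g := by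
  have hg : g ∈ Submonoid.closure ({gx0, gx1, gx0⁻¹, gx1⁻¹} : Set ThompsonF) := by
    rw [closure_gen]; trivial
  induction hg using Submonoid.closure_induction_right with
  | one =>
    refine ⟨0, fun N _ => ?_⟩
    have : GrpSt 1 = fun _ => DT.leaf 0 := by
      unfold GrpSt
      rw [inv_one, map_one]
      rfl
    rw [this, GrpE_triv]
  | mul_right x _ y hy ih =>
    obtain ⟨M, hM⟩ := ih
    have hj : ∀ (z : ThompsonF) (n : ℕ), Grprho z = GrpJ n → Grpx n = z →
        ∃ M, ∀ N, M ≤ N → GrpE (GrpSt (x * z⁻¹)) N = x * z⁻¹ := by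
      intro z n hz hz'
      refine ⟨M + n + 1, fun N hN => ?_⟩
      rw [GrpSt_join x z n hz, GrpE_join _ _ _ (by omega), hM _ (by omega), hz']
    have hs : ∀ (z : ThompsonF) (n : ℕ), Grprho z = GrpJ n → Grpx n = z →
        ∃ M, ∀ N, M ≤ N → GrpE (GrpSt (x * z)) N = x * z := by
      intro z n hz hz'
      refine ⟨M + n + 2, fun N hN => ?_⟩
      have h1 := GrpSt_join (x * z) z n hz
      rw [mul_inv_cancel_right] at h1
      obtain ⟨N', rfl⟩ : ∃ N', N = N' + 1 := ⟨N - 1, by omega⟩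
      have h2 := GrpE_join (GrpSt (x * z)) n N' (by omega)
      rw [← h1, hM _ (by omega), hz'] at h2
      rw [eq_mul_inv_iff_mul_eq] at h2
      exact h2.symm
    have hx1 : Grpx 1 = gx1 := by simp [Grpx]
    rcases hy with h | h | h | h
    · rw [h]; exact hs gx0 0 Grprho0 rfl
    · rw [h]; exact hs gx1 1 Grprho1 hx1
    · rw [h]; exact hj gx0 0 Grprho0 rfl
    · rw [Set.mem_singleton_iff] at h
      rw [h]; exact hj gx1 1 Grprho1 hx1

theorem exists_state : ∃ st : ThompsonF → (ℕ → DT),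
    (∀ g, GoodSt (st g)) ∧ st 1 = (fun _ => DT.leaf 0) ∧
    (∀ g, st (g * gx0⁻¹) = joinAt 0 (st g)) ∧ (∀ g, st (g * gx1⁻¹) = joinAt 1 (st g)) ∧
    (∀ g, st (g * gx0) = splitAt 0 (st g)) ∧ (∀ g, st (g * gx1) = splitAt 1 (st g)) ∧
    (∀ g, (∀ i, st g i = DT.leaf 0) → g = 1) := by
  refine ⟨GrpSt, fun g => (Grprho g⁻¹ GrpTriv).2, ?_, fun g => GrpSt_join g _ 0 Grprho0,
    fun g => GrpSt_join g _ 1 Grprho1, fun g => GrpSt_split g _ 0 Grprho0,
    fun g => GrpSt_split g _ 1 Grprho1, ?_⟩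
  · unfold GrpSt
    rw [inv_one, map_one]
    rfl
  · intro g hg
    obtain ⟨M, hM⟩ := GrpE_st g
    have h := hM M le_rfl
    rw [show GrpSt g = fun _ => DT.leaf 0 from funext hg, GrpE_triv] at h
    exact h.symm

end TF
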