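import Mathlib
import Pool.Agent.LibTF.Main0
import Pool.Agent.LibTF.A1
import Pool.Agent.LibTF.A2
import Pool.Agent.LibTF.Grp
import Pool.Agent.LibTF.C1

/-! TASK C2: from a `TreeCode` to the theorem.

For a sequence `s` of trees let `C2_enc m s = W (s 0) ++ ... ++ W (s (m-1))`, let `C2_bd s` be the
least `m` with `s i = leaf 0` for all `i ≥ m` and `C2_wd s` be `C2_enc (C2_bd s) s` without its last
letter (which is `lf`). A function `φ : F → F` is *realised* (`C2_Real`) if there are
`G : List (Option A) → List (Option A)`, `Reg G` and `c` such that for all `g` and all `c' ≥ c`: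
`G ((wd (st g)).map some ++ replicate c' none) = (wd (st (φ g))).map some ++ replicate c'' none`.
Right multiplications by the four generators are realised (replace `none` by `lf`, apply the
function of C1, replace the trailing `lf`s by `none`), realised functions compose, so all right
multiplications are realised (`closure_gen`). Then use `Reg.isAutomatic`. `g ↦ word (st g)` is
injective: if `word (st g) = word (st g')` then right multiplication by `g⁻¹` gives
`word (st (g' g⁻¹)) = word (st 1) = []`, so all trees of `st (g' g⁻¹)` are `leaf 0`. -/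

namespace TF

section C2
variable {A : Type} (T : TreeCode A)

/-- The word of the first `m` trees. -/
def C2_enc : ℕ → (ℕ → DT) → List A
  | 0, _ => []
  | m + 1, s => T.W (s 0) ++ C2_enc m (fun i => s (i + 1))

theorem C2_W_leaf0 : T.W (.leaf 0) = [T.lf] := by
  simp [TreeCode.W, WW]

theorem C2_W_eq (t : DT) (h : T.W t = [T.lf]) : t = .leaf 0 := by
  cases t with
  | leaf a =>
    have := congrArg List.length h
    simp [TreeCode.W, WW] at this
    rw [this]
  | node l r =>
    simp only [TreeCode.W, WW, List.cons.injEq] at h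
    exact absurd h.1 T.ne2

theorem C2_enc_add (m k : ℕ) (s : ℕ → DT) :
    C2_enc T (m + k) s = C2_enc T m s ++ C2_enc T k (fun i => s (i + m)) := by
  induction m generalizing s with
  | zero => simp [C2_enc]
  | succ m ih =>
    rw [show m + 1 + k = (m + k) + 1 by ring]
    simp only [C2_enc, ih, List.append_assoc]
    rfl

theorem C2_enc_triv (k : ℕ) (s : ℕ → DT) (h : ∀ i, s i = .leaf 0) :
    C2_enc T k s = List.replicate k T.lf := by
  induction k generalizing s with
  | zero => simp [C2_enc]
  | succ k ih =>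
    rw [C2_enc, h 0, C2_W_leaf0, ih _ (fun i => h (i + 1)), List.replicate_succ]
    rfl

/-- The trees are trivial from `m` on. -/
def C2_B (m : ℕ) (s : ℕ → DT) : Prop := ∀ i, m ≤ i → s i = .leaf 0

theorem C2_enc_bd {m : ℕ} {s : ℕ → DT} (h : C2_B m s) (k : ℕ) :
    C2_enc T (m + k) s = C2_enc T m s ++ List.replicate k T.lf := by
  rw [C2_enc_add, C2_enc_triv T k]
  intro i
  exact h _ (by omega)

open Classical in
/-- The support bound. -/
noncomputable def C2_bd (s : ℕ → DT) : ℕ := sInf {m | C2_B m s}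

theorem C2_bd_spec {m : ℕ} {s : ℕ → DT} (h : C2_B m s) : C2_B (C2_bd s) s :=
  Nat.sInf_mem (s := {m | C2_B m s}) ⟨m, h⟩

theorem C2_bd_le {m : ℕ} {s : ℕ → DT} (h : C2_B m s) : C2_bd s ≤ m :=
  Nat.sInf_le (s := {m | C2_B m s}) h

theorem C2_bd_ne {m n : ℕ} {s : ℕ → DT} (h : C2_B m s) (hn : C2_bd s = n + 1) :
    s n ≠ .leaf 0 := by
  intro h0
  have h1 : C2_B n s := by
    intro i hi
    rcases Nat.eq_or_lt_of_le hi with rfl | hi
    · exact h0
    · exact C2_bd_spec h i (by omega)
  have := C2_bd_le h1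
  omega

/-- The normal form of a state. -/
noncomputable def C2_wd (s : ℕ → DT) : List A := (C2_enc T (C2_bd s) s).dropLast

/-- The last letter is not `lf`. -/
def C2_nl (u : List A) : Prop := ∀ v, u ≠ v ++ [T.lf]

/-- Main description of the normal form. -/
theorem C2_wd_cases {m : ℕ} {s : ℕ → DT} (h : C2_B m s) :
    (C2_bd s = 0 ∧ C2_wd T s = []) ∨
    (∃ n, C2_bd s = n + 1 ∧ C2_enc T (n + 1) s = C2_wd T s ++ [T.lf] ∧ C2_wd T s ≠ [] ∧
      C2_nl T (C2_wd T s)) := by
  rcases Nat.eq_zero_or_pos (C2_bd s) with h0 | h0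
  · left
    exact ⟨h0, by simp [C2_wd, h0, C2_enc]⟩
  · right
    obtain ⟨n, hn⟩ : ∃ n, C2_bd s = n + 1 := ⟨C2_bd s - 1, by omega⟩
    refine ⟨n, hn, ?_⟩
    obtain ⟨u, hu, hlf⟩ := T.W_form (s n)
    have hne : u ≠ [] := by
      rintro rfl
      exact C2_bd_ne h hn (C2_W_eq T _ (by simpa using hu))
    have h1 : C2_enc T (n + 1) s = C2_enc T n s ++ u ++ [T.lf] := by
      rw [C2_enc_add]
      simp [C2_enc, hu]
    have h2 : C2_wd T s = C2_enc T n s ++ u := by
      rw [C2_wd, hn, h1]
      simp
    rw [h2]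
    refine ⟨h1, by simp [hne], ?_⟩
    intro v hv
    obtain ⟨u', a, rfl⟩ : ∃ u' a, u = u' ++ [a] :=
      ⟨u.dropLast, u.getLast hne, (List.dropLast_append_getLast hne).symm⟩
    rw [← List.append_assoc] at hv
    have := List.append_inj_right' hv rfl
    simp only [List.cons.injEq, and_true] at this
    apply hlf
    simp [this]

theorem C2_wd_nl {m : ℕ} {s : ℕ → DT} (h : C2_B m s) : C2_nl T (C2_wd T s) := by
  rcases C2_wd_cases T h with ⟨-, h1⟩ | ⟨n, -, -, -, h1⟩
  · rw [h1]
    intro v hv
    simp at hv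
  · exact h1

theorem C2_wd_nil {m : ℕ} {s : ℕ → DT} (h : C2_B m s) (h0 : C2_wd T s = []) (i : ℕ) :
    s i = .leaf 0 := by
  rcases C2_wd_cases T h with ⟨h1, -⟩ | ⟨n, -, -, h1, -⟩
  · exact C2_bd_spec h i (by omega)
  · exact absurd h0 h1

/-- Any long enough word is the normal form with letters `lf` appended. -/
theorem C2_enc_wd {m : ℕ} {s : ℕ → DT} (h : C2_B m s) :
    ∃ k, C2_enc T m s = C2_wd T s ++ List.replicate k T.lf := by
  obtain ⟨k, hk⟩ : ∃ k, m = C2_bd s + k := ⟨m - C2_bd s, by have := C2_bd_le h; omega⟩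
  rw [hk, C2_enc_bd T (C2_bd_spec h)]
  rcases C2_wd_cases T h with ⟨h1, h2⟩ | ⟨n, h1, h2, -, -⟩
  · exact ⟨k, by simp [h1, h2, C2_enc]⟩
  · refine ⟨k + 1, ?_⟩
    rw [h1, h2, List.replicate_succ]
    simp

theorem C2_wd_enc {m : ℕ} {s : ℕ → DT} (h : C2_B m s) (c : ℕ) :
    ∃ c', c ≤ c' ∧
      C2_wd T s ++ List.replicate (c + 1) T.lf = C2_enc T (C2_bd s + c') s := by
  rcases C2_wd_cases T h with ⟨h1, h2⟩ | ⟨n, h1, h2, -, -⟩
  · refine ⟨c + 1, by omega, ?_⟩
    rw [C2_enc_bd T (C2_bd_spec h), h2, h1]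
    simp [C2_enc]
  · refine ⟨c, le_rfl, ?_⟩
    rw [C2_enc_bd T (C2_bd_spec h), h1, h2, List.replicate_succ]
    simp

/-- `F` realises the operation `op` on long enough words. -/
def C2_P (F : List A → List A) (op : (ℕ → DT) → (ℕ → DT)) : Prop :=
  ∃ c, ∀ s m, C2_B m s → ∀ c', c ≤ c' → ∃ M' k, C2_B M' (op s) ∧
    F (C2_enc T (m + c') s) = C2_enc T M' (op s) ++ List.replicate k T.lf

theorem C2_P_join {F : List A → List A}
    (hF : ∀ l r rest, ∃ k, F (T.W l ++ T.W r ++ rest ++ List.replicate 2 T.lf) =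
      T.W (l.join r) ++ rest ++ List.replicate k T.lf) : C2_P T F (joinAt 0) := by
  refine ⟨4, ?_⟩
  intro s m hs c' hc'
  obtain ⟨n, rfl⟩ : ∃ n, c' = n + 4 := ⟨c' - 4, by omega⟩
  have h1 : C2_enc T (m + (n + 4)) s = T.W (s 0) ++ T.W (s 1) ++
      C2_enc T (m + n) (fun i => s (i + 2)) ++ List.replicate 2 T.lf := by
    have h2 : m + (n + 4) = (((m + n) + 2) + 1) + 1 := by ring
    rw [h2, C2_enc, C2_enc, C2_enc_bd T (m := m + n)]
    · simp only [List.append_assoc]
    · intro i hi
      exact hs _ (by omega)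
  obtain ⟨k, hk⟩ := hF (s 0) (s 1) (C2_enc T (m + n) (fun i => s (i + 2)))
  refine ⟨m + n + 1, k, ?_, ?_⟩
  · intro i hi
    have h3 : joinAt 0 s i = s (i + 1) := by
      simp only [joinAt]
      rw [if_neg (by omega), if_neg (by omega)]
    rw [h3]
    exact hs _ (by omega)
  · rw [h1, hk, C2_enc]
    rfl

theorem C2_P_split {F : List A → List A}
    (hF : ∀ t rest, ∃ k, F (T.W t ++ rest ++ List.replicate 2 T.lf) =
      T.W t.split.1 ++ T.W t.split.2 ++ rest ++ List.replicate k T.lf) :
    C2_P T F (splitAt 0) := by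
  refine ⟨3, ?_⟩
  intro s m hs c' hc'
  obtain ⟨n, rfl⟩ : ∃ n, c' = n + 3 := ⟨c' - 3, by omega⟩
  have h1 : C2_enc T (m + (n + 3)) s = T.W (s 0) ++
      C2_enc T (m + n) (fun i => s (i + 1)) ++ List.replicate 2 T.lf := by
    have h2 : m + (n + 3) = ((m + n) + 2) + 1 := by ring
    rw [h2, C2_enc, C2_enc_bd T (m := m + n)]
    · simp only [List.append_assoc]
    · intro i hi
      exact hs _ (by omega)
  obtain ⟨k, hk⟩ := hF (s 0) (C2_enc T (m + n) (fun i => s (i + 1)))
  refine ⟨m + n + 2, k, ?_, ?_⟩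
  · intro i hi
    have h3 : splitAt 0 s i = s (i - 1) := by
      simp only [splitAt]
      rw [if_neg (by omega), if_neg (by omega), if_neg (by omega)]
    rw [h3]
    exact hs _ (by omega)
  · rw [h1, hk, C2_enc, C2_enc, List.append_assoc, List.append_assoc, List.append_assoc,
      List.append_assoc]
    congr 3

/-- Apply an operation behind the first tree. -/
def C2_beh (op : (ℕ → DT) → (ℕ → DT)) (s : ℕ → DT) : ℕ → DT
  | 0 => s 0
  | i + 1 => op (fun j => s (j + 1)) i

theorem C2_P_behind {F F' : List A → List A} {op : (ℕ → DT) → (ℕ → DT)}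
    (hF : C2_P T F op) (hF' : ∀ t w, F' (T.W t ++ w) = T.W t ++ F w) :
    C2_P T F' (C2_beh op) := by
  obtain ⟨c, hc⟩ := hF
  refine ⟨c + 1, ?_⟩
  intro s m hs c' hc'
  obtain ⟨n, rfl⟩ : ∃ n, c' = n + 1 := ⟨c' - 1, by omega⟩
  have hs' : C2_B m (fun j => s (j + 1)) := fun i hi => hs _ (by omega)
  obtain ⟨M', k, h1, h2⟩ := hc _ m hs' n (by omega)
  refine ⟨M' + 1, k, ?_, ?_⟩
  · intro i hi
    obtain ⟨j, rfl⟩ : ∃ j, i = j + 1 := ⟨i - 1, by omega⟩
    exact h1 j (by omega)
  · rw [← Nat.add_assoc, C2_enc, hF', h2, C2_enc, List.append_assoc]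
    rfl

theorem C2_join1 : joinAt 1 = C2_beh (joinAt 0) := by
  funext s i
  cases i with
  | zero => simp [joinAt, C2_beh]
  | succ i =>
    simp only [joinAt, C2_beh]
    rcases Nat.eq_zero_or_pos i with rfl | hi
    · simp
    · rw [if_neg (by omega), if_neg (by omega), if_neg (by omega), if_neg (by omega)]

theorem C2_split1 : splitAt 1 = C2_beh (splitAt 0) := by
  funext s i
  cases i with
  | zero => simp [splitAt, C2_beh]
  | succ i =>
    simp only [splitAt, C2_beh]
    rcases Nat.eq_zero_or_pos i with rfl | hi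
    · simp
    · rcases Nat.eq_or_lt_of_le hi with h | hi2
      · have : i = 1 := by omega
        subst this
        simp
      · rw [if_neg (by omega), if_neg (by omega), if_neg (by omega), if_neg (by omega),
          if_neg (by omega), if_neg (by omega)]
        congr 1
        omega

open Classical in
/-- Replace the trailing letters `lf` by blanks. -/
@[reducible] noncomputable def C2_post : BM A (Option A) where
  Q := Unit
  P := Bool
  finQ := inferInstance
  finP := inferInstance
  q0 := ()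
  p0 := true
  d := fun _ _ _ => ()
  e := fun a p => p && decide (a = T.lf)
  out := fun _ a p => if a = T.lf ∧ p = true then none else some a

theorem C2_post_rep (k : ℕ) :
    (C2_post T).run () (List.replicate k T.lf) true = List.replicate k none ∧
    (List.replicate k T.lf).foldr (C2_post T).e true = true := by
  induction k with
  | zero => exact ⟨rfl, rfl⟩
  | succ k ih =>
    rw [List.replicate_succ, List.replicate_succ]
    constructor
    · rw [BM.run, ih.2]
      have : (C2_post T).out () T.lf true = none := by simp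
      rw [this]
      exact congrArg _ ih.1
    · rw [List.foldr_cons, ih.2]
      simp [C2_post]

theorem C2_post_false (u : List A) :
    (C2_post T).run () u false = u.map some ∧ u.foldr (C2_post T).e false = false := by
  induction u with
  | nil => exact ⟨rfl, rfl⟩
  | cons a u ih =>
    constructor
    · rw [BM.run, ih.2]
      have : (C2_post T).out () a false = some a := by simp
      rw [this]
      exact congrArg _ ih.1
    · rw [List.foldr_cons, ih.2]
      simp [C2_post]

theorem C2_post_eval (u : List A) (hu : C2_nl T u) (k : ℕ) :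
    (C2_post T).eval (u ++ List.replicate k T.lf) =
      u.map some ++ List.replicate k none := by
  rw [BM.eval, BM.run_append]
  change (C2_post T).run () u ((List.replicate k T.lf).foldr (C2_post T).e true) ++
    (C2_post T).run () (List.replicate k T.lf) true = _
  rw [(C2_post_rep T k).2, (C2_post_rep T k).1]
  congr 1
  rcases List.eq_nil_or_concat u with rfl | ⟨v, a, rfl⟩
  · rfl
  · have ha : a ≠ T.lf := by
      rintro rfl
      exact hu v (by simp)
    rw [List.concat_eq_append, BM.run_append]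
    have h1 : [a].foldr (C2_post T).e true = false := by
      simp [C2_post, ha]
    rw [h1, (C2_post_false T v).1]
    have h2 : ∀ q, (C2_post T).run q [a] true = [some a] := by
      intro q
      simp [BM.run, C2_post, ha]
    rw [h2]
    simp

/-- A function on states which is realised by a regular function on normal forms. -/
def C2_Real (st : ThompsonF → (ℕ → DT)) (φ : ThompsonF → ThompsonF) : Prop :=
  ∃ (G : List (Option A) → List (Option A)) (c : ℕ), Reg G ∧ ∀ g, ∀ c', c ≤ c' → ∃ c'',
    G ((C2_wd T (st g)).map some ++ List.replicate c' none) =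
      (C2_wd T (st (φ g))).map some ++ List.replicate c'' none

theorem C2_Real_comp {st : ThompsonF → (ℕ → DT)} {φ φ' : ThompsonF → ThompsonF}
    (h : C2_Real T st φ) (h' : C2_Real T st φ') : C2_Real T st (fun g => φ' (φ g)) := by
  obtain ⟨G, c, hG, h⟩ := h
  obtain ⟨G', c', hG', h'⟩ := h'
  have := T.fin
  refine ⟨fun w => G' (G w), c + c', Reg.comp inferInstance hG hG', ?_⟩
  intro g n hn
  obtain ⟨k, hk⟩ := h g n (by omega)
  obtain ⟨k0, hk0⟩ := h g c le_rfl
  have l1 := congrArg List.length hk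
  have l0 := congrArg List.length hk0
  rw [Reg.length hG] at l1 l0
  simp only [List.length_append, List.length_map, List.length_replicate] at l1 l0
  obtain ⟨k', hk'⟩ := h' (φ g) k (by omega)
  exact ⟨k', by simp only [hk, hk']⟩

theorem C2_Real_id (st : ThompsonF → (ℕ → DT)) : C2_Real T st (fun g => g) :=
  ⟨fun w => w, 0, Reg.id _, fun _ c' _ => ⟨c', rfl⟩⟩

theorem C2_Real_of_P {st : ThompsonF → (ℕ → DT)} (hst : ∀ g, GoodSt (st g))
    {φ : ThompsonF → ThompsonF} {op : (ℕ → DT) → (ℕ → DT)} {F : List A → List A} (hF : Reg F)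
    (hP : C2_P T F op) (hφ : ∀ g, st (φ g) = op (st g)) : C2_Real T st φ := by
  obtain ⟨c, hc⟩ := hP
  have := T.fin
  refine ⟨fun w => (C2_post T).eval (F (w.map (fun o : Option A => o.getD T.lf))), c + 1,
    ?_, ?_⟩
  · exact Reg.comp T.fin (Reg.comp T.fin (Reg.map _) hF) (Reg.bm _)
  · intro g c' hc'
    obtain ⟨n, rfl⟩ : ∃ n, c' = n + 1 := ⟨c' - 1, by omega⟩
    obtain ⟨m, hm⟩ := (hst g).fin
    have hB : C2_B m (st g) := hm
    have h1 : ((C2_wd T (st g)).map some ++ List.replicate (n + 1) none).map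
        (fun o : Option A => o.getD T.lf) = C2_wd T (st g) ++ List.replicate (n + 1) T.lf := by
      simp [Function.comp_def]
    obtain ⟨n', hn', h2⟩ := C2_wd_enc T hB n
    obtain ⟨M', k, h3, h4⟩ := hc (st g) _ (C2_bd_spec hB) n' (by omega)
    obtain ⟨k', hk'⟩ := C2_enc_wd T h3
    refine ⟨k' + k, ?_⟩
    simp only
    rw [h1, h2, h4, hk', List.append_assoc, ← List.replicate_add,
      C2_post_eval T _ (C2_wd_nl T h3), hφ]

theorem C2_unpad (u : List A) (c : ℕ) : unpad (u.map some ++ List.replicate (c) none) = u := by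
  induction u with
  | nil => cases c <;> simp [unpad, List.replicate_succ]
  | cons a u ih => simp [unpad, ih]

end C2

theorem main_of_treeCode {A : Type} (T : TreeCode A) : CayleyLinear ThompsonF Set.univ := by
  obtain ⟨st, hgood, hone, hj0, hj1, hs0, hs1, htriv⟩ := exists_state
  have := T.fin
  have hB : ∀ g, ∃ m, C2_B m (st g) := fun g => (hgood g).fin
  -- the generators
  have hx0i : C2_Real T st (fun g => g * gx0⁻¹) := by
    obtain ⟨F, hF, h⟩ := T.exists_join
    exact C2_Real_of_P T hgood hF (C2_P_join T h) hj0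
  have hx1i : C2_Real T st (fun g => g * gx1⁻¹) := by
    obtain ⟨F, hF, h⟩ := T.exists_join
    obtain ⟨F', hF', h'⟩ := T.exists_behind hF
    refine C2_Real_of_P T hgood hF' (C2_P_behind T (C2_P_join T h) h') ?_
    rw [← C2_join1]
    exact hj1
  have hx0 : C2_Real T st (fun g => g * gx0) := by
    obtain ⟨F, hF, h⟩ := T.exists_split
    exact C2_Real_of_P T hgood hF (C2_P_split T h) hs0
  have hx1 : C2_Real T st (fun g => g * gx1) := by
    obtain ⟨F, hF, h⟩ := T.exists_split
    obtain ⟨F', hF', h'⟩ := T.exists_behind hF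
    refine C2_Real_of_P T hgood hF' (C2_P_behind T (C2_P_split T h) h') ?_
    rw [← C2_split1]
    exact hs1
  have hall : ∀ s : ThompsonF, C2_Real T st (fun g => g * s) := by
    intro s
    have hs : s ∈ Submonoid.closure ({gx0, gx1, gx0⁻¹, gx1⁻¹} : Set ThompsonF) := by
      rw [closure_gen]
      trivial
    induction hs using Submonoid.closure_induction with
    | mem x hx =>
      simp only [Set.mem_insert_iff, Set.mem_singleton_iff] at hx
      rcases hx with rfl | rfl | rfl | rfl
      · exact hx0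
      · exact hx1
      · exact hx0i
      · exact hx1i
    | one => simpa using C2_Real_id T st
    | mul x y _ _ hx hy => simpa [mul_assoc] using C2_Real_comp T hx hy
  have hinj : Function.Injective (fun g => C2_wd T (st g)) := by
    intro g g' h
    simp only at h
    obtain ⟨G, c, -, hG⟩ := hall g⁻¹
    obtain ⟨k, hk⟩ := hG g c le_rfl
    obtain ⟨k', hk'⟩ := hG g' c le_rfl
    rw [← h, hk] at hk'
    have h1 := congrArg unpad hk'
    rw [C2_unpad, C2_unpad] at h1
    simp only [mul_inv_cancel] at h1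
    have h0 : C2_wd T (st 1) = [] := by
      have hb : C2_B 0 (st 1) := by
        intro i _
        rw [hone]
      have := C2_bd_le hb
      rw [C2_wd, Nat.le_zero.mp this]
      rfl
    rw [h0] at h1
    obtain ⟨m, hm⟩ := hB (g' * g⁻¹)
    have := htriv _ (C2_wd_nil T hm h1.symm)
    exact (mul_inv_eq_one.mp this).symm
  refine ⟨A, T.fin, Set.range (fun g => C2_wd T (st g)), (Equiv.ofInjective _ hinj).symm, ?_⟩
  intro s _
  obtain ⟨G, c, hG, h⟩ := hall s
  refine ⟨_, Reg.isAutomatic T.fin hG c, ?_⟩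
  rintro ⟨w, g, rfl⟩
  obtain ⟨k, hk⟩ := h g c le_rfl
  have h1 : unpad (G ((C2_wd T (st g)).map some ++ List.replicate c none)) =
      C2_wd T (st (g * s)) := by
    rw [hk, C2_unpad]
  simp only at h1 ⊢
  refine ⟨⟨g * s, h1.symm⟩, ?_⟩
  rw [Equiv.symm_apply_eq]
  apply Subtype.ext
  simp only [Equiv.ofInjective_apply]
  rw [h1]
  have h2 : (Equiv.ofInjective _ hinj).symm ⟨C2_wd T (st g), ⟨g, rfl⟩⟩ = g := by
    rw [Equiv.symm_apply_eq]
    rfl
  rw [h2]

end TF
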