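import Mathlib
import Pool.Agent.LibTF.Main0

/-! Letters, cells and the finite-state passes of the multi-scale clock encoding. -/

namespace TF

/-! ### The alphabet -/

inductive Bs
  | lp
  | br
  | lf
  deriving DecidableEq, Fintype

def Bs.step : Bs → ℤ
  | .lp => 1
  | .br => 0
  | .lf => -1

inductive S3
  | f
  | m
  | l
  deriving DecidableEq, Fintype

inductive Hd
  | A
  | V
  | H
  deriving DecidableEq, Fintype

/-- Signs: used as carries and as move tags. -/
inductive Mv
  | z
  | p
  | n
  deriving DecidableEq, Fintype

def Mv.val : Mv → ℤ
  | .z => 0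
  | .p => 1
  | .n => -1

def Mv.neg : Mv → Mv
  | .z => .z
  | .p => .n
  | .n => .p

def Bs.mv : Bs → Mv
  | .lp => .p
  | .br => .z
  | .lf => .n

/-- Letters of the moving package: three numbers `n`, `k`, `h` in mixed radix `(16, 4, 4, ...)`,
one stack letter, flags for the last and the first letter, and a move tag. -/
structure ML where
  un : ZMod 16
  uk : ZMod 16
  uh : ZMod 16
  dn : ZMod 4
  dk : ZMod 4
  dh : ZMod 4
  s : S3
  top : Bool
  bot : Bool
  mv : Mv
  deriving DecidableEq

instance : Finite ML :=
  Finite.of_injective (fun a : ML => (a.un, a.uk, a.uh, a.dn, a.dk, a.dh, a.s, a.top, a.bot, a.mv))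
    (by intro a b h; cases a; cases b; simp_all)

/-- Letters of a static package. -/
structure SL where
  u : ZMod 16
  d : ZMod 4
  top : Bool
  deriving DecidableEq

instance : Finite SL :=
  Finite.of_injective (fun a : SL => (a.u, a.d, a.top))
    (by intro a b h; cases a; cases b; simp_all)

structure Ltr where
  b : Bs
  hd : Hd
  F : Bool
  L : Bool
  X : Bool
  J : Bool
  M : Option ML
  S : Option SL
  deriving DecidableEq

instance : Finite Ltr :=
  Finite.of_injective (fun a : Ltr => (a.b, a.hd, a.F, a.L, a.X, a.J, a.M, a.S))
    (by intro a b h; cases a; cases b; simp_all)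

/-! ### Digits -/

def th (j : ℕ) : ℤ := 16 * 4 ^ j

def dg (x : ℤ) (j : ℕ) : ZMod 4 := ((x / th j : ℤ) : ZMod 4)

def ug (x : ℤ) : ZMod 16 := (x : ZMod 16)

def mlet (l j : ℕ) (n k h : ℤ) (s : ℕ → S3) (mv : Mv) : ML where
  un := if j = 0 then ug n else 0
  uk := if j = 0 then ug k else 0
  uh := if j = 0 then ug h else 0
  dn := dg n j
  dk := dg k j
  dh := dg h j
  s := s j
  top := decide (j + 1 = l)
  bot := decide (j = 0)
  mv := mv

def slet (l j : ℕ) (g : ℤ) : SL where
  u := if j = 0 then ug g else 0
  d := dg g j
  top := decide (j + 1 = l)

/-- Put the package with `l` letters on the `M` track, at offset `K`. -/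
def putM (l K : ℕ) (n k h : ℤ) (s : ℕ → S3) (mv : Mv) (w : List Ltr) : List Ltr :=
  w.mapIdx (fun i a => { a with
    M := if K ≤ i ∧ i < K + l then some (mlet l (i - K) n k h s mv) else none })

/-- Put a static package with `l` letters on the `S` track, at offset `0`. -/
def putS (l : ℕ) (g : ℤ) (w : List Ltr) : List Ltr :=
  w.mapIdx (fun i a => { a with S := if i < l then some (slet l i g) else none })

/-! ### Cells -/

/-- A position of a cell: its letter, the two flags of the boundary at its left, and the stack
giving, for every scale, whether the member containing the position is the first, a middle or the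
last one of its group. -/
structure Pos where
  b : Bs
  F : Bool
  L : Bool
  st : List S3
  deriving DecidableEq

def extP (c : S3) (u : List Pos) : List Pos := u.map (fun p => { p with st := p.st ++ [c] })

def setFL (F L : Bool) : List Pos → List Pos
  | [] => []
  | p :: u => { p with F := F, L := L } :: u

def glueT : Bool → List (List Pos) → List (List Pos)
  | _, [] => []
  | f, [u] => [setFL f true (extP .l u)]
  | f, u :: v :: us => setFL f false (extP .m u) :: glueT false (v :: us)

def glue : List (List Pos) → List (List Pos)
  | [] => []
  | u :: us => extP .f u :: glueT true us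

/-- `MemOk r m`: `m` is the list of members of a cell of scale `r` (every member is given by the
list of its positions; a cell of scale `0` is its own single member). -/
inductive MemOk : ℕ → List (List Pos) → Prop
  | leaf (b : Bs) : MemOk 0 [[⟨b, false, false, []⟩]]
  | node {r : ℕ} (ms : List (List (List Pos))) (h2 : 2 ≤ ms.length) (h4 : ms.length ≤ 4)
      (h : ∀ m ∈ ms, MemOk r m) : MemOk (r + 1) (glue (ms.map List.flatten))

def dsp (u : List Pos) : ℤ := (u.map (fun p => p.b.step)).sum

/-- Stack at offset `K`, as a function. -/
def stkAt (u : List Pos) (K : ℕ) (j : ℕ) : S3 :=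
  match u[K]? with
  | some p => p.st.getD j .f
  | none => .f

/-! ### Encoding -/

def lw (u : List Pos) : List Ltr :=
  u.map (fun p => ⟨p.b, .H, p.F, p.L, false, false, none, none⟩)

def setHd (hd : Hd) (X J : Bool) : List Ltr → List Ltr
  | [] => []
  | a :: w => { a with hd := hd, X := X, J := J } :: w

/-- A visible member with clock `g`. -/
def vis (l : ℕ) (g : ℤ) (u : List Pos) : List Ltr := setHd .V false false (putS l g (lw u))

/-- The members after the first one; a member is visible iff its offset `o` is larger than `v`. -/
def bwT (l v : ℕ) : ℕ → ℤ → List (List Pos) → List Ltr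
  | _, _, [] => []
  | o, g, u :: us => (if v < o then vis l g u else lw u) ++ bwT l v (o + u.length) (g + dsp u) us

/-- The word of a cell without its moving package; `g` is the clock of its left end. -/
def bw (X J : Bool) (l v : ℕ) (g : ℤ) : List (List Pos) → List Ltr
  | [] => []
  | u :: us => setHd .A X J (lw u) ++ bwT l v u.length (g + dsp u) us

/-- The word of a cell with all parameters free. -/
def raw (m : List (List Pos)) (X J : Bool) (g : ℤ) (l K v : ℕ) : List Ltr :=
  putM l K g K (g + dsp (m.flatten.take K)) (stkAt m.flatten K) .z (bw X J l v g m)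

/-- Number of letters of the package of a cell of scale `r` with clock `N`. -/
def ell (r : ℕ) (N : ℤ) : ℕ := if N < th r then max 1 r else r + 1

/-- Offset of the package in a cell of scale `r` and length `len`. -/
def KK (r len : ℕ) (N : ℤ) : ℕ :=
  match r with
  | 0 => 0
  | r + 1 => (min (N - 2 * th r) (min (3 * th r - 1 - N) ((len : ℤ) - (r + 1)))).toNat

/-- Threshold of visibility. -/
def VV (r : ℕ) (N : ℤ) : ℕ :=
  match r with
  | 0 => 0
  | r + 1 => (N - 2 * th r).toNat

/-- An active cell: scale, members, clock of the left end, crossed or not. -/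
structure AC where
  r : ℕ
  mem : List (List Pos)
  N : ℤ
  x : Bool
  deriving DecidableEq

def AC.pos (a : AC) : List Pos := a.mem.flatten
def AC.len (a : AC) : ℕ := a.pos.length
def AC.disp (a : AC) : ℤ := dsp a.pos

def encC (J : Bool) (a : AC) : List Ltr :=
  raw a.mem a.x J a.N (ell a.r a.N) (KK a.r a.len a.N) (VV a.r a.N)

def encJ (c : List (Bool × AC)) : List Ltr := c.flatMap (fun p => encC p.1 p.2)

/-- A configuration is a list of groups; joined cells are the members of a group after the first
one. -/
def jg : List AC → List (Bool × AC)
  | [] => []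
  | a :: g => (false, a) :: g.map (fun b => (true, b))

def jl (c : List (List AC)) : List (Bool × AC) := c.flatMap jg

def encG (c : List (List AC)) : List Ltr := encJ (jl c)

/-! ### The abstract shift -/

/-- What is known about the preceding cell: crossed, closed, and whether it joins the present
one. -/
structure CQ where
  px : Bool
  pc : Bool
  jr : Bool
  deriving DecidableEq, Fintype

def tickA (a : AC) : AC := { a with N := a.N + 1 }

def tickG (c : List (List AC)) : List (List AC) := c.map (fun g => g.map tickA)

/-- The cell crosses now. -/
def evA (a : AC) : Bool := !a.x && decide (a.N = th a.r)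

def evG : List AC → Bool
  | [a] => evA a
  | _ => false

def crs (g : List AC) : List AC := g.map (fun a => { a with x := true })

/-- Open group: one crossed cell. -/
def isO : List AC → Bool
  | [a] => a.x
  | _ => false

/-- Closed group. -/
def isG : List AC → Bool
  | _ :: _ :: _ => true
  | _ => false

/-- Process the crossings from left to right; the first argument is the group at the left, already
processed. -/
def crossG : List AC → List (List AC) → List (List AC)
  | L, [] => [L]
  | L, [Y] => [L, Y]
  | L, Y :: R :: c =>
    if evG Y then
      if isO L then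
        if isO R then crossG (L ++ (crs Y ++ R)) c else crossG (L ++ crs Y) (R :: c)
      else if isO R then L :: crossG (crs Y ++ R) c
      else if isG L && isG R then crossG (L ++ crs Y) (R :: c)
      else L :: crossG (crs Y) (R :: c)
    else L :: crossG Y (R :: c)

def crossC : List (List AC) → List (List AC)
  | [] => []
  | g :: c => crossG g c

/-- Formation: a group whose leader has clock `2 * th r` becomes one cell. -/
def formG : List AC → List AC
  | [] => []
  | a :: g =>
    if a.x && decide (a.N = 2 * th a.r) then
      [{ r := a.r + 1, mem := glue ((a :: g).map AC.pos), N := a.N, x := false }]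
    else a :: g

def formC (c : List (List AC)) : List (List AC) := c.map formG

def shG (c : List (List AC)) : List (List AC) := formC (crossC (tickG c))

/-- A plain cell of scale `0`. -/
def pc (b : Bs) : AC := ⟨0, [[⟨b, false, false, []⟩]], 0, false⟩

/-- The configuration of a decorated tree. -/
def cfg : DT → List (List AC)
  | .leaf a => List.replicate a [pc .br] ++ [[pc .lf]]
  | .node l r => [pc .lp] :: (shG (cfg l) ++ cfg r)

/-- Crossings, at the level of cells and join marks. -/
def crossL' (nX nJ nnJ : Bool) (q : CQ) (J : Bool) (a : AC) : CQ × (Bool × AC) :=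
  let ev := evA a
  let rc := nX && nnJ
  let J' := J || q.jr || (ev && ((q.px && !q.pc) || (q.pc && rc)))
  let jr := ev && nX && !rc
  (⟨a.x || ev, (a.x || ev) && (J' || nJ || jr), jr⟩, (J', { a with x := a.x || ev }))

def hX : List (Bool × AC) → Bool
  | [] => false
  | p :: _ => p.2.x

def hJ : List (Bool × AC) → Bool
  | [] => false
  | p :: _ => p.1

def crossL : CQ → List (Bool × AC) → List (Bool × AC)
  | _, [] => []
  | q, (J, a) :: c =>
    (crossL' (hX c) (hJ c) (hJ c.tail) q J a).2 ::
      crossL (crossL' (hX c) (hJ c) (hJ c.tail) q J a).1 c

/-! ### Flags read by the right-to-left scan -/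

/-- `tn` top digit of `n`; `eq`: `k` equals `n` up to the top digit; `co`: complement;
`kz`: `k = 0`; `tr`: only the top stack letter is not `f`; `lz`: the lower digits of `n` vanish;
`room`: there is a letter behind the package. -/
structure Fl where
  tn : ZMod 4
  eq : Bool
  co : Bool
  kz : Bool
  tr : Bool
  lz : Bool
  room : Bool
  deriving DecidableEq

instance : Finite Fl :=
  Finite.of_injective (fun a : Fl => (a.tn, a.eq, a.co, a.kz, a.tr, a.lz, a.room))
    (by intro a b h; cases a; cases b; simp_all)

def fl0 : Fl := ⟨0, false, false, false, false, false, false⟩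

def Fl.upd (μ : ML) (p : Fl) : Fl where
  tn := if μ.top then μ.dn else p.tn
  eq := (if μ.top then decide (μ.dk = 0) else p.eq && decide (μ.dn = μ.dk)) &&
    (!μ.bot || decide (μ.un = μ.uk))
  co := (if μ.top then decide (μ.dk = 0) else p.co && decide (μ.dn + μ.dk = 3)) &&
    (!μ.bot || decide (μ.un + μ.uk = 15))
  kz := (if μ.top then decide (μ.dk = 0) else p.kz && decide (μ.dk = 0)) &&
    (!μ.bot || decide (μ.uk = 0))
  tr := if μ.top then decide (μ.s ≠ .f) else p.tr && decide (μ.s = .f)
  lz := (if μ.top then true else p.lz && decide (μ.dn = 0)) && (!μ.bot || decide (μ.un = 0))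
  room := p.room

def flE (a : Ltr) (p : Fl) : Fl :=
  match a.hd, a.M with
  | .A, _ => fl0
  | _, none => { p with room := true }
  | _, some μ => p.upd μ

/-- Flags at a letter, its own package letter included. -/
def flH (a : Ltr) (p : Fl) : Fl :=
  match a.M with
  | none => p
  | some μ => p.upd μ

/-! ### Carries -/

def nxD (d : ZMod 4) : Mv → Mv
  | .z => .z
  | .p => if d = 3 then .p else .z
  | .n => if d = 0 then .n else .z

def nxU (u : ZMod 16) : Mv → Mv
  | .z => .z
  | .p => if u = 15 then .p else .z
  | .n => if u = 0 then .n else .z

/-- Carry entering the digit `d` of a letter. -/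
def cyU (bot : Bool) (u : ZMod 16) (c : Mv) : Mv := if bot then nxU u c else c

/-- Carry leaving a letter. -/
def cyD (bot : Bool) (u : ZMod 16) (d : ZMod 4) (c : Mv) : Mv := nxD d (cyU bot u c)

def newU (bot : Bool) (u : ZMod 16) (c : Mv) : ZMod 16 := if bot then u + (c.val : ZMod 16) else u

def newD (bot : Bool) (u : ZMod 16) (d : ZMod 4) (c : Mv) : ZMod 4 :=
  d + ((cyU bot u c).val : ZMod 4)

/-! ### Pass 1: decide and update the package -/

def decF (x : Bool) (p : Fl) : Mv :=
  if !x && decide (p.tn = 2) && p.eq && p.room then .p
  else if !x && decide (p.tn = 2) && p.co && !p.kz then .n else .z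

def decB (x : Bool) (p : Fl) : Mv :=
  if !x && decide (p.tn = 2) && p.eq && !p.kz then .n
  else if !x && decide (p.tn = 2) && p.co && p.room then .p else .z

structure UQ where
  x : Bool
  pb : Bs
  c : Mv
  ck : Mv
  ch : Mv
  sc : Bool
  bt : Bool
  deriving DecidableEq

instance : Finite UQ :=
  Finite.of_injective (fun a : UQ => (a.x, a.pb, a.c, a.ck, a.ch, a.sc, a.bt))
    (by intro a b h; cases a; cases b; simp_all)

def uq0 : UQ := ⟨false, .br, .z, .z, .z, false, false⟩

/-- State to be used at the letter `a` (reset at a head, commands issued at the first letter of a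
package). `p` holds the flags and the flag `L` of the next letter. -/
def uIn (dec : Bool → Fl → Mv) (q : UQ) (a : Ltr) (p : Fl × Bool) : UQ :=
  let x := if a.hd = .A then a.X else q.x
  match a.M with
  | none => { q with x := x, c := .z, ck := .z, ch := .z, sc := false, bt := false }
  | some μ =>
    if μ.bot then
      let c := dec x (flH a p.1)
      let pb := if a.hd = .A then .br else q.pb
      { x := x
        pb := pb
        c := c
        ck := c
        ch := (match c with
          | .z => .z
          | .p => a.b.mv
          | .n => pb.mv.neg)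
        sc := decide (c ≠ .z)
        bt := (match c with
          | .z => false
          | .p => p.2
          | .n => a.F) }
    else { q with x := x }

def stkUp (c : Mv) (bt : Bool) (s : S3) : S3 :=
  match c with
  | .z => s
  | .p => if s = .l then .f else if bt then .l else .m
  | .n => if s = .f then .l else if bt then .f else .m

def stkCy (c : Mv) (s : S3) : Bool :=
  match c with
  | .z => false
  | .p => decide (s = .l)
  | .n => decide (s = .f)

def uM (q : UQ) (μ : ML) : ML :=
  { μ with
    uk := newU μ.bot μ.uk q.ck
    dk := newD μ.bot μ.uk μ.dk q.ck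
    uh := newU μ.bot μ.uh q.ch
    dh := newD μ.bot μ.uh μ.dh q.ch
    s := if q.sc then stkUp q.c q.bt μ.s else μ.s
    mv := q.c }

def updM (dec : Bool → Fl → Mv) : BM Ltr Ltr where
  Q := UQ
  P := Fl × Bool
  finQ := inferInstance
  finP := inferInstance
  q0 := uq0
  p0 := (fl0, false)
  d := fun q a p =>
    let i := uIn dec q a p
    match a.M with
    | none => { i with pb := a.b }
    | some μ => { i with
        pb := a.b
        ck := cyD μ.bot μ.uk μ.dk i.ck
        ch := cyD μ.bot μ.uh μ.dh i.ch
        sc := i.sc && stkCy i.c μ.s }
  e := fun a p => (flE a p.1, if a.hd = .A then false else a.L)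
  out := fun q a p => { a with M := a.M.map (uM (uIn dec q a p)) }

/-! ### Pass 2: shift the package according to its tags -/

def shiftM : BM Ltr Ltr where
  Q := Option ML
  P := Option ML
  finQ := inferInstance
  finP := inferInstance
  q0 := none
  p0 := none
  d := fun _ a _ => a.M.filter (fun μ => decide (μ.mv = .p))
  e := fun a _ => if a.hd = .A then none else a.M.filter (fun μ => decide (μ.mv = .n))
  out := fun q a p =>
    { a with M :=
        match (if a.hd = .A then none else q), p with
        | some μ, _ => some { μ with mv := .z }
        | none, some μ => some { μ with mv := .z }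
        | none, none => a.M.filter (fun μ => decide (μ.mv = .z)) }

/-! ### Pass 3: absorb a visible boundary -/

def absorb : BM Ltr Ltr where
  Q := Bool
  P := Unit
  finQ := inferInstance
  finP := inferInstance
  q0 := false
  p0 := ()
  d := fun q a _ =>
    match a.hd with
    | .A => false
    | .V => (match a.M with | some μ => μ.bot | none => false)
    | .H => q && a.S.isSome
  e := fun _ p => p
  out := fun q a _ =>
    match a.hd with
    | .A => a
    | .V => (match a.M with
        | some μ => if μ.bot then { a with hd := .H, S := none } else a
        | none => a)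
    | .H => if q then { a with S := none } else a

/-! ### Pass 4: tick the moving packages -/

structure TQ where
  cn : Mv
  ck : Mv
  ch : Mv
  grow : Bool
  deriving DecidableEq

instance : Finite TQ :=
  Finite.of_injective (fun a : TQ => (a.cn, a.ck, a.ch, a.grow))
    (by intro a b h; cases a; cases b; simp_all)

/-- Carries to be used at a letter. -/
def tIn (δ : Mv) (q : TQ) (μ : ML) : TQ :=
  if μ.bot then ⟨δ, .z, δ, false⟩ else q

def tickM (δ : Mv) : BM Ltr Ltr where
  Q := TQ
  P := Bool
  finQ := inferInstance
  finP := inferInstance
  q0 := ⟨.z, .z, .z, false⟩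
  p0 := false
  d := fun q a _ =>
    match a.M with
    | none => ⟨.z, .z, .z, false⟩
    | some μ =>
      let i := tIn δ q μ
      ⟨cyD μ.bot μ.un μ.dn i.cn, .z, cyD μ.bot μ.uh μ.dh i.ch,
        μ.top && decide (cyD μ.bot μ.un μ.dn i.cn = .p)⟩
  e := fun a _ =>
    match a.hd, a.M with
    | .A, _ => false
    | _, none => false
    | _, some μ => μ.top && !μ.bot && decide (μ.dn = 1)
  out := fun q a p =>
    match a.M with
    | none =>
      if q.grow && decide (a.hd ≠ .A) then
        { a with M := some ⟨0, 0, 0, 1, 0, 1, .f, true, false, .z⟩ }
      else a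
    | some μ =>
      let i := tIn δ q μ
      if μ.top && !μ.bot && decide (μ.dn = 1) && decide (i.cn = .n) then { a with M := none }
      else { a with M := some { μ with
        un := newU μ.bot μ.un i.cn
        dn := newD μ.bot μ.un μ.dn i.cn
        uh := newU μ.bot μ.uh i.ch
        dh := newD μ.bot μ.uh μ.dh i.ch
        top := (μ.top && !decide (cyD μ.bot μ.un μ.dn i.cn = .p)) ||
          (p && decide (cyD μ.bot μ.un μ.dn i.cn = .n)) } }

/-! ### Pass 5: tick the static packages -/

def tickS (δ : Mv) : BM Ltr Ltr where
  Q := Mv
  P := Unit
  finQ := inferInstance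
  finP := inferInstance
  q0 := .z
  p0 := ()
  d := fun q a _ =>
    match a.S with
    | none => .z
    | some σ => cyD (decide (a.hd = .V)) σ.u σ.d (if a.hd = .V then δ else q)
  e := fun _ p => p
  out := fun q a _ =>
    { a with S := a.S.map (fun σ =>
        { σ with
          u := newU (decide (a.hd = .V)) σ.u (if a.hd = .V then δ else q)
          d := newD (decide (a.hd = .V)) σ.u σ.d (if a.hd = .V then δ else q) }) }

/-! ### Pass 6: crossings -/

structure CP where
  fl : Fl
  nX : Bool
  nJ : Bool
  nnJ : Bool
  deriving DecidableEq

instance : Finite CP :=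
  Finite.of_injective (fun a : CP => (a.fl, a.nX, a.nJ, a.nnJ))
    (by intro a b h; cases a; cases b; simp_all)

def cross : BM Ltr Ltr where
  Q := CQ
  P := CP
  finQ := inferInstance
  finP := inferInstance
  q0 := ⟨false, false, false⟩
  p0 := ⟨fl0, false, false, false⟩
  d := fun q a p =>
    if a.hd = .A then
      let ev := !a.X && decide ((flH a p.fl).tn = 1)
      let rc := p.nX && p.nnJ
      let J' := a.J || q.jr || (ev && ((q.px && !q.pc) || (q.pc && rc)))
      let jr := ev && p.nX && !rc
      ⟨a.X || ev, (a.X || ev) && (J' || p.nJ || jr), jr⟩
    else q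
  e := fun a p =>
    if a.hd = .A then ⟨fl0, a.X, a.J, p.nJ⟩ else { p with fl := flE a p.fl }
  out := fun q a p =>
    if a.hd = .A then
      let ev := !a.X && decide ((flH a p.fl).tn = 1)
      let rc := p.nX && p.nnJ
      { a with
        X := a.X || ev
        J := a.J || q.jr || (ev && ((q.px && !q.pc) || (q.pc && rc))) }
    else a

/-! ### Pass 7: formation of groups -/

structure FQ where
  on : Bool
  fst : Bool
  deriving DecidableEq, Fintype

/-- `on`: inside a group that is being formed; `fst`: only the leader of the group has been
seen. -/
def form : BM Ltr Ltr where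
  Q := FQ
  P := Fl × Bool
  finQ := inferInstance
  finP := inferInstance
  q0 := ⟨false, false⟩
  p0 := (fl0, false)
  d := fun q a p =>
    if a.hd = .A then
      (if a.J then ⟨q.on, false⟩
      else ⟨a.X && decide ((flH a p.1).tn = 2), true⟩)
    else q
  e := fun a p => if a.hd = .A then (fl0, a.J) else (flE a p.1, p.2)
  out := fun q a p =>
    if a.hd = .A then
      if a.J then
        (if q.on then
          { a with
            hd := .V, X := false, J := false, F := q.fst, L := !p.2, M := none
            S := a.M.map (fun μ => ⟨μ.un, μ.dn, μ.top⟩) }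
        else a)
      else (if a.X && decide ((flH a p.1).tn = 2) then { a with X := false } else a)
    else
      (if q.on && !q.fst then
        { a with M := none, S := a.M.map (fun μ => ⟨μ.un, μ.dn, μ.top⟩) }
      else a)

/-! ### Inverse passes -/

/-- Dissolve the cells of positive scale which have been formed at this very moment. -/
def dissolve : BM Ltr Ltr where
  Q := Bool
  P := Fl
  finQ := inferInstance
  finP := inferInstance
  q0 := false
  p0 := fl0
  d := fun q a p =>
    if a.hd = .A then (!a.X && decide ((flH a p).tn = 2) && (flH a p).lz) else q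
  e := flE
  out := fun q a p =>
    if a.hd = .A then
      (if !a.X && decide ((flH a p).tn = 2) && (flH a p).lz then { a with X := true } else a)
    else if q then
      (if a.hd = .V then
        { a with
          hd := .A, X := true, J := true, F := false, L := false, S := none
          M := a.S.map (fun σ => ⟨σ.u, 0, σ.u, σ.d, 0, σ.d, .f, σ.top, true, .z⟩) }
      else
        { a with
          S := none
          M := match a.S with
            | some σ => some ⟨σ.u, 0, σ.u, σ.d, 0, σ.d, .f, σ.top, false, .z⟩
            | none => a.M })
    else a

def uncross : BM Ltr Ltr where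
  Q := Bool
  P := Fl
  finQ := inferInstance
  finP := inferInstance
  q0 := false
  p0 := fl0
  d := fun q a p =>
    if a.hd = .A then (a.X && decide ((flH a p).tn = 1) && (flH a p).lz) else q
  e := flE
  out := fun q a p =>
    if a.hd = .A then
      { a with
        X := a.X && !(a.X && decide ((flH a p).tn = 1) && (flH a p).lz)
        J := a.J && !q && !(a.X && decide ((flH a p).tn = 1) && (flH a p).lz) }
    else a

def emDec (x : Bool) (p : Fl) : Bool := !x && decide (p.tn = 2) && p.eq && !p.kz && p.tr

/-- Make visible again the boundary at which the package stands. -/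
def emit : BM Ltr Ltr where
  Q := Bool × Bool
  P := Fl
  finQ := inferInstance
  finP := inferInstance
  q0 := (false, false)
  p0 := fl0
  d := fun q a p =>
    let x := if a.hd = .A then a.X else q.1
    match a.M with
    | none => (x, false)
    | some μ => (x, if μ.bot then emDec x (flH a p) else q.2)
  e := flE
  out := fun q a p =>
    let x := if a.hd = .A then a.X else q.1
    match a.M with
    | none => a
    | some μ =>
      if μ.bot then
        (if emDec x (flH a p) then { a with hd := .V, S := some ⟨μ.uh, μ.dh, μ.top⟩ } else a)
      else (if q.2 then { a with S := some ⟨μ.uh, μ.dh, μ.top⟩ } else a)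

/-! ### The shift and its inverse -/

def Sh (w : List Ltr) : List Ltr :=
  form.eval (cross.eval ((tickS .p).eval ((tickM .p).eval (absorb.eval
    (shiftM.eval ((updM decF).eval w))))))

def Un (w : List Ltr) : List Ltr :=
  (tickS .n).eval ((tickM .n).eval (shiftM.eval ((updM decB).eval (emit.eval
    (uncross.eval (dissolve.eval w))))))

/-- The plain letters. -/
def pl (b : Bs) : Ltr :=
  ⟨b, .A, false, false, false, false, some ⟨0, 0, 0, 0, 0, 0, .f, true, true, .z⟩, none⟩

end TF
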