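import Mathlib
import Pool.Agent.LibTF.Defs

/-! TASK D1: digits, carries and the flags of a package. -/

namespace TF

theorem th_pos (j : ℕ) : 0 < th j := by
  unfold th
  positivity

theorem th_succ (j : ℕ) : th (j + 1) = 4 * th j := by
  unfold th
  ring

theorem D1_th_zero : th 0 = 16 := by
  unfold th
  norm_num

theorem dg_zero_of_lt {x : ℤ} {j : ℕ} (h0 : 0 ≤ x) (h : x < th j) : dg x j = 0 := by
  unfold dg
  rw [Int.ediv_eq_zero_of_lt h0 h]
  simp

/-- Equality of casts. -/
theorem D1_cast4 (a b : ℤ) : ((a : ZMod 4) = (b : ZMod 4)) ↔ a % 4 = b % 4 := by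
  have := ZMod.intCast_eq_intCast_iff a b 4
  rw [this]
  rfl

theorem D1_cast16 (a b : ℤ) : ((a : ZMod 16) = (b : ZMod 16)) ↔ a % 16 = b % 16 := by
  have := ZMod.intCast_eq_intCast_iff a b 16
  rw [this]
  rfl

theorem D1_nxD (a b : ℤ) (c : Mv) (hc : c.val = b - a) :
    (nxD (a : ZMod 4) c).val = b / 4 - a / 4 := by
  cases c with
  | z =>
    simp only [nxD, Mv.val] at *
    have : b = a := by linarith
    subst this
    simp
  | p =>
    simp only [nxD]
    have h3 : ((a : ZMod 4) = 3) ↔ a % 4 = 3 := by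
      have := D1_cast4 a 3
      simpa using this
    simp only [Mv.val] at hc
    by_cases h : a % 4 = 3
    · rw [if_pos (h3.2 h)]
      simp only [Mv.val]
      omega
    · rw [if_neg (fun h' => h (h3.1 h'))]
      simp only [Mv.val]
      omega
  | n =>
    simp only [nxD]
    have h3 : ((a : ZMod 4) = 0) ↔ a % 4 = 0 := by
      have := D1_cast4 a 0
      simpa using this
    simp only [Mv.val] at hc
    by_cases h : a % 4 = 0
    · rw [if_pos (h3.2 h)]
      simp only [Mv.val]
      omega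
    · rw [if_neg (fun h' => h (h3.1 h'))]
      simp only [Mv.val]
      omega

theorem D1_nxU (a b : ℤ) (c : Mv) (hc : c.val = b - a) :
    (nxU (a : ZMod 16) c).val = b / 16 - a / 16 := by
  cases c with
  | z =>
    simp only [nxU, Mv.val] at *
    have : b = a := by linarith
    subst this
    simp
  | p =>
    simp only [nxU]
    have h3 : ((a : ZMod 16) = 15) ↔ a % 16 = 15 := by
      have := D1_cast16 a 15
      simpa using this
    simp only [Mv.val] at hc
    by_cases h : a % 16 = 15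
    · rw [if_pos (h3.2 h)]
      simp only [Mv.val]
      omega
    · rw [if_neg (fun h' => h (h3.1 h'))]
      simp only [Mv.val]
      omega
  | n =>
    simp only [nxU]
    have h3 : ((a : ZMod 16) = 0) ↔ a % 16 = 0 := by
      have := D1_cast16 a 0
      simpa using this
    simp only [Mv.val] at hc
    by_cases h : a % 16 = 0
    · rw [if_pos (h3.2 h)]
      simp only [Mv.val]
      omega
    · rw [if_neg (fun h' => h (h3.1 h'))]
      simp only [Mv.val]
      omega

theorem D1_div_succ (x : ℤ) (j : ℕ) : x / th (j + 1) = x / th j / 4 := by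
  rw [th_succ, mul_comm, Int.ediv_ediv_of_nonneg (th_pos j).le]

/-- Adding a carry to a later letter of a number. -/
theorem add_mid (x y : ℤ) (j : ℕ) (c : Mv) (hc : c.val = y / th j - x / th j) (u : ZMod 16) :
    newU false u c = u ∧
    newD false u (dg x j) c = dg y j ∧
    (cyD false u (dg x j) c).val = y / th (j + 1) - x / th (j + 1) := by
  refine ⟨rfl, ?_, ?_⟩
  · simp only [newD, cyU, dg]
    rw [if_neg (by simp), hc]
    push_cast
    ring
  · simp only [cyD, cyU, dg]
    rw [if_neg (by simp), D1_nxD _ (y / th j) c hc, D1_div_succ, D1_div_succ]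

/-- Adding a carry to the first letter of a number. -/
theorem add_bot (x : ℤ) (c : Mv) :
    newU true (ug x) c = ug (x + c.val) ∧
    newD true (ug x) (dg x 0) c = dg (x + c.val) 0 ∧
    (cyD true (ug x) (dg x 0) c).val = (x + c.val) / th 1 - x / th 1 := by
  have hU : (nxU (ug x) c).val = (x + c.val) / th 0 - x / th 0 := by
    rw [D1_th_zero]
    exact D1_nxU x (x + c.val) c (by ring)
  have hm := add_mid x (x + c.val) 0 (nxU (ug x) c) hU (ug x)
  refine ⟨?_, ?_, ?_⟩
  · simp only [newU, ug, if_true]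
    push_cast
    rfl
  · have := hm.2.1
    simp only [newD, cyU] at this ⊢
    simpa using this
  · have := hm.2.2
    simp only [cyD, cyU] at this ⊢
    simpa using this

/-- The letters of a package. -/
def pkgL (l : ℕ) (n k h : ℤ) (s : ℕ → S3) : List ML :=
  (List.range l).map (fun j => mlet l j n k h s .z)

/-- Letters `i, ..., l - 1` of a package. -/
def D1_suf (l i : ℕ) (n k h : ℤ) (s : ℕ → S3) : List ML :=
  (List.range' i (l - i)).map (fun j => mlet l j n k h s .z)

theorem D1_suf_zero (l : ℕ) (n k h : ℤ) (s : ℕ → S3) : D1_suf l 0 n k h s = pkgL l n k h s := by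
  simp [D1_suf, pkgL, List.range_eq_range']

theorem D1_suf_cons (l i : ℕ) (hi : i < l) (n k h : ℤ) (s : ℕ → S3) :
    D1_suf l i n k h s = mlet l i n k h s .z :: D1_suf l (i + 1) n k h s := by
  unfold D1_suf
  have h1 : l - i = (l - (i + 1)) + 1 := by omega
  rw [h1, List.range'_succ, List.map_cons]

theorem D1_suf_nil (l : ℕ) (n k h : ℤ) (s : ℕ → S3) : D1_suf l l n k h s = [] := by
  simp [D1_suf]

theorem D1_p3 (A B a u : Prop) : (((A ∧ B) ∧ a) ∧ u ↔ ((a ∧ A) ∧ u) ∧ B) := by tauto
theorem D1_p4 (A B a : Prop) : ((A ∧ B) ∧ a ↔ (a ∧ A) ∧ B) := by tauto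
theorem D1_p5 (A B a : Prop) : ((B ∧ A) ∧ a ↔ B ∧ a ∧ A) := by tauto
theorem D1_p6 (A B u : Prop) : ((A ∧ u) ∧ B ↔ (u ∧ A) ∧ B) := by tauto

theorem D1_flags_suf (l : ℕ) (n k h : ℤ) (s : ℕ → S3) (p : Fl) (m : ℕ) :
    ∀ i, i + m + 1 = l →
    ((D1_suf l i n k h s).foldr Fl.upd p).tn = dg n (l - 1) ∧
    ((D1_suf l i n k h s).foldr Fl.upd p).room = p.room ∧
    (((D1_suf l i n k h s).foldr Fl.upd p).kz = true ↔
      (∀ j, i ≤ j → j < l → dg k j = 0) ∧ (i = 0 → ug k = 0)) ∧
    (((D1_suf l i n k h s).foldr Fl.upd p).lz = true ↔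
      (∀ j, i ≤ j → j + 1 < l → dg n j = 0) ∧ (i = 0 → ug n = 0)) ∧
    (((D1_suf l i n k h s).foldr Fl.upd p).eq = true ↔
      ((∀ j, i ≤ j → j + 1 < l → dg n j = dg k j) ∧ (i = 0 → ug n = ug k)) ∧ dg k (l - 1) = 0) ∧
    (((D1_suf l i n k h s).foldr Fl.upd p).co = true ↔
      ((∀ j, i ≤ j → j + 1 < l → dg n j + dg k j = 3) ∧ (i = 0 → ug n + ug k = 15)) ∧
        dg k (l - 1) = 0) ∧
    (((D1_suf l i n k h s).foldr Fl.upd p).tr = true ↔
      s (l - 1) ≠ .f ∧ ∀ j, i ≤ j → j + 1 < l → s j = .f) := by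
  induction m with
  | zero =>
    intro i hi
    have hl : l = i + 1 := by omega
    subst hl
    rw [D1_suf_cons _ _ (by omega), D1_suf_nil]
    simp only [List.foldr_cons, List.foldr_nil, Fl.upd, mlet]
    have hvac : ∀ q : ℕ → Prop, (∀ j, i ≤ j → j + 1 < i + 1 → q j) ↔ True := by
      intro q
      constructor
      · intro _; trivial
      · intro _ j h1 h2; omega
    have hone : ∀ q : ℕ → Prop, (∀ j, i ≤ j → j < i + 1 → q j) ↔ q i := by
      intro q
      constructor
      · intro hq; exact hq i le_rfl (by omega)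
      · intro hq j h1 h2
        have : j = i := by omega
        subst this
        exact hq
    simp only [hvac, hone, Nat.add_sub_cancel]
    by_cases h0 : i = 0
    · subst h0
      simp
      tauto
    · simp [h0]
  | succ m ih =>
    intro i hi
    have IH := ih (i + 1) (by omega)
    obtain ⟨htn, hroom, hkz, hlz, heq, hco, htr⟩ := IH
    rw [D1_suf_cons _ _ (by omega)]
    simp only [List.foldr_cons]
    set g := (D1_suf l (i + 1) n k h s).foldr Fl.upd p with hg
    have htop : decide (i + 1 = l) = false := by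
      apply decide_eq_false
      omega
    have hstep : ∀ q : ℕ → Prop, (∀ j, i ≤ j → j + 1 < l → q j) ↔
        q i ∧ (∀ j, i + 1 ≤ j → j + 1 < l → q j) := by
      intro q
      constructor
      · intro hq
        exact ⟨hq i le_rfl (by omega), fun j h1 h2 => hq j (by omega) h2⟩
      · rintro ⟨h1, h2⟩ j h3 h4
        rcases Nat.eq_or_lt_of_le h3 with h5 | h5
        · subst h5; exact h1
        · exact h2 j h5 h4
    have hstep' : ∀ q : ℕ → Prop, (∀ j, i ≤ j → j < l → q j) ↔
        q i ∧ (∀ j, i + 1 ≤ j → j < l → q j) := by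
      intro q
      constructor
      · intro hq
        exact ⟨hq i le_rfl (by omega), fun j h1 h2 => hq j (by omega) h2⟩
      · rintro ⟨h1, h2⟩ j h3 h4
        rcases Nat.eq_or_lt_of_le h3 with h5 | h5
        · subst h5; exact h1
        · exact h2 j h5 h4
    simp only [Fl.upd, mlet, htop, hstep, hstep', htn, hroom, Bool.and_eq_true, hkz, hlz, heq,
      hco, htr, decide_eq_true_eq, Bool.or_eq_true, Bool.not_eq_true', decide_eq_false_iff_not,
      if_false, Bool.false_eq_true, Nat.succ_ne_zero, false_imp_iff, and_true, true_and]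
    by_cases h0 : i = 0
    · subst h0
      simp
      exact ⟨fun _ => and_comm, fun _ => and_comm, D1_p3 _ _ _ _, D1_p3 _ _ _ _, D1_p5 _ _ _⟩
    · simp [h0]
      exact ⟨and_comm, and_comm, D1_p4 _ _ _, D1_p4 _ _ _, D1_p5 _ _ _⟩

theorem D1_mod_step (x y T : ℤ) (hT : 0 < T) :
    x % (4 * T) = y % (4 * T) ↔ x % T = y % T ∧ (x / T) % 4 = (y / T) % 4 := by
  have key : ∀ z : ℤ, z % (4 * T) = z % T + T * ((z / T) % 4) := by
    intro z
    have h1 : z / (4 * T) = z / T / 4 := by
      rw [mul_comm, Int.ediv_ediv_of_nonneg hT.le]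
    have h2 := Int.emod_add_mul_ediv z (4 * T)
    have h3 := Int.emod_add_mul_ediv z T
    have h4 := Int.emod_add_mul_ediv (z / T) 4
    rw [h1] at h2
    have h5 : z % (4 * T) = z - 4 * T * (z / T / 4) := by linarith
    rw [h5]
    have h6 : z / T = (z / T) % 4 + 4 * (z / T / 4) := by linarith
    have h7 : T * (z / T) = T * ((z / T) % 4) + 4 * T * (z / T / 4) := by
      conv_lhs => rw [h6]
      ring
    linarith
  constructor
  · intro h
    have h1 : x % T = y % T := by
      have e1 : x % (4 * T) % T = x % T := Int.emod_emod_of_dvd x (Dvd.intro_left 4 rfl)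
      have e2 : y % (4 * T) % T = y % T := Int.emod_emod_of_dvd y (Dvd.intro_left 4 rfl)
      rw [← e1, ← e2, h]
    refine ⟨h1, ?_⟩
    rw [key x, key y, h1] at h
    have h2 : T * ((x / T) % 4) = T * ((y / T) % 4) := by linarith
    exact mul_left_cancel₀ hT.ne' h2
  · rintro ⟨h1, h2⟩
    rw [key x, key y, h1, h2]

theorem D1_eq_iff (x y : ℤ) (m : ℕ) :
    (x - y) % th m = 0 ↔ (ug x = ug y ∧ ∀ j, j < m → dg x j = dg y j) := by
  rw [← Int.emod_eq_emod_iff_emod_sub_eq_zero]
  induction m with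
  | zero =>
    rw [D1_th_zero]
    unfold ug
    rw [D1_cast16]
    simp
  | succ m ih =>
    rw [th_succ, D1_mod_step x y (th m) (th_pos m), ih]
    have hd : (x / th m) % 4 = (y / th m) % 4 ↔ dg x m = dg y m := by
      unfold dg
      rw [D1_cast4]
    rw [hd]
    constructor
    · rintro ⟨⟨h1, h2⟩, h3⟩
      refine ⟨h1, fun j hj => ?_⟩
      rcases Nat.eq_or_lt_of_le (Nat.lt_succ_iff.1 hj) with h5 | h5
      · subst h5; exact h3
      · exact h2 j h5
    · rintro ⟨h1, h2⟩
      exact ⟨⟨h1, fun j hj => h2 j (by omega)⟩, h2 m (by omega)⟩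

theorem D1_zero_iff (x : ℤ) (m : ℕ) :
    x % th m = 0 ↔ (ug x = 0 ∧ ∀ j, j < m → dg x j = 0) := by
  have := D1_eq_iff x 0 m
  simpa [ug, dg] using this

theorem D1_neg_div (k T : ℤ) (hT : 0 < T) : (-1 - k) / T = -1 - k / T := by
  have h1 := Int.emod_add_mul_ediv k T
  have h2 := Int.emod_nonneg k hT.ne'
  have h3 := Int.emod_lt_of_pos k hT
  have : -1 - k = (T - 1 - k % T) + T * (-1 - k / T) := by
    have : T * (-1 - k / T) = -T - T * (k / T) := by ring
    rw [this]
    linarith
  rw [this, Int.add_mul_ediv_left _ _ hT.ne',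
    Int.ediv_eq_zero_of_lt (by linarith) (by linarith)]
  ring

theorem D1_co_iff (n k : ℤ) (m : ℕ) :
    (n + k + 1) % th m = 0 ↔ (ug n + ug k = 15 ∧ ∀ j, j < m → dg n j + dg k j = 3) := by
  have h := D1_eq_iff n (-1 - k) m
  have e : n - (-1 - k) = n + k + 1 := by ring
  rw [e] at h
  rw [h]
  have hu : ug n = ug (-1 - k) ↔ ug n + ug k = 15 := by
    unfold ug
    push_cast
    have : (15 : ZMod 16) = -1 := by decide
    rw [this]
    constructor
    · intro h; rw [h]; ring
    · intro h; rw [← h]; ring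
  have hd : ∀ j, dg n j = dg (-1 - k) j ↔ dg n j + dg k j = 3 := by
    intro j
    unfold dg
    rw [D1_neg_div k (th j) (th_pos j)]
    push_cast
    have : (3 : ZMod 4) = -1 := by decide
    rw [this]
    constructor
    · intro h; rw [h]; ring
    · intro h; rw [← h]; ring
  rw [hu]
  simp only [hd]

theorem pkg_flags (l : ℕ) (hl : 1 ≤ l) (n k h : ℤ) (s : ℕ → S3) (p : Fl) :
    ((pkgL l n k h s).foldr Fl.upd p).tn = dg n (l - 1) ∧
    ((pkgL l n k h s).foldr Fl.upd p).room = p.room ∧
    (((pkgL l n k h s).foldr Fl.upd p).kz = true ↔ k % th l = 0) ∧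
    (((pkgL l n k h s).foldr Fl.upd p).lz = true ↔ n % th (l - 1) = 0) ∧
    (((pkgL l n k h s).foldr Fl.upd p).eq = true ↔
      (n - k) % th (l - 1) = 0 ∧ dg k (l - 1) = 0) ∧
    (((pkgL l n k h s).foldr Fl.upd p).co = true ↔
      (n + k + 1) % th (l - 1) = 0 ∧ dg k (l - 1) = 0) ∧
    (((pkgL l n k h s).foldr Fl.upd p).tr = true ↔
      s (l - 1) ≠ .f ∧ ∀ j < l - 1, s j = .f) := by
  have H := D1_flags_suf l n k h s p (l - 1) 0 (by omega)
  rw [D1_suf_zero] at H
  obtain ⟨htn, hroom, hkz, hlz, heq, hco, htr⟩ := H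
  have hj : ∀ j : ℕ, j + 1 < l ↔ j < l - 1 := by intro j; omega
  refine ⟨htn, hroom, ?_, ?_, ?_, ?_, ?_⟩
  · rw [hkz, D1_zero_iff]
    simp only [Nat.zero_le, true_imp_iff]
    exact and_comm
  · rw [hlz, D1_zero_iff]
    simp only [Nat.zero_le, true_imp_iff, hj]
    exact and_comm
  · rw [heq, D1_eq_iff]
    simp only [Nat.zero_le, true_imp_iff, hj]
    exact D1_p6 _ _ _
  · rw [hco, D1_co_iff]
    simp only [Nat.zero_le, true_imp_iff, hj]
    exact D1_p6 _ _ _
  · rw [htr]
    simp only [Nat.zero_le, true_imp_iff, hj]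

end TF
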