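import Mathlib
import Pool.Agent.LibTF.D1

/-! TASK D2: the passes `updM` and `shiftM` on a block. -/

namespace TF

/-- A block: the first letter is an active head, the others are not. -/
def Blk (w : List Ltr) : Prop := ∃ a u, w = a :: u ∧ a.hd = .A ∧ ∀ b ∈ u, b.hd ≠ .A

/-- Update of the stack: `c = p` crosses a boundary with flag `L = bt` to the right, `c = n`
crosses a boundary with flag `F = bt` to the left. -/
def stkF (c : Mv) (bt : Bool) (s : ℕ → S3) (j : ℕ) : S3 :=
  if c ≠ .z ∧ ∀ i < j, stkCy c (s i) = true then stkUp c bt (s j) else s j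

def hX1 (w : List Ltr) : Bool := (w.head?.map Ltr.X).getD false

/-- Right-to-left flags behind the package. -/
def roomFl (l K : ℕ) (w : List Ltr) : Fl :=
  if K + l < w.length then { fl0 with room := true } else fl0

def stepAt (w : List Ltr) (K : ℕ) : ℤ := (w[K]?.map (fun a => a.b.step)).getD 0
def LAt (w : List Ltr) (K : ℕ) : Bool := (w[K]?.map Ltr.L).getD false
def FAt (w : List Ltr) (K : ℕ) : Bool := (w[K]?.map Ltr.F).getD false

def chOf (c : Mv) (K : ℕ) (w : List Ltr) : ℤ :=
  match c with
  | .z => 0
  | .p => stepAt w K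
  | .n => - stepAt w (K - 1)

def btOf (c : Mv) (K : ℕ) (w : List Ltr) : Bool :=
  match c with
  | .z => false
  | .p => LAt w (K + 1)
  | .n => FAt w K

/-! ### Run certificates -/

theorem D2_cert {A B : Type} (m : BM A B) (w : List A) (v : List B)
    (hlen : v.length = w.length) (IS : ℕ → m.Q → Prop) (IR : ℕ → m.P → Prop)
    (h0 : IS 0 m.q0) (hp : IR w.length m.p0)
    (hR : ∀ i (h : i < w.length) p, IR (i + 1) p → IR i (m.e w[i] p))
    (hS : ∀ i (h : i < w.length) q p, IS i q → IR (i + 1) p →
      IS (i + 1) (m.d q w[i] p) ∧ v[i]? = some (m.out q w[i] p)) :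
    m.eval w = v := by
  have hRall : ∀ j, ∀ i, i + j = w.length → IR i ((w.drop i).foldr m.e m.p0) := by
    intro j
    induction j with
    | zero =>
      intro i hi
      have : i = w.length := by omega
      subst this
      simpa using hp
    | succ j ih =>
      intro i hi
      have hlt : i < w.length := by omega
      rw [List.drop_eq_getElem_cons hlt]
      simp only [List.foldr_cons]
      exact hR i hlt _ (ih (i + 1) (by omega))
  have key : ∀ j, ∀ i q, i + j = w.length → IS i q →
      m.run q (w.drop i) m.p0 = v.drop i := by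
    intro j
    induction j with
    | zero =>
      intro i q hi _
      have : i = w.length := by omega
      subst this
      rw [List.drop_length, ← hlen, List.drop_length]
      rfl
    | succ j ih =>
      intro i q hi hq
      have hlt : i < w.length := by omega
      have hlt' : i < v.length := by omega
      have hstep := hS i hlt q _ hq (hRall j (i + 1) (by omega))
      rw [List.drop_eq_getElem_cons hlt, List.drop_eq_getElem_cons hlt']
      simp only [BM.run]
      rw [ih (i + 1) _ (by omega) hstep.1]
      have h2 := hstep.2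
      rw [List.getElem?_eq_getElem hlt'] at h2
      rw [Option.some.inj h2]
  have := key w.length 0 m.q0 (by omega) h0
  simpa [BM.eval] using this

theorem D2_putM_length (l K : ℕ) (n k h : ℤ) (s : ℕ → S3) (mv : Mv) (w : List Ltr) :
    (putM l K n k h s mv w).length = w.length := by
  simp [putM]

theorem D2_putM_getElem (l K : ℕ) (n k h : ℤ) (s : ℕ → S3) (mv : Mv) (w : List Ltr) (i : ℕ)
    (hi' : i < w.length) (hi : i < (putM l K n k h s mv w).length) :
    (putM l K n k h s mv w)[i] = { w[i] with
      M := if K ≤ i ∧ i < K + l then some (mlet l (i - K) n k h s mv) else none } := by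
  simp [putM]

theorem D2_putM_getElem? (l K : ℕ) (n k h : ℤ) (s : ℕ → S3) (mv : Mv) (w : List Ltr) (i : ℕ)
    (hi : i < w.length) :
    (putM l K n k h s mv w)[i]? = some { w[i] with
      M := if K ≤ i ∧ i < K + l then some (mlet l (i - K) n k h s mv) else none } := by
  rw [List.getElem?_eq_getElem (by rw [D2_putM_length]; exact hi),
    D2_putM_getElem _ _ _ _ _ _ _ _ _ hi]

theorem D2_filt (l j : ℕ) (n k h : ℤ) (s : ℕ → S3) (mv mv' : Mv) :
    (some (mlet l j n k h s mv)).filter (fun μ => decide (μ.mv = mv')) =
      if mv = mv' then some (mlet l j n k h s mv) else none := by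
  by_cases hm : mv = mv'
  · subst hm
    simp [Option.filter, mlet]
  · simp [Option.filter, mlet, hm]

def D2_chIn (c : Mv) (ab pb : Bs) : Mv :=
  match c with
  | .z => .z
  | .p => ab.mv
  | .n => pb.mv.neg

def D2_btIn (c : Mv) (L F : Bool) : Bool :=
  match c with
  | .z => false
  | .p => L
  | .n => F

theorem D2_blk_head {w : List Ltr} (hw : Blk w) (h : 0 < w.length) : w[0].hd = .A := by
  obtain ⟨a, u, rfl, ha, -⟩ := hw
  simpa using ha

theorem D2_blk_tail {w : List Ltr} (hw : Blk w) (i : ℕ) (hi : i < w.length) (h1 : 1 ≤ i) :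
    w[i].hd ≠ .A := by
  obtain ⟨a, u, rfl, ha, hu⟩ := hw
  obtain ⟨j, rfl⟩ : ∃ j, i = j + 1 := ⟨i - 1, by omega⟩
  simp only [List.getElem_cons_succ]
  exact hu _ (List.getElem_mem _)

theorem D2_blk_X {w : List Ltr} (hw : Blk w) (h : 0 < w.length) : w[0].X = hX1 w := by
  obtain ⟨a, u, rfl, ha, -⟩ := hw
  simp [hX1]

theorem D2_LAt_ge (w : List Ltr) (i : ℕ) (hi : w.length ≤ i) : LAt w i = false := by
  simp [LAt, List.getElem?_eq_none hi]

theorem D2_LAt_lt (w : List Ltr) (i : ℕ) (hi : i < w.length) : LAt w i = w[i].L := by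
  simp [LAt, hi]

theorem D2_FAt_lt (w : List Ltr) (i : ℕ) (hi : i < w.length) : FAt w i = w[i].F := by
  simp [FAt, hi]

theorem D2_stepAt_lt (w : List Ltr) (i : ℕ) (hi : i < w.length) :
    stepAt w i = w[i].b.step := by
  simp [stepAt, hi]

theorem D2_mv_val (b : Bs) : b.mv.val = b.step := by
  cases b <;> rfl

theorem D2_neg_val (b : Bs) : b.mv.neg.val = - b.step := by
  cases b <;> rfl

/-- Invariant of the right-to-left scan of `updM`. -/
def D2_IR (w : List Ltr) (l K : ℕ) (n k h : ℤ) (s : ℕ → S3) (i : ℕ) (p : Fl × Bool) : Prop :=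
  1 ≤ i → p.2 = LAt w i ∧
    (K + l ≤ i → p.1 = if i < w.length then { fl0 with room := true } else fl0) ∧
    (K ≤ i → i ≤ K + l → p.1 = (D1_suf l (i - K) n k h s).foldr Fl.upd (roomFl l K w))

/-- Invariant of the left-to-right scan of `updM`. -/
def D2_IS (w : List Ltr) (l K : ℕ) (k h : ℤ) (s : ℕ → S3) (c : Mv) (i : ℕ) (q : UQ) : Prop :=
  (i = 0 → q = uq0) ∧
  (1 ≤ i → q.x = hX1 w ∧ w[i - 1]?.map Ltr.b = some q.pb ∧
    (K < i → i < K + l →
      q.c = c ∧ q.ck.val = (k + c.val) / th (i - K) - k / th (i - K) ∧
      q.ch.val = (h + chOf c K w) / th (i - K) - h / th (i - K) ∧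
      (q.sc = true ↔ (c ≠ .z ∧ ∀ j < i - K, stkCy c (s j) = true)) ∧ q.bt = btOf c K w))

theorem D2_updM_R (dec : Bool → Fl → Mv) (w : List Ltr) (hw : Blk w) (l K : ℕ) (hl : 1 ≤ l)
    (hK : K + l ≤ w.length) (n k h : ℤ) (s : ℕ → S3) (i : ℕ)
    (hi : i < (putM l K n k h s .z w).length) (p : Fl × Bool)
    (hp : D2_IR w l K n k h s (i + 1) p) :
    D2_IR w l K n k h s i ((updM dec).e (putM l K n k h s .z w)[i] p) := by
  intro h1
  have hi' : i < w.length := by simpa [putM] using hi
  obtain ⟨-, hp1, hp2⟩ := hp (by omega)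
  have hA := D2_blk_tail hw i hi' h1
  rw [D2_putM_getElem _ _ _ _ _ _ _ _ _ hi']
  refine ⟨?_, ?_, ?_⟩
  · simp only [updM, if_neg hA]
    rw [D2_LAt_lt w i hi']
  · intro hge
    have hno : ¬ (K ≤ i ∧ i < K + l) := by omega
    simp only [updM, if_neg hno, if_pos hi', flE]
    rw [hp1 (by omega)]
    cases hd : w[i].hd with
    | A => exact absurd hd hA
    | V =>
      simp only
      split_ifs <;> rfl
    | H =>
      simp only
      split_ifs <;> rfl
  · intro hge hle
    rcases Nat.lt_or_ge i (K + l) with hlt | hge'
    · have hyes : (K ≤ i ∧ i < K + l) := ⟨hge, hlt⟩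
      simp only [updM, if_pos hyes, flE]
      rw [hp2 (by omega) (by omega)]
      rw [D1_suf_cons l (i - K) (by omega)]
      have : i + 1 - K = i - K + 1 := by omega
      rw [this]
      cases hd : w[i].hd with
      | A => exact absurd hd hA
      | V => rfl
      | H => rfl
    · have : i = K + l := by omega
      subst this
      have hno : ¬ (K ≤ K + l ∧ K + l < K + l) := by omega
      simp only [updM, if_neg hno, flE]
      rw [hp1 (by omega)]
      have e1 : K + l - K = l := by omega
      rw [e1, D1_suf_nil]
      simp only [List.foldr_nil, roomFl, if_pos hi']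
      cases hd : w[K + l].hd with
      | A => exact absurd hd hA
      | V => split_ifs <;> rfl
      | H => split_ifs <;> rfl

theorem D2_add (x y : ℤ) (j : ℕ) (c : Mv) (h0 : j = 0 → y = x + c.val)
    (h1 : 1 ≤ j → c.val = y / th j - x / th j) :
    newU (decide (j = 0)) (if j = 0 then ug x else 0) c = (if j = 0 then ug y else 0) ∧
    newD (decide (j = 0)) (if j = 0 then ug x else 0) (dg x j) c = dg y j ∧
    (cyD (decide (j = 0)) (if j = 0 then ug x else 0) (dg x j) c).val =
      y / th (j + 1) - x / th (j + 1) := by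
  by_cases hj : j = 0
  · subst hj
    have hy := h0 rfl
    subst hy
    simpa using add_bot x c
  · have := add_mid x y j c (h1 (by omega)) 0
    simpa [hj] using this

/-- What is known about the state used at a letter of the package. -/
def D2_In (w : List Ltr) (K : ℕ) (k h : ℤ) (s : ℕ → S3) (c : Mv) (j : ℕ) (q : UQ) : Prop :=
  q.x = hX1 w ∧ q.c = c ∧ (j = 0 → k + c.val = k + q.ck.val) ∧
  (1 ≤ j → q.ck.val = (k + c.val) / th j - k / th j) ∧
  (j = 0 → h + chOf c K w = h + q.ch.val) ∧
  (1 ≤ j → q.ch.val = (h + chOf c K w) / th j - h / th j) ∧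
  (q.sc = true ↔ (c ≠ .z ∧ ∀ i < j, stkCy c (s i) = true)) ∧ q.bt = btOf c K w

theorem D2_uM_eq (w : List Ltr) (l K j : ℕ) (n k h : ℤ) (s : ℕ → S3) (c : Mv) (q : UQ)
    (hq : D2_In w K k h s c j q) :
    uM q (mlet l j n k h s .z) =
      mlet l j n (k + c.val) (h + chOf c K w) (stkF c (btOf c K w) s) c := by
  obtain ⟨hx, hqc, hk0, hk1, hh0, hh1, hsc, hbt⟩ := hq
  have hk := D2_add k (k + c.val) j q.ck hk0 hk1
  have hh := D2_add h (h + chOf c K w) j q.ch hh0 hh1
  simp only [uM, mlet, ML.mk.injEq]
  refine ⟨trivial, hk.1, hh.1, trivial, hk.2.1, hh.2.1, ?_, trivial, trivial, hqc⟩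
  unfold stkF
  rw [hqc, hbt]
  by_cases h0 : q.sc = true
  · rw [if_pos h0, if_pos (hsc.1 h0)]
  · rw [if_neg h0, if_neg (fun h => h0 (hsc.2 h))]

theorem D2_updM_S (dec : Bool → Fl → Mv) (w : List Ltr) (hw : Blk w) (l K : ℕ) (hl : 1 ≤ l)
    (hK : K + l ≤ w.length) (n k h : ℤ) (s : ℕ → S3) (c : Mv)
    (hc : c = dec (hX1 w) ((pkgL l n k h s).foldr Fl.upd (roomFl l K w)))
    (h1 : c = .n → 1 ≤ K) (i : ℕ)
    (hi : i < (putM l K n k h s .z w).length) (q : UQ) (p : Fl × Bool)
    (hq : D2_IS w l K k h s c i q)
    (hp : D2_IR w l K n k h s (i + 1) p) :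
    D2_IS w l K k h s c (i + 1) ((updM dec).d q (putM l K n k h s .z w)[i] p) ∧
      (putM l K n (k + c.val) (h + chOf c K w) (stkF c (btOf c K w) s) c w)[i]? =
        some ((updM dec).out q (putM l K n k h s .z w)[i] p) := by
  have hi' : i < w.length := by simpa [putM] using hi
  have hx : (if w[i].hd = .A then w[i].X else q.x) = hX1 w := by
    rcases Nat.eq_zero_or_pos i with h0 | hpos
    · subst h0
      rw [if_pos (D2_blk_head hw hi'), D2_blk_X hw hi']
    · rw [if_neg (D2_blk_tail hw i hi' hpos)]
      exact (hq.2 hpos).1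
  obtain ⟨hpL, hp1, hp2⟩ := hp (by omega)
  rw [D2_putM_getElem _ _ _ _ _ _ _ _ _ hi', D2_putM_getElem? _ _ _ _ _ _ _ _ _ hi']
  by_cases hin : K ≤ i ∧ i < K + l
  · simp only [if_pos hin]
    set a : Ltr := { w[i] with M := some (mlet l (i - K) n k h s .z) } with ha
    have hIn : D2_In w K k h s c (i - K) (uIn dec q a p) := by
      by_cases hiK : i = K
      · have hj : i - K = 0 := by omega
        have hfl : flH a p.1 = (pkgL l n k h s).foldr Fl.upd (roomFl l K w) := by
          rw [ha]
          simp only [flH]
          rw [hp2 (by omega) (by omega), hj]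
          have : i + 1 - K = 0 + 1 := by omega
          rw [this, ← D1_suf_zero, D1_suf_cons l 0 (by omega)]
          rfl
        have hcc : dec (hX1 w) (flH a p.1) = c := by
          rw [hfl, hc]
        have hx' : (if a.hd = .A then a.X else q.x) = hX1 w := hx
        have hu : uIn dec q a p = ⟨hX1 w, (if a.hd = .A then .br else q.pb), c, c,
            D2_chIn c a.b (if a.hd = .A then Bs.br else q.pb), decide (c ≠ .z),
            D2_btIn c p.2 a.F⟩ := by
          have hb : (mlet l (i - K) n k h s .z).bot = true := by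
            simp [mlet, hj]
          have hM : a.M = some (mlet l (i - K) n k h s .z) := rfl
          unfold uIn
          simp only [hM, hb, if_true, hcc, hx']
          rfl
        rw [hu, hj]
        refine ⟨rfl, rfl, fun _ => rfl, fun h => by omega, fun _ => ?_, fun h => by omega, ?_, ?_⟩
        · simp only
          congr 1
          cases c with
          | z => rfl
          | p =>
            simp only [chOf, D2_chIn]
            rw [D2_mv_val, D2_stepAt_lt w K (by omega)]
            have : a.b = w[K].b := by
              rw [ha]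
              simp only [hiK]
            rw [this]
          | n =>
            simp only [chOf, D2_chIn]
            have hK1 := h1 rfl
            have hnA : ¬ a.hd = .A := by
              rw [ha]
              exact D2_blk_tail hw i hi' (by omega)
            rw [if_neg hnA, D2_neg_val, D2_stepAt_lt w (K - 1) (by omega)]
            have h5 := (hq.2 (by omega)).2.1
            rw [hiK, List.getElem?_eq_getElem (show K - 1 < w.length by omega)] at h5
            simp only [Option.map_some, Option.some.injEq] at h5
            rw [h5]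
        · simp
        · simp only
          cases c with
          | z => rfl
          | p =>
            simp only [btOf, D2_btIn]
            rw [hpL, hiK]
          | n =>
            simp only [btOf, D2_btIn]
            rw [D2_FAt_lt w K (by omega)]
            rw [ha]
            simp only [hiK]
      · have hj : 1 ≤ i - K := by omega
        have hb : (mlet l (i - K) n k h s .z).bot = false := by
          have : i - K ≠ 0 := by omega
          simp [mlet, this]
        have hM : a.M = some (mlet l (i - K) n k h s .z) := rfl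
        have hx' : (if a.hd = .A then a.X else q.x) = hX1 w := hx
        have hu : uIn dec q a p = { q with x := hX1 w } := by
          unfold uIn
          simp only [hM, hb, hx', Bool.false_eq_true, if_false]
        rw [hu]
        obtain ⟨h2, h3, h4, h5, h6⟩ := (hq.2 (by omega)).2.2 (by omega) (by omega)
        exact ⟨rfl, h2, fun h => by omega, fun _ => h3, fun h => by omega, fun _ => h4, h5, h6⟩
    constructor
    · refine ⟨fun h => by omega, fun _ => ⟨?_, ?_, ?_⟩⟩
      · simp only [updM]
        exact hIn.1
      · simp only [updM]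
        rw [ha]
        simp [hi']
      · intro h2 h3
        obtain ⟨hx0, hqc, hk0, hk1, hh0, hh1, hsc, hbt⟩ := hIn
        have hk := D2_add k (k + c.val) (i - K) (uIn dec q a p).ck hk0 hk1
        have hh := D2_add h (h + chOf c K w) (i - K) (uIn dec q a p).ch hh0 hh1
        have hM : a.M = some (mlet l (i - K) n k h s .z) := rfl
        have e1 : i + 1 - K = i - K + 1 := by omega
        rw [e1]
        simp only [updM, hM]
        refine ⟨hqc, hk.2.2, hh.2.2, ?_, hbt⟩
        rw [Bool.and_eq_true, hsc, hqc]
        constructor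
        · rintro ⟨⟨h4, h5⟩, h6⟩
          refine ⟨h4, fun j hj => ?_⟩
          rcases Nat.eq_or_lt_of_le (Nat.lt_succ_iff.1 hj) with h7 | h7
          · rw [h7]
            exact h6
          · exact h5 j h7
        · rintro ⟨h4, h5⟩
          exact ⟨⟨h4, fun j hj => h5 j (by omega)⟩, h5 _ (by omega)⟩
    · simp only [updM]
      congr 1
      have hM : a.M = some (mlet l (i - K) n k h s .z) := rfl
      rw [hM, Option.map_some, D2_uM_eq w l K (i - K) n k h s c _ hIn]
  · simp only [if_neg hin]
    constructor
    · refine ⟨fun h => by omega, fun _ => ⟨?_, ?_, ?_⟩⟩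
      · simp only [updM, uIn]
        exact hx
      · simp [updM, uIn, hi']
      · intro h2 h3
        omega
    · simp only [updM, uIn, Option.map_none]

theorem updM_putM (dec : Bool → Fl → Mv) (w : List Ltr) (hw : Blk w) (l K : ℕ) (hl : 1 ≤ l)
    (hK : K + l ≤ w.length) (n k h : ℤ) (s : ℕ → S3) (c : Mv)
    (hc : c = dec (hX1 w) ((pkgL l n k h s).foldr Fl.upd (roomFl l K w)))
    (h1 : c = .n → 1 ≤ K) :
    (updM dec).eval (putM l K n k h s .z w) =
      putM l K n (k + c.val) (h + chOf c K w) (stkF c (btOf c K w) s) c w := by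
  have hlen : 0 < w.length := by omega
  apply D2_cert (updM dec) _ _ (by simp [putM]) (D2_IS w l K k h s c) (D2_IR w l K n k h s)
  · exact ⟨fun _ => rfl, fun h => by omega⟩
  · rw [D2_putM_length]
    intro h1
    refine ⟨?_, ?_, ?_⟩
    · rw [D2_LAt_ge w _ le_rfl]
      rfl
    · intro _
      rw [if_neg (lt_irrefl _)]
      rfl
    · intro h2 h3
      have : w.length = K + l := by omega
      have e1 : w.length - K = l := by omega
      rw [e1, D1_suf_nil]
      simp only [List.foldr_nil, roomFl]
      rw [if_neg (by omega)]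
      rfl
  · intro i hi p hp
    exact D2_updM_R dec w hw l K hl hK n k h s i hi p hp
  · intro i hi q p hq hp
    exact D2_updM_S dec w hw l K hl hK n k h s c hc h1 i hi q p hq hp

theorem shiftM_z (w : List Ltr) (hw : Blk w) (l K : ℕ) (hl : 1 ≤ l) (hK : K + l ≤ w.length)
    (n k h : ℤ) (s : ℕ → S3) :
    shiftM.eval (putM l K n k h s .z w) = putM l K n k h s .z w := by
  apply D2_cert shiftM _ _ (by simp [putM]) (fun _ q => q = none) (fun _ p => p = none)
  · rfl
  · rfl
  · intro i hi p hp
    have hi' : i < w.length := by simpa [putM] using hi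
    rw [D2_putM_getElem _ _ _ _ _ _ _ _ _ hi']
    simp only [shiftM]
    split_ifs
    · rfl
    · rw [D2_filt]; simp
    · rfl
  · intro i hi q p hq hp
    have hi' : i < w.length := by simpa [putM] using hi
    rw [D2_putM_getElem _ _ _ _ _ _ _ _ _ hi', D2_putM_getElem? _ _ _ _ _ _ _ _ _ hi']
    subst hq
    subst hp
    constructor
    · simp only [shiftM]
      split_ifs
      · rw [D2_filt]; simp
      · rfl
    · simp only [shiftM, ite_self]
      split_ifs
      · rw [D2_filt]; simp
      · rfl

theorem shiftM_p (w : List Ltr) (hw : Blk w) (l K : ℕ) (hl : 1 ≤ l) (hK : K + l < w.length)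
    (n k h : ℤ) (s : ℕ → S3) :
    shiftM.eval (putM l K n k h s .p w) = putM l (K + 1) n k h s .z w := by
  apply D2_cert shiftM _ _ (by simp [putM])
    (fun i q => q = if K + 1 ≤ i ∧ i < K + 1 + l then some (mlet l (i - (K + 1)) n k h s .p)
      else none) (fun _ p => p = none)
  · simp
    rfl
  · rfl
  · intro i hi p hp
    have hi' : i < w.length := by simpa [putM] using hi
    rw [D2_putM_getElem _ _ _ _ _ _ _ _ _ hi']
    simp only [shiftM]
    split_ifs
    · rfl
    · rw [D2_filt]; simp
    · rfl
  · intro i hi q p hq hp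
    have hi' : i < w.length := by simpa [putM] using hi
    rw [D2_putM_getElem _ _ _ _ _ _ _ _ _ hi', D2_putM_getElem? _ _ _ _ _ _ _ _ _ hi']
    subst hp
    constructor
    · simp only [shiftM]
      by_cases hin : K ≤ i ∧ i < K + l
      · rw [if_pos hin, if_pos (by omega)]
        have : i + 1 - (K + 1) = i - K := by omega
        rw [this, D2_filt]
        simp
      · rw [if_neg hin, if_neg (by omega)]
        rfl
    · by_cases hA : w[i].hd = .A
      · have hi0 : i = 0 := by
          by_contra h0
          exact D2_blk_tail hw i hi' (by omega) hA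
        have hno : ¬ (K + 1 ≤ i ∧ i < K + 1 + l) := by omega
        subst hq
        simp only [shiftM, if_pos hA, if_neg hno]
        split_ifs
        · rw [D2_filt]; simp
        · rfl
      · by_cases hin : K + 1 ≤ i ∧ i < K + 1 + l
        · subst hq
          simp only [shiftM, if_neg hA, if_pos hin]
          rfl
        · subst hq
          simp only [shiftM, if_neg hA, if_neg hin]
          split_ifs
          · rw [D2_filt]; simp
          · rfl

theorem shiftM_n (w : List Ltr) (hw : Blk w) (l K : ℕ) (hl : 1 ≤ l) (h1 : 1 ≤ K)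
    (hK : K + l ≤ w.length) (n k h : ℤ) (s : ℕ → S3) :
    shiftM.eval (putM l K n k h s .n w) = putM l (K - 1) n k h s .z w := by
  apply D2_cert shiftM _ _ (by simp [putM]) (fun _ q => q = none)
    (fun i p => 1 ≤ i → p = if K ≤ i ∧ i < K + l then some (mlet l (i - K) n k h s .n) else none)
  · rfl
  · rw [D2_putM_length]
    intro _
    rw [if_neg (by omega)]
    rfl
  · intro i hi p hp h2
    have hi' : i < w.length := by simpa [putM] using hi
    rw [D2_putM_getElem _ _ _ _ _ _ _ _ _ hi']
    simp only [shiftM]
    rw [if_neg (D2_blk_tail hw i hi' h2)]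
    split_ifs
    · rw [D2_filt]; simp
    · rfl
  · intro i hi q p hq hp
    have hi' : i < w.length := by simpa [putM] using hi
    have hp' := hp (by omega)
    rw [D2_putM_getElem _ _ _ _ _ _ _ _ _ hi', D2_putM_getElem? _ _ _ _ _ _ _ _ _ hi']
    subst hq
    constructor
    · simp only [shiftM]
      split_ifs
      · rw [D2_filt]; simp
      · rfl
    · simp only [shiftM, ite_self]
      rw [hp']
      by_cases hin : K ≤ i + 1 ∧ i + 1 < K + l
      · have hin' : K - 1 ≤ i ∧ i < K - 1 + l := by omega
        rw [if_pos hin, if_pos hin']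
        have : i - (K - 1) = i + 1 - K := by omega
        rw [this]
        rfl
      · have hin' : ¬ (K - 1 ≤ i ∧ i < K - 1 + l) := by omega
        rw [if_neg hin, if_neg hin']
        simp only
        split_ifs
        · rw [D2_filt]; simp
        · rfl

end TF
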