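import Mathlib
import Pool.Agent.LibTF.D1
import Pool.Agent.LibTF.D2

/-! TASK D4: the passes `tickS`, `absorb`, `emit` (static packages, visible boundaries). -/

namespace TF

/-- `o` is the offset of a member of `m` other than the first one. -/
def IsOff (m : List (List Pos)) (o : ℕ) : Prop :=
  ∃ i, 1 ≤ i ∧ i < m.length ∧ o = (m.take i).flatten.length

/-! ### Words with prescribed tracks -/

/-- prescribe the `M` track -/
def D4_mp (F : ℕ → Option ML) (w : List Ltr) : List Ltr :=
  w.mapIdx (fun i a => { a with M := F i })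

theorem D4_mp_nil (F : ℕ → Option ML) : D4_mp F [] = [] := rfl

theorem D4_mp_cons (F : ℕ → Option ML) (a : Ltr) (w : List Ltr) :
    D4_mp F (a :: w) = { a with M := F 0 } :: D4_mp (fun i => F (i + 1)) w := by
  simp [D4_mp, List.mapIdx_cons]

theorem D4_mp_append (F : ℕ → Option ML) (u w : List Ltr) :
    D4_mp F (u ++ w) = D4_mp F u ++ D4_mp (fun i => F (i + u.length)) w := by
  induction u generalizing F with
  | nil => rfl
  | cons a u ih =>
    rw [List.cons_append, D4_mp_cons, ih, D4_mp_cons, List.cons_append]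
    congr 3

theorem D4_mp_length (F : ℕ → Option ML) (w : List Ltr) : (D4_mp F w).length = w.length := by
  simp [D4_mp]

/-- the `M` track of a package -/
def D4_pk (l K : ℕ) (n k h : ℤ) (s : ℕ → S3) (mv : Mv) (i : ℕ) : Option ML :=
  if K ≤ i ∧ i < K + l then some (mlet l (i - K) n k h s mv) else none

theorem D4_putM (l K : ℕ) (n k h : ℤ) (s : ℕ → S3) (mv : Mv) (w : List Ltr) :
    putM l K n k h s mv w = D4_mp (D4_pk l K n k h s mv) w := rfl

/-- a list of hidden letters with prescribed tracks -/
def D4_ww (F : ℕ → Option ML) (G : ℕ → Option SL) : List Pos → List Ltr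
  | [] => []
  | p :: u => ⟨p.b, .H, p.F, p.L, false, false, F 0, G 0⟩ ::
      D4_ww (fun i => F (i + 1)) (fun i => G (i + 1)) u

/-- the `S` track of a static package -/
def D4_sg (l : ℕ) (g : ℤ) (i : ℕ) : Option SL := if i < l then some (slet l i g) else none

theorem D4_lw (u : List Pos) : lw u = D4_ww (fun _ => none) (fun _ => none) u := by
  induction u with
  | nil => rfl
  | cons p u ih =>
    show _ :: lw u = _
    rw [ih]; rfl

theorem D4_mp_ww (F F' : ℕ → Option ML) (G : ℕ → Option SL) (u : List Pos) :
    D4_mp F (D4_ww F' G u) = D4_ww F G u := by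
  induction u generalizing F F' G with
  | nil => rfl
  | cons p u ih =>
    show D4_mp F (_ :: D4_ww _ _ u) = _ :: D4_ww _ _ u
    rw [D4_mp_cons, ih]

theorem D4_ww_length (F : ℕ → Option ML) (G : ℕ → Option SL) (u : List Pos) :
    (D4_ww F G u).length = u.length := by
  induction u generalizing F G with
  | nil => rfl
  | cons p u ih =>
    show (D4_ww _ _ u).length + 1 = _
    rw [ih]; rfl

theorem D4_ps_ww (F : ℕ → Option ML) (G G' : ℕ → Option SL) (u : List Pos) :
    (D4_ww F G' u).mapIdx (fun i a => { a with S := G i }) = D4_ww F G u := by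
  induction u generalizing F G G' with
  | nil => rfl
  | cons p u ih =>
    show List.mapIdx _ (_ :: D4_ww _ _ u) = _ :: D4_ww _ _ u
    rw [List.mapIdx_cons]
    congr 1
    exact ih _ (fun i => G (i + 1)) _

theorem D4_vis (l : ℕ) (g : ℤ) (p : Pos) (u : List Pos) :
    vis l g (p :: u) = ⟨p.b, .V, p.F, p.L, false, false, none, D4_sg l g 0⟩ ::
      D4_ww (fun _ => none) (fun i => D4_sg l g (i + 1)) u := by
  unfold vis putS
  rw [D4_lw]
  have h := D4_ps_ww (fun _ => none) (D4_sg l g) (fun _ => none) (p :: u)
  unfold D4_sg at h ⊢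
  rw [h]
  rfl

theorem D4_vis_nil (l : ℕ) (g : ℤ) : vis l g [] = [] := rfl

theorem D4_vis_length (l : ℕ) (g : ℤ) (u : List Pos) : (vis l g u).length = u.length := by
  cases u with
  | nil => rfl
  | cons p u => rw [D4_vis]; simp [D4_ww_length]

/-! ### tickS -/

def D4_tQ (δ : Mv) (q : Mv) (a : Ltr) : Mv :=
  match a.S with
  | none => .z
  | some σ => cyD (decide (a.hd = .V)) σ.u σ.d (if a.hd = .V then δ else q)

def D4_tO (δ : Mv) (q : Mv) (a : Ltr) : Ltr :=
  { a with S := a.S.map (fun σ =>
      { σ with
        u := newU (decide (a.hd = .V)) σ.u (if a.hd = .V then δ else q)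
        d := newD (decide (a.hd = .V)) σ.u σ.d (if a.hd = .V then δ else q) }) }

/-- the run of `tickS` -/
def D4_rt (δ : Mv) : Mv → List Ltr → List Ltr
  | _, [] => []
  | q, a :: w => D4_tO δ q a :: D4_rt δ (D4_tQ δ q a) w

theorem D4_rt_eq (δ : Mv) (q : Mv) (w : List Ltr) (p : Unit) :
    (tickS δ).run q w p = D4_rt δ q w := by
  induction w generalizing q with
  | nil => rfl
  | cons a w ih => exact congrArg₂ List.cons rfl (ih _)

theorem D4_tick_eval (δ : Mv) (w : List Ltr) : (tickS δ).eval w = D4_rt δ .z w :=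
  D4_rt_eq δ .z w ()

theorem D4_rt_cons (δ : Mv) (q : Mv) (a : Ltr) (w : List Ltr) :
    D4_rt δ q (a :: w) = D4_tO δ q a :: D4_rt δ (D4_tQ δ q a) w := rfl

theorem D4_rt_mp (δ : Mv) (F : ℕ → Option ML) (w : List Ltr) (q : Mv) :
    D4_rt δ q (D4_mp F w) = D4_mp F (D4_rt δ q w) := by
  induction w generalizing F q with
  | nil => rfl
  | cons a w ih =>
    rw [D4_mp_cons, D4_rt_cons, D4_rt_cons, D4_mp_cons, ih]
    rfl

theorem tickS_putM (δ : Mv) (w : List Ltr) (l K : ℕ) (n k h : ℤ) (s : ℕ → S3) (mv : Mv) :
    (tickS δ).eval (putM l K n k h s mv w) = putM l K n k h s mv ((tickS δ).eval w) := by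
  rw [D4_tick_eval, D4_tick_eval, D4_putM, D4_putM, D4_rt_mp]

/-- the state after reading a word -/
def D4_ts (δ : Mv) : Mv → List Ltr → Mv
  | q, [] => q
  | q, a :: w => D4_ts δ (D4_tQ δ q a) w

theorem D4_rt_append (δ : Mv) (q : Mv) (u w : List Ltr) :
    D4_rt δ q (u ++ w) = D4_rt δ q u ++ D4_rt δ (D4_ts δ q u) w := by
  induction u generalizing q with
  | nil => rfl
  | cons a u ih => rw [List.cons_append, D4_rt_cons, ih, D4_rt_cons]; rfl

theorem D4_ww_cons (F : ℕ → Option ML) (G : ℕ → Option SL) (p : Pos) (u : List Pos) :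
    D4_ww F G (p :: u) = ⟨p.b, .H, p.F, p.L, false, false, F 0, G 0⟩ ::
      D4_ww (fun i => F (i + 1)) (fun i => G (i + 1)) u := rfl

theorem D4_rt_none (δ : Mv) (F : ℕ → Option ML) (u : List Pos) (q : Mv) :
    D4_rt δ q (D4_ww F (fun _ => none) u) = D4_ww F (fun _ => none) u := by
  induction u generalizing F q with
  | nil => rfl
  | cons a u ih =>
    rw [D4_ww_cons, D4_rt_cons, ih]
    rfl

theorem D4_sg_some {l j : ℕ} (g : ℤ) (h : j < l) : D4_sg l g j = some (slet l j g) := by
  simp [D4_sg, h]

theorem D4_sg_none {l j : ℕ} (g : ℤ) (h : ¬ j < l) : D4_sg l g j = none := by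
  simp [D4_sg, h]

theorem D4_sg_ge {l j : ℕ} (g : ℤ) (h : l ≤ j) :
    (fun i => D4_sg l g (i + j)) = fun _ => none := by
  funext i; exact D4_sg_none g (by omega)

theorem D4_sg_shift (l : ℕ) (g : ℤ) (j : ℕ) :
    (fun i => D4_sg l g (i + 1 + j)) = fun i => D4_sg l g (i + (j + 1)) := by
  funext i; congr 1; omega

theorem D4_rt_pk (δ : Mv) (F : ℕ → Option ML) (l : ℕ) (g : ℤ) (u : List Pos) (j : ℕ)
    (hj : 1 ≤ j) (q : Mv) (hq : q.val = (g + δ.val) / th j - g / th j) :
    D4_rt δ q (D4_ww F (fun i => D4_sg l g (i + j)) u) =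
      D4_ww F (fun i => D4_sg l (g + δ.val) (i + j)) u := by
  induction u generalizing F q j with
  | nil => rfl
  | cons a u ih =>
    by_cases hjl : j < l
    · obtain ⟨h1, h2, h3⟩ := add_mid g (g + δ.val) j q hq (slet l j g).u
      rw [D4_ww_cons, D4_rt_cons, D4_ww_cons, D4_sg_shift, D4_sg_shift]
      simp only [zero_add, D4_sg_some _ hjl]
      have e1 : D4_tQ δ q ⟨a.b, .H, a.F, a.L, false, false, F 0, some (slet l j g)⟩
          = cyD false (slet l j g).u (dg g j) q := rfl
      rw [e1, ih _ (j + 1) (by omega) _ h3]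
      congr 1
      have e2 : D4_tO δ q ⟨a.b, .H, a.F, a.L, false, false, F 0, some (slet l j g)⟩
          = ⟨a.b, .H, a.F, a.L, false, false, F 0, some ⟨newU false (slet l j g).u q,
            newD false (slet l j g).u (dg g j) q, decide (j + 1 = l)⟩⟩ := rfl
      rw [e2, h1, h2]
      have : slet l j (g + δ.val) = ⟨(slet l j g).u, dg (g + δ.val) j, decide (j + 1 = l)⟩ := by
        unfold slet
        simp [show j ≠ 0 by omega]
      rw [this]
    · rw [D4_sg_ge g (by omega), D4_sg_ge _ (by omega)]
      exact D4_rt_none δ F _ q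

theorem D4_rt_vis (δ : Mv) (l : ℕ) (g : ℤ) (u : List Pos) (q : Mv) :
    D4_rt δ q (vis l g u) = vis l (g + δ.val) u := by
  cases u with
  | nil => rfl
  | cons a u =>
    rw [D4_vis, D4_vis, D4_rt_cons]
    by_cases hl : 0 < l
    · simp only [D4_sg_some _ hl]
      obtain ⟨h1, h2, h3⟩ := add_bot g δ
      have e1 : D4_tQ δ q ⟨a.b, .V, a.F, a.L, false, false, none, some (slet l 0 g)⟩
          = cyD true (ug g) (dg g 0) δ := rfl
      rw [e1, D4_rt_pk δ _ l g u 1 le_rfl _ h3]
      congr 1
      have e2 : D4_tO δ q ⟨a.b, .V, a.F, a.L, false, false, none, some (slet l 0 g)⟩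
          = ⟨a.b, .V, a.F, a.L, false, false, none, some ⟨newU true (ug g) δ,
            newD true (ug g) (dg g 0) δ, decide (0 + 1 = l)⟩⟩ := rfl
      rw [e2, h1, h2]
      rfl
    · have hl0 : l = 0 := by omega
      subst hl0
      rw [D4_sg_ge g (by omega), D4_sg_ge _ (by omega), D4_rt_none]
      rfl

theorem D4_rt_lw (δ : Mv) (u : List Pos) (q : Mv) : D4_rt δ q (lw u) = lw u := by
  rw [D4_lw]; exact D4_rt_none δ _ u q

theorem D4_rt_bwT (δ : Mv) (l v o : ℕ) (g : ℤ) (m : List (List Pos)) (q : Mv) :
    D4_rt δ q (bwT l v o g m) = bwT l v o (g + δ.val) m := by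
  induction m generalizing o g q with
  | nil => rfl
  | cons u us ih =>
    unfold bwT
    rw [D4_rt_append, ih]
    have : g + dsp u + δ.val = g + δ.val + dsp u := by ring
    rw [this]
    congr 1
    split_ifs
    · exact D4_rt_vis δ l g u q
    · exact D4_rt_lw δ u q

theorem tickS_bw (δ : Mv) (X J : Bool) (l v : ℕ) (g : ℤ) (m : List (List Pos)) :
    (tickS δ).eval (bw X J l v g m) = bw X J l v (g + δ.val) m := by
  rw [D4_tick_eval]
  cases m with
  | nil => rfl
  | cons u us =>
    unfold bw
    rw [D4_rt_append, D4_rt_bwT]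
    have : g + dsp u + δ.val = g + δ.val + dsp u := by ring
    rw [this]
    congr 1
    cases u with
    | nil => rfl
    | cons p u =>
      show D4_rt δ .z (_ :: lw u) = _ :: lw u
      rw [D4_rt_cons, D4_rt_lw]
      rfl

/-! ### absorb -/

def D4_aQ (q : Bool) (a : Ltr) : Bool :=
  match a.hd with
  | .A => false
  | .V => (match a.M with | some μ => μ.bot | none => false)
  | .H => q && a.S.isSome

def D4_aO (q : Bool) (a : Ltr) : Ltr :=
  match a.hd with
  | .A => a
  | .V => (match a.M with
      | some μ => if μ.bot then { a with hd := .H, S := none } else a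
      | none => a)
  | .H => if q then { a with S := none } else a

/-- the run of `absorb` -/
def D4_ra : Bool → List Ltr → List Ltr
  | _, [] => []
  | q, a :: w => D4_aO q a :: D4_ra (D4_aQ q a) w

/-- the state after reading a word -/
def D4_as : Bool → List Ltr → Bool
  | q, [] => q
  | q, a :: w => D4_as (D4_aQ q a) w

theorem D4_ra_eq (q : Bool) (w : List Ltr) (p : Unit) : absorb.run q w p = D4_ra q w := by
  induction w generalizing q with
  | nil => rfl
  | cons a w ih => exact congrArg₂ List.cons rfl (ih _)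

theorem D4_ra_cons (q : Bool) (a : Ltr) (w : List Ltr) :
    D4_ra q (a :: w) = D4_aO q a :: D4_ra (D4_aQ q a) w := rfl

theorem D4_ra_append (q : Bool) (u w : List Ltr) :
    D4_ra q (u ++ w) = D4_ra q u ++ D4_ra (D4_as q u) w := by
  induction u generalizing q with
  | nil => rfl
  | cons a u ih => rw [List.cons_append, D4_ra_cons, ih, D4_ra_cons]; rfl

theorem D4_ra_hid (F : ℕ → Option ML) (u : List Pos) (q : Bool) :
    D4_ra q (D4_ww F (fun _ => none) u) = D4_ww F (fun _ => none) u := by
  induction u generalizing F q with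
  | nil => rfl
  | cons a u ih =>
    rw [D4_ww_cons, D4_ra_cons, ih]
    cases q <;> rfl

theorem D4_ra_false (F : ℕ → Option ML) (G : ℕ → Option SL) (u : List Pos) :
    D4_ra false (D4_ww F G u) = D4_ww F G u := by
  induction u generalizing F G with
  | nil => rfl
  | cons a u ih =>
    rw [D4_ww_cons, D4_ra_cons]
    have : D4_aQ false ⟨a.b, .H, a.F, a.L, false, false, F 0, G 0⟩ = false := rfl
    rw [this, ih]
    rfl

theorem D4_mp_vis (F : ℕ → Option ML) (l : ℕ) (g : ℤ) (p : Pos) (u : List Pos) :
    D4_mp F (vis l g (p :: u)) = ⟨p.b, .V, p.F, p.L, false, false, F 0, D4_sg l g 0⟩ ::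
      D4_ww (fun i => F (i + 1)) (fun i => D4_sg l g (i + 1)) u := by
  rw [D4_vis, D4_mp_cons, D4_mp_ww]

theorem D4_ra_vis (F : ℕ → Option ML) (l : ℕ) (g : ℤ) (u : List Pos) (q : Bool)
    (hF : ∀ μ, F 0 = some μ → μ.bot = false) :
    D4_ra q (D4_mp F (vis l g u)) = D4_mp F (vis l g u) := by
  cases u with
  | nil => rfl
  | cons p u =>
    rw [D4_mp_vis, D4_ra_cons]
    cases hμ : F 0 with
    | none =>
      have : D4_aQ q ⟨p.b, .V, p.F, p.L, false, false, none, D4_sg l g 0⟩ = false := rfl
      rw [this, D4_ra_false]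
      rfl
    | some μ =>
      have hb := hF μ hμ
      have : D4_aQ q ⟨p.b, .V, p.F, p.L, false, false, some μ, D4_sg l g 0⟩ = μ.bot := rfl
      rw [this, hb, D4_ra_false]
      congr 1
      simp [D4_aO, hb]

theorem D4_ra_true (F : ℕ → Option ML) (l : ℕ) (g : ℤ) (u : List Pos) (j : ℕ) :
    D4_ra true (D4_ww F (fun i => D4_sg l g (i + j)) u) = D4_ww F (fun _ => none) u := by
  induction u generalizing F j with
  | nil => rfl
  | cons a u ih =>
    by_cases hj : j < l
    · rw [D4_ww_cons, D4_ra_cons, D4_sg_shift]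
      simp only [zero_add, D4_sg_some _ hj]
      have : D4_aQ true ⟨a.b, .H, a.F, a.L, false, false, F 0, some (slet l j g)⟩ = true := rfl
      rw [this, ih]
      rfl
    · rw [D4_sg_ge g (by omega)]
      exact D4_ra_hid F _ _

theorem D4_ra_abs (F : ℕ → Option ML) (l : ℕ) (g : ℤ) (u : List Pos) (q : Bool) (μ : ML)
    (hF : F 0 = some μ) (hb : μ.bot = true) :
    D4_ra q (D4_mp F (vis l g u)) = D4_mp F (lw u) := by
  cases u with
  | nil => rfl
  | cons p u =>
    rw [D4_mp_vis, D4_ra_cons, D4_lw, D4_mp_ww, D4_ww_cons, hF]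
    have : D4_aQ q ⟨p.b, .V, p.F, p.L, false, false, some μ, D4_sg l g 0⟩ = μ.bot := rfl
    rw [this, hb, D4_ra_true]
    congr 1
    simp [D4_aO, hb]

theorem D4_lw_length (u : List Pos) : (lw u).length = u.length := by simp [lw]

theorem D4_ra_bwT (l v o : ℕ) (g : ℤ) (us : List (List Pos)) (F : ℕ → Option ML) (q : Bool)
    (hF : ∀ i μ, F i = some μ → μ.bot = true →
      o + i ≤ v ∨ ¬ ∃ j, j < us.length ∧ i = (us.take j).flatten.length) :
    D4_ra q (D4_mp F (bwT l v o g us)) = D4_mp F (bwT l v o g us) := by
  induction us generalizing o g F q with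
  | nil => rfl
  | cons u us ih =>
    unfold bwT
    have hlen : (if v < o then vis l g u else lw u).length = u.length := by
      split_ifs
      · exact D4_vis_length l g u
      · exact D4_lw_length u
    rw [D4_mp_append, D4_ra_append, hlen]
    congr 1
    · split_ifs with hv
      · apply D4_ra_vis
        intro μ hμ
        by_contra hb
        have hb' : μ.bot = true := by simpa using hb
        rcases hF 0 μ hμ hb' with h | h
        · omega
        · exact h ⟨0, by simp, by simp⟩
      · rw [D4_lw, D4_mp_ww]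
        exact D4_ra_hid F u q
    · apply ih
      intro i μ hμ hb
      rcases hF (i + u.length) μ hμ hb with h | h
      · left; omega
      · right
        rintro ⟨j, hj, hij⟩
        exact h ⟨j + 1, by simpa using hj, by simp [hij, Nat.add_comm]⟩

theorem D4_bwT_noff (l v o : ℕ) (g : ℤ) (us : List (List Pos))
    (h : ∀ i, i < us.length → v + 1 ≠ o + (us.take i).flatten.length) :
    bwT l v o g us = bwT l (v + 1) o g us := by
  induction us generalizing o g with
  | nil => rfl
  | cons u us ih =>
    unfold bwT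
    have h0 : v + 1 ≠ o := by simpa using h 0 (by simp)
    rw [ih]
    · congr 1
      by_cases hv : v < o
      · rw [if_pos hv, if_pos (by omega)]
      · rw [if_neg hv, if_neg (by omega)]
    · intro i hi
      have := h (i + 1) (by simpa using hi)
      simp only [List.take_succ_cons, List.flatten_cons, List.length_append] at this
      omega

theorem D4_ra_bwT_abs (l v o : ℕ) (g : ℤ) (us : List (List Pos)) (F : ℕ → Option ML) (q : Bool)
    (hm : ∀ u ∈ us, 1 ≤ u.length) (i : ℕ) (hi : i < us.length)
    (ho : v + 1 = o + (us.take i).flatten.length)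
    (hF : ∀ j μ, F j = some μ → μ.bot = true → o + j = v + 1)
    (hF1 : ∃ μ, F ((us.take i).flatten.length) = some μ ∧ μ.bot = true) :
    D4_ra q (D4_mp F (bwT l v o g us)) = D4_mp F (bwT l (v + 1) o g us) := by
  induction us generalizing o g F q i with
  | nil => simp at hi
  | cons u us ih =>
    have hu : 1 ≤ u.length := hm u (by simp)
    unfold bwT
    cases i with
    | zero =>
      simp only [List.take_zero, List.flatten_nil, List.length_nil, Nat.add_zero] at ho hF1
      obtain ⟨μ, hμ, hb⟩ := hF1
      rw [if_pos (by omega : v < o), if_neg (by omega : ¬ v + 1 < o), D4_mp_append,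
        D4_mp_append, D4_ra_append, D4_vis_length, D4_lw_length, D4_ra_abs F l g u q μ hμ hb]
      congr 1
      rw [← D4_bwT_noff l v]
      · apply D4_ra_bwT
        intro j μ' hμ' hb'
        have := hF _ μ' hμ' hb'
        omega
      · intro j _; omega
    | succ i =>
      simp only [List.take_succ_cons, List.flatten_cons, List.length_append] at ho hF1
      rw [if_neg (by omega : ¬ v < o), if_neg (by omega : ¬ v + 1 < o), D4_mp_append,
        D4_mp_append, D4_ra_append]
      congr 1
      · rw [D4_lw, D4_mp_ww]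
        exact D4_ra_hid F u q
      · rw [D4_lw_length]
        apply ih (i := i)
        · intro w hw; exact hm w (by simp [hw])
        · simpa using hi
        · omega
        · intro j μ hμ hb
          have := hF _ μ hμ hb
          omega
        · obtain ⟨μ, hμ, hb⟩ := hF1
          exact ⟨μ, by rw [← hμ, Nat.add_comm], hb⟩

theorem D4_pk_bot {l K : ℕ} {n k h : ℤ} {s : ℕ → S3} {mv : Mv} {i : ℕ} {μ : ML}
    (h1 : D4_pk l K n k h s mv i = some μ) (hb : μ.bot = true) : i = K := by
  unfold D4_pk at h1
  split_ifs at h1 with h2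
  simp only [Option.some.injEq] at h1
  rw [← h1] at hb
  simp only [mlet, decide_eq_true_eq] at hb
  omega

theorem absorb_raw (m : List (List Pos)) (X J : Bool) (g : ℤ) (l K v : ℕ) (hl : 1 ≤ l)
    (hm : ∀ u ∈ m, 1 ≤ u.length) (hm2 : ∀ u ∈ m.tail, l ≤ u.length)
    (hK : K + l ≤ m.flatten.length) (hKv : K ≤ v + 1) (hoff : IsOff m (v + 1) → K = v + 1) :
    absorb.eval (raw m X J g l K v) = raw m X J g l K (v + 1) := by
  show absorb.run false _ () = _
  rw [D4_ra_eq]
  unfold raw
  rw [D4_putM, D4_putM]
  set h := g + dsp (m.flatten.take K)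
  set s := stkAt m.flatten K
  cases m with
  | nil => rfl
  | cons u us =>
    have hu : 1 ≤ u.length := hm u (by simp)
    obtain ⟨p, u', rfl⟩ : ∃ p u', u = p :: u' := by
      cases u with
      | nil => simp at hu
      | cons p u' => exact ⟨p, u', rfl⟩
    unfold bw
    have hA : ∀ F : ℕ → Option ML,
        D4_ra false (D4_mp F (setHd .A X J (lw (p :: u')))) =
          D4_mp F (setHd .A X J (lw (p :: u'))) := by
      intro F
      show D4_ra false (D4_mp F (_ :: lw u')) = D4_mp F (_ :: lw u')
      rw [D4_mp_cons, D4_ra_cons, D4_lw, D4_mp_ww]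
      congr 1
      exact D4_ra_false _ _ u'
    have hlen : (setHd .A X J (lw (p :: u'))).length = (p :: u').length := by
      show (_ :: lw u').length = _
      simp [D4_lw_length]
    rw [D4_mp_append, D4_mp_append, D4_ra_append, hA, hlen]
    congr 1
    by_cases ho : IsOff ((p :: u') :: us) (v + 1)
    · have hKv1 := hoff ho
      obtain ⟨i, hi1, hi2, hi3⟩ := ho
      obtain ⟨i, rfl⟩ : ∃ i', i = i' + 1 := ⟨i - 1, by omega⟩
      simp only [List.take_succ_cons, List.flatten_cons, List.length_append] at hi3
      apply D4_ra_bwT_abs (i := i)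
      · intro w hw; exact hm w (by simp [hw])
      · simpa using hi2
      · exact hi3
      · intro j μ hμ hb
        have := D4_pk_bot hμ hb
        omega
      · have h1 : (us.take i).flatten.length + (p :: u').length = K := by omega
        rw [h1]
        refine ⟨mlet l 0 g K h s .z, ?_, by simp [mlet]⟩
        unfold D4_pk
        rw [if_pos (by omega)]
        simp
    · rw [← D4_bwT_noff l v]
      · apply D4_ra_bwT
        intro i μ hμ hb
        have h1 := D4_pk_bot hμ hb
        by_cases hKv' : K ≤ v
        · left; omega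
        · right
          rintro ⟨j, hj, hij⟩
          apply ho
          refine ⟨j + 1, by omega, by simpa using hj, ?_⟩
          simp only [List.take_succ_cons, List.flatten_cons, List.length_append]
          omega
      · intro i hi hv
        apply ho
        refine ⟨i + 1, by omega, by simpa using hi, ?_⟩
        simp only [List.take_succ_cons, List.flatten_cons, List.length_append]
        omega

/-! ### emit -/

def D4_eQ (q : Bool × Bool) (a : Ltr) (p : Fl) : Bool × Bool :=
  let x := if a.hd = .A then a.X else q.1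
  match a.M with
  | none => (x, false)
  | some μ => (x, if μ.bot then emDec x (flH a p) else q.2)

def D4_eO (q : Bool × Bool) (a : Ltr) (p : Fl) : Ltr :=
  let x := if a.hd = .A then a.X else q.1
  match a.M with
  | none => a
  | some μ =>
    if μ.bot then
      (if emDec x (flH a p) then { a with hd := .V, S := some ⟨μ.uh, μ.dh, μ.top⟩ } else a)
    else (if q.2 then { a with S := some ⟨μ.uh, μ.dh, μ.top⟩ } else a)

/-- the run of `emit` -/
def D4_re : Bool × Bool → List Ltr → Fl → List Ltr
  | _, [], _ => []
  | q, a :: w, p => D4_eO q a (w.foldr flE p) :: D4_re (D4_eQ q a (w.foldr flE p)) w p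

/-- the state after reading a word -/
def D4_es : Bool × Bool → List Ltr → Fl → Bool × Bool
  | q, [], _ => q
  | q, a :: w, p => D4_es (D4_eQ q a (w.foldr flE p)) w p

theorem D4_re_eq (q : Bool × Bool) (w : List Ltr) (p : Fl) : emit.run q w p = D4_re q w p := by
  induction w generalizing q with
  | nil => rfl
  | cons a w ih => exact congrArg₂ List.cons rfl (ih _)

theorem D4_re_cons (q : Bool × Bool) (a : Ltr) (w : List Ltr) (p : Fl) :
    D4_re q (a :: w) p = D4_eO q a (w.foldr flE p) :: D4_re (D4_eQ q a (w.foldr flE p)) w p := rfl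

theorem D4_re_append (q : Bool × Bool) (u w : List Ltr) (p : Fl) :
    D4_re q (u ++ w) p =
      D4_re q u (w.foldr flE p) ++ D4_re (D4_es q u (w.foldr flE p)) w p := by
  induction u generalizing q with
  | nil => rfl
  | cons a u ih =>
    rw [List.cons_append, D4_re_cons, ih, D4_re_cons, List.foldr_append]
    rfl

/-- the `M` track of a package from its letter `j` on -/
def D4_pg (l j : ℕ) (n k h : ℤ) (s : ℕ → S3) (mv : Mv) (i : ℕ) : Option ML :=
  if i + j < l then some (mlet l (i + j) n k h s mv) else none

theorem D4_pk_zero (l : ℕ) (n k h : ℤ) (s : ℕ → S3) (mv : Mv) :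
    D4_pk l 0 n k h s mv = D4_pg l 0 n k h s mv := by
  funext i
  simp [D4_pk, D4_pg]

theorem D4_pk_succ (l K : ℕ) (n k h : ℤ) (s : ℕ → S3) (mv : Mv) :
    (fun i => D4_pk l (K + 1) n k h s mv (i + 1)) = D4_pk l K n k h s mv := by
  funext i
  unfold D4_pk
  have h1 : (K + 1 ≤ i + 1 ∧ i + 1 < K + 1 + l) ↔ (K ≤ i ∧ i < K + l) := by omega
  have h2 : i + 1 - (K + 1) = i - K := by omega
  simp only [h1, h2]

theorem D4_pk_head (l K : ℕ) (n k h : ℤ) (s : ℕ → S3) (mv : Mv) :
    D4_pk l (K + 1) n k h s mv 0 = none := by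
  unfold D4_pk
  rw [if_neg (by omega)]

theorem D4_pg_succ (l j : ℕ) (n k h : ℤ) (s : ℕ → S3) (mv : Mv) :
    (fun i => D4_pg l j n k h s mv (i + 1)) = D4_pg l (j + 1) n k h s mv := by
  funext i
  unfold D4_pg
  have h2 : i + 1 + j = i + (j + 1) := by omega
  rw [h2]

theorem D4_pg_some {l j : ℕ} (n k h : ℤ) (s : ℕ → S3) (mv : Mv) (hj : j < l) :
    D4_pg l j n k h s mv 0 = some (mlet l j n k h s mv) := by
  simp [D4_pg, hj]

theorem D4_pg_none {l j : ℕ} (n k h : ℤ) (s : ℕ → S3) (mv : Mv) (hj : l ≤ j) :
    D4_pg l j n k h s mv = fun _ => none := by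
  funext i
  unfold D4_pg
  rw [if_neg (by omega)]

theorem D4_flE_none (a : Ltr) (p : Fl) (ha : a.hd ≠ .A) (hM : a.M = none) :
    flE a p = { p with room := true } := by
  obtain ⟨b, hd, F, L, X, J, M, S⟩ := a
  subst hM
  cases hd
  · exact absurd rfl ha
  · rfl
  · rfl

theorem D4_flE_some (a : Ltr) (p : Fl) (μ : ML) (ha : a.hd ≠ .A) (hM : a.M = some μ) :
    flE a p = p.upd μ := by
  obtain ⟨b, hd, F, L, X, J, M, S⟩ := a
  subst hM
  cases hd
  · exact absurd rfl ha
  · rfl
  · rfl

theorem D4_fold (l : ℕ) (n k h : ℤ) (s : ℕ → S3) (mv : Mv) (w : List Ltr) (j : ℕ)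
    (hA : ∀ a ∈ w, a.hd ≠ .A) (hj : l ≤ j + w.length) :
    (D4_mp (D4_pg l j n k h s mv) w).foldr flE fl0 =
      ((List.range' j (l - j)).map (fun i => mlet l i n k h s mv)).foldr Fl.upd
        (if l - j < w.length then { fl0 with room := true } else fl0) := by
  induction w generalizing j with
  | nil =>
    have h1 : l - j = 0 := by simp at hj; omega
    simp [h1, D4_mp_nil]
  | cons a w ih =>
    have ha : a.hd ≠ .A := hA a (by simp)
    have hA' : ∀ a ∈ w, a.hd ≠ .A := fun b hb => hA b (by simp [hb])
    rw [D4_mp_cons, D4_pg_succ, List.foldr_cons,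
      ih (j + 1) hA' (by simp at hj; omega)]
    by_cases hjl : j < l
    · rw [D4_pg_some n k h s mv hjl,
        D4_flE_some { a with M := some (mlet l j n k h s mv) } _ (mlet l j n k h s mv) ha rfl]
      obtain ⟨d, hd⟩ : ∃ d, l - j = d + 1 := ⟨l - j - 1, by omega⟩
      have hd' : l - (j + 1) = d := by omega
      rw [hd, hd', List.range'_succ, List.map_cons, List.foldr_cons]
      congr 2
      simp only [List.length_cons, Nat.add_lt_add_iff_right]
    · have h1 : l - j = 0 := by omega
      have h2 : l - (j + 1) = 0 := by omega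
      rw [D4_pg_none n k h s mv (by omega : l ≤ j),
        D4_flE_none { a with M := none } _ ha rfl, h1, h2]
      simp only [List.range'_zero, List.map_nil, List.foldr_nil, List.length_cons,
        Nat.zero_lt_succ, if_true]
      split_ifs <;> rfl

theorem D4_re_none (w : List Ltr) (q : Bool × Bool) (p : Fl) (F : ℕ → Option ML)
    (hF : ∀ i, i < w.length → F i = none) :
    D4_re q (D4_mp F w) p = D4_mp F w := by
  induction w generalizing q F with
  | nil => rfl
  | cons a w ih =>
    rw [D4_mp_cons, D4_re_cons, ih]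
    · rw [hF 0 (by simp)]
      rfl
    · intro i hi
      exact hF (i + 1) (by simpa using hi)

/-- nothing is emitted in a word without first letters of packages -/
theorem D4_re_nobot (w : List Ltr) (x : Bool) (p : Fl) (F : ℕ → Option ML)
    (hF : ∀ i μ, F i = some μ → μ.bot = false) :
    D4_re (x, false) (D4_mp F w) p = D4_mp F w := by
  induction w generalizing x F with
  | nil => rfl
  | cons a w ih =>
    rw [D4_mp_cons, D4_re_cons]
    have h2 : (D4_eQ (x, false) { a with M := F 0 }
        ((D4_mp (fun i => F (i + 1)) w).foldr flE p)).2 = false := by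
      cases hμ : F 0 with
      | none => rfl
      | some μ =>
        have hb := hF 0 μ hμ
        simp [D4_eQ, hb]
    have h3 : D4_eO (x, false) { a with M := F 0 }
        ((D4_mp (fun i => F (i + 1)) w).foldr flE p) = { a with M := F 0 } := by
      cases hμ : F 0 with
      | none => rfl
      | some μ =>
        have hb := hF 0 μ hμ
        simp [D4_eO, hb]
    rw [h3]
    have h4 : D4_eQ (x, false) { a with M := F 0 }
        ((D4_mp (fun i => F (i + 1)) w).foldr flE p) = ((D4_eQ (x, false) { a with M := F 0 }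
        ((D4_mp (fun i => F (i + 1)) w).foldr flE p)).1, false) := Prod.ext rfl h2
    rw [h4, ih]
    intro i μ hμ
    exact hF (i + 1) μ hμ

theorem D4_pg_nobot {l j : ℕ} (n k h : ℤ) (s : ℕ → S3) (mv : Mv) (hj : 1 ≤ j) :
    ∀ i μ, D4_pg l j n k h s mv i = some μ → μ.bot = false := by
  intro i μ hμ
  unfold D4_pg at hμ
  split_ifs at hμ with h1
  simp only [Option.some.injEq] at hμ
  rw [← hμ]
  simp only [mlet, decide_eq_false_iff_not]
  omega

/-- flags at the first letter of a package -/
theorem D4_flag (l : ℕ) (hl : 1 ≤ l) (n k h : ℤ) (s : ℕ → S3) (a : Ltr) (w : List Ltr)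
    (hA : ∀ b ∈ w, b.hd ≠ .A) (hw : l ≤ w.length + 1) :
    flH { a with M := some (mlet l 0 n k h s .z) }
        ((D4_mp (D4_pg l 1 n k h s .z) w).foldr flE fl0) =
      (pkgL l n k h s).foldr Fl.upd (if l < w.length + 1 then { fl0 with room := true } else fl0)
      := by
  rw [D4_fold l n k h s .z w 1 hA (by omega)]
  show Fl.upd _ _ = _
  unfold pkgL
  obtain ⟨d, rfl⟩ : ∃ d, l = d + 1 := ⟨l - 1, by omega⟩
  rw [List.range_eq_range', List.range'_succ, List.map_cons, List.foldr_cons]
  simp only [Nat.add_sub_cancel, Nat.zero_add, Nat.add_lt_add_iff_right]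

/-- no emission: the decision is negative -/
theorem D4_re_noem (l : ℕ) (hl : 1 ≤ l) (n k h : ℤ) (s : ℕ → S3) (x : Bool) (K : ℕ)
    (w : List Ltr) (hA : ∀ b ∈ w, b.hd ≠ .A) (hw : K + l ≤ w.length)
    (he : emDec x ((pkgL l n k h s).foldr Fl.upd
      (if K + l < w.length then { fl0 with room := true } else fl0)) = false) :
    D4_re (x, false) (D4_mp (D4_pk l K n k h s .z) w) fl0 = D4_mp (D4_pk l K n k h s .z) w := by
  induction K generalizing w with
  | zero =>
    cases w with
    | nil => rfl
    | cons a w =>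
      have ha : a.hd ≠ .A := hA a (by simp)
      have hA' : ∀ b ∈ w, b.hd ≠ .A := fun b hb => hA b (by simp [hb])
      simp only [List.length_cons, Nat.zero_add] at hw he
      have hf := D4_flag l hl n k h s a w hA' hw
      rw [D4_pk_zero, D4_mp_cons, D4_pg_succ, D4_re_cons, D4_pg_some n k h s .z (by omega)]
      have h1 : D4_eQ (x, false) { a with M := some (mlet l 0 n k h s .z) }
          ((D4_mp (D4_pg l 1 n k h s .z) w).foldr flE fl0) = (x, false) := by
        unfold D4_eQ
        simp only [ha, if_false]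
        rw [hf, he]
        simp [mlet]
      have h2 : D4_eO (x, false) { a with M := some (mlet l 0 n k h s .z) }
          ((D4_mp (D4_pg l 1 n k h s .z) w).foldr flE fl0) =
          { a with M := some (mlet l 0 n k h s .z) } := by
        unfold D4_eO
        simp only [ha, if_false]
        rw [hf, he]
        simp [mlet]
      rw [h1, h2, D4_re_nobot _ _ _ _ (D4_pg_nobot n k h s .z le_rfl)]
  | succ K ih =>
    cases w with
    | nil => rfl
    | cons a w =>
      have ha : a.hd ≠ .A := hA a (by simp)
      have hA' : ∀ b ∈ w, b.hd ≠ .A := fun b hb => hA b (by simp [hb])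
      have e1 : (K + 1 + l < w.length + 1) ↔ (K + l < w.length) := by omega
      simp only [List.length_cons, e1] at hw he
      rw [D4_mp_cons, D4_pk_succ, D4_pk_head, D4_re_cons]
      have h1 : D4_eQ (x, false) { a with M := none }
          ((D4_mp (D4_pk l K n k h s .z) w).foldr flE fl0) = (x, false) := by
        unfold D4_eQ
        simp only [ha, if_false]
      rw [h1, ih w hA' (by omega) he]
      rfl

theorem D4_re_pk (l : ℕ) (n k h : ℤ) (s : ℕ → S3) (mv : Mv) (x : Bool) (u : List Pos) (j : ℕ)
    (hj : 1 ≤ j) (p : Fl) :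
    D4_re (x, true) (D4_ww (D4_pg l j n k h s mv) (fun _ => none) u) p =
      D4_ww (D4_pg l j n k h s mv) (fun i => D4_sg l h (i + j)) u := by
  induction u generalizing j x with
  | nil => rfl
  | cons a u ih =>
    by_cases hjl : j < l
    · rw [D4_ww_cons, D4_ww_cons, D4_pg_succ, D4_re_cons, D4_sg_shift,
        D4_pg_some n k h s mv hjl]
      simp only [zero_add, D4_sg_some _ hjl]
      have hb : (mlet l j n k h s mv).bot = false := by
        simp only [mlet, decide_eq_false_iff_not]; omega
      have h1 : D4_eQ (x, true)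
          ⟨a.b, .H, a.F, a.L, false, false, some (mlet l j n k h s mv), none⟩
          ((D4_ww (D4_pg l (j + 1) n k h s mv) (fun _ => none) u).foldr flE p) = (x, true) := by
        unfold D4_eQ
        simp [hb]
      have h2 : D4_eO (x, true)
          ⟨a.b, .H, a.F, a.L, false, false, some (mlet l j n k h s mv), none⟩
          ((D4_ww (D4_pg l (j + 1) n k h s mv) (fun _ => none) u).foldr flE p) =
          ⟨a.b, .H, a.F, a.L, false, false, some (mlet l j n k h s mv), some (slet l j h)⟩ := by
        unfold D4_eO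
        simp only [hb]
        rfl
      rw [h1, h2, ih _ (j + 1) (by omega)]
    · rw [D4_pg_none n k h s mv (by omega : l ≤ j), D4_sg_ge h (by omega : l ≤ j),
        ← D4_mp_ww (fun _ => none) (fun _ => none)]
      exact D4_re_none _ _ _ _ (fun _ _ => rfl)

/-- emission at the first letter of a member -/
theorem D4_re_em0 (l : ℕ) (hl : 1 ≤ l) (n k h : ℤ) (s : ℕ → S3) (x : Bool)
    (u : List Pos) (hu : l ≤ u.length) (w : List Ltr) (hA : ∀ b ∈ w, b.hd ≠ .A)
    (he : emDec x ((pkgL l n k h s).foldr Fl.upd
      (if l < u.length + w.length then { fl0 with room := true } else fl0)) = true) :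
    D4_re (x, false) (D4_mp (D4_pg l 0 n k h s .z) (lw u ++ w)) fl0 =
      D4_mp (D4_pg l 0 n k h s .z) (vis l h u ++ w) := by
  cases u with
  | nil => simp at hu; omega
  | cons p u =>
    have hA' : ∀ b ∈ lw u ++ w, b.hd ≠ .A := by
      intro b hb
      rcases List.mem_append.1 hb with hb | hb
      · simp only [lw, List.mem_map] at hb
        obtain ⟨p, _, rfl⟩ := hb
        simp
      · exact hA b hb
    have hlen : (lw u ++ w).length = u.length + w.length := by simp [D4_lw_length]
    have hf := D4_flag l hl n k h s ⟨p.b, .H, p.F, p.L, false, false, none, none⟩ (lw u ++ w) hA'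
      (by rw [hlen]; simp at hu; omega)
    have e1 : (l < (p :: u).length + w.length) ↔ (l < (lw u ++ w).length + 1) := by
      rw [hlen]; simp; omega
    simp only [e1] at he
    have e2 : lw (p :: u) ++ w = ⟨p.b, .H, p.F, p.L, false, false, none, none⟩ :: (lw u ++ w) := rfl
    rw [e2, D4_mp_cons, D4_pg_succ, D4_re_cons, D4_pg_some n k h s .z (by omega)]
    have h1 : D4_eQ (x, false) ⟨p.b, .H, p.F, p.L, false, false, some (mlet l 0 n k h s .z), none⟩
        ((D4_mp (D4_pg l 1 n k h s .z) (lw u ++ w)).foldr flE fl0) = (x, true) := by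
      unfold D4_eQ
      simp only []
      rw [hf]
      simp only [reduceCtorEq, if_false, he]
      simp [mlet]
    have h2 : D4_eO (x, false) ⟨p.b, .H, p.F, p.L, false, false, some (mlet l 0 n k h s .z), none⟩
        ((D4_mp (D4_pg l 1 n k h s .z) (lw u ++ w)).foldr flE fl0) =
        ⟨p.b, .V, p.F, p.L, false, false, some (mlet l 0 n k h s .z), some (slet l 0 h)⟩ := by
      unfold D4_eO
      simp only []
      rw [hf]
      simp only [reduceCtorEq, if_false, he]
      simp [mlet, slet]
    rw [h1, h2]
    rw [D4_vis, List.cons_append, D4_mp_cons, D4_pg_succ, D4_pg_some n k h s .z (by omega),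
      D4_sg_some h (by omega)]
    congr 1
    rw [D4_mp_append, D4_mp_append, D4_re_append, D4_lw, D4_mp_ww, D4_mp_ww, D4_ww_length,
      D4_ww_length, D4_re_pk l n k h s .z x u 1 le_rfl]
    congr 1
    apply D4_re_none
    intro i _
    unfold D4_pg
    rw [if_neg (by simp at hu; omega)]

theorem D4_re_em (l : ℕ) (hl : 1 ≤ l) (n k h : ℤ) (s : ℕ → S3) (x : Bool)
    (u : List Pos) (hu : l ≤ u.length) (w : List Ltr) (hA : ∀ b ∈ w, b.hd ≠ .A)
    (he : emDec x ((pkgL l n k h s).foldr Fl.upd
      (if l < u.length + w.length then { fl0 with room := true } else fl0)) = true)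
    (t : List Ltr) (ht : ∀ b ∈ t, b.hd ≠ .A) :
    D4_re (x, false) (D4_mp (D4_pk l t.length n k h s .z) (t ++ (lw u ++ w))) fl0 =
      D4_mp (D4_pk l t.length n k h s .z) (t ++ (vis l h u ++ w)) := by
  induction t with
  | nil =>
    rw [List.length_nil, D4_pk_zero]
    exact D4_re_em0 l hl n k h s x u hu w hA he
  | cons a t ih =>
    have ha : a.hd ≠ .A := ht a (by simp)
    rw [List.length_cons, List.cons_append, List.cons_append, D4_mp_cons, D4_mp_cons,
      D4_pk_succ, D4_pk_head, D4_re_cons]
    have h1 : D4_eQ (x, false) { a with M := none }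
        ((D4_mp (D4_pk l t.length n k h s .z) (t ++ (lw u ++ w))).foldr flE fl0) =
        (x, false) := by
      unfold D4_eQ
      simp only [ha, if_false]
    rw [h1, ih (fun b hb => ht b (by simp [hb]))]
    rfl

theorem D4_bwT_cons (l v o : ℕ) (g : ℤ) (u : List Pos) (us : List (List Pos)) :
    bwT l v o g (u :: us) =
      (if v < o then vis l g u else lw u) ++ bwT l v (o + u.length) (g + dsp u) us := rfl

theorem D4_bwT_append (l v o : ℕ) (g : ℤ) (us ws : List (List Pos)) :
    bwT l v o g (us ++ ws) =
      bwT l v o g us ++ bwT l v (o + us.flatten.length) (g + dsp us.flatten) ws := by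
  induction us generalizing o g with
  | nil =>
    simp [bwT, dsp]
  | cons u us ih =>
    rw [List.cons_append, D4_bwT_cons, D4_bwT_cons, ih, List.append_assoc]
    have h1 : o + u.length + us.flatten.length = o + (u :: us).flatten.length := by
      simp; omega
    have h2 : g + dsp u + dsp us.flatten = g + dsp (u :: us).flatten := by
      simp [dsp]; ring
    rw [h1, h2]

theorem D4_bwT_length (l v o : ℕ) (g : ℤ) (us : List (List Pos)) :
    (bwT l v o g us).length = us.flatten.length := by
  induction us generalizing o g with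
  | nil => rfl
  | cons u us ih =>
    unfold bwT
    rw [List.length_append, ih]
    have : (if v < o then vis l g u else lw u).length = u.length := by
      split_ifs
      · exact D4_vis_length l g u
      · exact D4_lw_length u
    rw [this]
    simp

theorem D4_lw_hd (u : List Pos) : ∀ b ∈ lw u, b.hd ≠ .A := by
  intro b hb
  simp only [lw, List.mem_map] at hb
  obtain ⟨p, _, rfl⟩ := hb
  simp

theorem D4_ww_hd (F : ℕ → Option ML) (G : ℕ → Option SL) (u : List Pos) :
    ∀ b ∈ D4_ww F G u, b.hd ≠ .A := by
  induction u generalizing F G with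
  | nil => intro b hb; simp [D4_ww] at hb
  | cons p u ih =>
    intro b hb
    rw [D4_ww_cons] at hb
    rcases List.mem_cons.1 hb with rfl | hb
    · simp
    · exact ih _ _ b hb

theorem D4_vis_hd (l : ℕ) (g : ℤ) (u : List Pos) : ∀ b ∈ vis l g u, b.hd ≠ .A := by
  cases u with
  | nil => intro b hb; simp [D4_vis_nil] at hb
  | cons p u =>
    intro b hb
    rw [D4_vis] at hb
    rcases List.mem_cons.1 hb with rfl | hb
    · simp
    · exact D4_ww_hd _ _ _ b hb

theorem D4_bwT_hd (l v o : ℕ) (g : ℤ) (us : List (List Pos)) :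
    ∀ b ∈ bwT l v o g us, b.hd ≠ .A := by
  induction us generalizing o g with
  | nil => intro b hb; simp [bwT] at hb
  | cons u us ih =>
    intro b hb
    unfold bwT at hb
    rcases List.mem_append.1 hb with hb | hb
    · split_ifs at hb
      · exact D4_vis_hd l g u b hb
      · exact D4_lw_hd u b hb
    · exact ih _ _ b hb

/-- The flags at the first letter of the package of `raw`. -/
def rawFl (m : List (List Pos)) (g : ℤ) (l K : ℕ) : Fl :=
  (pkgL l g K (g + dsp (m.flatten.take K)) (stkAt m.flatten K)).foldr Fl.upd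
    (if K + l < m.flatten.length then { fl0 with room := true } else fl0)

theorem D4_take_lt (us : List (List Pos)) (hm : ∀ u ∈ us, 1 ≤ u.length) (j : ℕ)
    (hj : j < us.length) : (us.take j).flatten.length < us.flatten.length := by
  have h1 : us = us.take j ++ us.drop j := (List.take_append_drop j us).symm
  have h2 : us.drop j = us[j] :: us.drop (j + 1) := List.drop_eq_getElem_cons hj
  have h3 : us.flatten.length = (us.take j).flatten.length +
      (us[j].length + (us.drop (j + 1)).flatten.length) := by
    have h5 := congrArg (fun x => (List.flatten x).length) h1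
    simp only [List.flatten_append, List.length_append] at h5
    have h6 := congrArg (fun x => (List.flatten x).length) h2
    simp only [List.flatten_cons, List.length_append] at h6
    omega
  have h4 := hm us[j] (List.getElem_mem hj)
  omega

theorem D4_bw_cons (X J : Bool) (l v : ℕ) (g : ℤ) (p : Pos) (u : List Pos)
    (us : List (List Pos)) :
    bw X J l v g ((p :: u) :: us) = ⟨p.b, .A, p.F, p.L, X, J, none, none⟩ ::
      (lw u ++ bwT l v (p :: u).length (g + dsp (p :: u)) us) := rfl

theorem D4_noemA (l : ℕ) (hl : 1 ≤ l) (n k h : ℤ) (s : ℕ → S3) (K : ℕ)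
    (b : Bs) (F L X J : Bool) (S : Option SL)
    (w : List Ltr) (hA : ∀ b ∈ w, b.hd ≠ .A) (hw : K + l ≤ w.length + 1)
    (he : emDec X ((pkgL l n k h s).foldr Fl.upd
      (if K + l < w.length + 1 then { fl0 with room := true } else fl0)) = false) :
    D4_re (false, false) (D4_mp (D4_pk l K n k h s .z) (⟨b, .A, F, L, X, J, none, S⟩ :: w)) fl0 =
      D4_mp (D4_pk l K n k h s .z) (⟨b, .A, F, L, X, J, none, S⟩ :: w) := by
  cases K with
  | zero =>
    simp only [Nat.zero_add] at hw he
    have hf := D4_flag l hl n k h s ⟨b, .A, F, L, X, J, none, S⟩ w hA hw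
    rw [D4_pk_zero, D4_mp_cons, D4_pg_succ, D4_re_cons, D4_pg_some n k h s .z (by omega)]
    have h1 : D4_eQ (false, false) ⟨b, .A, F, L, X, J, some (mlet l 0 n k h s .z), S⟩
        ((D4_mp (D4_pg l 1 n k h s .z) w).foldr flE fl0) = (X, false) := by
      unfold D4_eQ
      simp only [if_true]
      rw [hf, he]
      simp [mlet]
    have h2 : D4_eO (false, false) ⟨b, .A, F, L, X, J, some (mlet l 0 n k h s .z), S⟩
        ((D4_mp (D4_pg l 1 n k h s .z) w).foldr flE fl0) =
        ⟨b, .A, F, L, X, J, some (mlet l 0 n k h s .z), S⟩ := by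
      unfold D4_eO
      simp only [if_true]
      rw [hf, he]
      simp [mlet]
    rw [h1, h2, D4_re_nobot _ _ _ _ (D4_pg_nobot n k h s .z le_rfl)]
  | succ K =>
    have e1 : (K + 1 + l < w.length + 1) ↔ (K + l < w.length) := by omega
    simp only [e1] at he
    rw [D4_mp_cons, D4_pk_succ, D4_pk_head, D4_re_cons]
    have h1 : D4_eQ (false, false) ⟨b, .A, F, L, X, J, none, S⟩
        ((D4_mp (D4_pk l K n k h s .z) w).foldr flE fl0) = (X, false) := rfl
    rw [h1, D4_re_noem l hl n k h s X K w hA (by omega) he]
    rfl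

theorem D4_emA (l : ℕ) (hl : 1 ≤ l) (n k h : ℤ) (s : ℕ → S3)
    (b : Bs) (F L X J : Bool) (S : Option SL)
    (u : List Pos) (hu : l ≤ u.length) (w : List Ltr) (hA : ∀ b ∈ w, b.hd ≠ .A)
    (he : emDec X ((pkgL l n k h s).foldr Fl.upd
      (if l < u.length + w.length then { fl0 with room := true } else fl0)) = true)
    (t : List Ltr) (ht : ∀ b ∈ t, b.hd ≠ .A) :
    D4_re (false, false) (D4_mp (D4_pk l (t.length + 1) n k h s .z)
        (⟨b, .A, F, L, X, J, none, S⟩ :: (t ++ (lw u ++ w)))) fl0 =
      D4_mp (D4_pk l (t.length + 1) n k h s .z)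
        (⟨b, .A, F, L, X, J, none, S⟩ :: (t ++ (vis l h u ++ w))) := by
  rw [D4_mp_cons, D4_pk_succ, D4_pk_head, D4_re_cons]
  have h1 : D4_eQ (false, false) ⟨b, .A, F, L, X, J, none, S⟩
      ((D4_mp (D4_pk l t.length n k h s .z) (t ++ (lw u ++ w))).foldr flE fl0) = (X, false) := rfl
  rw [h1, D4_re_em l hl n k h s X u hu w hA he t ht, D4_mp_cons, D4_pk_succ, D4_pk_head]
  rfl

theorem emit_raw (m : List (List Pos)) (X J : Bool) (g : ℤ) (l K v : ℕ) (hl : 1 ≤ l)
    (hm : ∀ u ∈ m, 1 ≤ u.length) (hm2 : ∀ u ∈ m.tail, l ≤ u.length)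
    (hK : K + l ≤ m.flatten.length)
    (he : emDec X (rawFl m g l K) = true ↔ IsOff m (v + 1))
    (hKv : IsOff m (v + 1) → K = v + 1) :
    emit.eval (raw m X J g l K (v + 1)) = raw m X J g l K v := by
  show emit.run (false, false) _ fl0 = _
  rw [D4_re_eq]
  unfold raw
  rw [D4_putM, D4_putM]
  unfold rawFl at he
  cases m with
  | nil => simp at hK; omega
  | cons u us =>
    have hu : 1 ≤ u.length := hm u (by simp)
    obtain ⟨p, u', rfl⟩ : ∃ p u', u = p :: u' := by
      cases u with
      | nil => simp at hu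
      | cons p u' => exact ⟨p, u', rfl⟩
    rw [D4_bw_cons, D4_bw_cons]
    by_cases ho : IsOff ((p :: u') :: us) (v + 1)
    · have hKv1 := hKv ho
      have hE := he.2 ho
      subst hKv1
      obtain ⟨i, hi1, hi2, hi3⟩ := ho
      obtain ⟨i, rfl⟩ : ∃ i', i = i' + 1 := ⟨i - 1, by omega⟩
      have hi2' : i < us.length := by simpa using hi2
      simp only [List.take_succ_cons, List.flatten_cons, List.length_append] at hi3
      have h1 : us = us.take i ++ us.drop i := (List.take_append_drop i us).symm
      have h2 : us.drop i = us[i] :: us.drop (i + 1) := List.drop_eq_getElem_cons hi2'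
      have hli : l ≤ us[i].length := hm2 us[i] (by simp)
      generalize us.take i = us1 at h1 hi3
      generalize us[i] = ui at h2 hli
      generalize us.drop (i + 1) = us2 at h2
      rw [h2] at h1
      subst h1
      have hfl : ((p :: u') :: (us1 ++ ui :: us2)).flatten =
          ((p :: u') ++ us1.flatten) ++ (ui ++ us2.flatten) := by simp
      have htk : (((p :: u') :: (us1 ++ ui :: us2)).flatten).take (v + 1) =
          (p :: u') ++ us1.flatten := by
        rw [hfl, hi3, ← List.length_append, List.take_left']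
        rfl
      have hd : g + dsp ((((p :: u') :: (us1 ++ ui :: us2)).flatten).take (v + 1)) =
          g + dsp (p :: u') + dsp us1.flatten := by
        rw [htk]; simp only [dsp, List.map_append, List.sum_append]; ring
      have hlen : ((p :: u') :: (us1 ++ ui :: us2)).flatten.length =
          v + 1 + (ui.length + us2.flatten.length) := by
        rw [hfl, List.length_append, List.length_append, List.length_append, ← hi3]
      rw [hd, hlen] at hE
      rw [hd]
      generalize stkAt ((p :: u') :: (us1 ++ ui :: us2)).flatten (v + 1) = s at hE ⊢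
      have e1 : (v + 1 + l < v + 1 + (ui.length + us2.flatten.length)) ↔
          (l < ui.length + us2.flatten.length) := by omega
      simp only [e1] at hE
      have hm1 : ∀ w ∈ us1, 1 ≤ w.length := fun w hw => hm w (by simp [hw])
      have hb1 : bwT l v (p :: u').length (g + dsp (p :: u')) us1 =
          bwT l (v + 1) (p :: u').length (g + dsp (p :: u')) us1 := by
        apply D4_bwT_noff
        intro j hj hc
        have := D4_take_lt us1 hm1 j hj
        omega
      have hb2 : ∀ g', bwT l v (v + 1 + ui.length) g' us2 =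
          bwT l (v + 1) (v + 1 + ui.length) g' us2 := by
        intro g'
        apply D4_bwT_noff
        intro j hj hc
        have : 1 ≤ ui.length := by omega
        omega
      rw [D4_bwT_append, D4_bwT_append, ← hi3, D4_bwT_cons, D4_bwT_cons, if_neg (by omega),
        if_pos (by omega), hb1, hb2]
      obtain ⟨t, ht⟩ : ∃ t, t = lw u' ++ bwT l (v + 1) (p :: u').length (g + dsp (p :: u')) us1 :=
        ⟨_, rfl⟩
      have htl : t.length + 1 = v + 1 := by
        rw [ht, List.length_append, D4_lw_length, D4_bwT_length, hi3]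
        simp; omega
      have hres := D4_emA l hl g ((v + 1 : ℕ) : ℤ) (g + dsp (p :: u') + dsp us1.flatten) s
        p.b p.F p.L X J none ui hli
        (bwT l (v + 1) (v + 1 + ui.length) (g + dsp (p :: u') + dsp us1.flatten + dsp ui) us2)
        (D4_bwT_hd _ _ _ _ _) (by rw [D4_bwT_length]; exact hE) t
        (by
          intro b hb
          rw [ht] at hb
          rcases List.mem_append.1 hb with hb | hb
          · exact D4_lw_hd _ b hb
          · exact D4_bwT_hd _ _ _ _ _ b hb)
      rw [htl, ht, List.append_assoc, List.append_assoc] at hres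
      exact hres
    · have hE : emDec X ((pkgL l g K (g + dsp ((((p :: u') :: us).flatten).take K))
          (stkAt ((p :: u') :: us).flatten K)).foldr Fl.upd
          (if K + l < ((p :: u') :: us).flatten.length then { fl0 with room := true } else fl0))
            = false := by
        by_contra hc
        exact ho (he.1 (by simpa using hc))
      have hB : bwT l v (p :: u').length (g + dsp (p :: u')) us =
          bwT l (v + 1) (p :: u').length (g + dsp (p :: u')) us := by
        apply D4_bwT_noff
        intro i hi hv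
        apply ho
        refine ⟨i + 1, by omega, by simpa using hi, ?_⟩
        simp only [List.take_succ_cons, List.flatten_cons, List.length_append]
        omega
      rw [hB]
      have hlen : ((p :: u') :: us).flatten.length =
          (lw u' ++ bwT l (v + 1) (p :: u').length (g + dsp (p :: u')) us).length + 1 := by
        rw [List.length_append, D4_lw_length, D4_bwT_length]
        simp
        try omega
      rw [hlen] at hE hK
      apply D4_noemA l hl g _ _ _ K p.b p.F p.L X J none _ _ hK hE
      intro b hb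
      rcases List.mem_append.1 hb with hb | hb
      · exact D4_lw_hd _ b hb
      · exact D4_bwT_hd _ _ _ _ _ b hb

end TF
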