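import Mathlib
import Pool.Agent.LibTF.D2
import Pool.Agent.LibTF.D4

/-! TASK D5: static facts on cells. (From `D2`, `D4` only the definitions `stkF`, `IsOff`, `Blk`
are used.) -/

namespace TF

theorem D5_abs_dsp_le : ∀ (u : List Pos), |dsp u| ≤ u.length := by
  intro u
  induction u with
  | nil => simp [dsp]
  | cons p u ih =>
    have h1 : |p.b.step| ≤ 1 := by cases p.b <;> simp [Bs.step]
    have h2 : dsp (p :: u) = p.b.step + dsp u := by simp [dsp]
    rw [h2]
    have h3 := abs_add_le p.b.step (dsp u)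
    simp only [List.length_cons]
    push_cast
    linarith

theorem abs_dsp_take_le (u : List Pos) (K : ℕ) : |dsp (u.take K)| ≤ K := by
  have h1 := D5_abs_dsp_le (u.take K)
  have h2 : ((u.take K).length : ℤ) ≤ K := by
    have := List.length_take_le K u
    exact_mod_cast this
  linarith

theorem dsp_append (u v : List Pos) : dsp (u ++ v) = dsp u + dsp v := by
  simp [dsp]

/-! ### Lengths -/

theorem D5_length_extP (c : S3) (u : List Pos) : (extP c u).length = u.length := by
  simp [extP]

theorem D5_length_setFL (F L : Bool) (u : List Pos) : (setFL F L u).length = u.length := by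
  cases u <;> simp [setFL]

theorem D5_map_length_glueT : ∀ (us : List (List Pos)) (f : Bool),
    (glueT f us).map List.length = us.map List.length
  | [], f => by simp [glueT]
  | [u], f => by simp [glueT, D5_length_setFL, D5_length_extP]
  | u :: v :: us, f => by
    rw [glueT, List.map_cons, D5_map_length_glueT (v :: us) false]
    simp [D5_length_setFL, D5_length_extP]

theorem D5_map_length_glue (us : List (List Pos)) :
    (glue us).map List.length = us.map List.length := by
  cases us with
  | nil => simp [glue]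
  | cons u us => rw [glue, List.map_cons, D5_map_length_glueT]; simp [D5_length_extP]

theorem D5_sum_le {a b : ℕ} : ∀ (l : List ℕ), (∀ x ∈ l, a ≤ x ∧ x ≤ b) →
    l.length * a ≤ l.sum ∧ l.sum ≤ l.length * b
  | [], _ => by simp
  | x :: l, h => by
    have ih := D5_sum_le l (fun y hy => h y (List.mem_cons_of_mem _ hy))
    have hx := h x (by simp)
    simp only [List.length_cons, List.sum_cons]
    constructor <;> nlinarith [ih.1, ih.2, hx.1, hx.2]

theorem D5_glue_flat_length (ms : List (List (List Pos))) :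
    (glue (ms.map List.flatten)).flatten.length = (ms.map (fun m => m.flatten.length)).sum := by
  rw [List.length_flatten, D5_map_length_glue, List.map_map]
  rfl

theorem MemOk.len {r : ℕ} {m : List (List Pos)} (h : MemOk r m) :
    2 ^ r ≤ m.flatten.length ∧ m.flatten.length ≤ 4 ^ r := by
  induction h with
  | leaf b => simp
  | @node r ms h2 h4 h ih =>
    rw [D5_glue_flat_length]
    have h1 := D5_sum_le (a := 2 ^ r) (b := 4 ^ r) (ms.map (fun m => m.flatten.length)) (by
      intro x hx
      rw [List.mem_map] at hx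
      obtain ⟨m, hm, rfl⟩ := hx
      exact ih m hm)
    rw [List.length_map] at h1
    have h5 : 2 * 2 ^ r ≤ ms.length * 2 ^ r := Nat.mul_le_mul_right _ h2
    have h6 : ms.length * 4 ^ r ≤ 4 * 4 ^ r := Nat.mul_le_mul_right _ h4
    constructor
    · calc 2 ^ (r + 1) = 2 * 2 ^ r := by ring
        _ ≤ ms.length * 2 ^ r := h5
        _ ≤ _ := h1.1
    · calc (ms.map (fun m => m.flatten.length)).sum ≤ ms.length * 4 ^ r := h1.2
        _ ≤ 4 * 4 ^ r := h6
        _ = 4 ^ (r + 1) := by ring

theorem MemOk.mlen {r : ℕ} {m : List (List Pos)} (h : MemOk (r + 1) m) :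
    ∀ u ∈ m, 2 ^ r ≤ u.length ∧ u.length ≤ 4 ^ r := by
  cases h with
  | node ms h2 h4 h =>
    intro u hu
    have h1 : u.length ∈ (glue (ms.map List.flatten)).map List.length :=
      List.mem_map_of_mem hu
    rw [D5_map_length_glue, List.map_map, List.mem_map] at h1
    obtain ⟨m, hm, hmu⟩ := h1
    have h3 := (h m hm).len
    simp only [Function.comp_apply] at hmu
    rw [← hmu]
    exact h3

theorem MemOk.card {r : ℕ} {m : List (List Pos)} (h : MemOk (r + 1) m) :
    2 ≤ m.length ∧ m.length ≤ 4 := by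
  cases h with
  | node ms h2 h4 h =>
    have h1 : (glue (ms.map List.flatten)).length = ms.length := by
      have h2 := congrArg List.length (D5_map_length_glue (ms.map List.flatten))
      simpa using h2
    rw [h1]
    exact ⟨h2, h4⟩

/-! ### The relation between consecutive positions -/

/-- Relation of consecutive positions of a cell of scale `r`. -/
def D5_R (r : ℕ) (p q : Pos) : Prop :=
  (∀ j, stkF .p q.L (fun j => p.st.getD j .f) j = q.st.getD j .f) ∧
  (∀ j, stkF .n q.F (fun j => q.st.getD j .f) j = p.st.getD j .f) ∧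
  (∃ j, j < r ∧ q.st.getD j .f ≠ .f) ∧ (∃ j, j < r ∧ p.st.getD j .f ≠ .l)

theorem D5_stkF_congr (c : Mv) (bt : Bool) (s s' : ℕ → S3) (j : ℕ) (h : ∀ i ≤ j, s i = s' i) :
    stkF c bt s j = stkF c bt s' j := by
  have h1 : (c ≠ .z ∧ ∀ i < j, stkCy c (s i) = true) ↔
      (c ≠ .z ∧ ∀ i < j, stkCy c (s' i) = true) := by
    constructor
    · rintro ⟨h1, h2⟩
      refine ⟨h1, fun i hi => ?_⟩
      rw [← h i hi.le]
      exact h2 i hi
    · rintro ⟨h1, h2⟩
      refine ⟨h1, fun i hi => ?_⟩
      rw [h i hi.le]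
      exact h2 i hi
  unfold stkF
  rw [h j le_rfl]
  by_cases h2 : (c ≠ .z ∧ ∀ i < j, stkCy c (s' i) = true)
  · rw [if_pos h2, if_pos (h1.2 h2)]
  · rw [if_neg h2, if_neg (fun h3 => h2 (h1.1 h3))]

theorem D5_stkF_of_not (c : Mv) (bt : Bool) (s : ℕ → S3) (j i : ℕ) (hi : i < j)
    (h : stkCy c (s i) ≠ true) : stkF c bt s j = s j := by
  unfold stkF
  rw [if_neg]
  rintro ⟨_, h2⟩
  exact h (h2 i hi)

theorem D5_stkF_pos (c : Mv) (bt : Bool) (s : ℕ → S3) (j : ℕ) (hc : c ≠ .z)
    (h : ∀ i < j, stkCy c (s i) = true) : stkF c bt s j = stkUp c bt (s j) := by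
  unfold stkF
  rw [if_pos ⟨hc, h⟩]

theorem D5_getD_lt (s : List S3) (c : S3) (j : ℕ) (hj : j < s.length) :
    (s ++ [c]).getD j .f = s.getD j .f := by
  rw [List.getD_eq_getElem?_getD, List.getD_eq_getElem?_getD, List.getElem?_append_left hj]

theorem D5_getD_eq (s : List S3) (c : S3) : (s ++ [c]).getD s.length .f = c := by
  rw [List.getD_eq_getElem?_getD, List.getElem?_append_right le_rfl]
  simp

theorem D5_getD_gt (s : List S3) (j : ℕ) (hj : s.length ≤ j) : s.getD j .f = .f := by
  rw [List.getD_eq_getElem?_getD, List.getElem?_eq_none hj]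
  rfl

theorem D5_getD_mem (s : List S3) (j : ℕ) (hj : j < s.length) : s.getD j .f ∈ s := by
  rw [List.getD_eq_getElem?_getD, List.getElem?_eq_getElem hj]
  simp

theorem D5_cyp {s : S3} (h : s ≠ .l) : stkCy .p s ≠ true := by
  cases s <;> simp_all [stkCy]

theorem D5_cyn {s : S3} (h : s ≠ .f) : stkCy .n s ≠ true := by
  cases s <;> simp_all [stkCy]

theorem D5_R_ext {r : ℕ} {p q : Pos} (h : D5_R r p q) (hp : p.st.length = r)
    (hq : q.st.length = r) (c : S3) :
    D5_R (r + 1) { p with st := p.st ++ [c] } { q with st := q.st ++ [c] } := by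
  obtain ⟨h1, h2, ⟨a, ha, ha'⟩, ⟨b, hb, hb'⟩⟩ := h
  have key : ∀ (s : List S3), s.length = r → ∀ j, j < r → (s ++ [c]).getD j .f = s.getD j .f :=
    fun s hs j hj => D5_getD_lt s c j (by omega)
  refine ⟨fun j => ?_, fun j => ?_, ⟨a, by omega, ?_⟩, ⟨b, by omega, ?_⟩⟩
  · show stkF .p q.L (fun j => (p.st ++ [c]).getD j .f) j = (q.st ++ [c]).getD j .f
    rcases lt_trichotomy j r with hj | hj | hj
    · rw [key q.st hq j hj, ← h1 j]
      exact D5_stkF_congr _ _ _ _ _ (fun i hi => key p.st hp i (by omega))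
    · subst hj
      rw [D5_stkF_of_not _ _ _ _ b hb]
      · show (p.st ++ [c]).getD j .f = (q.st ++ [c]).getD j .f
        have e1 := D5_getD_eq p.st c
        have e2 := D5_getD_eq q.st c
        rw [hp] at e1
        rw [hq] at e2
        rw [e1, e2]
      · show stkCy .p ((p.st ++ [c]).getD b .f) ≠ true
        rw [key p.st hp b hb]
        exact D5_cyp hb'
    · rw [D5_stkF_of_not _ _ _ _ b (by omega)]
      · show (p.st ++ [c]).getD j .f = (q.st ++ [c]).getD j .f
        rw [D5_getD_gt _ _ (by simp; omega), D5_getD_gt _ _ (by simp; omega)]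
      · show stkCy .p ((p.st ++ [c]).getD b .f) ≠ true
        rw [key p.st hp b hb]
        exact D5_cyp hb'
  · show stkF .n q.F (fun j => (q.st ++ [c]).getD j .f) j = (p.st ++ [c]).getD j .f
    rcases lt_trichotomy j r with hj | hj | hj
    · rw [key p.st hp j hj, ← h2 j]
      exact D5_stkF_congr _ _ _ _ _ (fun i hi => key q.st hq i (by omega))
    · subst hj
      rw [D5_stkF_of_not _ _ _ _ a ha]
      · show (q.st ++ [c]).getD j .f = (p.st ++ [c]).getD j .f
        have e1 := D5_getD_eq p.st c
        have e2 := D5_getD_eq q.st c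
        rw [hp] at e1
        rw [hq] at e2
        rw [e1, e2]
      · show stkCy .n ((q.st ++ [c]).getD a .f) ≠ true
        rw [key q.st hq a ha]
        exact D5_cyn ha'
    · rw [D5_stkF_of_not _ _ _ _ a (by omega)]
      · show (q.st ++ [c]).getD j .f = (p.st ++ [c]).getD j .f
        rw [D5_getD_gt _ _ (by simp; omega), D5_getD_gt _ _ (by simp; omega)]
      · show stkCy .n ((q.st ++ [c]).getD a .f) ≠ true
        rw [key q.st hq a ha]
        exact D5_cyn ha'
  · show (q.st ++ [c]).getD a .f ≠ .f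
    rw [key q.st hq a ha]
    exact ha'
  · show (p.st ++ [c]).getD b .f ≠ .l
    rw [key p.st hp b hb]
    exact hb'

/-- The boundary between two members. -/
theorem D5_R_bd {r : ℕ} {s t : List S3} (hs : s.length = r) (ht : t.length = r)
    (hsl : ∀ x ∈ s, x = S3.l) (htf : ∀ x ∈ t, x = S3.f) (c c' : S3) (p q : Pos)
    (hp : p.st = s ++ [c]) (hq : q.st = t ++ [c']) (hc : c ≠ .l)
    (hL : c' = if q.L then S3.l else S3.m) (hF : c = if q.F then S3.f else S3.m) :
    D5_R (r + 1) p q := by
  have hc' : c' ≠ .f := by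
    rw [hL]
    split_ifs <;> simp
  have ks : ∀ j, j < r → p.st.getD j .f = .l := by
    intro j hj
    rw [hp, D5_getD_lt _ _ _ (by omega)]
    exact hsl _ (D5_getD_mem _ _ (by omega))
  have kt : ∀ j, j < r → q.st.getD j .f = .f := by
    intro j hj
    rw [hq, D5_getD_lt _ _ _ (by omega)]
    exact htf _ (D5_getD_mem _ _ (by omega))
  have ps : p.st.getD r .f = c := by
    have := D5_getD_eq s c
    rw [hs] at this
    rw [hp, this]
  have pt : q.st.getD r .f = c' := by
    have := D5_getD_eq t c'
    rw [ht] at this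
    rw [hq, this]
  have gs : ∀ j, r < j → p.st.getD j .f = .f := by
    intro j hj
    exact D5_getD_gt _ _ (by rw [hp]; simp; omega)
  have gt : ∀ j, r < j → q.st.getD j .f = .f := by
    intro j hj
    exact D5_getD_gt _ _ (by rw [hq]; simp; omega)
  refine ⟨fun j => ?_, fun j => ?_, ⟨r, by omega, by rw [pt]; exact hc'⟩,
    ⟨r, by omega, by rw [ps]; exact hc⟩⟩
  · rcases lt_trichotomy j r with hj | hj | hj
    · rw [D5_stkF_pos _ _ _ _ (by simp)]
      · rw [ks j hj, kt j hj]
        simp [stkUp]
      · intro i hi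
        show stkCy .p (p.st.getD i .f) = true
        rw [ks i (by omega)]
        simp [stkCy]
    · subst hj
      rw [D5_stkF_pos _ _ _ _ (by simp)]
      · rw [ps, pt, hL]
        simp [stkUp, hc]
      · intro i hi
        show stkCy .p (p.st.getD i .f) = true
        rw [ks i hi]
        simp [stkCy]
    · rw [D5_stkF_of_not _ _ _ _ r hj]
      · show p.st.getD j .f = q.st.getD j .f
        rw [gs j hj, gt j hj]
      · show stkCy .p (p.st.getD r .f) ≠ true
        rw [ps]
        exact D5_cyp hc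
  · rcases lt_trichotomy j r with hj | hj | hj
    · rw [D5_stkF_pos _ _ _ _ (by simp)]
      · rw [ks j hj, kt j hj]
        simp [stkUp]
      · intro i hi
        show stkCy .n (q.st.getD i .f) = true
        rw [kt i (by omega)]
        simp [stkCy]
    · subst hj
      rw [D5_stkF_pos _ _ _ _ (by simp)]
      · rw [ps, pt, hF]
        simp [stkUp, hc']
      · intro i hi
        show stkCy .n (q.st.getD i .f) = true
        rw [kt i hi]
        simp [stkCy]
    · rw [D5_stkF_of_not _ _ _ _ r hj]
      · show q.st.getD j .f = p.st.getD j .f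
        rw [gs j hj, gt j hj]
      · show stkCy .n (q.st.getD r .f) ≠ true
        rw [pt]
        exact D5_cyn hc'

/-! ### Good lists of positions -/

structure D5_Good (r : ℕ) (u : List Pos) : Prop where
  ne : u ≠ []
  len : ∀ p ∈ u, p.st.length = r
  ch : u.IsChain (D5_R r)
  hd : ∀ p ∈ u.head?, p.F = false ∧ p.L = false ∧ ∀ c ∈ p.st, c = S3.f
  lst : ∀ p ∈ u.getLast?, ∀ c ∈ p.st, c = S3.l

theorem D5_chain_ext {r : ℕ} {u : List Pos} (h : u.IsChain (D5_R r))
    (hl : ∀ p ∈ u, p.st.length = r) (c : S3) : (extP c u).IsChain (D5_R (r + 1)) := by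
  rw [List.isChain_iff_getElem] at h ⊢
  intro i hi
  have hi' : i + 1 < u.length := by simpa [extP] using hi
  have h1 := h i hi'
  have h2 := D5_R_ext h1 (hl _ (List.getElem_mem _)) (hl _ (List.getElem_mem _)) c
  simpa [extP] using h2

theorem D5_R_left {r : ℕ} {p p' q : Pos} (h : p.st = p'.st) : D5_R r p q ↔ D5_R r p' q := by
  unfold D5_R
  rw [h]

theorem D5_chain_setFL {r : ℕ} (F L : Bool) (u : List Pos) :
    (setFL F L u).IsChain (D5_R r) ↔ u.IsChain (D5_R r) := by
  rcases u with _ | ⟨p, _ | ⟨q, u⟩⟩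
  · simp [setFL]
  · simp [setFL]
  · simp only [setFL, List.isChain_cons_cons]
    rw [D5_R_left (p := { p with F := F, L := L }) (p' := p) rfl]

theorem D5_last_ext (c : S3) (u : List Pos) :
    (extP c u).getLast? = u.getLast?.map (fun p => { p with st := p.st ++ [c] }) := by
  simp [extP]

theorem D5_last_setFL_st (F L : Bool) (u : List Pos) :
    (setFL F L u).getLast?.map Pos.st = u.getLast?.map Pos.st := by
  rcases u with _ | ⟨p, _ | ⟨q, u⟩⟩
  · simp [setFL]
  · simp [setFL]
  · simp [setFL]

theorem D5_mem_setFL_st (F L : Bool) (u : List Pos) (p : Pos) (hp : p ∈ setFL F L u) :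
    ∃ p' ∈ u, p'.st = p.st := by
  rcases u with _ | ⟨q, u⟩
  · simp [setFL] at hp
  · simp only [setFL, List.mem_cons] at hp
    rcases hp with hp | hp
    · exact ⟨q, by simp, by rw [hp]⟩
    · exact ⟨p, by simp [hp], rfl⟩

/-- Properties of one block of `glue`. -/
structure D5_Blk (r : ℕ) (F L : Bool) (c : S3) (A : List Pos) : Prop where
  ne : A ≠ []
  len : ∀ p ∈ A, ∃ s : List S3, p.st = s ++ [c] ∧ s.length = r
  ch : A.IsChain (D5_R (r + 1))
  hd : ∀ p ∈ A.head?, p.F = F ∧ p.L = L ∧
    ∃ s : List S3, p.st = s ++ [c] ∧ s.length = r ∧ ∀ x ∈ s, x = S3.f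
  lst : ∀ p ∈ A.getLast?, ∃ s : List S3, p.st = s ++ [c] ∧ s.length = r ∧ ∀ x ∈ s, x = S3.l
  nt : ∀ K (hK : K < A.length), 1 ≤ K → ∃ j < r, A[K].st.getD j .f ≠ .f

theorem D5_nt {r : ℕ} {u : List Pos} (h : D5_Good r u) (K : ℕ) (hK : K < u.length)
    (h1 : 1 ≤ K) : ∃ j < r, u[K].st.getD j .f ≠ .f := by
  have h2 := List.isChain_iff_getElem.1 h.ch (K - 1) (by omega)
  obtain ⟨_, _, ⟨j, hj, hj'⟩, _⟩ := h2
  refine ⟨j, hj, ?_⟩
  have h3 : K - 1 + 1 = K := by omega
  simpa only [h3] using hj'

theorem D5_blk_ext {r : ℕ} {u : List Pos} (h : D5_Good r u) (c : S3) :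
    D5_Blk r false false c (extP c u) where
  ne := by
    have := h.ne
    simpa [extP] using this
  len := by
    intro p hp
    simp only [extP, List.mem_map] at hp
    obtain ⟨q, hq, rfl⟩ := hp
    exact ⟨q.st, rfl, h.len q hq⟩
  ch := D5_chain_ext h.ch h.len c
  hd := by
    intro p hp
    rcases u with _ | ⟨q, u⟩
    · exact absurd rfl h.ne
    · simp only [extP, List.map_cons, List.head?_cons, Option.mem_def, Option.some.injEq] at hp
      subst hp
      have h1 := h.hd q (by simp)
      exact ⟨h1.1, h1.2.1, q.st, rfl, h.len q (by simp), h1.2.2⟩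
  lst := by
    intro p hp
    rw [D5_last_ext, Option.mem_def, Option.map_eq_some_iff] at hp
    obtain ⟨q, hq, rfl⟩ := hp
    exact ⟨q.st, rfl, h.len q (List.mem_of_getLast? hq), h.lst q hq⟩
  nt := by
    intro K hK h1
    have hK' : K < u.length := by simpa [extP] using hK
    obtain ⟨j, hj, hj'⟩ := D5_nt h K hK' h1
    refine ⟨j, hj, ?_⟩
    have h2 : (extP c u)[K].st = u[K].st ++ [c] := by simp [extP]
    rw [h2, D5_getD_lt _ _ _ (by rw [h.len _ (List.getElem_mem _)]; exact hj)]
    exact hj'

theorem D5_blk_setFL {r : ℕ} {A : List Pos} {F' L' : Bool} {c : S3} (h : D5_Blk r F' L' c A)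
    (F L : Bool) : D5_Blk r F L c (setFL F L A) where
  ne := by
    have h1 := h.ne
    intro h2
    have h3 := congrArg List.length h2
    rw [D5_length_setFL] at h3
    exact h1 (List.length_eq_zero_iff.1 (by simpa using h3))
  len := by
    intro p hp
    obtain ⟨p', hp', he⟩ := D5_mem_setFL_st F L A p hp
    rw [← he]
    exact h.len p' hp'
  ch := (D5_chain_setFL F L A).2 h.ch
  hd := by
    intro p hp
    rcases A with _ | ⟨q, u⟩
    · exact absurd rfl h.ne
    · simp only [setFL, List.head?_cons, Option.mem_def, Option.some.injEq] at hp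
      subst hp
      exact ⟨rfl, rfl, (h.hd q (by simp)).2.2⟩
  lst := by
    intro p hp
    have h1 := D5_last_setFL_st F L A
    rw [Option.mem_def] at hp
    rw [hp] at h1
    simp only [Option.map_some] at h1
    obtain ⟨q, hq, hq'⟩ := Option.map_eq_some_iff.1 h1.symm
    rw [← hq']
    exact h.lst q hq
  nt := by
    intro K hK h1
    have hK' : K < A.length := by rwa [D5_length_setFL] at hK
    obtain ⟨j, hj, hj'⟩ := h.nt K hK' h1
    refine ⟨j, hj, ?_⟩
    rcases A with _ | ⟨q, u⟩
    · exact absurd rfl h.ne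
    · obtain ⟨K', rfl⟩ : ∃ K', K = K' + 1 := ⟨K - 1, by omega⟩
      simpa [setFL] using hj'

/-- Properties of the flattened tail of `glue`. -/
structure D5_Tl (r : ℕ) (f : Bool) (w : List Pos) : Prop where
  ne : w ≠ []
  len : ∀ p ∈ w, p.st.length = r + 1
  ch : w.IsChain (D5_R (r + 1))
  hd : ∀ p ∈ w.head?, p.F = f ∧ ∃ (s : List S3) (c : S3), p.st = s ++ [c] ∧ s.length = r ∧
    (∀ x ∈ s, x = S3.f) ∧ c = if p.L then S3.l else S3.m
  lst : ∀ p ∈ w.getLast?, ∀ c ∈ p.st, c = S3.l

theorem D5_tl_one {r : ℕ} {f : Bool} {A : List Pos} (h : D5_Blk r f true .l A) :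
    D5_Tl r f A where
  ne := h.ne
  len := by
    intro p hp
    obtain ⟨s, hs, hs'⟩ := h.len p hp
    rw [hs]
    simp [hs']
  ch := h.ch
  hd := by
    intro p hp
    obtain ⟨h1, h2, s, hs, hs', hs''⟩ := h.hd p hp
    exact ⟨h1, s, .l, hs, hs', hs'', by rw [h2]; rfl⟩
  lst := by
    intro p hp c hc
    obtain ⟨s, hs, hs', hs''⟩ := h.lst p hp
    rw [hs, List.mem_append, List.mem_singleton] at hc
    rcases hc with hc | hc
    · exact hs'' c hc
    · exact hc

theorem D5_head_append {α : Type*} {u v : List α} (h : u ≠ []) : (u ++ v).head? = u.head? := by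
  cases u with
  | nil => exact absurd rfl h
  | cons a u => rfl

theorem D5_last_append {α : Type*} {u v : List α} (h : v ≠ []) :
    (u ++ v).getLast? = v.getLast? := by
  rw [List.getLast?_append]
  cases hv : v.getLast? with
  | none => exact absurd (List.getLast?_eq_none_iff.1 hv) h
  | some a => rfl

theorem D5_tl_cons {r : ℕ} {f : Bool} {A w : List Pos} (h : D5_Blk r f false .m A)
    (hw : D5_Tl r false w) : D5_Tl r f (A ++ w) where
  ne := by
    intro h1
    exact h.ne (List.append_eq_nil_iff.1 h1).1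
  len := by
    intro p hp
    rw [List.mem_append] at hp
    rcases hp with hp | hp
    · obtain ⟨s, hs, hs'⟩ := h.len p hp
      rw [hs]
      simp [hs']
    · exact hw.len p hp
  ch := by
    refine List.isChain_append.2 ⟨h.ch, hw.ch, ?_⟩
    intro p hp q hq
    obtain ⟨s, hs, hs', hs''⟩ := h.lst p hp
    obtain ⟨hF, t, c', ht, ht', ht'', hc'⟩ := hw.hd q hq
    exact D5_R_bd hs' ht' hs'' ht'' .m c' p q hs ht (by simp) hc' (by rw [hF]; rfl)
  hd := by
    intro p hp
    rw [D5_head_append h.ne] at hp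
    obtain ⟨h1, h2, s, hs, hs', hs''⟩ := h.hd p hp
    exact ⟨h1, s, .m, hs, hs', hs'', by rw [h2]; rfl⟩
  lst := by
    intro p hp
    rw [D5_last_append hw.ne] at hp
    exact hw.lst p hp

theorem D5_glueT_tl {r : ℕ} : ∀ (us : List (List Pos)) (f : Bool), us ≠ [] →
    (∀ u ∈ us, D5_Good r u) → D5_Tl r f (glueT f us).flatten
  | [], f, h, _ => absurd rfl h
  | [u], f, _, h => by
    simp only [glueT, List.flatten_cons, List.flatten_nil, List.append_nil]
    exact D5_tl_one (D5_blk_setFL (D5_blk_ext (h u (by simp)) .l) f true)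
  | u :: v :: us, f, _, h => by
    rw [glueT, List.flatten_cons]
    exact D5_tl_cons (D5_blk_setFL (D5_blk_ext (h u (by simp)) .m) f false)
      (D5_glueT_tl (v :: us) false (by simp) (fun x hx => h x (List.mem_cons_of_mem _ hx)))

theorem D5_glue_good {r : ℕ} (u : List Pos) (us : List (List Pos)) (hus : us ≠ [])
    (h : ∀ x ∈ u :: us, D5_Good r x) : D5_Good (r + 1) (glue (u :: us)).flatten := by
  have h1 := D5_blk_ext (h u (by simp)) .f
  have h2 := D5_glueT_tl us true hus (fun x hx => h x (List.mem_cons_of_mem _ hx))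
  rw [glue, List.flatten_cons]
  refine ⟨?_, ?_, ?_, ?_, ?_⟩
  · intro h3
    exact h1.ne (List.append_eq_nil_iff.1 h3).1
  · intro p hp
    rw [List.mem_append] at hp
    rcases hp with hp | hp
    · obtain ⟨s, hs, hs'⟩ := h1.len p hp
      rw [hs]
      simp [hs']
    · exact h2.len p hp
  · refine List.isChain_append.2 ⟨h1.ch, h2.ch, ?_⟩
    intro p hp q hq
    obtain ⟨s, hs, hs', hs''⟩ := h1.lst p hp
    obtain ⟨hF, t, c', ht, ht', ht'', hc'⟩ := h2.hd q hq
    exact D5_R_bd hs' ht' hs'' ht'' .f c' p q hs ht (by simp) hc' (by rw [hF]; rfl)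
  · intro p hp
    rw [D5_head_append h1.ne] at hp
    obtain ⟨h3, h4, s, hs, hs', hs''⟩ := h1.hd p hp
    refine ⟨h3, h4, ?_⟩
    intro c hc
    rw [hs, List.mem_append, List.mem_singleton] at hc
    rcases hc with hc | hc
    · exact hs'' c hc
    · exact hc
  · intro p hp
    rw [D5_last_append h2.ne] at hp
    exact h2.lst p hp

theorem D5_good {r : ℕ} {m : List (List Pos)} (h : MemOk r m) : D5_Good r m.flatten := by
  induction h with
  | leaf b =>
    refine ⟨by simp, ?_, by simp, ?_, ?_⟩
    · intro p hp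
      simp at hp
      subst hp
      rfl
    · intro p hp
      simp at hp
      subst hp
      simp
    · intro p hp
      simp at hp
      subst hp
      simp
  | @node r ms h2 h4 h ih =>
    rcases ms with _ | ⟨m, ms⟩
    · simp at h2
    · rw [List.map_cons]
      refine D5_glue_good _ _ ?_ ?_
      · intro h5
        have h6 := congrArg List.length h5
        simp at h6
        subst h6
        simp at h2
      · intro x hx
        rw [← List.map_cons, List.mem_map] at hx
        obtain ⟨y, hy, rfl⟩ := hx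
        exact ih y hy

/-- The first position has trivial flags, and the stack at offset `0` is trivial. -/
theorem MemOk.first {r : ℕ} {m : List (List Pos)} (h : MemOk r m) :
    ∃ p u, m.flatten = p :: u ∧ p.F = false ∧ p.L = false ∧ ∀ c ∈ p.st, c = S3.f := by
  have h1 := D5_good h
  rcases hm : m.flatten with _ | ⟨p, u⟩
  · exact absurd hm h1.ne
  · have h2 := h1.hd p (by rw [hm]; rfl)
    exact ⟨p, u, rfl, h2.1, h2.2.1, h2.2.2⟩

theorem D5_stkAt_lt (u : List Pos) (K j : ℕ) (hK : K < u.length) :
    stkAt u K j = u[K].st.getD j .f := by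
  unfold stkAt
  rw [List.getElem?_eq_getElem hK]

theorem D5_stkAt_ge (u : List Pos) (K j : ℕ) (hK : u.length ≤ K) :
    stkAt u K j = .f := by
  unfold stkAt
  rw [List.getElem?_eq_none hK]

theorem MemOk.stk_zero {r : ℕ} {m : List (List Pos)} (h : MemOk r m) (j : ℕ) :
    stkAt m.flatten 0 j = .f := by
  obtain ⟨p, u, hp, _, _, h3⟩ := h.first
  unfold stkAt
  rw [hp]
  show p.st.getD j .f = .f
  rcases lt_or_ge j p.st.length with hj | hj
  · exact h3 _ (D5_getD_mem _ _ hj)
  · exact D5_getD_gt _ _ hj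

theorem MemOk.stk_up {r : ℕ} {m : List (List Pos)} (h : MemOk r m) (K : ℕ)
    (hK : K + 1 < m.flatten.length) :
    stkF .p ((m.flatten[K + 1]?.map Pos.L).getD false) (stkAt m.flatten K) =
      stkAt m.flatten (K + 1) := by
  have h1 := List.isChain_iff_getElem.1 (D5_good h).ch K hK
  funext j
  rw [D5_stkAt_lt _ _ _ hK, ← h1.1 j, List.getElem?_eq_getElem hK]
  show stkF .p (m.flatten[K + 1].L) (stkAt m.flatten K) j = _
  refine D5_stkF_congr _ _ _ _ _ (fun i _ => ?_)
  exact D5_stkAt_lt _ _ _ (by omega)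

theorem MemOk.stk_dn {r : ℕ} {m : List (List Pos)} (h : MemOk r m) (K : ℕ)
    (hK : K + 1 < m.flatten.length) :
    stkF .n ((m.flatten[K + 1]?.map Pos.F).getD false) (stkAt m.flatten (K + 1)) =
      stkAt m.flatten K := by
  have h1 := List.isChain_iff_getElem.1 (D5_good h).ch K hK
  funext j
  rw [D5_stkAt_lt _ K _ (by omega), ← h1.2.1 j, List.getElem?_eq_getElem hK]
  show stkF .n (m.flatten[K + 1].F) (stkAt m.flatten (K + 1)) j = _
  refine D5_stkF_congr _ _ _ _ _ (fun i _ => ?_)
  exact D5_stkAt_lt _ _ _ hK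

/-! ### Offsets -/

def D5_Off (m : List (List Pos)) (o : ℕ) : Prop :=
  ∃ i, i < m.length ∧ o = (m.take i).flatten.length

theorem D5_off_cons (A : List Pos) (m : List (List Pos)) (K : ℕ) :
    D5_Off (A :: m) K ↔ K = 0 ∨ (A.length ≤ K ∧ D5_Off m (K - A.length)) := by
  constructor
  · rintro ⟨i, hi, h⟩
    rcases i with _ | i
    · left
      simpa using h
    · right
      simp only [List.take_succ_cons, List.flatten_cons, List.length_append] at h
      refine ⟨by omega, i, ?_, by omega⟩
      simpa using hi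
  · rintro (h | ⟨h1, i, hi, h⟩)
    · exact ⟨0, by simp, by simpa using h⟩
    · refine ⟨i + 1, by simpa using hi, ?_⟩
      simp only [List.take_succ_cons, List.flatten_cons, List.length_append]
      omega

theorem D5_isoff_cons (A : List Pos) (m : List (List Pos)) (K : ℕ) :
    IsOff (A :: m) K ↔ (A.length ≤ K ∧ D5_Off m (K - A.length)) := by
  constructor
  · rintro ⟨i, hi1, hi, h⟩
    obtain ⟨i, rfl⟩ : ∃ i', i = i' + 1 := ⟨i - 1, by omega⟩
    simp only [List.take_succ_cons, List.flatten_cons, List.length_append] at h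
    refine ⟨by omega, i, ?_, by omega⟩
    simpa using hi
  · rintro ⟨h1, i, hi, h⟩
    refine ⟨i + 1, by omega, by simpa using hi, ?_⟩
    simp only [List.take_succ_cons, List.flatten_cons, List.length_append]
    omega

theorem D5_stkAt_append_left (u v : List Pos) (K j : ℕ) (hK : K < u.length) :
    stkAt (u ++ v) K j = stkAt u K j := by
  unfold stkAt
  rw [List.getElem?_append_left hK]

theorem D5_stkAt_append_right (u v : List Pos) (K j : ℕ) (hK : u.length ≤ K) :
    stkAt (u ++ v) K j = stkAt v (K - u.length) j := by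
  unfold stkAt
  rw [List.getElem?_append_right hK]

theorem D5_blk_stk {r : ℕ} {F L : Bool} {c : S3} {A : List Pos} (h : D5_Blk r F L c A) (K : ℕ)
    (hK : K < A.length) :
    stkAt A K r = c ∧ (K = 0 ↔ ∀ j < r, stkAt A K j = .f) := by
  obtain ⟨s, hs, hs'⟩ := h.len _ (List.getElem_mem hK)
  constructor
  · rw [D5_stkAt_lt _ _ _ hK, hs]
    have h1 := D5_getD_eq s c
    rwa [hs'] at h1
  · constructor
    · intro h0
      subst h0
      intro j hj
      rw [D5_stkAt_lt _ _ _ hK]
      have h1 : A[0] ∈ A.head? := by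
        rcases A with _ | ⟨a, A⟩
        · simp at hK
        · simp
      obtain ⟨_, _, t, ht, ht', ht''⟩ := h.hd _ h1
      rw [ht, D5_getD_lt _ _ _ (by omega)]
      exact ht'' _ (D5_getD_mem _ _ (by omega))
    · intro h1
      by_contra h0
      obtain ⟨j, hj, hj'⟩ := h.nt K hK (by omega)
      have := h1 j hj
      rw [D5_stkAt_lt _ _ _ hK] at this
      exact hj' this

theorem D5_glueT_off {r : ℕ} : ∀ (us : List (List Pos)) (f : Bool),
    (∀ u ∈ us, D5_Good r u) → ∀ K, K < (glueT f us).flatten.length →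
    stkAt (glueT f us).flatten K r ≠ .f ∧
      (D5_Off (glueT f us) K ↔ ∀ j < r, stkAt (glueT f us).flatten K j = .f)
  | [], f, h, K, hK => by simp [glueT] at hK
  | [u], f, h, K, hK => by
    have h1 := D5_blk_setFL (D5_blk_ext (h u (by simp)) .l) f true
    simp only [glueT, List.flatten_cons, List.flatten_nil, List.append_nil] at hK ⊢
    have h2 := D5_blk_stk h1 K hK
    refine ⟨by rw [h2.1]; simp, ?_⟩
    rw [← h2.2, D5_off_cons]
    constructor
    · rintro (h3 | ⟨h3, i, hi, _⟩)
      · exact h3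
      · simp at hi
    · intro h3
      exact Or.inl h3
  | u :: v :: us, f, h, K, hK => by
    have h1 := D5_blk_setFL (D5_blk_ext (h u (by simp)) .m) f false
    have ih := D5_glueT_off (v :: us) false (fun x hx => h x (List.mem_cons_of_mem _ hx))
    rw [glueT, List.flatten_cons] at hK ⊢
    rw [List.length_append] at hK
    rw [D5_off_cons]
    rcases lt_or_ge K (setFL f false (extP .m u)).length with hK' | hK'
    · have h2 := D5_blk_stk h1 K hK'
      rw [D5_stkAt_append_left _ _ _ _ hK']
      refine ⟨by rw [h2.1]; simp, ?_⟩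
      have h3 : (∀ j < r, stkAt (setFL f false (extP .m u) ++ (glueT false (v :: us)).flatten) K j
          = .f) ↔ ∀ j < r, stkAt (setFL f false (extP .m u)) K j = .f :=
        forall₂_congr (fun j _ => by rw [D5_stkAt_append_left _ _ _ _ hK'])
      rw [h3, ← h2.2]
      constructor
      · rintro (h3 | ⟨h3, _⟩)
        · exact h3
        · omega
      · intro h3
        exact Or.inl h3
    · have h2 := ih (K - (setFL f false (extP .m u)).length) (by omega)
      rw [D5_stkAt_append_right _ _ _ _ hK']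
      refine ⟨h2.1, ?_⟩
      have h3 : (∀ j < r, stkAt (setFL f false (extP .m u) ++ (glueT false (v :: us)).flatten) K j
          = .f) ↔ ∀ j < r, stkAt (glueT false (v :: us)).flatten
            (K - (setFL f false (extP .m u)).length) j = .f :=
        forall₂_congr (fun j _ => by rw [D5_stkAt_append_right _ _ _ _ hK'])
      rw [h3, ← h2.2]
      have h4 := h1.ne
      have h5 : 0 < (setFL f false (extP .m u)).length := List.length_pos_iff.2 h4
      constructor
      · rintro (h3 | ⟨_, h3⟩)
        · omega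
        · exact h3
      · intro h3
        exact Or.inr ⟨hK', h3⟩

/-- The boundaries between the members are the positions where only the last stack letter is not
`f`. -/
theorem MemOk.off_iff {r : ℕ} {m : List (List Pos)} (h : MemOk (r + 1) m) (K : ℕ)
    (h1 : 1 ≤ K) (hK : K < m.flatten.length) :
    IsOff m K ↔ (stkAt m.flatten K r ≠ .f ∧ ∀ j < r, stkAt m.flatten K j = .f) := by
  cases h with
  | node ms h2 h4 h =>
    rcases ms with _ | ⟨m, ms⟩
    · simp at h2
    rw [List.map_cons, glue, List.flatten_cons] at hK ⊢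
    rw [List.length_append] at hK
    have hb := D5_blk_ext (D5_good (h m (by simp))) .f
    have ih := D5_glueT_off (r := r) (ms.map List.flatten) true (by
      intro x hx
      rw [List.mem_map] at hx
      obtain ⟨y, hy, rfl⟩ := hx
      exact D5_good (h y (List.mem_cons_of_mem _ hy)))
    rw [D5_isoff_cons]
    rcases lt_or_ge K (extP .f m.flatten).length with hK' | hK'
    · have h5 := D5_blk_stk hb K hK'
      rw [D5_stkAt_append_left _ _ _ _ hK']
      constructor
      · rintro ⟨h6, _⟩
        omega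
      · rintro ⟨h6, _⟩
        exact absurd h5.1 h6
    · have h5 := ih (K - (extP .f m.flatten).length) (by omega)
      rw [D5_stkAt_append_right _ _ _ _ hK']
      have h3 : (∀ j < r, stkAt (extP .f m.flatten ++ (glueT true (ms.map List.flatten)).flatten)
          K j = .f) ↔ ∀ j < r, stkAt (glueT true (ms.map List.flatten)).flatten
            (K - (extP .f m.flatten).length) j = .f :=
        forall₂_congr (fun j _ => by rw [D5_stkAt_append_right _ _ _ _ hK'])
      rw [h3, ← h5.2]
      exact ⟨fun h6 => ⟨h5.1, h6.2⟩, fun h6 => ⟨hK', h6.2⟩⟩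

/-- Stack letters behind the scale are trivial. -/
theorem MemOk.stk_top {r : ℕ} {m : List (List Pos)} (h : MemOk r m) (K j : ℕ) (hj : r ≤ j) :
    stkAt m.flatten K j = .f := by
  rcases lt_or_ge K m.flatten.length with hK | hK
  · rw [D5_stkAt_lt _ _ _ hK]
    exact D5_getD_gt _ _ (by rw [(D5_good h).len _ (List.getElem_mem hK)]; exact hj)
  · exact D5_stkAt_ge _ _ _ hK

/-! The base word of a cell. -/

theorem D5_setHd_length (hd : Hd) (X J : Bool) (w : List Ltr) :
    (setHd hd X J w).length = w.length := by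
  cases w <;> simp [setHd]

theorem D5_bfl_setHd (hd : Hd) (X J : Bool) (w : List Ltr) :
    (setHd hd X J w).map (fun a => (a.b, a.F, a.L)) = w.map (fun a => (a.b, a.F, a.L)) := by
  cases w <;> simp [setHd]

theorem D5_bfl_lw (u : List Pos) :
    (lw u).map (fun a => (a.b, a.F, a.L)) = u.map (fun p => (p.b, p.F, p.L)) := by
  simp [lw]

theorem D5_bfl_putS (l : ℕ) (g : ℤ) (w : List Ltr) :
    (putS l g w).map (fun a => (a.b, a.F, a.L)) = w.map (fun a => (a.b, a.F, a.L)) := by
  apply List.ext_getElem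
  · simp [putS]
  · intro i h1 h2
    simp [putS]

theorem D5_bfl_vis (l : ℕ) (g : ℤ) (u : List Pos) :
    (vis l g u).map (fun a => (a.b, a.F, a.L)) = u.map (fun p => (p.b, p.F, p.L)) := by
  rw [vis, D5_bfl_setHd, D5_bfl_putS, D5_bfl_lw]

theorem D5_bfl_bwT (l v : ℕ) : ∀ (us : List (List Pos)) (o : ℕ) (g : ℤ),
    (bwT l v o g us).map (fun a => (a.b, a.F, a.L)) = us.flatten.map (fun p => (p.b, p.F, p.L))
  | [], o, g => by simp [bwT]
  | u :: us, o, g => by
    rw [bwT, List.map_append, D5_bfl_bwT l v us, List.flatten_cons, List.map_append]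
    congr 1
    split_ifs
    · exact D5_bfl_vis l g u
    · exact D5_bfl_lw u

theorem D5_bfl_bw (X J : Bool) (l v : ℕ) (g : ℤ) (m : List (List Pos)) :
    (bw X J l v g m).map (fun a => (a.b, a.F, a.L)) = m.flatten.map (fun p => (p.b, p.F, p.L)) := by
  cases m with
  | nil => simp [bw]
  | cons u us =>
    rw [bw, List.map_append, D5_bfl_bwT, D5_bfl_setHd, D5_bfl_lw, List.flatten_cons,
      List.map_append]

theorem bw_length (X J : Bool) (l v : ℕ) (g : ℤ) (m : List (List Pos)) :
    (bw X J l v g m).length = m.flatten.length := by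
  have h := congrArg List.length (D5_bfl_bw X J l v g m)
  simpa only [List.length_map] using h

theorem bw_get (X J : Bool) (l v : ℕ) (g : ℤ) (m : List (List Pos)) (i : ℕ) :
    ((bw X J l v g m)[i]?.map (fun a => (a.b, a.F, a.L))) =
      (m.flatten[i]?.map (fun p => (p.b, p.F, p.L))) := by
  have h := congrArg (fun w => w[i]?) (D5_bfl_bw X J l v g m)
  simpa only [List.getElem?_map] using h

theorem D5_lw_hd (u : List Pos) : ∀ b ∈ lw u, b.hd ≠ .A := by
  intro b hb
  simp only [lw, List.mem_map] at hb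
  obtain ⟨p, _, rfl⟩ := hb
  simp

theorem D5_putS_hd (l : ℕ) (g : ℤ) (w : List Ltr) (h : ∀ b ∈ w, b.hd ≠ .A) :
    ∀ b ∈ putS l g w, b.hd ≠ .A := by
  intro b hb
  rw [List.mem_iff_getElem] at hb
  obtain ⟨i, hi, rfl⟩ := hb
  have hi' : i < w.length := by simpa [putS] using hi
  have := h w[i] (List.getElem_mem _)
  simpa [putS] using this

theorem D5_vis_hd (l : ℕ) (g : ℤ) (u : List Pos) : ∀ b ∈ vis l g u, b.hd ≠ .A := by
  have h := D5_putS_hd l g (lw u) (D5_lw_hd u)
  unfold vis
  revert h
  rcases putS l g (lw u) with _ | ⟨a, w⟩ <;> intro h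
  · simp [setHd]
  · intro b hb
    simp only [setHd, List.mem_cons] at hb
    rcases hb with hb | hb
    · rw [hb]
      simp
    · exact h b (List.mem_cons_of_mem _ hb)

theorem D5_bwT_hd (l v : ℕ) : ∀ (us : List (List Pos)) (o : ℕ) (g : ℤ),
    ∀ b ∈ bwT l v o g us, b.hd ≠ .A
  | [], o, g => by simp [bwT]
  | u :: us, o, g => by
    intro b hb
    rw [bwT, List.mem_append] at hb
    rcases hb with hb | hb
    · split_ifs at hb
      · exact D5_vis_hd l g u b hb
      · exact D5_lw_hd u b hb
    · exact D5_bwT_hd l v us _ _ b hb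

theorem bw_blk (X J : Bool) (l v : ℕ) (g : ℤ) (m : List (List Pos)) (u : List Pos)
    (us : List (List Pos)) (hm : m = u :: us) (hu : u ≠ []) :
    Blk (bw X J l v g m) ∧ hX1 (bw X J l v g m) = X := by
  subst hm
  rcases u with _ | ⟨p, u⟩
  · exact absurd rfl hu
  have h1 : bw X J l v g ((p :: u) :: us) =
      ⟨p.b, .A, p.F, p.L, X, J, none, none⟩ :: (lw u ++ bwT l v (p :: u).length
        (g + dsp (p :: u)) us) := by
    simp [bw, lw, setHd]
  rw [h1]
  refine ⟨⟨_, _, rfl, rfl, ?_⟩, rfl⟩
  intro b hb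
  rw [List.mem_append] at hb
  rcases hb with hb | hb
  · exact D5_lw_hd u b hb
  · exact D5_bwT_hd l v us _ _ b hb

theorem D5_bwT_hidden (l v : ℕ) : ∀ (us : List (List Pos)) (o : ℕ) (g : ℤ),
    o + us.flatten.length ≤ v → bwT l v o g us = lw us.flatten
  | [], o, g, _ => by simp [bwT, lw]
  | u :: us, o, g, h => by
    rw [List.flatten_cons, List.length_append] at h
    rw [bwT, if_neg (by omega), D5_bwT_hidden l v us _ _ (by omega), List.flatten_cons]
    simp [lw]

/-- Nothing is visible for a large threshold. -/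
theorem bw_hidden (X J : Bool) (l v : ℕ) (g : ℤ) (m : List (List Pos))
    (hv : m.flatten.length ≤ v) (hm : ∀ u ∈ m, u ≠ []) :
    bw X J l v g m = setHd .A X J (lw m.flatten) := by
  cases m with
  | nil => simp [bw, lw, setHd]
  | cons u us =>
    rw [List.flatten_cons, List.length_append] at hv
    rw [bw, D5_bwT_hidden l v us _ _ (by omega), List.flatten_cons]
    have hu := hm u (by simp)
    rcases u with _ | ⟨p, u⟩
    · exact absurd rfl hu
    · simp [lw, setHd]

end TF
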