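import Mathlib
import Pool.Agent.LibTF.D1
import Pool.Agent.LibTF.D5

/-! TASK D6: the passes `cross` and `uncross`. -/

namespace TF

/-- Range of an active cell after the tick. -/
def Rng1 (a : AC) : Prop :=
  MemOk a.r a.mem ∧
  (a.x = false → 0 ≤ a.N ∧ a.N ≤ th a.r ∧ ∀ s, a.r = s + 1 → 2 * th s < a.N) ∧
  (a.x = true → th a.r < a.N ∧ a.N < 4 * th a.r)

/-- Cells which cross now are not joined to their neighbours. -/
def UncOk : List (Bool × AC) → Prop
  | [] => True
  | p :: c => (evA p.2 = true → p.1 = false ∧ hJ c = false) ∧ UncOk c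

/-! ### flags of a word -/

def D6_E (o : Option ML) (p : Fl) : Fl :=
  match o with
  | none => { p with room := true }
  | some μ => p.upd μ

theorem D6_flE (a : Ltr) (p : Fl) (ha : a.hd ≠ .A) : flE a p = D6_E a.M p := by
  unfold flE D6_E
  cases h : a.hd <;> cases h2 : a.M <;> simp_all

theorem D6_foldr (u : List Ltr) (hu : ∀ b ∈ u, b.hd ≠ .A) (p : Fl) :
    u.foldr flE p = (u.map Ltr.M).foldr D6_E p := by
  induction u with
  | nil => rfl
  | cons a u ih =>
    rw [List.foldr_cons, List.map_cons, List.foldr_cons, 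
      ih (fun b hb => hu b (List.mem_cons_of_mem _ hb)), D6_flE _ _ (hu a List.mem_cons_self)]

theorem D6_flH (a : Ltr) (p : Fl) : 
    (flH a p).tn = (D6_E a.M p).tn ∧ (flH a p).lz = (D6_E a.M p).lz := by
  unfold flH D6_E
  cases h2 : a.M <;> simp

theorem D6_rep (n : ℕ) (p : Fl) : ((List.replicate n (none : Option ML)).foldr D6_E p).tn = p.tn ∧
    ((List.replicate n (none : Option ML)).foldr D6_E p).lz = p.lz := by
  induction n with
  | zero => exact ⟨rfl, rfl⟩
  | succ n ih =>
    rw [List.replicate_succ, List.foldr_cons]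
    exact ih

theorem D6_somes (L : List ML) (p : Fl) : (L.map some).foldr D6_E p = L.foldr Fl.upd p := by
  induction L with
  | nil => rfl
  | cons a u ih => 
    rw [List.map_cons, List.foldr_cons, List.foldr_cons, ih]
    rfl

theorem D6_M_putM (l K : ℕ) (n k h : ℤ) (s : ℕ → S3) (w : List Ltr) (hK : K + l ≤ w.length) : 
    (putM l K n k h s .z w).map Ltr.M = 
      List.replicate K none ++ ((pkgL l n k h s).map some ++ List.replicate (w.length - K - l) none) := by
  apply List.ext_getElem
  · simp [putM, pkgL]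
    omega
  · intro i h1 h2
    simp only [putM, List.getElem_map, List.getElem_mapIdx]
    have hi : i < w.length := by simpa [putM] using h1
    by_cases hiK : i < K
    · rw [List.getElem_append_left (by simpa using hiK)]
      rw [if_neg (by omega)]
      simp
    · rw [List.getElem_append_right (by simpa using hiK)]
      by_cases hil : i < K + l
      · rw [if_pos (by omega), List.getElem_append_left (by simp [pkgL]; omega)]
        simp [pkgL]
      · rw [if_neg (by omega), List.getElem_append_right (by simp [pkgL]; omega)]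
        simp

theorem D6_flags (l K : ℕ) (hl : 1 ≤ l) (n k h : ℤ) (s : ℕ → S3) (w : List Ltr) 
    (hK : K + l ≤ w.length) (p : Fl) : 
    (((putM l K n k h s .z w).map Ltr.M).foldr D6_E p).tn = dg n (l - 1) ∧ 
    ((((putM l K n k h s .z w).map Ltr.M).foldr D6_E p).lz = true ↔ n % th (l - 1) = 0) := by
  rw [D6_M_putM l K n k h s w hK, List.foldr_append, List.foldr_append, D6_somes]
  have h1 := D6_rep K ((pkgL l n k h s).foldr Fl.upd 
    ((List.replicate (w.length - K - l) none).foldr D6_E p))
  have h2 := pkg_flags l hl n k h s ((List.replicate (w.length - K - l) none).foldr D6_E p)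
  rw [h1.1, h1.2]
  exact ⟨h2.1, h2.2.2.2.1⟩

/-! ### heads -/

theorem D6_lw_hd (u : List Pos) : ∀ b ∈ lw u, b.hd ≠ .A := by
  intro b hb
  unfold lw at hb
  rw [List.mem_map] at hb
  obtain ⟨p, _, rfl⟩ := hb
  simp

theorem D6_mapIdx_hd (f : ℕ → Ltr → Ltr) (hf : ∀ i a, (f i a).hd = a.hd) (w : List Ltr) 
    (hw : ∀ b ∈ w, b.hd ≠ .A) : ∀ b ∈ w.mapIdx f, b.hd ≠ .A := by
  intro b hb
  rw [List.mem_mapIdx] at hb
  obtain ⟨i, hi, rfl⟩ := hb
  rw [hf]
  exact hw _ (List.getElem_mem hi)

theorem D6_vis_hd (l : ℕ) (g : ℤ) (u : List Pos) : ∀ b ∈ vis l g u, b.hd ≠ .A := by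
  have h1 : ∀ b ∈ putS l g (lw u), b.hd ≠ .A := by
    rw [putS]
    apply D6_mapIdx_hd
    · intro i a; rfl
    · exact D6_lw_hd u
  unfold vis
  cases h : putS l g (lw u) with
  | nil => intro b hb; simp [setHd] at hb
  | cons a w =>
    intro b hb
    rw [h] at h1
    simp only [setHd, List.mem_cons] at hb
    rcases hb with rfl | hb
    · simp
    · exact h1 b (List.mem_cons_of_mem _ hb)

theorem D6_bwT_hd (l v : ℕ) (us : List (List Pos)) : ∀ (o : ℕ) (g : ℤ), ∀ b ∈ bwT l v o g us, b.hd ≠ .A := by
  induction us with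
  | nil => intro o g b hb; simp [bwT] at hb
  | cons u us ih =>
    intro o g b hb
    unfold bwT at hb
    rw [List.mem_append] at hb
    rcases hb with hb | hb
    · split_ifs at hb
      · exact D6_vis_hd _ _ _ b hb
      · exact D6_lw_hd _ b hb
    · exact ih _ _ b hb

/-- the structure of a cell word -/
theorem D6_raw (m : List (List Pos)) (p : Pos) (u : List Pos) (us : List (List Pos)) 
    (hm : m = (p :: u) :: us) (g : ℤ) (l K v : ℕ) (hl : 1 ≤ l) (hK : K + l ≤ m.flatten.length) : 
    ∃ (h0 : Ltr) (tl : List Ltr), h0.hd = .A ∧ (∀ b ∈ tl, b.hd ≠ .A) ∧ 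
      (∀ X J, raw m X J g l K v = { h0 with X := X, J := J } :: tl) ∧ 
      (flH h0 (tl.foldr flE fl0)).tn = dg g (l - 1) ∧ 
      ((flH h0 (tl.foldr flE fl0)).lz = true ↔ g % th (l - 1) = 0) := by
  obtain ⟨f, hf⟩ : ∃ f : ℕ → Ltr → Ltr, f = fun i a => { a with
    M := if K ≤ i ∧ i < K + l then some (mlet l (i - K) g K (g + dsp (m.flatten.take K)) 
      (stkAt m.flatten K) .z) else none } := ⟨_, rfl⟩
  obtain ⟨tl, htl⟩ : ∃ tl : List Ltr, tl = (lw u ++ bwT l v (p :: u).length (g + dsp (p :: u)) us).mapIdx 
    (fun i a => f (i + 1) a) := ⟨_, rfl⟩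
  obtain ⟨h0, hh0⟩ : ∃ h0 : Ltr, h0 = f 0 ⟨p.b, .A, p.F, p.L, false, false, none, none⟩ := ⟨_, rfl⟩
  have hraw : ∀ X J, raw m X J g l K v = { h0 with X := X, J := J } :: tl := by
    intro X J
    rw [raw, putM, hh0, htl, hf, hm]
    simp only [bw, lw, List.map_cons, setHd, List.cons_append, List.mapIdx_cons]
  have htlA : ∀ b ∈ tl, b.hd ≠ .A := by
    rw [htl]
    apply D6_mapIdx_hd
    · intro i a; rw [hf]
    · intro b hb
      rw [List.mem_append] at hb
      rcases hb with hb | hb
      · exact D6_lw_hd _ b hb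
      · exact D6_bwT_hd _ _ _ _ _ b hb
  have hfl := D6_flags l K hl g K (g + dsp (m.flatten.take K)) (stkAt m.flatten K) 
    (bw false false l v g m) (by rw [bw_length]; exact hK) fl0
  have hr := hraw false false
  rw [raw] at hr
  rw [hr, List.map_cons, List.foldr_cons, ← D6_foldr tl htlA] at hfl
  have h3 := D6_flH h0 (tl.foldr flE fl0)
  refine ⟨h0, tl, ?_, htlA, hraw, ?_, ?_⟩
  · rw [hh0, hf]
  · rw [h3.1]; exact hfl.1
  · rw [h3.2]; exact hfl.2

/-! ### ranges -/

theorem D6_dg_one {q : ℤ} (h0 : 0 ≤ q) (h3 : q ≤ 3) : ((q : ZMod 4) = 1 ↔ q = 1) := by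
  interval_cases q <;> decide

theorem D6_rng (a : AC) (h : Rng1 a) : 
    1 ≤ ell a.r a.N ∧ KK a.r a.len a.N + ell a.r a.N ≤ a.mem.flatten.length ∧ 
    (a.x = false → (dg a.N (ell a.r a.N - 1) = 1 ↔ a.N = th a.r)) ∧ 
    (a.x = false → a.N = th a.r → a.N % th (ell a.r a.N - 1) = 0) ∧ 
    (a.x = true → ¬ (dg a.N (ell a.r a.N - 1) = 1 ∧ a.N % th (ell a.r a.N - 1) = 0)) := by
  obtain ⟨hM, hf, ht⟩ := h
  have hlen := hM.len.1
  have hlen' : a.len = a.mem.flatten.length := rfl
  have hpow : a.r < 2 ^ a.r := Nat.lt_two_pow_self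
  have hthr := th_pos a.r
  obtain ⟨r, mem, N, x⟩ := a
  simp only at hM hf ht hlen hlen' hpow hthr ⊢
  by_cases hN : N < th r
  · have hx : x = false := by
      cases x with
      | false => rfl
      | true => have := ht rfl; omega
    have hf' := hf hx
    rw [ell, if_pos hN]
    cases r with
    | zero =>
      refine ⟨le_max_left _ _, ?_, ?_, ?_, ?_⟩
      · simp only [KK]
        have : max 1 0 = 1 := rfl
        omega
      · intro _
        have h1 : dg N (max 1 0 - 1) = 0 := dg_zero_of_lt hf'.1 hN
        rw [h1]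
        constructor
        · intro h2; exact absurd h2 (by decide)
        · intro h2; omega
      · intro _ h2; omega
      · intro h2; rw [hx] at h2; exact absurd h2 (by decide)
    | succ s =>
      have hs := th_succ s
      have hsp := th_pos s
      have hls := hf'.2.2 s rfl
      have hmax : max 1 (s + 1) = s + 1 := by omega
      rw [hmax]
      refine ⟨by omega, ?_, ?_, ?_, ?_⟩
      · simp only [KK]
        omega
      · intro _
        have hq1 : 2 ≤ N / th s := by
          rw [Int.le_ediv_iff_mul_le hsp]; omega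
        have hq2 : N / th s ≤ 3 := by
          have : N / th s < 4 := by
            rw [Int.ediv_lt_iff_lt_mul hsp]; omega
          omega
        have h1 : dg N (s + 1 - 1) = ((N / th s : ℤ) : ZMod 4) := rfl
        rw [h1, D6_dg_one (by omega) hq2]
        constructor
        · intro h2; omega
        · intro h2; omega
      · intro _ h2; omega
      · intro h2; rw [hx] at h2; exact absurd h2 (by decide)
  · push Not at hN
    rw [ell, if_neg (by omega)]
    refine ⟨by omega, ?_, ?_, ?_, ?_⟩
    · cases r with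
      | zero => simp only [KK]; omega
      | succ s =>
        have hs := th_succ s
        have hsp := th_pos s
        simp only [KK]
        omega
    · intro hx
      have hf' := hf hx
      have hNe : N = th r := by omega
      have h1 : dg N (r + 1 - 1) = ((N / th r : ℤ) : ZMod 4) := rfl
      rw [h1, hNe, Int.ediv_self hthr.ne']
      simp
    · intro hx h2
      rw [h2]
      simp
    · intro hx
      have ht' := ht hx
      have h1 : dg N (r + 1 - 1) = ((N / th r : ℤ) : ZMod 4) := rfl
      rw [h1]
      have hq1 : 0 ≤ N / th r := Int.ediv_nonneg (by omega) hthr.le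
      have hq2 : N / th r ≤ 3 := by
        have : N / th r < 4 := by
          rw [Int.ediv_lt_iff_lt_mul hthr]; omega
        omega
      rw [D6_dg_one hq1 hq2]
      rintro ⟨h2, h3⟩
      have h4 : r + 1 - 1 = r := by omega
      rw [h4] at h3
      have h5 := Int.emod_add_mul_ediv N (th r)
      rw [h3, h2] at h5
      omega

theorem D6_encC (a : AC) (h : Rng1 a) : 
    ∃ (h0 : Ltr) (tl : List Ltr), h0.hd = .A ∧ (∀ b ∈ tl, b.hd ≠ .A) ∧ 
      (∀ X J, encC J { a with x := X } = { h0 with X := X, J := J } :: tl) ∧ 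
      (a.x = false → ((flH h0 (tl.foldr flE fl0)).tn = 1 ↔ a.N = th a.r)) ∧ 
      (a.x = false → a.N = th a.r → (flH h0 (tl.foldr flE fl0)).lz = true) ∧ 
      (a.x = true → ¬ ((flH h0 (tl.foldr flE fl0)).tn = 1 ∧ (flH h0 (tl.foldr flE fl0)).lz = true)) := by
  obtain ⟨h1, h2, h3, h4, h5⟩ := D6_rng a h
  obtain ⟨m, hm⟩ : ∃ m, m = a.mem := ⟨_, rfl⟩
  have hshape : ∃ p u us, a.mem = (p :: u) :: us := by
    have hM := h.1
    cases hmem : a.mem with
    | nil => 
      have := hM.len.1
      rw [hmem] at this
      simp at this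
    | cons v us =>
      cases v with
      | cons p u => exact ⟨p, u, us, rfl⟩
      | nil =>
        exfalso
        -- all members are nonempty
        cases hr : a.r with
        | zero =>
          rw [hr, hmem] at hM
          cases hM
        | succ s =>
          rw [hr] at hM
          have := hM.mlen [] (by rw [hmem]; exact List.mem_cons_self)
          simp at this
  obtain ⟨p, u, us, hshape⟩ := hshape
  obtain ⟨h0, tl, e1, e2, e3, e4, e5⟩ := D6_raw a.mem p u us hshape a.N (ell a.r a.N) 
    (KK a.r a.len a.N) (VV a.r a.N) h1 h2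
  refine ⟨h0, tl, e1, e2, ?_, ?_, ?_, ?_⟩
  · intro X J
    exact e3 X J
  · intro hx
    rw [e4]
    exact h3 hx
  · intro hx hN
    rw [e5]
    exact h4 hx hN
  · intro hx
    rw [e4, e5]
    exact h5 hx

/-! ### cross -/

theorem D6_cross_tail_foldr (tl : List Ltr) (htl : ∀ b ∈ tl, b.hd ≠ .A) (p : CP) : 
    tl.foldr cross.e p = { p with fl := tl.foldr flE p.fl } := by
  induction tl with
  | nil => rfl
  | cons a tl ih =>
    rw [List.foldr_cons, ih (fun b hb => htl b (List.mem_cons_of_mem _ hb)), List.foldr_cons]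
    have ha := htl a List.mem_cons_self
    simp only [cross]
    rw [if_neg ha]

theorem D6_cross_tail_run (tl : List Ltr) (htl : ∀ b ∈ tl, b.hd ≠ .A) (q : CQ) (p : CP) : 
    cross.run q tl p = tl ∧ cross.st q tl p = q := by
  induction tl with
  | nil => exact ⟨rfl, rfl⟩
  | cons a tl ih =>
    have ih' := ih (fun b hb => htl b (List.mem_cons_of_mem _ hb))
    have ha := htl a List.mem_cons_self
    have e1 : ∀ P, cross.out q a P = a := by
      intro P; simp only [cross]; rw [if_neg ha]
    have e2 : ∀ P, cross.d q a P = q := by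
      intro P; simp only [cross]; rw [if_neg ha]
    constructor
    · rw [BM.run, e1, e2, ih'.1]
    · rw [BM.st, e2, ih'.2]

theorem D6_cross_state (c : List (Bool × AC)) (h : ∀ p ∈ c, Rng1 p.2) : 
    (encJ c).foldr cross.e cross.p0 = (⟨fl0, hX c, hJ c, hJ c.tail⟩ : CP) := by
  induction c with
  | nil => rfl
  | cons p c ih =>
    obtain ⟨J, a⟩ := p
    obtain ⟨h0, tl, e1, e2, e3, _⟩ := D6_encC a (h (J, a) List.mem_cons_self)
    have ih' := ih (fun p hp => h p (List.mem_cons_of_mem _ hp))
    have e3' : encC J a = { h0 with X := a.x, J := J } :: tl := e3 a.x J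
    have : encJ ((J, a) :: c) = encC J a ++ encJ c := rfl
    rw [this, List.foldr_append, ih', e3', List.foldr_cons, D6_cross_tail_foldr tl e2]
    simp only [cross]
    rw [if_pos e1]
    rfl

theorem D6_ev (a : AC) (fl : Fl) (h : a.x = false → (fl.tn = 1 ↔ a.N = th a.r)) : 
    (!a.x && decide (fl.tn = 1)) = evA a := by
  unfold evA
  cases hx : a.x with
  | true => simp
  | false => simp only [Bool.not_false, Bool.true_and]; exact decide_eq_decide.2 (h hx)

theorem D6_cross_run (c : List (Bool × AC)) (h : ∀ p ∈ c, Rng1 p.2) : ∀ q : CQ, 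
    cross.run q (encJ c) cross.p0 = encJ (crossL q c) := by
  induction c with
  | nil => intro q; rfl
  | cons p c ih =>
    intro q
    obtain ⟨J, a⟩ := p
    obtain ⟨h0, tl, e1, e2, e3, e4, _, _⟩ := D6_encC a (h (J, a) List.mem_cons_self)
    have hc : ∀ p ∈ c, Rng1 p.2 := fun p hp => h p (List.mem_cons_of_mem _ hp)
    have e3' : encC J a = { h0 with X := a.x, J := J } :: tl := e3 a.x J
    have hJc : encJ ((J, a) :: c) = encC J a ++ encJ c := rfl
    have hev : (!a.x && decide ((flH h0 (tl.foldr flE fl0)).tn = 1)) = evA a := D6_ev a _ e4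
    have hflH : ∀ fl, flH { h0 with X := a.x, J := J } fl = flH h0 fl := fun fl => rfl
    rw [hJc, BM.run_append, D6_cross_state c hc, e3', BM.run, BM.st, 
      (D6_cross_tail_run tl e2 _ _).1, (D6_cross_tail_run tl e2 _ _).2, 
      D6_cross_tail_foldr tl e2]
    have hd : cross.d q { h0 with X := a.x, J := J } 
        { (⟨fl0, hX c, hJ c, hJ c.tail⟩ : CP) with fl := tl.foldr flE fl0 } = 
          (crossL' (hX c) (hJ c) (hJ c.tail) q J a).1 := by
      simp only [cross]
      rw [if_pos e1, hflH, hev]
      rfl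
    have ho : cross.out q { h0 with X := a.x, J := J } 
        { (⟨fl0, hX c, hJ c, hJ c.tail⟩ : CP) with fl := tl.foldr flE fl0 } = 
          { h0 with 
            X := (crossL' (hX c) (hJ c) (hJ c.tail) q J a).2.2.x
            J := (crossL' (hX c) (hJ c) (hJ c.tail) q J a).2.1 } := by
      simp only [cross]
      rw [if_pos e1, hflH, hev]
      rfl
    have hcr : crossL q ((J, a) :: c) = (crossL' (hX c) (hJ c) (hJ c.tail) q J a).2 ::
      crossL (crossL' (hX c) (hJ c) (hJ c.tail) q J a).1 c := rfl
    have hJc2 : ∀ (y : Bool × AC) (c' : List (Bool × AC)), encJ (y :: c') = encC y.1 y.2 ++ encJ c' := 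
      fun y c' => rfl
    rw [hcr, hJc2]
    have henc : encC (crossL' (hX c) (hJ c) (hJ c.tail) q J a).2.1 
        (crossL' (hX c) (hJ c) (hJ c.tail) q J a).2.2 = 
        { h0 with 
            X := (crossL' (hX c) (hJ c) (hJ c.tail) q J a).2.2.x
            J := (crossL' (hX c) (hJ c) (hJ c.tail) q J a).2.1 } :: tl := e3 _ _
    rw [henc]
    have hd' := hd
    have ho' := ho
    rw [hd, ho, ih hc]

theorem cross_encJ (c : List (Bool × AC)) (h : ∀ p ∈ c, Rng1 p.2) :
    cross.eval (encJ c) = encJ (crossL ⟨false, false, false⟩ c) :=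
  D6_cross_run c h _

/-! ### uncross -/

theorem D6_uncross_tail_run (tl : List Ltr) (htl : ∀ b ∈ tl, b.hd ≠ .A) (q : Bool) (p : Fl) : 
    uncross.run q tl p = tl ∧ uncross.st q tl p = q := by
  induction tl with
  | nil => exact ⟨rfl, rfl⟩
  | cons a tl ih =>
    have ih' := ih (fun b hb => htl b (List.mem_cons_of_mem _ hb))
    have ha := htl a List.mem_cons_self
    have e1 : ∀ P, uncross.out q a P = a := by
      intro P; simp only [uncross]; rw [if_neg ha]
    have e2 : ∀ P, uncross.d q a P = q := by
      intro P; simp only [uncross]; rw [if_neg ha]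
    constructor
    · rw [BM.run, e1, e2, ih'.1]
    · rw [BM.st, e2, ih'.2]

theorem D6_flE_A (a : Ltr) (p : Fl) (ha : a.hd = .A) : flE a p = fl0 := by
  unfold flE
  rw [ha]

theorem D6_crossL_state (c : List (Bool × AC)) (h : ∀ p ∈ c, Rng1 p.2) : ∀ q : CQ, 
    (encJ (crossL q c)).foldr flE fl0 = fl0 := by
  induction c with
  | nil => intro q; rfl
  | cons p c ih =>
    intro q
    obtain ⟨J, a⟩ := p
    obtain ⟨h0, tl, e1, e2, e3, e4, _, _⟩ := D6_encC a (h (J, a) List.mem_cons_self)
    have hc : ∀ p ∈ c, Rng1 p.2 := fun p hp => h p (List.mem_cons_of_mem _ hp)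
    have hcr : crossL q ((J, a) :: c) = (crossL' (hX c) (hJ c) (hJ c.tail) q J a).2 ::
      crossL (crossL' (hX c) (hJ c) (hJ c.tail) q J a).1 c := rfl
    have hJc2 : ∀ (y : Bool × AC) (c' : List (Bool × AC)), encJ (y :: c') = encC y.1 y.2 ++ encJ c' := 
      fun y c' => rfl
    have henc : encC (crossL' (hX c) (hJ c) (hJ c.tail) q J a).2.1 
        (crossL' (hX c) (hJ c) (hJ c.tail) q J a).2.2 = 
        { h0 with 
            X := (crossL' (hX c) (hJ c) (hJ c.tail) q J a).2.2.x
            J := (crossL' (hX c) (hJ c) (hJ c.tail) q J a).2.1 } :: tl := e3 _ _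
    rw [hcr, hJc2, List.foldr_append, ih hc, henc, List.foldr_cons]
    exact D6_flE_A _ _ e1

theorem D6_crossL_state' (c : List (Bool × AC)) (h : ∀ p ∈ c, Rng1 p.2) (q : CQ) : 
    (encJ (crossL q c)).foldr uncross.e uncross.p0 = uncross.p0 :=
  D6_crossL_state c h q

theorem D6_uncross_run (c : List (Bool × AC)) (h : ∀ p ∈ c, Rng1 p.2) (hu : UncOk c) : 
    ∀ (q : CQ) (b : Bool), (q.jr = true → b = true) → (b = true → hJ c = false) → 
    uncross.run b (encJ (crossL q c)) uncross.p0 = encJ c := by
  induction c with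
  | nil => intro q b _ _; rfl
  | cons p c ih =>
    intro q b hqb hbJ
    obtain ⟨J, a⟩ := p
    obtain ⟨h0, tl, e1, e2, e3, e4, e5, e6⟩ := D6_encC a (h (J, a) List.mem_cons_self)
    have hc : ∀ p ∈ c, Rng1 p.2 := fun p hp => h p (List.mem_cons_of_mem _ hp)
    have hcr : crossL q ((J, a) :: c) = (crossL' (hX c) (hJ c) (hJ c.tail) q J a).2 ::
      crossL (crossL' (hX c) (hJ c) (hJ c.tail) q J a).1 c := rfl
    have hJc2 : ∀ (y : Bool × AC) (c' : List (Bool × AC)), encJ (y :: c') = encC y.1 y.2 ++ encJ c' := 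
      fun y c' => rfl
    obtain ⟨X', hX'⟩ : ∃ X', X' = (crossL' (hX c) (hJ c) (hJ c.tail) q J a).2.2.x := ⟨_, rfl⟩
    obtain ⟨J', hJ'⟩ : ∃ J', J' = (crossL' (hX c) (hJ c) (hJ c.tail) q J a).2.1 := ⟨_, rfl⟩
    have henc : encC (crossL' (hX c) (hJ c) (hJ c.tail) q J a).2.1 
        (crossL' (hX c) (hJ c) (hJ c.tail) q J a).2.2 = 
        { h0 with X := X', J := J' } :: tl := by rw [hX', hJ']; exact e3 _ _
    have e3' : encC J a = { h0 with X := a.x, J := J } :: tl := e3 a.x J
    have hX2 : X' = (a.x || evA a) := hX'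
    have hJ2 : ∃ z : Bool, J' = (J || q.jr || (evA a && z)) := ⟨_, hJ'⟩
    obtain ⟨z, hJ2⟩ := hJ2
    -- the event is recognised
    have hthis : (X' && decide ((flH h0 (tl.foldr flE fl0)).tn = 1) && 
        (flH h0 (tl.foldr flE fl0)).lz) = evA a := by
      rw [hX2]
      cases hx : a.x with
      | true =>
        have h7 := e6 hx
        have h8 : evA a = false := by unfold evA; rw [hx]; rfl
        rw [h8]
        simp only [Bool.true_or, Bool.true_and]
        by_contra hne
        rw [Bool.not_eq_false, Bool.and_eq_true, decide_eq_true_eq] at hne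
        exact h7 hne
      | false =>
        rw [Bool.false_or]
        by_cases hN : a.N = th a.r
        · have h8 : evA a = true := by unfold evA; rw [hx]; simp [hN]
          rw [h8, e5 hx hN]
          simp [(e4 hx).2 hN]
        · have h8 : evA a = false := by unfold evA; rw [hx]; simp [hN]
          rw [h8]; simp
    have hflH : ∀ fl, flH { h0 with X := X', J := J' } fl = flH h0 fl := fun fl => rfl
    obtain ⟨hu1, hu2⟩ := hu
    rw [hcr, hJc2, BM.run_append, D6_crossL_state' c hc, henc, BM.run, BM.st, 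
      (D6_uncross_tail_run tl e2 _ _).1, (D6_uncross_tail_run tl e2 _ _).2]
    have hd : uncross.d b { h0 with X := X', J := J' } (tl.foldr uncross.e uncross.p0) = evA a := by
      simp only [uncross]
      rw [if_pos e1, hflH]
      exact hthis
    have ho : uncross.out b { h0 with X := X', J := J' } (tl.foldr uncross.e uncross.p0) = 
        { h0 with X := a.x, J := J } := by
      simp only [uncross]
      rw [if_pos e1, hflH]
      have hXo : (X' && !(X' && decide ((flH h0 (tl.foldr flE fl0)).tn = 1) && 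
        (flH h0 (tl.foldr flE fl0)).lz)) = a.x := by
        rw [hthis, hX2]
        cases hx : a.x with
        | true => 
          have h8 : evA a = false := by unfold evA; rw [hx]; rfl
          rw [h8]; rfl
        | false => cases evA a <;> rfl
      have hJo : (J' && !b && !(X' && decide ((flH h0 (tl.foldr flE fl0)).tn = 1) && 
        (flH h0 (tl.foldr flE fl0)).lz)) = J := by
        rw [hthis, hJ2]
        cases hev : evA a with
        | true => 
          have := (hu1 hev).1
          simp only at this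
          rw [this]; simp
        | false =>
          cases hb : b with
          | true => 
            have h9 : J = false := hbJ hb
            rw [h9]; simp
          | false =>
            have h9 : q.jr = false := by
              cases hj : q.jr with
              | false => rfl
              | true => rw [hb] at hqb; exact absurd (hqb hj) (by decide)
            rw [h9]; simp
      rw [hXo, hJo]
    rw [hd, ho, ih hc hu2]
    · rw [hJc2, e3']
    · intro hj
      have h10 : (crossL' (hX c) (hJ c) (hJ c.tail) q J a).1.jr = 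
        (evA a && hX c && !(hX c && hJ c.tail)) := rfl
      rw [h10, Bool.and_eq_true, Bool.and_eq_true] at hj
      exact hj.1.1
    · intro hev
      exact (hu1 hev).2

theorem uncross_encJ (c : List (Bool × AC)) (h : ∀ p ∈ c, Rng1 p.2) (hu : UncOk c) :
    uncross.eval (encJ (crossL ⟨false, false, false⟩ c)) = encJ c :=
  D6_uncross_run c h hu _ false (by intro h; exact absurd h (by decide)) 
    (by intro h; exact absurd h (by decide))

end TF
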