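import Mathlib
import Pool.Agent.LibTF.D1
import Pool.Agent.LibTF.D5
import Pool.Agent.LibTF.A2

/-! TASK D7: the passes `form` and `dissolve`. -/

namespace TF

/-- The clocks of consecutive cells are consistent. -/
def Ch : ℤ → List AC → Prop
  | _, [] => True
  | s, a :: c => a.N = s ∧ Ch (s + a.disp) c

structure FormOk (g : List AC) : Prop where
  ne : g ≠ []
  mem : ∀ a ∈ g, MemOk a.r a.mem
  unc : ∀ a ∈ g, a.x = false → 0 ≤ a.N ∧ a.N < th a.r ∧ ∀ s, a.r = s + 1 → 2 * th s < a.N
  crs : ∀ a ∈ g, a.x = true → th a.r ≤ a.N ∧ a.N < 3 * th a.r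
  lead : ∀ a, g.head? = some a → a.x = true → a.N ≤ 2 * th a.r
  grp : ∀ a, g.head? = some a → a.x = true → a.N = 2 * th a.r →
    2 ≤ g.length ∧ g.length ≤ 4 ∧ (∀ b ∈ g, b.r = a.r ∧ b.x = true) ∧ Ch a.N g

/-! ### Lists -/

theorem D7_filterMap {T : Type} (f : Ltr → Option T) (g : ℕ → T) (φ : ℕ → Ltr → Ltr)
    (w : List Ltr) (K l j : ℕ) (hK : K + l ≤ w.length)
    (hf : ∀ i a, f (φ i a) = if K ≤ i ∧ i < K + l then some (g (i - K + j)) else none) :
    (w.mapIdx φ).filterMap f = (List.range l).map (fun i => g (i + j)) := by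
  induction w generalizing K l j φ with
  | nil =>
    have : l = 0 := by simp at hK; omega
    subst this; simp
  | cons a w ih =>
    rw [List.mapIdx_cons]
    rcases K with _ | K
    · rcases l with _ | l
      · rw [List.filterMap_cons_none (by rw [hf]; simp)]
        have := ih (φ := fun i => φ (i + 1)) (K := 0) (l := 0) (j := j) (by omega)
          (by intro i a; rw [hf]; simp)
        simpa using this
      · rw [List.filterMap_cons_some (b := g (0 + j)) (by rw [hf]; simp)]
        have := ih (φ := fun i => φ (i + 1)) (K := 0) (l := l) (j := j + 1)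
          (by simp at hK; omega)
          (by
            intro i a; rw [hf]
            by_cases h : i < l
            · rw [if_pos (by omega), if_pos (by omega)]; congr 2; omega
            · rw [if_neg (by omega), if_neg (by omega)])
        rw [this, List.range_succ_eq_map]
        simp only [List.map_cons, List.map_map]
        congr 1
        apply List.map_congr_left
        intro i _
        simp only [Function.comp]
        congr 1; omega
    · rw [List.filterMap_cons_none (by rw [hf]; simp)]
      apply ih (φ := fun i => φ (i + 1)) (K := K) (l := l) (j := j) (by simp at hK; omega)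
      intro i a; rw [hf]
      by_cases h : K ≤ i ∧ i < K + l
      · rw [if_pos (by omega), if_pos h]; congr 2; omega
      · rw [if_neg (by omega), if_neg h]

theorem D7_pkg (w : List Ltr) (l K : ℕ) (n k h : ℤ) (s : ℕ → S3) (hK : K + l ≤ w.length) :
    (putM l K n k h s .z w).filterMap Ltr.M = pkgL l n k h s := by
  unfold putM pkgL
  rw [D7_filterMap Ltr.M (fun i => mlet l i n k h s .z) _ w K l 0 hK]
  · simp
  · intro i a; simp

/-! ### Flags -/

def D7_nr (p : Fl) : Fl := { p with room := false }

theorem D7_nr_upd (p : Fl) (μ : ML) : D7_nr (p.upd μ) = (D7_nr p).upd μ := by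
  simp [D7_nr, Fl.upd]

theorem D7_fold (u : List Ltr) (hu : ∀ b ∈ u, b.hd ≠ .A) (p : Fl) :
    D7_nr (u.foldr flE p) = (u.filterMap Ltr.M).foldr Fl.upd (D7_nr p) := by
  induction u with
  | nil => rfl
  | cons a u ih =>
    have ha : a.hd ≠ .A := hu a (by simp)
    have ih := ih (fun b hb => hu b (by simp [hb]))
    rw [List.foldr_cons]
    obtain ⟨b, hd, F, L, X, J, M, S⟩ := a
    cases hM : M with
    | none =>
      rw [List.filterMap_cons_none (by simp)]
      rw [← ih]
      cases hd
      · exact absurd rfl ha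
      · rfl
      · rfl
    | some μ =>
      rw [List.filterMap_cons_some (b := μ) (by simp)]
      rw [List.foldr_cons, ← ih, ← D7_nr_upd]
      cases hd
      · exact absurd rfl ha
      · rfl
      · rfl

theorem D7_foldH (a : Ltr) (u : List Ltr) (hu : ∀ b ∈ u, b.hd ≠ .A) (p : Fl) :
    D7_nr (flH a (u.foldr flE p)) = ((a :: u).filterMap Ltr.M).foldr Fl.upd (D7_nr p) := by
  cases hM : a.M with
  | none =>
    rw [List.filterMap_cons_none hM, ← D7_fold u hu p]
    simp [flH, hM]
  | some μ =>
    rw [List.filterMap_cons_some hM, List.foldr_cons, ← D7_fold u hu p, ← D7_nr_upd]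
    simp [flH, hM]

theorem D7_flags (w : List Ltr) (l K : ℕ) (n k h : ℤ) (s : ℕ → S3) (a : Ltr) (u : List Ltr)
    (hw : putM l K n k h s .z w = a :: u) (hu : ∀ b ∈ u, b.hd ≠ .A) (hl : 1 ≤ l)
    (hK : K + l ≤ w.length) (p : Fl) :
    (flH a (u.foldr flE p)).tn = dg n (l - 1) ∧
    ((flH a (u.foldr flE p)).lz = true ↔ n % th (l - 1) = 0) := by
  have h1 := D7_foldH a u hu p
  rw [← hw, D7_pkg w l K n k h s hK] at h1
  have h2 := pkg_flags l hl n k h s (D7_nr p)
  rw [← h1] at h2
  exact ⟨h2.1, h2.2.2.2.1⟩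

/-! ### Shape of cells -/

theorem D7_mem {r : ℕ} {m : List (List Pos)} (hm : MemOk r m) :
    ∃ p u us, m = (p :: u) :: us ∧ ∀ v ∈ us, v ≠ [] := by
  cases hm with
  | leaf b => exact ⟨_, [], [], rfl, by simp⟩
  | @node r ms h2 h4 h =>
    have h := MemOk.node ms h2 h4 h
    have hc := h.card
    have hl := h.mlen
    generalize glue (ms.map List.flatten) = m at *
    rcases m with _ | ⟨v, us⟩
    · simp at hc
    · have hv := hl v (by simp)
      rcases v with _ | ⟨p, u⟩
      · have : 0 < 2 ^ r := by positivity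
        simp at hv
      · refine ⟨p, u, us, rfl, ?_⟩
        intro w hw hw0
        have := hl w (by simp [hw])
        have h2 : 0 < 2 ^ r := by positivity
        subst hw0
        simp at this

theorem D7_lt_two (r : ℕ) : r + 1 ≤ 2 ^ r := Nat.lt_two_pow_self

theorem D7_len {r : ℕ} {m : List (List Pos)} (hm : MemOk r m) : r + 1 ≤ m.flatten.length :=
  (D7_lt_two r).trans hm.len.1

theorem D7_noA_bwT (l v : ℕ) (o : ℕ) (g : ℤ) (us : List (List Pos)) :
    ∀ b ∈ bwT l v o g us, b.hd ≠ .A := by
  induction us generalizing o g with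
  | nil => simp [bwT]
  | cons u us ih =>
    intro b hb
    rw [bwT, List.mem_append] at hb
    rcases hb with hb | hb
    · split_ifs at hb
      · rcases u with _ | ⟨p, u⟩
        · simp [vis, lw, putS, setHd] at hb
        · simp only [vis, lw, putS, List.map_cons, List.mapIdx_cons, setHd, List.mem_cons,
            List.mem_mapIdx] at hb
          rcases hb with hb | ⟨i, hi, hb⟩
          · rw [hb]; simp
          · rw [← hb]; simp
      · simp only [lw, List.mem_map] at hb
        obtain ⟨a, _, rfl⟩ := hb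
        simp
    · exact ih _ _ b hb

theorem D7_putM_cons (l K : ℕ) (n k h : ℤ) (s : ℕ → S3) (mv : Mv) (a : Ltr) (w : List Ltr) :
    putM l K n k h s mv (a :: w) =
      { a with M := if K ≤ 0 ∧ 0 < K + l then some (mlet l (0 - K) n k h s mv) else none } ::
      w.mapIdx (fun i a => { a with
        M := if K ≤ i + 1 ∧ i + 1 < K + l then some (mlet l (i + 1 - K) n k h s mv) else none }) := by
  rw [putM, List.mapIdx_cons]

/-- Shape of the word of a cell. -/
theorem D7_raw {r : ℕ} (m : List (List Pos)) (X J : Bool) (g : ℤ) (l K v : ℕ)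
    (hm : MemOk r m) (hl : 1 ≤ l) (hK : K + l ≤ m.flatten.length) :
    ∃ a u, raw m X J g l K v = a :: u ∧ a.hd = .A ∧ a.X = X ∧ a.J = J ∧
      (∀ b ∈ u, b.hd ≠ .A) ∧ ∀ p : Fl, (flH a (u.foldr flE p)).tn = dg g (l - 1) ∧
        ((flH a (u.foldr flE p)).lz = true ↔ g % th (l - 1) = 0) := by
  obtain ⟨p, u, us, rfl, hus⟩ := D7_mem hm
  have hlen : (bw X J l v g ((p :: u) :: us)).length = ((p :: u) :: us).flatten.length :=
    bw_length _ _ _ _ _ _
  have hb : bw X J l v g ((p :: u) :: us) =
      ⟨p.b, .A, p.F, p.L, X, J, none, none⟩ :: (lw u ++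
        bwT l v (p :: u).length (g + dsp (p :: u)) us) := by
    simp [bw, lw, setHd]
  have hnoA : ∀ b ∈ lw u ++ bwT l v (p :: u).length (g + dsp (p :: u)) us, b.hd ≠ .A := by
    intro b hb
    rw [List.mem_append] at hb
    rcases hb with hb | hb
    · simp only [lw, List.mem_map] at hb
      obtain ⟨a, _, rfl⟩ := hb
      simp
    · exact D7_noA_bwT _ _ _ _ _ b hb
  have hraw : raw ((p :: u) :: us) X J g l K v =
      putM l K g K (g + dsp (((p :: u) :: us).flatten.take K))
        (stkAt ((p :: u) :: us).flatten K) .z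
        (bw X J l v g ((p :: u) :: us)) := rfl
  generalize hW : lw u ++ bwT l v (p :: u).length (g + dsp (p :: u)) us = W at *
  generalize g + dsp (((p :: u) :: us).flatten.take K) = h at *
  generalize stkAt ((p :: u) :: us).flatten K = s at *
  refine ⟨_, _, hraw.trans ((congrArg _ hb).trans (D7_putM_cons _ _ _ _ _ _ _ _ _)),
    rfl, rfl, rfl, ?_, ?_⟩
  · intro b hb
    simp only [List.mem_mapIdx] at hb
    obtain ⟨i, hi, rfl⟩ := hb
    exact hnoA (W[i]) (List.getElem_mem hi)
  · intro q
    apply D7_flags (bw X J l v g ((p :: u) :: us)) l K g K h s _ _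
      ((congrArg _ hb).trans (D7_putM_cons _ _ _ _ _ _ _ _ _)) _ hl (by rw [hlen]; exact hK)
    intro b hb
    simp only [List.mem_mapIdx] at hb
    obtain ⟨i, hi, rfl⟩ := hb
    exact hnoA (W[i]) (List.getElem_mem hi)

/-- Word of a crossed cell. -/
def D7_w (l : ℕ) (n : ℤ) (X J : Bool) (u : List Pos) : List Ltr :=
  putM l 0 n 0 n (fun _ => S3.f) .z (setHd .A X J (lw u))

theorem D7_encC_x (J : Bool) (b : AC) (hm : MemOk b.r b.mem) (hx : b.x = true)
    (h1 : th b.r ≤ b.N) (h2 : b.N < 3 * th b.r) :
    encC J b = D7_w (b.r + 1) b.N true J b.pos := by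
  obtain ⟨r, m, N, x⟩ := b
  simp only at hm hx h1 h2
  subst hx
  have hl : ell r N = r + 1 := by unfold ell; rw [if_neg (by omega)]
  have hK : KK r (AC.len ⟨r, m, N, true⟩) N = 0 := by
    cases r with
    | zero => rfl
    | succ s =>
      rw [th_succ] at h1
      have := th_pos s
      unfold KK
      simp only
      omega
  have hb : bw true J (r + 1) (VV r N) N m = setHd .A true J (lw m.flatten) := by
    cases hm with
    | leaf b => simp [bw, bwT, lw, setHd]
    | @node s ms a2 a4 h =>
      have hm := MemOk.node ms a2 a4 h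
      obtain ⟨p, u, us, hm2, hus⟩ := D7_mem hm
      apply bw_hidden
      · have h4 := hm.len.2
        refine h4.trans ?_
        unfold VV
        simp only
        rw [th_succ] at h1
        have : (4 ^ (s + 1) : ℤ) ≤ N - 2 * th s := by
          unfold th at h1 ⊢
          have : (0 : ℤ) < 4 ^ s := by positivity
          rw [pow_succ]
          omega
        have := Int.toNat_le_toNat this
        refine le_trans (le_of_eq ?_) this
        have h3 : (4 ^ (s + 1) : ℤ) = ((4 ^ (s + 1) : ℕ) : ℤ) := by push_cast; rfl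
        rw [h3, Int.toNat_natCast]
      · rw [hm2]
        intro v hv
        rw [List.mem_cons] at hv
        rcases hv with rfl | hv
        · simp
        · exact hus v hv
  have hs : stkAt m.flatten 0 = fun _ => S3.f := by
    funext j
    exact hm.stk_zero j
  show raw m true J N (ell r N) (KK r (AC.len ⟨r, m, N, true⟩) N) (VV r N) = _
  rw [hK, hl]
  show putM (r + 1) 0 N ((0 : ℕ) : ℤ) (N + dsp (m.flatten.take 0)) (stkAt m.flatten 0) .z
    (bw true J (r + 1) (VV r N) N m) = _
  rw [hb, hs]
  simp [D7_w, AC.pos, dsp]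

theorem D7_encC_f (r : ℕ) (m : List (List Pos)) (hm : MemOk (r + 1) m) :
    encC false ⟨r + 1, m, 2 * th r, false⟩ =
      putM (r + 1) 0 (2 * th r) 0 (2 * th r) (fun _ => S3.f) .z
        (bw false false (r + 1) 0 (2 * th r) m) := by
  have hp := th_pos r
  have hl : ell (r + 1) (2 * th r) = r + 1 := by
    unfold ell; rw [if_pos (by rw [th_succ]; omega)]; omega
  have hK : KK (r + 1) (AC.len ⟨r + 1, m, 2 * th r, false⟩) (2 * th r) = 0 := by
    unfold KK
    simp only
    omega
  have hV : VV (r + 1) (2 * th r) = 0 := by simp [VV]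
  have hs : stkAt m.flatten 0 = fun _ => S3.f := by
    funext j
    exact hm.stk_zero j
  show raw m false false (2 * th r) (ell (r + 1) (2 * th r))
    (KK (r + 1) (AC.len ⟨r + 1, m, 2 * th r, false⟩) (2 * th r)) (VV (r + 1) (2 * th r)) = _
  rw [hK, hl, hV]
  show putM (r + 1) 0 (2 * th r) ((0 : ℕ) : ℤ) (2 * th r + dsp (m.flatten.take 0))
    (stkAt m.flatten 0) .z (bw false false (r + 1) 0 (2 * th r) m) = _
  rw [hs]
  simp [dsp]

theorem D7_fit {r : ℕ} {m : List (List Pos)} (hm : MemOk r m) (N : ℤ) :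
    1 ≤ ell r N ∧ KK r m.flatten.length N + ell r N ≤ m.flatten.length := by
  have hlen := D7_len hm
  cases r with
  | zero =>
    unfold ell KK
    split_ifs <;> simp only [max_eq_left (Nat.zero_le 1)] <;> omega
  | succ s =>
    have hp := th_pos s
    have h4 := th_succ s
    unfold ell KK
    simp only
    split_ifs <;> omega

/-- Shape of the word of a cell. -/
theorem D7_cell (J : Bool) (b : AC) (hm : MemOk b.r b.mem) :
    ∃ a u, encC J b = a :: u ∧ a.hd = .A ∧ a.X = b.x ∧ a.J = J ∧
      (∀ b ∈ u, b.hd ≠ .A) ∧ ∀ p : Fl, (flH a (u.foldr flE p)).tn = dg b.N (ell b.r b.N - 1) ∧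
        ((flH a (u.foldr flE p)).lz = true ↔ b.N % th (ell b.r b.N - 1) = 0) := by
  have h := D7_fit hm b.N
  exact D7_raw b.mem b.x J b.N (ell b.r b.N) (KK b.r b.len b.N) (VV b.r b.N) hm h.1 h.2

/-! ### Machines, non-dependent version -/

section machines
variable {Q P : Type} (d : Q → Ltr → P → Q) (e : Ltr → P → P) (out : Q → Ltr → P → Ltr)

def D7_run : Q → List Ltr → P → List Ltr
  | _, [], _ => []
  | q, a :: w, p => out q a (w.foldr e p) :: D7_run (d q a (w.foldr e p)) w p

def D7_st : Q → List Ltr → P → Q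
  | q, [], _ => q
  | q, a :: w, p => D7_st (d q a (w.foldr e p)) w p

theorem D7_run_eq (fQ : Finite Q) (fP : Finite P) (q0 : Q) (p0 : P) (q : Q) (w : List Ltr) (p : P) :
    BM.run (⟨Q, P, fQ, fP, q0, p0, d, e, out⟩ : BM Ltr Ltr) q w p = D7_run d e out q w p := by
  induction w generalizing q with
  | nil => rfl
  | cons a w ih => exact congrArg (out q a (w.foldr e p) :: ·) (ih _)

theorem D7_run_append (q : Q) (u v : List Ltr) (p : P) :
    D7_run d e out q (u ++ v) p =
      D7_run d e out q u (v.foldr e p) ++ D7_run d e out (D7_st d e q u (v.foldr e p)) v p := by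
  induction u generalizing q with
  | nil => rfl
  | cons a u ih => simp [D7_run, D7_st, ih]

end machines

/-! ### The machine `form` -/

def D7_fd (q : FQ) (a : Ltr) (p : Fl × Bool) : FQ :=
  if a.hd = .A then
    (if a.J then ⟨q.on, false⟩
    else ⟨a.X && decide ((flH a p.1).tn = 2), true⟩)
  else q

def D7_fe (a : Ltr) (p : Fl × Bool) : Fl × Bool :=
  if a.hd = .A then (fl0, a.J) else (flE a p.1, p.2)

def D7_fo (q : FQ) (a : Ltr) (p : Fl × Bool) : Ltr :=
  if a.hd = .A then
    if a.J then
      (if q.on then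
        { a with
          hd := .V, X := false, J := false, F := q.fst, L := !p.2, M := none
          S := a.M.map (fun μ => ⟨μ.un, μ.dn, μ.top⟩) }
      else a)
    else (if a.X && decide ((flH a p.1).tn = 2) then { a with X := false } else a)
  else
    (if q.on && !q.fst then
      { a with M := none, S := a.M.map (fun μ => ⟨μ.un, μ.dn, μ.top⟩) }
    else a)

theorem D7_form_eval (w : List Ltr) :
    form.eval w = D7_run D7_fd D7_fe D7_fo ⟨false, false⟩ w (fl0, false) :=
  D7_run_eq D7_fd D7_fe D7_fo _ _ ⟨false, false⟩ (fl0, false) _ w _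

def D7_g (a : Ltr) : Ltr := { a with M := none, S := a.M.map (fun μ => ⟨μ.un, μ.dn, μ.top⟩) }

theorem D7_form_e (u : List Ltr) (hu : ∀ b ∈ u, b.hd ≠ .A) (p : Fl × Bool) :
    u.foldr D7_fe p = (u.foldr flE p.1, p.2) := by
  induction u with
  | nil => rfl
  | cons a u ih =>
    rw [List.foldr_cons, ih (fun b hb => hu b (by simp [hb])), D7_fe, if_neg (hu a (by simp))]
    rfl

theorem D7_form_run (u : List Ltr) (hu : ∀ b ∈ u, b.hd ≠ .A) (q : FQ) (p : Fl × Bool) :
    D7_run D7_fd D7_fe D7_fo q u p = if q.on && !q.fst then u.map D7_g else u := by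
  induction u with
  | nil => split_ifs <;> rfl
  | cons a u ih =>
    have ih := ih (fun b hb => hu b (by simp [hb]))
    have ha := hu a (by simp)
    rw [D7_run, D7_fd, D7_fo, if_neg ha, if_neg ha, ih]
    split_ifs <;> rfl

theorem D7_form_st (u : List Ltr) (hu : ∀ b ∈ u, b.hd ≠ .A) (q : FQ) (p : Fl × Bool) :
    D7_st D7_fd D7_fe q u p = q := by
  induction u with
  | nil => rfl
  | cons a u ih =>
    have ih := ih (fun b hb => hu b (by simp [hb]))
    have ha := hu a (by simp)
    rw [D7_st, D7_fd, if_neg ha, ih]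

theorem D7_form_off (bs : List AC) (h : ∀ b ∈ bs, MemOk b.r b.mem) (q : FQ) (hq : q.on = false)
    (p : Fl × Bool) :
    D7_run D7_fd D7_fe D7_fo q (bs.flatMap (encC true)) p = bs.flatMap (encC true) := by
  induction bs generalizing q with
  | nil => rfl
  | cons b bs ih =>
    have ih := ih (fun b hb => h b (by simp [hb]))
    obtain ⟨a, u, h1, h2, h3, h4, h5, h6⟩ := D7_cell true b (h b (by simp))
    rw [List.flatMap_cons, h1, D7_run_append, List.cons_append]
    have e1 : ∀ p, D7_fo q a p = a := by
      intro p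
      simp [D7_fo, h2, h4, hq]
    have e2 : ∀ p, D7_fd q a p = (⟨false, false⟩ : FQ) := by
      intro p
      simp [D7_fd, h2, h4, hq]
    rw [D7_run, e1, D7_st, e2, D7_form_st _ h5, D7_form_run _ h5, ih _ rfl]
    rfl

/-- The words of the members after the leader. -/
def D7_T (l : ℕ) : Bool → List AC → List Ltr
  | _, [] => []
  | f, b :: bs => vis l b.N (setFL f bs.isEmpty b.pos) ++ D7_T l false bs

theorem D7_mapIdx_map {A B C : Type} (f : A → B) (g : ℕ → B → C) (u : List A) :
    (u.map f).mapIdx g = u.mapIdx (fun i a => g i (f a)) := by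
  induction u generalizing g with
  | nil => rfl
  | cons a u ih => rw [List.map_cons, List.mapIdx_cons, List.mapIdx_cons, ih]

theorem D7_map_mapIdx {A B C : Type} (f : ℕ → A → B) (g : B → C) (u : List A) :
    (u.mapIdx f).map g = u.mapIdx (fun i a => g (f i a)) := by
  induction u generalizing f with
  | nil => rfl
  | cons a u ih => rw [List.mapIdx_cons, List.mapIdx_cons, List.map_cons, ih]

theorem D7_mapIdx_id {A : Type} (f : ℕ → A → A) (u : List A) (h : ∀ i, ∀ a ∈ u, f i a = a) :
    u.mapIdx f = u := by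
  induction u generalizing f with
  | nil => rfl
  | cons a u ih =>
    rw [List.mapIdx_cons, h 0 a (by simp), ih]
    intro i b hb
    exact h (i + 1) b (by simp [hb])

theorem D7_w_cons (l : ℕ) (hl : 1 ≤ l) (n : ℤ) (X J : Bool) (p : Pos) (u : List Pos) :
    D7_w l n X J (p :: u) = ⟨p.b, .A, p.F, p.L, X, J, some (mlet l 0 n 0 n (fun _ => .f) .z), none⟩ ::
      u.mapIdx (fun i p => ⟨p.b, .H, p.F, p.L, false, false,
        if i + 1 < l then some (mlet l (i + 1) n 0 n (fun _ => .f) .z) else none, none⟩) := by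
  rw [D7_w, lw, List.map_cons, setHd, D7_putM_cons, D7_mapIdx_map, if_pos (by omega)]
  simp

theorem D7_vis_cons (l : ℕ) (hl : 1 ≤ l) (n : ℤ) (F L : Bool) (p : Pos) (u : List Pos) :
    vis l n (setFL F L (p :: u)) = ⟨p.b, .V, F, L, false, false, none, some (slet l 0 n)⟩ ::
      u.mapIdx (fun i p => ⟨p.b, .H, p.F, p.L, false, false, none,
        if i + 1 < l then some (slet l (i + 1) n) else none⟩) := by
  rw [vis, putS, lw, setFL, List.map_cons, List.mapIdx_cons, setHd, D7_mapIdx_map,
    if_pos (by omega)]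

theorem D7_wtail_noA (l : ℕ) (n : ℤ) (u : List Pos) :
    ∀ b ∈ u.mapIdx (fun i p => (⟨p.b, .H, p.F, p.L, false, false,
        if i + 1 < l then some (mlet l (i + 1) n 0 n (fun _ => .f) .z) else none, none⟩ : Ltr)),
      b.hd ≠ .A := by
  intro b hb
  simp only [List.mem_mapIdx] at hb
  obtain ⟨i, hi, rfl⟩ := hb
  simp

theorem D7_form_blk (l : ℕ) (hl : 1 ≤ l) (n : ℤ) (u : List Pos) (hu : u ≠ []) (f : Bool)
    (p : Fl × Bool) :
    D7_run D7_fd D7_fe D7_fo (⟨true, f⟩ : FQ) (D7_w l n true true u) p =
      vis l n (setFL f (!p.2) u) ∧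
    D7_st D7_fd D7_fe (⟨true, f⟩ : FQ) (D7_w l n true true u) p = (⟨true, false⟩ : FQ) := by
  obtain ⟨x, u, rfl⟩ := List.exists_cons_of_ne_nil hu
  rw [D7_w_cons l hl, D7_vis_cons l hl]
  have hA := D7_wtail_noA l n u
  refine ⟨?_, ?_⟩
  · rw [D7_run]
    refine congrArg₂ _ ?_ ?_
    · rw [D7_form_e _ hA]
      rfl
    · refine (D7_form_run _ hA (⟨true, false⟩ : FQ) _).trans ?_
      simp only [Bool.not_false, Bool.and_self, if_true, D7_map_mapIdx]
      congr 1
      funext i x
      simp only [D7_g]
      split_ifs <;> rfl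
  · rw [D7_st]
    exact D7_form_st _ hA (⟨true, false⟩ : FQ) _

theorem D7_form_on (l : ℕ) (hl : 1 ≤ l) (bs : List AC) (h : ∀ b ∈ bs, b.pos ≠ []) (f : Bool)
    (p : Fl) :
    D7_run D7_fd D7_fe D7_fo (⟨true, f⟩ : FQ)
      (bs.flatMap (fun b => D7_w l b.N true true b.pos)) (p, false) = D7_T l f bs := by
  induction bs generalizing f with
  | nil => rfl
  | cons b bs ih =>
    have ih := ih (fun b hb => h b (by simp [hb]))
    rw [List.flatMap_cons, D7_run_append, (D7_form_blk l hl _ _ (h b (by simp)) _ _).1,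
      (D7_form_blk l hl _ _ (h b (by simp)) _ _).2, ih, D7_T]
    congr 3
    cases bs with
    | nil => rfl
    | cons c bs =>
      obtain ⟨x, u, hx⟩ := List.exists_cons_of_ne_nil (h c (by simp))
      rw [List.flatMap_cons, hx, D7_w_cons l hl, List.cons_append, List.foldr_cons]
      rfl

/-! ### Groups -/

def D7_wg (g : List AC) : List Ltr := (jg g).flatMap (fun p => encC p.1 p.2)

theorem D7_wg_cons (a : AC) (g : List AC) :
    D7_wg (a :: g) = encC false a ++ g.flatMap (encC true) := by
  simp [D7_wg, jg, List.flatMap_map]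

theorem D7_encG (c : List (List AC)) : encG c = (c.map D7_wg).flatten := by
  simp only [encG, encJ, jl, List.flatMap_assoc]
  rw [List.flatMap_def]
  rfl

theorem D7_glueT_cons (f : Bool) (u : List Pos) (us : List (List Pos)) :
    glueT f (u :: us) = setFL f us.isEmpty (extP (if us.isEmpty then .l else .m) u) ::
      glueT false us := by
  cases us <;> rfl

theorem D7_lw_ext (c : S3) (u : List Pos) : lw (extP c u) = lw u := by
  simp [lw, extP]

theorem D7_vis_ext (l : ℕ) (n : ℤ) (F L : Bool) (c : S3) (u : List Pos) :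
    vis l n (setFL F L (extP c u)) = vis l n (setFL F L u) := by
  cases u with
  | nil => rfl
  | cons p u =>
    have : lw (setFL F L (extP c (p :: u))) = lw (setFL F L (p :: u)) := by
      simp [lw, extP, setFL]
    rw [vis, vis, this]

theorem D7_dsp_ext (F L : Bool) (c : S3) (u : List Pos) :
    dsp (setFL F L (extP c u)) = dsp u := by
  cases u with
  | nil => rfl
  | cons p u => simp [dsp, extP, setFL, Function.comp_def]

theorem D7_dsp_ext' (c : S3) (u : List Pos) : dsp (extP c u) = dsp u := by
  simp [dsp, extP, Function.comp_def]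

theorem D7_len_ext (F L : Bool) (c : S3) (u : List Pos) :
    (setFL F L (extP c u)).length = u.length := by
  cases u with
  | nil => rfl
  | cons p u => simp [extP, setFL]

theorem D7_bwT (l o : ℕ) (s : ℤ) (f : Bool) (bs : List AC) (ho : 0 < o) (hc : Ch s bs) :
    bwT l 0 o s (glueT f (bs.map AC.pos)) = D7_T l f bs := by
  induction bs generalizing o s f with
  | nil => rfl
  | cons b bs ih =>
    obtain ⟨h1, h2⟩ := hc
    rw [List.map_cons, D7_glueT_cons, bwT, if_pos ho, D7_T, D7_len_ext, D7_dsp_ext, D7_vis_ext]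
    rw [ih (o + b.pos.length) (s + dsp b.pos) false (by omega) h2, h1, List.isEmpty_map]

theorem D7_T_M (l : ℕ) (f : Bool) (bs : List AC) : ∀ a ∈ D7_T l f bs, a.M = none := by
  induction bs generalizing f with
  | nil => simp [D7_T]
  | cons b bs ih =>
    intro a ha
    rw [D7_T, List.mem_append] at ha
    rcases ha with ha | ha
    · rw [vis] at ha
      generalize setFL f bs.isEmpty b.pos = u at ha
      cases u with
      | nil => simp [lw, putS, setHd] at ha
      | cons p u =>
        simp only [lw, putS, List.map_cons, List.mapIdx_cons, setHd, List.mem_cons,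
          D7_mapIdx_map, List.mem_mapIdx] at ha
        rcases ha with ha | ⟨i, hi, ha⟩
        · rw [ha]
        · rw [← ha]
    · exact ih _ a ha

theorem D7_putM_append (l : ℕ) (n k h : ℤ) (s : ℕ → S3) (mv : Mv) (w1 w2 : List Ltr)
    (h1 : l ≤ w1.length) (h2 : ∀ a ∈ w2, a.M = none) :
    putM l 0 n k h s mv (w1 ++ w2) = putM l 0 n k h s mv w1 ++ w2 := by
  rw [putM, List.mapIdx_append]
  congr 1
  apply D7_mapIdx_id
  intro i a ha
  rw [if_neg (by omega)]
  have := h2 a ha
  cases a
  simp_all

theorem D7_formed (a : AC) (g : List AC) (h : FormOk (a :: g)) (hx : a.x = true)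
    (hN : a.N = 2 * th a.r) :
    D7_wg (formG (a :: g)) = D7_w (a.r + 1) a.N false false a.pos ++ D7_T (a.r + 1) true g ∧
    D7_wg (a :: g) = D7_w (a.r + 1) a.N true false a.pos ++
      g.flatMap (fun b => D7_w (a.r + 1) b.N true true b.pos) := by
  obtain ⟨h2, h4, hb, hc⟩ := h.grp a rfl hx hN
  have hM : MemOk (a.r + 1) (glue ((a :: g).map AC.pos)) := by
    have := MemOk.node (r := a.r) ((a :: g).map AC.mem) (by simpa using h2) (by simpa using h4)
      (by
        intro m hm
        rw [List.mem_map] at hm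
        obtain ⟨b, hb1, rfl⟩ := hm
        rw [← (hb b hb1).1]
        exact h.mem b hb1)
    rw [List.map_map] at this
    exact this
  refine ⟨?_, ?_⟩
  · rw [formG, if_pos (by simp [hx, hN])]
    rw [D7_wg_cons, List.flatMap_nil, List.append_nil]
    rw [show (⟨a.r + 1, glue ((a :: g).map AC.pos), a.N, false⟩ : AC) =
      ⟨a.r + 1, glue ((a :: g).map AC.pos), 2 * th a.r, false⟩ by rw [hN]]
    rw [D7_encC_f _ _ hM]
    have e1 : bw false false (a.r + 1) 0 (2 * th a.r) (glue ((a :: g).map AC.pos)) =
        setHd .A false false (lw a.pos) ++ D7_T (a.r + 1) true g := by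
      rw [List.map_cons, glue, bw, D7_lw_ext, D7_dsp_ext']
      congr 1
      apply D7_bwT
      · have := D7_len (h.mem a (by simp))
        rw [extP, List.length_map]
        exact lt_of_lt_of_le (Nat.succ_pos _) this
      · rw [← hN]
        exact hc.2
    rw [e1, D7_putM_append _ _ _ _ _ _ _ _ _ (D7_T_M _ _ _), ← hN]
    · rfl
    · have := D7_len (h.mem a (by simp))
      have h3 : (setHd .A false false (lw a.pos)).length = a.pos.length := by
        rcases a.pos with _ | ⟨p, u⟩
        · rfl
        · simp [lw, setHd]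
      rw [h3]
      exact this
  · rw [D7_wg_cons, D7_encC_x false a (h.mem a (by simp)) hx (h.crs a (by simp) hx).1
      (h.crs a (by simp) hx).2]
    congr 1
    rw [List.flatMap_def, List.flatMap_def]
    congr 1
    apply List.map_congr_left
    intro b hbg
    have hb' := hb b (by simp [hbg])
    have hcr := h.crs b (by simp [hbg]) hb'.2
    rw [D7_encC_x true b (h.mem b (by simp [hbg])) hb'.2 hcr.1 hcr.2, hb'.1]

theorem D7_pos_ne (b : AC) (hm : MemOk b.r b.mem) : b.pos ≠ [] := by
  intro h0
  have := D7_len hm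
  rw [show b.mem.flatten = [] from h0] at this
  simp at this

theorem D7_dg2 (r : ℕ) : dg (2 * th r) r = 2 := by
  rw [dg, Int.mul_ediv_cancel _ (th_pos r).ne']
  rfl

theorem D7_w_flags (l : ℕ) (hl : 1 ≤ l) (n : ℤ) (X J : Bool) (p : Pos) (u : List Pos)
    (hlen : l ≤ (p :: u).length) (q : Fl) (a : Ltr) (v : List Ltr)
    (hw : D7_w l n X J (p :: u) = a :: v) (hv : ∀ b ∈ v, b.hd ≠ .A) :
    (flH a (v.foldr flE q)).tn = dg n (l - 1) ∧
    ((flH a (v.foldr flE q)).lz = true ↔ n % th (l - 1) = 0) := by
  apply D7_flags (setHd .A X J (lw (p :: u))) l 0 n 0 n (fun _ => .f) a v hw hv hl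
  simpa [setHd, lw] using hlen

theorem D7_ne2 (b : AC) (h1 : th b.r ≤ b.N) (h2 : b.N < 2 * th b.r) :
    dg b.N (ell b.r b.N - 1) ≠ 2 := by
  have hl : ell b.r b.N = b.r + 1 := by unfold ell; rw [if_neg (by omega)]
  have hp := th_pos b.r
  rw [hl, Nat.add_sub_cancel, dg]
  have : b.N / th b.r = 1 := by
    rw [Int.ediv_eq_iff_of_pos hp]
    constructor <;> omega
  rw [this]
  decide

theorem D7_form_grp (g : List AC) (h : FormOk g) : form.eval (D7_wg g) = D7_wg (formG g) := by
  cases g with
  | nil => exact absurd rfl h.ne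
  | cons a g =>
    rw [D7_form_eval]
    by_cases hx : a.x = true ∧ a.N = 2 * th a.r
    · obtain ⟨h1, h2⟩ := D7_formed a g h hx.1 hx.2
      rw [h1, h2, D7_run_append]
      have hg : ∀ b ∈ g, b.pos ≠ [] := fun b hb => D7_pos_ne b (h.mem b (by simp [hb]))
      obtain ⟨p, u, hpu⟩ := List.exists_cons_of_ne_nil (D7_pos_ne a (h.mem a (by simp)))
      have hlen : a.r + 1 ≤ (p :: u).length := by
        rw [← hpu]; exact D7_len (h.mem a (by simp))
      have hl1 : 1 ≤ a.r + 1 := by omega
      rw [hpu, D7_w_cons _ hl1, D7_w_cons _ hl1]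
      have hA := D7_wtail_noA (a.r + 1) a.N u
      have hfl := fun q => (D7_w_flags (a.r + 1) hl1 a.N true false p u hlen q _ _
        (D7_w_cons _ hl1 _ _ _ _ _) hA).1
      rw [Nat.add_sub_cancel, hx.2, D7_dg2, ← hx.2] at hfl
      rw [D7_run, D7_st, D7_form_e _ hA]
      have e1 : ∀ q : Fl × Bool, D7_fd ⟨false, false⟩ ⟨p.b, .A, p.F, p.L, true, false,
          some (mlet (a.r + 1) 0 a.N 0 a.N (fun _ => .f) .z), none⟩
          ((u.mapIdx (fun i p => (⟨p.b, .H, p.F, p.L, false, false,
            if i + 1 < a.r + 1 then some (mlet (a.r + 1) (i + 1) a.N 0 a.N (fun _ => .f) .z)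
              else none, none⟩ : Ltr))).foldr flE q.1, q.2) = ⟨true, true⟩ := by
        intro q
        simp only [D7_fd]
        rw [hfl]
        simp
      have e2 : ∀ q : Fl × Bool, D7_fo ⟨false, false⟩ ⟨p.b, .A, p.F, p.L, true, false,
          some (mlet (a.r + 1) 0 a.N 0 a.N (fun _ => .f) .z), none⟩
          ((u.mapIdx (fun i p => (⟨p.b, .H, p.F, p.L, false, false,
            if i + 1 < a.r + 1 then some (mlet (a.r + 1) (i + 1) a.N 0 a.N (fun _ => .f) .z)
              else none, none⟩ : Ltr))).foldr flE q.1, q.2) = ⟨p.b, .A, p.F, p.L, false, false,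
          some (mlet (a.r + 1) 0 a.N 0 a.N (fun _ => .f) .z), none⟩ := by
        intro q
        simp only [D7_fo]
        rw [hfl]
        simp
      rw [e1, e2, D7_form_st _ hA, D7_form_run _ hA, D7_form_on _ hl1 g hg]
      simp
    · have h1 : formG (a :: g) = a :: g := by
        rw [formG, if_neg]
        simpa using hx
      rw [h1, D7_wg_cons, D7_run_append]
      obtain ⟨a', u, h1, h2, h3, h4, h5, h6⟩ := D7_cell false a (h.mem a (by simp))
      have hd : ∀ q : Fl, (a'.X && decide ((flH a' (u.foldr flE q)).tn = 2)) = false := by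
        intro q
        rw [(h6 q).1, h3]
        cases hx' : a.x with
        | false => rfl
        | true =>
          have hle := h.lead a rfl hx'
          have hge := (h.crs a (by simp) hx').1
          have hne : a.N ≠ 2 * th a.r := fun h => hx ⟨hx', h⟩
          rw [decide_eq_false (D7_ne2 a hge (by omega))]
          rfl
      rw [h1, D7_run, D7_st, D7_form_e _ h5]
      have e1 : ∀ q : Fl × Bool, D7_fd ⟨false, false⟩ a' (u.foldr flE q.1, q.2) =
          ⟨false, true⟩ := by
        intro q
        simp only [D7_fd]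
        rw [if_pos h2, h4, hd]
        simp
      have e2 : ∀ q : Fl × Bool, D7_fo ⟨false, false⟩ a' (u.foldr flE q.1, q.2) = a' := by
        intro q
        simp only [D7_fo]
        rw [if_pos h2, h4, hd]
        simp
      rw [e1, e2, D7_form_st _ h5, D7_form_run _ h5,
        D7_form_off g (fun b hb => h.mem b (by simp [hb])) _ rfl]
      simp

theorem D7_wg_head (g : List AC) (h : FormOk g) :
    ∃ a u, D7_wg g = a :: u ∧ a.hd = .A ∧ a.J = false := by
  cases g with
  | nil => exact absurd rfl h.ne
  | cons a g =>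
    obtain ⟨a', u, h1, h2, h3, h4, h5, h6⟩ := D7_cell false a (h.mem a (by simp))
    rw [D7_wg_cons, h1]
    exact ⟨a', _, rfl, h2, h4⟩

theorem D7_wg_head' (g : List AC) (h : FormOk g) :
    ∃ a u, D7_wg (formG g) = a :: u ∧ a.hd = .A := by
  cases g with
  | nil => exact absurd rfl h.ne
  | cons a g =>
    by_cases hx : a.x = true ∧ a.N = 2 * th a.r
    · rw [(D7_formed a g h hx.1 hx.2).1]
      obtain ⟨p, u, hpu⟩ := List.exists_cons_of_ne_nil (D7_pos_ne a (h.mem a (by simp)))
      rw [hpu, D7_w_cons _ (by omega)]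
      exact ⟨_, _, rfl, rfl⟩
    · have h1 : formG (a :: g) = a :: g := by
        rw [formG, if_neg]
        simpa using hx
      rw [h1]
      obtain ⟨a', u, h2, h3, _⟩ := D7_wg_head _ h
      exact ⟨a', u, h2, h3⟩

theorem form_encG (c : List (List AC)) (h : ∀ g ∈ c, FormOk g) :
    form.eval (encG c) = encG (formC c) := by
  rw [D7_encG, D7_encG, BM.eval_blocks form (fun a => a.hd = .A ∧ a.J = false)]
  · rw [formC, List.map_map, List.map_map]
    congr 1
    apply List.map_congr_left
    intro g hg
    exact D7_form_grp g (h g hg)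
  · rintro q q' a p ⟨ha, hJ⟩
    show D7_fo q a p = D7_fo q' a p ∧ D7_fd q a p = D7_fd q' a p
    simp [D7_fo, D7_fd, ha, hJ]
  · rintro a p ⟨ha, hJ⟩
    show D7_fe a p = (fl0, false)
    simp [D7_fe, ha, hJ]
  · intro w hw
    rw [List.mem_map] at hw
    obtain ⟨g, hg, rfl⟩ := hw
    obtain ⟨a, u, h1, h2, h3⟩ := D7_wg_head g (h g hg)
    exact ⟨a, u, h1, h2, h3⟩

/-! ### The machine `dissolve` -/

def D7_dd (q : Bool) (a : Ltr) (p : Fl) : Bool :=
  if a.hd = .A then (!a.X && decide ((flH a p).tn = 2) && (flH a p).lz) else q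

def D7_do (q : Bool) (a : Ltr) (p : Fl) : Ltr :=
  if a.hd = .A then
    (if !a.X && decide ((flH a p).tn = 2) && (flH a p).lz then { a with X := true } else a)
  else if q then
    (if a.hd = .V then
      { a with
        hd := .A, X := true, J := true, F := false, L := false, S := none
        M := a.S.map (fun σ => ⟨σ.u, 0, σ.u, σ.d, 0, σ.d, .f, σ.top, true, .z⟩) }
    else
      { a with
        S := none
        M := match a.S with
          | some σ => some ⟨σ.u, 0, σ.u, σ.d, 0, σ.d, .f, σ.top, false, .z⟩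
          | none => a.M })
  else a

theorem D7_dis_eval (w : List Ltr) :
    dissolve.eval w = D7_run D7_dd flE D7_do false w fl0 :=
  D7_run_eq D7_dd flE D7_do _ _ false fl0 _ w _

theorem D7_dis_run (u : List Ltr) (hu : ∀ b ∈ u, b.hd ≠ .A) (p : Fl) :
    D7_run D7_dd flE D7_do false u p = u := by
  induction u with
  | nil => rfl
  | cons a u ih =>
    have ih := ih (fun b hb => hu b (by simp [hb]))
    have ha := hu a (by simp)
    rw [D7_run, D7_dd, D7_do, if_neg ha, if_neg ha, ih]
    simp

theorem D7_dd_H (q : Bool) (a : Ltr) (p : Fl) (h : a.hd = .H) : D7_dd q a p = q := by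
  rw [D7_dd, if_neg (by rw [h]; simp)]

def D7_gi (a : Ltr) : Ltr :=
  { a with
    S := none
    M := match a.S with
      | some σ => some ⟨σ.u, 0, σ.u, σ.d, 0, σ.d, .f, σ.top, false, .z⟩
      | none => a.M }

theorem D7_do_H (a : Ltr) (p : Fl) (h : a.hd = .H) : D7_do true a p = D7_gi a := by
  rw [D7_do, if_neg (by rw [h]; simp), if_pos rfl, if_neg (by rw [h]; simp)]
  rfl

theorem D7_dis_run' (u : List Ltr) (hu : ∀ b ∈ u, b.hd = .H) (hS : ∀ b ∈ u, b.S = none)
    (p : Fl) : D7_run D7_dd flE D7_do true u p = u := by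
  induction u with
  | nil => rfl
  | cons a u ih =>
    have ih := ih (fun b hb => hu b (by simp [hb])) (fun b hb => hS b (by simp [hb]))
    have ha := hu a (by simp)
    have hs := hS a (by simp)
    rw [D7_run, D7_dd_H _ _ _ ha, D7_do_H _ _ ha, ih]
    obtain ⟨b, hd, F, L, X, J, M, S⟩ := a
    simp only at ha hs
    subst ha hs
    rfl

theorem D7_dis_st (u : List Ltr) (hu : ∀ b ∈ u, b.hd ≠ .A) (q : Bool) (p : Fl) :
    D7_st D7_dd flE q u p = q := by
  induction u with
  | nil => rfl
  | cons a u ih =>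
    have ih := ih (fun b hb => hu b (by simp [hb]))
    have ha := hu a (by simp)
    rw [D7_st, D7_dd, if_neg ha, ih]

theorem D7_dis_off (cs : List (Bool × AC)) (h : ∀ b ∈ cs, MemOk b.2.r b.2.mem)
    (h' : ∀ b ∈ cs, b.2.x = false → ¬ (dg b.2.N (ell b.2.r b.2.N - 1) = 2 ∧
      b.2.N % th (ell b.2.r b.2.N - 1) = 0)) (q : Bool)
    (p : Fl) :
    D7_run D7_dd flE D7_do q (cs.flatMap (fun p => encC p.1 p.2)) p =
      cs.flatMap (fun p => encC p.1 p.2) := by
  induction cs generalizing q with
  | nil => rfl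
  | cons b bs ih =>
    have ih := ih (fun b hb => h b (by simp [hb])) (fun b hb => h' b (by simp [hb]))
    obtain ⟨a, u, h1, h2, h3, h4, h5, h6⟩ := D7_cell b.1 b.2 (h b (by simp))
    have hd : ∀ q : Fl, (!a.X && decide ((flH a (u.foldr flE q)).tn = 2) &&
        (flH a (u.foldr flE q)).lz) = false := by
      intro q
      rw [h3]
      cases hx' : b.2.x with
      | true => simp
      | false =>
        have h7 := h' b (by simp) hx'
        rw [← (h6 q).1, ← (h6 q).2] at h7
        by_cases ht : (flH a (u.foldr flE q)).tn = 2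
        · have : ¬ (flH a (u.foldr flE q)).lz = true := fun hh => h7 ⟨ht, hh⟩
          simp [this]
        · simp [ht]
    rw [List.flatMap_cons, h1, D7_run_append, List.cons_append, D7_run, D7_st]
    have e1 : ∀ p, D7_do q a (u.foldr flE p) = a := by
      intro p
      rw [D7_do, if_pos h2, hd]
      simp
    have e2 : ∀ p, D7_dd q a (u.foldr flE p) = false := by
      intro p
      rw [D7_dd, if_pos h2, hd]
    rw [e1, e2, D7_dis_st _ h5, D7_dis_run _ h5, ih]
    rfl

theorem D7_dis_blk (l : ℕ) (hl : 1 ≤ l) (n : ℤ) (x : Pos) (u : List Pos) (hF : x.F = false)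
    (hL : x.L = false) (F L : Bool) (p : Fl) :
    D7_run D7_dd flE D7_do true (vis l n (setFL F L (x :: u))) p = D7_w l n true true (x :: u) ∧
    D7_st D7_dd flE true (vis l n (setFL F L (x :: u))) p = true := by
  rw [D7_w_cons l hl, D7_vis_cons l hl]
  have hA : ∀ b ∈ u.mapIdx (fun i p => (⟨p.b, .H, p.F, p.L, false, false, none,
        if i + 1 < l then some (slet l (i + 1) n) else none⟩ : Ltr)), b.hd = .H := by
    intro b hb
    simp only [List.mem_mapIdx] at hb
    obtain ⟨i, hi, rfl⟩ := hb
    rfl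
  have hA' : ∀ b ∈ u.mapIdx (fun i p => (⟨p.b, .H, p.F, p.L, false, false, none,
        if i + 1 < l then some (slet l (i + 1) n) else none⟩ : Ltr)), b.hd ≠ .A := by
    intro b hb
    rw [hA b hb]
    simp
  refine ⟨?_, ?_⟩
  · rw [D7_run, D7_dd, if_neg (by simp), D7_do, if_neg (by simp), if_pos rfl, if_pos rfl]
    refine congrArg₂ _ ?_ ?_
    · simp [hF, hL, slet, mlet, ug, dg]
    · clear hA hA'
      have key : ∀ (v : List Pos) (j : ℕ), D7_run D7_dd flE D7_do true
          (v.mapIdx (fun i p => (⟨p.b, .H, p.F, p.L, false, false, none,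
            if i + j + 1 < l then some (slet l (i + j + 1) n) else none⟩ : Ltr))) p =
          v.mapIdx (fun i p => (⟨p.b, .H, p.F, p.L, false, false,
            if i + j + 1 < l then some (mlet l (i + j + 1) n 0 n (fun _ => .f) .z) else none,
              none⟩ : Ltr)) := by
        intro v
        induction v with
        | nil => intro j; rfl
        | cons y v ih =>
          intro j
          rw [List.mapIdx_cons, List.mapIdx_cons, D7_run, D7_dd_H _ _ _ rfl, D7_do_H _ _ rfl]
          have := ih (j + 1)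
          simp only [show ∀ i, i + (j + 1) + 1 = i + 1 + j + 1 from fun i => by omega] at this
          rw [this]
          congr 1
          rw [D7_gi]
          split_ifs
          · simp [slet, mlet, dg]
          · rfl
      simpa using key u 0
  · rw [D7_st, D7_dd, if_neg (by simp)]
    exact D7_dis_st _ hA' true _

theorem D7_dis_on (l : ℕ) (hl : 1 ≤ l) (bs : List AC) (h : ∀ b ∈ bs, MemOk b.r b.mem) (f : Bool)
    (p : Fl) :
    D7_run D7_dd flE D7_do true (D7_T l f bs) p =
      bs.flatMap (fun b => D7_w l b.N true true b.pos) := by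
  induction bs generalizing f with
  | nil => rfl
  | cons b bs ih =>
    have ih := ih (fun b hb => h b (by simp [hb]))
    obtain ⟨x, u, hx, hF, hL, _⟩ := (h b (by simp)).first
    rw [D7_T, List.flatMap_cons, D7_run_append]
    rw [show b.pos = x :: u from hx]
    rw [(D7_dis_blk l hl b.N x u hF hL _ _ _).1, (D7_dis_blk l hl b.N x u hF hL _ _ _).2, ih]

theorem D7_unc (b : AC) (hx : 0 ≤ b.N ∧ b.N < th b.r ∧ ∀ s, b.r = s + 1 → 2 * th s < b.N) :
    ¬ (dg b.N (ell b.r b.N - 1) = 2 ∧ b.N % th (ell b.r b.N - 1) = 0) := by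
  obtain ⟨r, m, N, x⟩ := b
  obtain ⟨h0, h1, h2⟩ := hx
  simp only at h0 h1 h2 ⊢
  rintro ⟨h3, h4⟩
  have hl : ell r N = max 1 r := by unfold ell; rw [if_pos h1]
  rw [hl] at h3 h4
  cases r with
  | zero =>
    rw [dg_zero_of_lt h0 (by simpa using h1)] at h3
    revert h3; decide
  | succ s =>
    have h5 := h2 s rfl
    have hp := th_pos s
    rw [th_succ] at h1
    rw [show max 1 (s + 1) - 1 = s by omega] at h3 h4
    have h6 : N / th s < 4 := by
      rw [Int.ediv_lt_iff_lt_mul hp]; exact h1
    have h7 : 2 < N / th s := by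
      have h8 := Int.emod_add_mul_ediv N (th s)
      rw [h4, zero_add] at h8
      by_contra hlt
      have : N / th s ≤ 2 := by omega
      nlinarith
    have h9 : N / th s = 3 := by omega
    rw [dg, h9] at h3
    revert h3; decide

theorem D7_dis_grp (g : List AC) (h : FormOk g) : dissolve.eval (D7_wg (formG g)) = D7_wg g := by
  cases g with
  | nil => exact absurd rfl h.ne
  | cons a g =>
    rw [D7_dis_eval]
    by_cases hx : a.x = true ∧ a.N = 2 * th a.r
    · obtain ⟨h1, h2⟩ := D7_formed a g h hx.1 hx.2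
      rw [h1, h2, D7_run_append]
      obtain ⟨p, u, hpu⟩ := List.exists_cons_of_ne_nil (D7_pos_ne a (h.mem a (by simp)))
      have hlen : a.r + 1 ≤ (p :: u).length := by
        rw [← hpu]; exact D7_len (h.mem a (by simp))
      have hl1 : 1 ≤ a.r + 1 := by omega
      rw [hpu, D7_w_cons _ hl1, D7_w_cons _ hl1]
      have hA := D7_wtail_noA (a.r + 1) a.N u
      have hfl := fun q => (D7_w_flags (a.r + 1) hl1 a.N false false p u hlen q _ _
        (D7_w_cons _ hl1 _ _ _ _ _) hA)
      rw [Nat.add_sub_cancel, hx.2, D7_dg2, Int.mul_emod_left, ← hx.2] at hfl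
      rw [D7_run, D7_st]
      have e1 : ∀ q : Fl, D7_dd false ⟨p.b, .A, p.F, p.L, false, false,
          some (mlet (a.r + 1) 0 a.N 0 a.N (fun _ => .f) .z), none⟩
          ((u.mapIdx (fun i p => (⟨p.b, .H, p.F, p.L, false, false,
            if i + 1 < a.r + 1 then some (mlet (a.r + 1) (i + 1) a.N 0 a.N (fun _ => .f) .z)
              else none, none⟩ : Ltr))).foldr flE q) = true := by
        intro q
        simp only [D7_dd]
        rw [(hfl q).1, (hfl q).2.2 rfl]
        simp
      have e2 : ∀ q : Fl, D7_do false ⟨p.b, .A, p.F, p.L, false, false,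
          some (mlet (a.r + 1) 0 a.N 0 a.N (fun _ => .f) .z), none⟩
          ((u.mapIdx (fun i p => (⟨p.b, .H, p.F, p.L, false, false,
            if i + 1 < a.r + 1 then some (mlet (a.r + 1) (i + 1) a.N 0 a.N (fun _ => .f) .z)
              else none, none⟩ : Ltr))).foldr flE q) = ⟨p.b, .A, p.F, p.L, true, false,
          some (mlet (a.r + 1) 0 a.N 0 a.N (fun _ => .f) .z), none⟩ := by
        intro q
        simp only [D7_do]
        rw [(hfl q).1, (hfl q).2.2 rfl]
        simp
      rw [e1, e2, D7_dis_st _ hA, D7_dis_run', D7_dis_on _ hl1 g (fun b hb => h.mem b (by simp [hb]))]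
      · intro b hb
        simp only [List.mem_mapIdx] at hb
        obtain ⟨i, hi, rfl⟩ := hb
        rfl
      · intro b hb
        simp only [List.mem_mapIdx] at hb
        obtain ⟨i, hi, rfl⟩ := hb
        rfl
    · have h1 : formG (a :: g) = a :: g := by
        rw [formG, if_neg]
        simpa using hx
      rw [h1, D7_wg]
      apply D7_dis_off
      · intro b hb
        have : b.2 ∈ a :: g := by
          simp only [jg, List.mem_cons, List.mem_map] at hb
          rcases hb with rfl | ⟨b', hb, rfl⟩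
          · simp
          · simp [hb]
        exact h.mem _ this
      · intro b hb hbx
        have : b.2 ∈ a :: g := by
          simp only [jg, List.mem_cons, List.mem_map] at hb
          rcases hb with rfl | ⟨b', hb, rfl⟩
          · simp
          · simp [hb]
        exact D7_unc b.2 (h.unc _ this hbx)

theorem dissolve_encG (c : List (List AC)) (h : ∀ g ∈ c, FormOk g) :
    dissolve.eval (encG (formC c)) = encG c := by
  rw [D7_encG, D7_encG, BM.eval_blocks dissolve (fun a => a.hd = .A)]
  · rw [formC, List.map_map, List.map_map]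
    congr 1
    apply List.map_congr_left
    intro g hg
    exact D7_dis_grp g (h g hg)
  · intro q q' a p ha
    have key : ∀ (q q' : Bool) (p : Fl), D7_do q a p = D7_do q' a p ∧
        D7_dd q a p = D7_dd q' a p := by
      intro q q' p
      rw [D7_do, D7_do, D7_dd, D7_dd, if_pos ha, if_pos ha, if_pos ha, if_pos ha]
      exact ⟨rfl, rfl⟩
    exact key q q' p
  · rintro a p ha
    obtain ⟨b, hd, F, L, X, J, M, S⟩ := a
    simp only at ha
    subst ha
    rfl
  · intro w hw
    rw [formC, List.map_map, List.mem_map] at hw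
    obtain ⟨g, hg, rfl⟩ := hw
    exact D7_wg_head' g (h g hg)

end TF
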