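import Mathlib
import Pool.Agent.LibTF.D6
import Pool.Agent.LibTF.D7

/-! TASK D8: invariants of the abstract configurations. -/

namespace TF

/-- Range of an active cell. -/
def Rng (a : AC) : Prop :=
  MemOk a.r a.mem ∧
  (a.x = false → 0 ≤ a.N ∧ a.N < th a.r ∧ ∀ s, a.r = s + 1 → 2 * th s ≤ a.N) ∧
  (a.x = true → th a.r ≤ a.N ∧ a.N < 3 * th a.r)

structure StepOk (c : List (List AC)) : Prop where
  rng : ∀ g ∈ c, ∀ a ∈ g, Rng a
  rng1 : ∀ g ∈ c, ∀ a ∈ g, Rng1 (tickA a)
  link : jl (crossC (tickG c)) = crossL ⟨false, false, false⟩ (jl (tickG c))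
  unc : UncOk (jl (tickG c))
  frm : ∀ g ∈ crossC (tickG c), FormOk g

/-! ### Shapes of groups -/

/-- An uncrossed cell alone. -/
def D8_Unc (g : List AC) : Prop := ∃ a, g = [a] ∧ a.x = false

/-- Crossed cells. -/
def D8_Crs (g : List AC) : Prop :=
  ∃ a t, g = a :: t ∧ a.x = true ∧ ∀ b ∈ t, b.x = true

def D8_Shape (g : List AC) : Prop := D8_Unc g ∨ D8_Crs g

theorem D8_Shape.ne {g : List AC} (h : D8_Shape g) : g ≠ [] := by
  rcases h with ⟨a, rfl, _⟩ | ⟨a, t, rfl, _⟩ <;> simp

theorem D8_crs_cases {g : List AC} (h : D8_Crs g) : isO g = true ∨ isG g = true := by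
  obtain ⟨a, t, rfl, hx, _⟩ := h
  cases t with
  | nil => left; simpa [isO] using hx
  | cons b t => right; rfl

theorem D8_unc_isO {g : List AC} (h : D8_Unc g) : isO g = false := by
  obtain ⟨a, rfl, hx⟩ := h
  simpa [isO] using hx

theorem D8_unc_isG {g : List AC} (h : D8_Unc g) : isG g = false := by
  obtain ⟨a, rfl, hx⟩ := h
  rfl

theorem D8_isO_cases {g : List AC} (h : isO g = true) : ∃ a, g = [a] ∧ a.x = true := by
  match g with
  | [] => simp [isO] at h
  | [a] => exact ⟨a, rfl, by simpa [isO] using h⟩
  | _ :: _ :: _ => simp [isO] at h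

theorem D8_evG_cases {g : List AC} (h : evG g = true) :
    ∃ a, g = [a] ∧ a.x = false ∧ a.N = th a.r := by
  match g with
  | [] => simp [evG] at h
  | [a] => exact ⟨a, rfl, by simpa [evG, evA] using h⟩
  | _ :: _ :: _ => simp [evG] at h

theorem D8_isO_not_isG {g : List AC} (h : isO g = true) : isG g = false := by
  obtain ⟨a, rfl, _⟩ := D8_isO_cases h
  rfl

/-! ### The link between `crossG` and `crossL` -/

def D8_q (g : List AC) : CQ := ⟨isO g || isG g, isG g, false⟩

theorem D8_hJ_jl (c : List (List AC)) (h : ∀ g ∈ c, g ≠ []) : hJ (jl c) = false := by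
  cases c with
  | nil => rfl
  | cons g c =>
    have : g ≠ [] := h g (by simp)
    cases g with
    | nil => exact absurd rfl this
    | cons a g => rfl

/-- The crossed tail of a group passes unchanged. -/
theorem D8_pass_tail (t : List AC) (ht : ∀ b ∈ t, b.x = true) (c : List (Bool × AC))
    (hc : hJ c = false) (q : CQ) (hq : q.jr = false) (hne : t ≠ []) :
    crossL q (t.map (fun b => (true, b)) ++ c) =
      t.map (fun b => (true, b)) ++ crossL ⟨true, true, false⟩ c := by
  induction t generalizing q with
  | nil => exact absurd rfl hne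
  | cons b t ih =>
    have hb : b.x = true := ht b (by simp)
    have hev : evA b = false := by simp [evA, hb]
    rw [List.map_cons, List.cons_append, crossL]
    have h1 : (crossL' (hX (t.map (fun b => (true, b)) ++ c)) (hJ (t.map (fun b => (true, b)) ++ c))
        (hJ (t.map (fun b => (true, b)) ++ c).tail) q true b) = (⟨true, true, false⟩, (true, b)) := by
      cases b
      simp_all [crossL']
    rw [h1]
    cases t with
    | nil => simp
    | cons b' t =>
      rw [ih (fun x hx => ht x (by simp [hx])) ⟨true, true, false⟩ rfl (by simp)]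
      simp

theorem D8_pass (g : List AC) (hg : D8_Shape g) (hev : evG g = false) (c : List (Bool × AC))
    (hc : hJ c = false) (q : CQ) (hq : q.jr = false) :
    crossL q (jg g ++ c) = jg g ++ crossL (D8_q g) c := by
  rcases hg with ⟨a, rfl, hx⟩ | ⟨a, t, rfl, hx, ht⟩
  · have hev' : evA a = false := hev
    simp only [jg, List.map_nil, List.cons_append, List.nil_append, crossL]
    have h1 : (crossL' (hX c) (hJ c) (hJ c.tail) q false a) = (⟨false, false, false⟩, (false, a)) := by
      cases a
      simp_all [crossL']
    rw [h1]
    simp [D8_q, isO, isG, hx]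
  · have hev' : evA a = false := by simp [evA, hx]
    cases t with
    | nil =>
      simp only [jg, List.map_nil, List.cons_append, List.nil_append, crossL]
      have h1 : (crossL' (hX c) (hJ c) (hJ c.tail) q false a) =
          (⟨true, false, false⟩, (false, a)) := by
        cases a
        simp_all [crossL']
      rw [h1]
      simp [D8_q, isO, isG, hx]
    | cons b t =>
      simp only [jg, List.cons_append]
      rw [crossL]
      have h1 : (crossL' (hX (List.map (fun b => (true, b)) (b :: t) ++ c))
          (hJ (List.map (fun b => (true, b)) (b :: t) ++ c))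
          (hJ (List.map (fun b => (true, b)) (b :: t) ++ c).tail) q false a) =
          (⟨true, true, false⟩, (false, a)) := by
        cases a
        simp_all [crossL', hJ]
      rw [h1]
      simp only
      rw [D8_pass_tail (b :: t) (fun x hx => ht x hx) c hc _ rfl (by simp)]
      simp [D8_q, isO, isG]

theorem D8_hX_jl (c : List (List AC)) (R : List AC) (hR : D8_Shape R) :
    hX (jl (R :: c)) = (isO R || isG R) ∧ hJ (jl (R :: c)).tail = (isG R || hJ (jl c)) := by
  rcases hR with ⟨a, rfl, hx⟩ | ⟨a, t, rfl, hx, ht⟩
  · simp [jl, jg, hX, isO, isG, hx]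
  · cases t with
    | nil => simp [jl, jg, hX, isO, isG, hx]
    | cons b t => simp [jl, jg, hX, hJ, isO, isG, hx]

theorem D8_jl_cons (g : List AC) (c : List (List AC)) : jl (g :: c) = jg g ++ jl c := by
  simp [jl]

theorem D8_jg_append (L t : List AC) (hL : L ≠ []) :
    jg (L ++ t) = jg L ++ t.map (fun b => (true, b)) := by
  cases L with
  | nil => exact absurd rfl hL
  | cons a L => simp [jg]

/-- The last group does not cross now. -/
def D8_lastOk (c : List (List AC)) : Prop := ∀ g, c.getLast? = some g → evG g = false

theorem D8_link (L : List AC) (c : List (List AC)) (hL : D8_Shape L)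
    (hc : ∀ g ∈ c, D8_Shape g) (hl : D8_lastOk c) :
    jl (crossG L c) = jg L ++ crossL (D8_q L) (jl c) := by
  match c with
  | [] => simp [crossG, jl, crossL]
  | [Y] =>
    have hY : D8_Shape Y := hc Y (by simp)
    have h1 : evG Y = false := hl Y (by simp)
    have := D8_pass Y hY h1 (jl []) (by simp [jl, hJ]) (D8_q L) rfl
    simp only [crossG, D8_jl_cons]
    rw [this]
    simp [jl, crossL]
  | Y :: R :: c =>
    have hY : D8_Shape Y := hc Y (by simp)
    have hR : D8_Shape R := hc R (by simp)
    have hc' : ∀ g ∈ c, D8_Shape g := fun g hg => hc g (by simp [hg])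
    have hRc : ∀ g ∈ R :: c, D8_Shape g := fun g hg => hc g (by simp at hg ⊢; tauto)
    have hl1 : D8_lastOk (R :: c) := by
      intro g hg
      exact hl g (by simpa [List.getLast?_cons_cons] using hg)
    have hl2 : isO R = true → D8_lastOk c := by
      intro _ g hg
      apply hl1 g
      cases c with
      | nil => simp at hg
      | cons d c => simpa [List.getLast?_cons_cons] using hg
    by_cases hev : evG Y = true
    · obtain ⟨y, rfl, hyx, hyN⟩ := D8_evG_cases hev
      have hjc : hJ (jl c) = false := D8_hJ_jl c (fun g hg => (hc' g hg).ne)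
      have hjR : hJ (jl (R :: c)) = false := D8_hJ_jl (R :: c) (fun g hg => (hRc g hg).ne)
      obtain ⟨hXR, hJR⟩ := D8_hX_jl c R hR
      rw [hjc, Bool.or_false] at hJR
      have hcrs : crs [y] = [{ y with x := true }] := rfl
      have hevy : evA y = true := hev
      have key : crossL (D8_q L) (jl ([y] :: R :: c)) =
          ((isO L || (isG L && isG R)), { y with x := true }) ::
            crossL ⟨true, (isO L || (isG L && isG R)) || isO R, isO R⟩ (jl (R :: c)) := by
        rw [D8_jl_cons]
        simp only [jg, List.map_nil, List.cons_append, List.nil_append, crossL, crossL', hXR, hjR,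
          hJR, hevy, D8_q]
        have e1 : ((isO L || isG L) && !isG L) = isO L := by
          cases h1 : isO L
          · cases isG L <;> rfl
          · simp [D8_isO_not_isG h1]
        have e2 : ((isO R || isG R) && isG R) = isG R := by
          cases isO R <;> cases isG R <;> rfl
        have e3 : ((isO R || isG R) && !isG R) = isO R := by
          cases h1 : isO R
          · cases isG R <;> rfl
          · simp [D8_isO_not_isG h1]
        simp [e1, e2, e3]
      rw [key]
      have pR : isO R = true → ∀ b : Bool, crossL ⟨true, b, true⟩ (jl (R :: c)) =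
          R.map (fun b => (true, b)) ++ crossL ⟨true, true, false⟩ (jl c) := by
        intro hO b
        obtain ⟨z, rfl, hz⟩ := D8_isO_cases hO
        rw [D8_jl_cons]
        simp only [jg, List.map_nil, List.cons_append, List.nil_append, crossL, List.map_cons]
        have hevz : evA z = false := by simp [evA, hz]
        have h1 : (crossL' (hX (jl c)) (hJ (jl c)) (hJ (jl c).tail) ⟨true, b, true⟩ false z) =
            (⟨true, true, false⟩, (true, z)) := by
          cases z
          simp_all [crossL']
        rw [h1]
      have hLne : L ≠ [] := hL.ne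
      have sh : ∀ u : List AC, (∀ b ∈ u, b.x = true) → ∀ L' : List AC, L' ≠ [] →
          (∀ b ∈ L', b.x = true) → D8_Shape (L' ++ u) := by
        intro u hu L' hL' hx
        cases L' with
        | nil => exact absurd rfl hL'
        | cons a t =>
          exact Or.inr ⟨a, t ++ u, rfl, hx a (by simp), by
            intro b hb
            rcases List.mem_append.1 hb with h | h
            · exact hx b (by simp [h])
            · exact hu b h⟩
      have crsx : ∀ g : List AC, D8_Crs g → ∀ b ∈ g, b.x = true := by
        rintro g ⟨a, t, rfl, hx, ht⟩ b hb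
        rcases List.mem_cons.1 hb with h | h
        · rw [h]; exact hx
        · exact ht b h
      by_cases hOL : isO L = true
      · obtain ⟨a, rfl, hax⟩ := D8_isO_cases hOL
        by_cases hOR : isO R = true
        · obtain ⟨z, rfl, hz⟩ := D8_isO_cases hOR
          have ih := D8_link ([a] ++ (crs [y] ++ [z])) c
            (sh _ (by simp [hcrs, hz]) _ (by simp) (by simp [hax])) hc' (hl2 hOR)
          simp only [crossG, hev, hOL, hOR, if_true]
          rw [ih, pR hOR]
          simp [jg, hcrs, D8_q, isO, isG, hax, hz]
        · have ih := D8_link ([a] ++ crs [y]) (R :: c)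
            (sh _ (by simp [hcrs]) _ (by simp) (by simp [hax])) hRc hl1
          have hOR' : isO R = false := by simpa using hOR
          simp only [crossG, hev, hOL, hOR', if_true, Bool.false_eq_true, if_false]
          rw [ih]
          simp [jg, hcrs, D8_q, isO, isG, hax]
      · have hOL' : isO L = false := by simpa using hOL
        by_cases hOR : isO R = true
        · have hGR : isG R = false := D8_isO_not_isG hOR
          obtain ⟨z, rfl, hz⟩ := D8_isO_cases hOR
          have ih := D8_link (crs [y] ++ [z]) c
            (sh _ (by simp [hz]) _ (by simp [hcrs]) (by simp [hcrs])) hc' (hl2 hOR)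
          simp only [crossG, hev, hOL', hOR, if_true, Bool.false_eq_true, if_false]
          rw [D8_jl_cons, ih, pR hOR]
          simp [jg, hcrs, D8_q, isO, isG, hz]
        · have hOR' : isO R = false := by simpa using hOR
          by_cases hGG : (isG L && isG R) = true
          · have hLx : ∀ b ∈ L, b.x = true := by
              rcases hL with h | h
              · rw [D8_unc_isG h] at hGG; simp at hGG
              · exact crsx L h
            have ih := D8_link (L ++ crs [y]) (R :: c)
              (sh _ (by simp [hcrs]) _ hLne hLx) hRc hl1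
            simp only [crossG, hev, hOL', hOR', hGG, if_true, Bool.false_eq_true, if_false]
            rw [ih, D8_jg_append L _ hLne]
            have hq : D8_q (L ++ crs [y]) = ⟨true, true, false⟩ := by
              cases L with
              | nil => exact absurd rfl hLne
              | cons a t => cases t <;> simp [D8_q, hcrs, isO, isG]
            rw [hq]
            simp [hcrs]
          · have hGG' : (isG L && isG R) = false := by simpa using hGG
            have ih := D8_link (crs [y]) (R :: c)
              (by simpa using sh [] (by simp) (crs [y]) (by simp [hcrs]) (by simp [hcrs])) hRc hl1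
            simp only [crossG, hev, hOL', hOR', hGG', if_true, Bool.false_eq_true, if_false]
            rw [D8_jl_cons, ih]
            simp [jg, hcrs, D8_q, isO, isG]
    · have hev' : evG Y = false := by simpa using hev
      have h1 := D8_link Y (R :: c) hY hRc hl1
      have h2 := D8_pass Y hY hev' (jl (R :: c)) (D8_hJ_jl _ (fun g hg => (hRc g hg).ne)) (D8_q L) rfl
      simp only [crossG, hev', Bool.false_eq_true, if_false, D8_jl_cons L, h1]
      rw [D8_jl_cons Y, h2]
  termination_by c.length

/-! ### Numeric facts -/

/-- Range of a cell during the crossings. -/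
def D8_CB (a : AC) : Prop :=
  MemOk a.r a.mem ∧
  (a.x = false → 0 ≤ a.N ∧ a.N ≤ th a.r ∧ ∀ s, a.r = s + 1 → 2 * th s < a.N) ∧
  (a.x = true → th a.r ≤ a.N ∧ a.N < 3 * th a.r)

theorem D8_disp {a : AC} (h : MemOk a.r a.mem) : |a.disp| ≤ 4 ^ a.r := by
  have h1 := abs_dsp_take_le a.pos a.pos.length
  rw [List.take_length] at h1
  have h2 : (a.pos.length : ℤ) ≤ 4 ^ a.r := by
    have := h.len.2
    have h3 : a.pos.length ≤ 4 ^ a.r := this
    exact_mod_cast h3
  exact h1.trans h2

theorem D8_th (j : ℕ) : th j = 16 * 4 ^ j := rfl

theorem D8_pow_lt {i j : ℕ} (h : i < j) : (4 : ℤ) * 4 ^ i ≤ 4 ^ j := by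
  have h1 : (4 : ℤ) ^ (i + 1) ≤ 4 ^ j := pow_le_pow_right₀ (by norm_num) h
  rw [pow_succ] at h1
  linarith

theorem D8_pow_pos (i : ℕ) : (0 : ℤ) < 4 ^ i := by positivity

/-- A neighbour at the left of a cell with clock `th r` has scale `r`. -/
theorem D8_scale_left {a y : AC} (ha : D8_CB a) (hy : y.N = th y.r)
    (hadj : y.N = a.N + a.disp) : a.r = y.r := by
  obtain ⟨hm, h0, h1⟩ := ha
  have hd := D8_disp hm
  rw [abs_le] at hd
  rcases lt_trichotomy a.r y.r with h | h | h
  · exfalso
    have h4 := D8_pow_lt h
    have hp := D8_pow_pos a.r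
    rw [D8_th] at hy
    have hN : a.N < 3 * th a.r := by
      cases hx : a.x with
      | false =>
        have := (h0 hx).2.1
        rw [D8_th] at this ⊢
        linarith
      | true => exact (h1 hx).2
    rw [D8_th] at hN
    linarith [hd.1, hd.2]
  · exact h
  · exfalso
    obtain ⟨s, hs⟩ : ∃ s, a.r = s + 1 := ⟨a.r - 1, by omega⟩
    have h4 : (4 : ℤ) ^ y.r ≤ 4 ^ s := pow_le_pow_right₀ (by norm_num) (by omega)
    have hp := D8_pow_pos s
    have h5 : (4 : ℤ) ^ a.r = 4 * 4 ^ s := by rw [hs, pow_succ]; ring
    rw [D8_th] at hy
    have hN : 2 * th s < a.N := by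
      cases hx : a.x with
      | false => exact (h0 hx).2.2 s hs
      | true =>
        have := (h1 hx).1
        rw [D8_th, h5] at this
        rw [D8_th]
        linarith
    rw [D8_th] at hN
    rw [h5] at hd
    linarith [hd.1, hd.2]

theorem D8_scale_right {y b : AC} (hm : MemOk y.r y.mem) (hy : y.N = th y.r) (hb : D8_CB b)
    (hadj : b.N = y.N + y.disp) : b.r = y.r := by
  obtain ⟨_, h0, h1⟩ := hb
  have hd := D8_disp hm
  rw [abs_le] at hd
  rw [D8_th] at hy
  have hq := D8_pow_pos y.r
  rcases lt_trichotomy b.r y.r with h | h | h
  · exfalso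
    have h4 := D8_pow_lt h
    have hp := D8_pow_pos b.r
    have hN : b.N < 3 * th b.r := by
      cases hx : b.x with
      | false =>
        have := (h0 hx).2.1
        rw [D8_th] at this ⊢
        linarith
      | true => exact (h1 hx).2
    rw [D8_th] at hN
    linarith [hd.1, hd.2]
  · exact h
  · exfalso
    obtain ⟨s, hs⟩ : ∃ s, b.r = s + 1 := ⟨b.r - 1, by omega⟩
    have h4 : (4 : ℤ) ^ y.r ≤ 4 ^ s := pow_le_pow_right₀ (by norm_num) (by omega)
    have hp := D8_pow_pos s
    have h5 : (4 : ℤ) ^ b.r = 4 * 4 ^ s := by rw [hs, pow_succ]; ring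
    have hN : 2 * th s < b.N := by
      cases hx : b.x with
      | false => exact (h0 hx).2.2 s hs
      | true =>
        have := (h1 hx).1
        rw [D8_th, h5] at this
        rw [D8_th]
        linarith
    rw [D8_th] at hN
    linarith [hd.1, hd.2]

/-! ### Chains -/

def D8_key (a : AC) : ℤ × ℤ := (a.N, a.disp)

def D8_R (p q : ℤ × ℤ) : Prop := q.1 = p.1 + p.2

def D8_Chain (l : List AC) : Prop := (l.map D8_key).IsChain D8_R

theorem D8_chain_mid {u v : List AC} {a b : AC} (h : D8_Chain (u ++ a :: b :: v)) :
    b.N = a.N + a.disp := by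
  unfold D8_Chain at h
  rw [List.map_append, List.isChain_append] at h
  have h2 := h.2.1
  rw [List.map_cons, List.map_cons, List.isChain_cons_cons] at h2
  exact h2.1

theorem D8_chain_infix {u v w : List AC} (h : D8_Chain (u ++ v ++ w)) : D8_Chain v := by
  unfold D8_Chain at h ⊢
  rw [List.map_append, List.map_append, List.isChain_append, List.isChain_append] at h
  exact h.1.2.1

theorem D8_key_crs (g : List AC) : (crs g).map D8_key = g.map D8_key := by
  simp [crs, D8_key, AC.disp, AC.pos, Function.comp_def]

theorem D8_chain_crs {u g v : List AC} (h : D8_Chain (u ++ (g ++ v))) :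
    D8_Chain (u ++ (crs g ++ v)) := by
  unfold D8_Chain at h ⊢
  rw [List.map_append, List.map_append] at h ⊢
  rw [D8_key_crs]
  exact h

/-! ### The structural invariant -/

/-- The neighbouring group `o` of `g` is an uncrossed cell of the same scale. -/
def D8_nb (g : List AC) (o : Option (List AC)) : Prop :=
  ∃ u, o = some u ∧ D8_Unc u ∧ ∀ a ∈ g, ∀ b ∈ u, a.r = b.r

def D8_SC (p : Option (List AC)) (g : List AC) (n : Option (List AC)) : Prop :=
  D8_Shape g ∧ (∀ a ∈ g, ∀ b ∈ g, a.r = b.r) ∧ g.length ≤ 4 ∧
    (isO g = true → D8_nb g p ∨ D8_nb g n) ∧ (g.length = 4 → ¬ D8_nb g n)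

def D8_Sok : Option (List AC) → List (List AC) → Prop
  | _, [] => True
  | p, g :: c => D8_SC p g c.head? ∧ D8_Sok (some g) c

theorem D8_Sok.shape {p : Option (List AC)} {c : List (List AC)} (h : D8_Sok p c) :
    ∀ g ∈ c, D8_Shape g := by
  induction c generalizing p with
  | nil => simp
  | cons g c ih =>
    intro u hu
    rcases List.mem_cons.1 hu with h1 | h1
    · rw [h1]; exact h.1.1
    · exact ih h.2 u h1

theorem D8_Sok.same {p : Option (List AC)} {c : List (List AC)} (h : D8_Sok p c) :
    ∀ g ∈ c, (∀ a ∈ g, ∀ b ∈ g, a.r = b.r) ∧ g.length ≤ 4 := by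
  induction c generalizing p with
  | nil => simp
  | cons g c ih =>
    intro u hu
    rcases List.mem_cons.1 hu with h1 | h1
    · rw [h1]; exact ⟨h.1.2.1, h.1.2.2.1⟩
    · exact ih h.2 u h1

/-- If the previous group is not uncrossed it can be replaced by anything. -/
theorem D8_Sok_prev {R : List AC} {c : List (List AC)} (hR : ¬ D8_Unc R)
    (h : D8_Sok (some R) c) (q : Option (List AC)) : D8_Sok q c := by
  cases c with
  | nil => trivial
  | cons g c =>
    obtain ⟨⟨h1, h2, h3, h4, h5⟩, h6⟩ := h
    refine ⟨⟨h1, h2, h3, fun ho => ?_, h5⟩, h6⟩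
    rcases h4 ho with ⟨u, hu, hu2, _⟩ | h
    · exact absurd (Option.some.inj hu ▸ hu2) hR
    · exact Or.inr h

/-- If the next group is not open, the previous group does not matter. -/
theorem D8_Sok_prev' {p q : Option (List AC)} {R : List AC} {c : List (List AC)}
    (hR : isO R = false) (h : D8_Sok p (R :: c)) : D8_Sok q (R :: c) := by
  obtain ⟨⟨h1, h2, h3, h4, h5⟩, h6⟩ := h
  exact ⟨⟨h1, h2, h3, fun ho => by simp [hR] at ho, h5⟩, h6⟩

/-- The first group of `crossG L c` extends `L`. -/
theorem D8_head_crossG (L : List AC) (c : List (List AC)) :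
    ∃ t c', crossG L c = (L ++ t) :: c' ∧ (D8_Unc L → t = []) := by
  match c with
  | [] => exact ⟨[], [], by simp [crossG], fun _ => rfl⟩
  | [Y] => exact ⟨[], [Y], by simp [crossG], fun _ => rfl⟩
  | Y :: R :: c =>
    by_cases hev : evG Y = true
    · by_cases hOL : isO L = true
      · have hnU : ¬ D8_Unc L := fun h => by simp [D8_unc_isO h] at hOL
        by_cases hOR : isO R = true
        · obtain ⟨t, c', h, _⟩ := D8_head_crossG (L ++ (crs Y ++ R)) c
          refine ⟨crs Y ++ R ++ t, c', ?_, fun h => absurd h hnU⟩
          simp only [crossG, hev, hOL, hOR, if_true]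
          rw [h]
          simp
        · have hOR' : isO R = false := by simpa using hOR
          obtain ⟨t, c', h, _⟩ := D8_head_crossG (L ++ crs Y) (R :: c)
          refine ⟨crs Y ++ t, c', ?_, fun h => absurd h hnU⟩
          simp only [crossG, hev, hOL, hOR', if_true, Bool.false_eq_true, if_false]
          rw [h]
          simp
      · have hOL' : isO L = false := by simpa using hOL
        by_cases hOR : isO R = true
        · refine ⟨[], crossG (crs Y ++ R) c, ?_, fun _ => rfl⟩
          simp only [crossG, hev, hOL', hOR, if_true, Bool.false_eq_true, if_false,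
            List.append_nil]
        · have hOR' : isO R = false := by simpa using hOR
          by_cases hGG : (isG L && isG R) = true
          · have hnU : ¬ D8_Unc L := fun h => by simp [D8_unc_isG h] at hGG
            obtain ⟨t, c', h, _⟩ := D8_head_crossG (L ++ crs Y) (R :: c)
            refine ⟨crs Y ++ t, c', ?_, fun h => absurd h hnU⟩
            simp only [crossG, hev, hOL', hOR', hGG, if_true, Bool.false_eq_true, if_false]
            rw [h]
            simp
          · have hGG' : (isG L && isG R) = false := by simpa using hGG
            refine ⟨[], crossG (crs Y) (R :: c), ?_, fun _ => rfl⟩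
            simp only [crossG, hev, hOL', hOR', hGG', if_true, Bool.false_eq_true, if_false,
              List.append_nil]
    · have hev' : evG Y = false := by simpa using hev
      refine ⟨[], crossG Y (R :: c), ?_, fun _ => rfl⟩
      simp only [crossG, hev', Bool.false_eq_true, if_false, List.append_nil]
  termination_by c.length

theorem D8_SC_head {p : Option (List AC)} {L Y t : List AC} (h : D8_SC p L (some Y))
    (hY : Y ≠ []) (ht : D8_Unc Y → t = []) : D8_SC p L (some (Y ++ t)) := by
  obtain ⟨h1, h2, h3, h4, h5⟩ := h
  refine ⟨h1, h2, h3, fun ho => ?_, fun hlen hn => ?_⟩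
  · rcases h4 ho with h | h
    · exact Or.inl h
    · have h' := h
      obtain ⟨u, hu, hu2, _⟩ := h
      obtain rfl := Option.some.inj hu
      rw [ht hu2, List.append_nil]
      exact Or.inr h'
  · obtain ⟨u, hu, ⟨a, ha, hax⟩, hsc⟩ := hn
    obtain rfl := Option.some.inj hu
    cases Y with
    | nil => exact hY rfl
    | cons b Y =>
      rw [List.cons_append, List.cons_eq_cons] at ha
      obtain ⟨rfl, hYt⟩ := ha
      obtain ⟨rfl, rfl⟩ := List.append_eq_nil_iff.1 hYt
      exact h5 hlen ⟨[b], rfl, ⟨b, rfl, hax⟩, by simpa using hsc⟩

theorem D8_SC_crossed {p n : Option (List AC)} {L u : List AC} (h : D8_SC p L n)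
    (hO : isO L = false) (hu : ¬ D8_Unc u) : D8_SC p L (some u) := by
  obtain ⟨h1, h2, h3, _, _⟩ := h
  refine ⟨h1, h2, h3, fun ho => by simp [hO] at ho, fun _ hn => ?_⟩
  obtain ⟨v, hv, hv2, _⟩ := hn
  exact hu (Option.some.inj hv ▸ hv2)

theorem D8_not_unc_of {a : AC} {t : List AC} (h : a.x = true) : ¬ D8_Unc (a :: t) := by
  rintro ⟨b, hb, hbx⟩
  rw [List.cons_eq_cons] at hb
  rw [hb.1] at h
  rw [h] at hbx
  exact absurd hbx (by simp)

theorem D8_cross_sok (p : Option (List AC)) (L : List AC) (c : List (List AC))
    (hS : D8_Sok p (L :: c)) (hC : ∀ g ∈ L :: c, ∀ a ∈ g, D8_CB a)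
    (hch : D8_Chain (L ++ c.flatten)) (hLe : evG L = false) (hl : D8_lastOk c) :
    D8_Sok p (crossG L c) := by
  match c with
  | [] => exact hS
  | [Y] => exact hS
  | Y :: R :: c =>
    obtain ⟨hL, hY, hR, hc⟩ := hS
    simp only [List.head?_cons] at hL hY
    have hl1 : D8_lastOk (R :: c) := by
      intro g hg
      exact hl g (by simpa [List.getLast?_cons_cons] using hg)
    have hl2 : isO R = true → D8_lastOk c := by
      intro _ g hg
      apply hl1 g
      cases c with
      | nil => simp at hg
      | cons d c => simpa [List.getLast?_cons_cons] using hg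
    have hCR : ∀ g ∈ R :: c, ∀ a ∈ g, D8_CB a := fun g hg => hC g (by simp at hg ⊢; tauto)
    by_cases hev : evG Y = true
    · obtain ⟨y, rfl, hyx, hyN⟩ := D8_evG_cases hev
      have hcrs : crs [y] = [{ y with x := true }] := rfl
      have hLne : L ≠ [] := hL.1.ne
      have hRne : R ≠ [] := hR.1.ne
      have hyC : D8_CB y := hC [y] (by simp) y (by simp)
      have hy'C : D8_CB { y with x := true } := by
        refine ⟨hyC.1, fun h => by simp at h, fun _ => ⟨?_, ?_⟩⟩
        · exact le_of_eq hyN.symm
        · show y.N < 3 * th y.r
          rw [hyN, D8_th]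
          linarith [D8_pow_pos y.r]
      -- scales
      have rL : ∀ a ∈ L, a.r = y.r := by
        obtain ⟨u, a, rfl⟩ : ∃ u a, L = u ++ [a] := ⟨L.dropLast, L.getLast hLne,
          (List.dropLast_append_getLast hLne).symm⟩
        have h1 : y.N = a.N + a.disp := by
          apply D8_chain_mid (u := u) (a := a) (v := R ++ c.flatten)
          simpa using hch
        have h2 := D8_scale_left (hC (u ++ [a]) (by simp) a (by simp)) hyN h1
        intro b hb
        rw [← h2]
        exact hL.2.1 b hb a (by simp)
      have rR : ∀ a ∈ R, a.r = y.r := by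
        obtain ⟨b, R', rfl⟩ := List.exists_cons_of_ne_nil hRne
        have h1 : b.N = y.N + y.disp := by
          apply D8_chain_mid (u := L) (a := y) (v := R' ++ c.flatten)
          simpa using hch
        have h2 := D8_scale_right hyC.1 hyN (hC (b :: R') (by simp) b (by simp)) h1
        intro a ha
        rw [← h2]
        exact hR.2.1 a ha b (by simp)
      have crsx : ∀ g : List AC, D8_Crs g → ∀ b ∈ g, b.x = true := by
        rintro g ⟨a, t, rfl, hx, ht⟩ b hb
        rcases List.mem_cons.1 hb with h | h
        · rw [h]; exact hx
        · exact ht b h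
      have sh : ∀ g : List AC, g ≠ [] → (∀ b ∈ g, b.x = true) → D8_Shape g := by
        intro g hg hx
        obtain ⟨a, t, rfl⟩ := List.exists_cons_of_ne_nil hg
        exact Or.inr ⟨a, t, rfl, hx a (by simp), fun b hb => hx b (by simp [hb])⟩
      have hchain : ∀ u v : List AC, u ++ [y] ++ v = L ++ ([y] ++ (R ++ c.flatten)) →
          D8_Chain (u ++ crs [y] ++ v) := by
        intro u v huv
        have h1 : D8_Chain (u ++ ([y] ++ v)) := by
          rw [← List.append_assoc, huv]
          simpa using hch
        simpa using D8_chain_crs h1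
      have hch' : D8_Chain (L ++ crs [y] ++ (R ++ c.flatten)) := hchain L (R ++ c.flatten) (by simp)
      have nUR : isO R = true → ¬ D8_Unc R := fun h1 h2 => by simp [D8_unc_isO h2] at h1
      by_cases hOL : isO L = true
      · obtain ⟨a, rfl, hax⟩ := D8_isO_cases hOL
        by_cases hOR : isO R = true
        · obtain ⟨z, rfl, hz⟩ := D8_isO_cases hOR
          simp only [crossG, hev, hOL, hOR, if_true]
          apply D8_cross_sok
          · refine ⟨⟨sh _ (by simp) (by simp [hax, hz, hcrs]), ?_, by simp [hcrs], ?_, ?_⟩, ?_⟩
            · intro b hb b' hb'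
              have e : ∀ b ∈ [a] ++ (crs [y] ++ [z]), b.r = y.r := by
                intro b hb
                simp only [hcrs, List.mem_append, List.mem_singleton] at hb
                rcases hb with rfl | rfl | rfl
                · exact rL _ (by simp)
                · rfl
                · exact rR _ (by simp)
              rw [e b hb, e b' hb']
            · intro h; simp [hcrs, isO] at h
            · intro h; simp [hcrs] at h
            · exact D8_Sok_prev (nUR hOR) hc _
          · intro g hg
            rcases List.mem_cons.1 hg with rfl | h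
            · intro b hb
              simp only [hcrs, List.mem_append, List.mem_singleton] at hb
              rcases hb with rfl | rfl | rfl
              · exact hC [b] (by simp) b (by simp)
              · exact hy'C
              · exact hC [b] (by simp) _ (by simp)
            · exact hC g (by simp [h])
          · simpa using hch'
          · simp [hcrs, evG]
          · exact hl2 hOR
        · have hOR' : isO R = false := by simpa using hOR
          simp only [crossG, hev, hOL, hOR', if_true, Bool.false_eq_true, if_false]
          apply D8_cross_sok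
          · refine ⟨⟨sh _ (by simp) (by simp [hax, hcrs]), ?_, by simp [hcrs], ?_, ?_⟩, ?_⟩
            · intro b hb b' hb'
              have e : ∀ b ∈ [a] ++ crs [y], b.r = y.r := by
                intro b hb
                simp only [hcrs, List.mem_append, List.mem_singleton] at hb
                rcases hb with rfl | rfl
                · exact rL _ (by simp)
                · rfl
              rw [e b hb, e b' hb']
            · intro h; simp [hcrs, isO] at h
            · intro h; simp [hcrs] at h
            · exact D8_Sok_prev' hOR' (p := some [y]) ⟨hR, hc⟩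
          · intro g hg
            rcases List.mem_cons.1 hg with rfl | h
            · intro b hb
              simp only [hcrs, List.mem_append, List.mem_singleton] at hb
              rcases hb with rfl | rfl
              · exact hC [b] (by simp) b (by simp)
              · exact hy'C
            · exact hCR g h
          · simpa using hch'
          · simp [hcrs, evG]
          · exact hl1
      · have hOL' : isO L = false := by simpa using hOL
        by_cases hOR : isO R = true
        · have hGR : isG R = false := D8_isO_not_isG hOR
          obtain ⟨z, rfl, hz⟩ := D8_isO_cases hOR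
          simp only [crossG, hev, hOL', hOR, if_true, Bool.false_eq_true, if_false]
          obtain ⟨t, c', hh, _⟩ := D8_head_crossG (crs [y] ++ [z]) c
          refine ⟨?_, ?_⟩
          · rw [hh]
            exact D8_SC_crossed hL hOL' (D8_not_unc_of rfl)
          · apply D8_cross_sok
            · refine ⟨⟨sh _ (by simp) (by simp [hz, hcrs]), ?_, by simp [hcrs], ?_, ?_⟩, ?_⟩
              · intro b hb b' hb'
                have e : ∀ b ∈ crs [y] ++ [z], b.r = y.r := by
                  intro b hb
                  simp only [hcrs, List.mem_append, List.mem_singleton] at hb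
                  rcases hb with rfl | rfl
                  · rfl
                  · exact rR _ (by simp)
                rw [e b hb, e b' hb']
              · intro h; simp [hcrs, isO] at h
              · intro h; simp [hcrs] at h
              · exact D8_Sok_prev (nUR hOR) hc _
            · intro g hg
              rcases List.mem_cons.1 hg with rfl | h
              · intro b hb
                simp only [hcrs, List.mem_append, List.mem_singleton] at hb
                rcases hb with rfl | rfl
                · exact hy'C
                · exact hC [b] (by simp) _ (by simp)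
              · exact hC g (by simp [h])
            · have h1 : L ++ crs [y] ++ ([z] ++ c.flatten) =
                  L ++ (crs [y] ++ ([z] ++ c.flatten)) ++ [] := by simp
              rw [h1] at hch'
              simpa using D8_chain_infix hch'
            · simp [hcrs, evG]
            · exact hl2 hOR
        · have hOR' : isO R = false := by simpa using hOR
          by_cases hGG : (isG L && isG R) = true
          · have hGL : isG L = true := by
              rw [Bool.and_eq_true] at hGG; exact hGG.1
            have hLx : ∀ b ∈ L, b.x = true := by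
              rcases hL.1 with h | h
              · rw [D8_unc_isG h] at hGL; simp at hGL
              · exact crsx L h
            have hlen : L.length ≤ 3 := by
              have h4 := hL.2.2.1
              by_contra hcon
              have h5 : L.length = 4 := by omega
              exact hL.2.2.2.2 h5 ⟨[y], rfl, ⟨y, rfl, hyx⟩, by
                intro a ha b hb
                rw [List.mem_singleton] at hb
                rw [hb]
                exact rL a ha⟩
            have hlen2 : 2 ≤ L.length := by
              match L, hGL with
              | _ :: _ :: _, _ => simp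
            simp only [crossG, hev, hOL', hOR', hGG, if_true, Bool.false_eq_true, if_false]
            apply D8_cross_sok
            · refine ⟨⟨sh _ (by simp [hcrs]) ?_, ?_, by simp [hcrs]; omega, ?_, ?_⟩, ?_⟩
              · intro b hb
                simp only [hcrs, List.mem_append, List.mem_singleton] at hb
                rcases hb with h | rfl
                · exact hLx b h
                · rfl
              · intro b hb b' hb'
                have e : ∀ b ∈ L ++ crs [y], b.r = y.r := by
                  intro b hb
                  simp only [hcrs, List.mem_append, List.mem_singleton] at hb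
                  rcases hb with h | rfl
                  · exact rL _ h
                  · rfl
                rw [e b hb, e b' hb']
              · intro h
                match L, hGL, h with
                | _ :: _ :: _, _, h => simp [isO] at h
              · intro _ hn
                obtain ⟨v, hv, hv2, _⟩ := hn
                simp only [List.head?_cons] at hv
                obtain rfl := Option.some.inj hv
                rw [D8_unc_isG hv2] at hGG
                simp at hGG
              · exact D8_Sok_prev' hOR' (p := some [y]) ⟨hR, hc⟩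
            · intro g hg
              rcases List.mem_cons.1 hg with rfl | h
              · intro b hb
                simp only [hcrs, List.mem_append, List.mem_singleton] at hb
                rcases hb with h | rfl
                · exact hC L (by simp) b h
                · exact hy'C
              · exact hCR g h
            · simpa using hch'
            · match L, hGL with
              | _ :: _ :: _, _ => simp [evG]
            · exact hl1
          · have hGG' : (isG L && isG R) = false := by simpa using hGG
            simp only [crossG, hev, hOL', hOR', hGG', if_true, Bool.false_eq_true, if_false]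
            obtain ⟨t, c', hh, _⟩ := D8_head_crossG (crs [y]) (R :: c)
            refine ⟨?_, ?_⟩
            · rw [hh]
              exact D8_SC_crossed hL hOL' (D8_not_unc_of rfl)
            · apply D8_cross_sok
              · refine ⟨⟨sh _ (by simp [hcrs]) (by simp [hcrs]), ?_, by simp [hcrs], ?_, ?_⟩, ?_⟩
                · intro b hb b' hb'
                  simp only [hcrs, List.mem_singleton] at hb hb'
                  rw [hb, hb']
                · intro _
                  have hU : D8_Unc L ∨ D8_Unc R := by
                    rcases hL.1 with h | h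
                    · exact Or.inl h
                    · rcases hR.1 with h' | h'
                      · exact Or.inr h'
                      · exfalso
                        rcases D8_crs_cases h with h1 | h1
                        · rw [h1] at hOL'; simp at hOL'
                        · rcases D8_crs_cases h' with h2 | h2
                          · rw [h2] at hOR'; simp at hOR'
                          · rw [h1, h2] at hGG'; simp at hGG'
                  rcases hU with h | h
                  · left
                    refine ⟨L, rfl, h, ?_⟩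
                    intro b hb b' hb'
                    simp only [hcrs, List.mem_singleton] at hb
                    rw [hb]
                    exact (rL b' hb').symm
                  · right
                    refine ⟨R, rfl, h, ?_⟩
                    intro b hb b' hb'
                    simp only [hcrs, List.mem_singleton] at hb
                    rw [hb]
                    exact (rR b' hb').symm
                · intro h; simp [hcrs] at h
                · exact D8_Sok_prev' hOR' (p := some [y]) ⟨hR, hc⟩
              · intro g hg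
                rcases List.mem_cons.1 hg with rfl | h
                · intro b hb
                  simp only [hcrs, List.mem_singleton] at hb
                  rw [hb]
                  exact hy'C
                · exact hCR g h
              · have h1 : L ++ crs [y] ++ (R ++ c.flatten) =
                    L ++ (crs [y] ++ (R ++ c.flatten)) ++ [] := by simp
                rw [h1] at hch'
                simpa using D8_chain_infix hch'
              · simp [hcrs, evG, evA]
              · exact hl1
    · have hev' : evG Y = false := by simpa using hev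
      simp only [crossG, hev', Bool.false_eq_true, if_false]
      obtain ⟨t, c', hh, ht⟩ := D8_head_crossG Y (R :: c)
      refine ⟨?_, ?_⟩
      · rw [hh]
        exact D8_SC_head hL hY.1.ne ht
      · apply D8_cross_sok
        · exact ⟨hY, hR, hc⟩
        · exact fun g hg => hC g (by simp at hg ⊢; tauto)
        · have h1 : L ++ (Y :: R :: c).flatten = L ++ (Y ++ (R :: c).flatten) ++ [] := by simp
          rw [h1] at hch
          exact D8_chain_infix hch
        · exact hev'
        · exact hl1
  termination_by c.length

/-! ### Cells of the crossed configuration -/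

def D8_crossA (a : AC) : AC := { a with x := a.x || evA a }

theorem D8_map_crossA {g : List AC} (hg : D8_Shape g) (he : evG g = false) :
    g.map D8_crossA = g := by
  rcases hg with ⟨a, rfl, hx⟩ | ⟨a, t, rfl, hx, ht⟩
  · have : evA a = false := he
    cases a
    simp_all [D8_crossA]
  · have h : ∀ b : AC, b.x = true → D8_crossA b = b := by
      intro b hb
      cases b
      simp_all [D8_crossA]
    rw [List.map_cons, h a hx]
    congr 1
    conv_rhs => rw [← List.map_id t]
    exact List.map_congr_left (fun b hb => h b (ht b hb))

theorem D8_crs_crossA {y : AC} (he : evG [y] = true) : crs [y] = [y].map D8_crossA := by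
  have : evA y = true := he
  simp [crs, D8_crossA, this]

theorem D8_flat (L : List AC) (c : List (List AC)) (hc : ∀ g ∈ c, D8_Shape g)
    (hl : D8_lastOk c) :
    (crossG L c).flatten = L ++ c.flatten.map D8_crossA := by
  match c with
  | [] => simp [crossG]
  | [Y] =>
    have h1 : evG Y = false := hl Y (by simp)
    simp [crossG, D8_map_crossA (hc Y (by simp)) h1]
  | Y :: R :: c =>
    have hY : D8_Shape Y := hc Y (by simp)
    have hR : D8_Shape R := hc R (by simp)
    have hc' : ∀ g ∈ c, D8_Shape g := fun g hg => hc g (by simp [hg])
    have hRc : ∀ g ∈ R :: c, D8_Shape g := fun g hg => hc g (by simp at hg ⊢; tauto)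
    have hl1 : D8_lastOk (R :: c) := by
      intro g hg
      exact hl g (by simpa [List.getLast?_cons_cons] using hg)
    have hl2 : isO R = true → D8_lastOk c := by
      intro _ g hg
      apply hl1 g
      cases c with
      | nil => simp at hg
      | cons d c => simpa [List.getLast?_cons_cons] using hg
    have hRmap : isO R = true → R.map D8_crossA = R := by
      intro h
      apply D8_map_crossA hR
      obtain ⟨z, rfl, hz⟩ := D8_isO_cases h
      simp [evG, evA, hz]
    by_cases hev : evG Y = true
    · have hY2 : crs Y = Y.map D8_crossA := by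
        obtain ⟨y, rfl, _, _⟩ := D8_evG_cases hev
        exact D8_crs_crossA hev
      by_cases hOL : isO L = true
      · by_cases hOR : isO R = true
        · simp only [crossG, hev, hOL, hOR, if_true]
          rw [D8_flat _ c hc' (hl2 hOR)]
          simp [hY2, hRmap hOR]
        · have hOR' : isO R = false := by simpa using hOR
          simp only [crossG, hev, hOL, hOR', if_true, Bool.false_eq_true, if_false]
          rw [D8_flat _ (R :: c) hRc hl1]
          simp [hY2]
      · have hOL' : isO L = false := by simpa using hOL
        by_cases hOR : isO R = true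
        · simp only [crossG, hev, hOL', hOR, if_true, Bool.false_eq_true, if_false]
          rw [List.flatten_cons, D8_flat _ c hc' (hl2 hOR)]
          simp [hY2, hRmap hOR]
        · have hOR' : isO R = false := by simpa using hOR
          by_cases hGG : (isG L && isG R) = true
          · simp only [crossG, hev, hOL', hOR', hGG, if_true, Bool.false_eq_true, if_false]
            rw [D8_flat _ (R :: c) hRc hl1]
            simp [hY2]
          · have hGG' : (isG L && isG R) = false := by simpa using hGG
            simp only [crossG, hev, hOL', hOR', hGG', if_true, Bool.false_eq_true, if_false]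
            rw [List.flatten_cons, D8_flat _ (R :: c) hRc hl1]
            simp [hY2]
    · have hev' : evG Y = false := by simpa using hev
      simp only [crossG, hev', Bool.false_eq_true, if_false]
      rw [List.flatten_cons, D8_flat _ (R :: c) hRc hl1]
      simp [D8_map_crossA hY hev']
  termination_by c.length

/-- Leaders of the crossed configuration. -/
theorem D8_leaders (L : List AC) (c : List (List AC)) (hL : L ≠ []) (hc : ∀ g ∈ c, g ≠ []) :
    ∀ g ∈ crossG L c, ∀ a, g.head? = some a →
      (∃ g' ∈ L :: c, g'.head? = some a) ∨ (a.N = th a.r) := by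
  match c with
  | [] =>
    intro g hg a ha
    simp only [crossG, List.mem_singleton] at hg
    exact Or.inl ⟨L, by simp, hg ▸ ha⟩
  | [Y] =>
    intro g hg a ha
    simp only [crossG] at hg
    exact Or.inl ⟨g, hg, ha⟩
  | Y :: R :: c =>
    have hY : Y ≠ [] := hc Y (by simp)
    have hR : R ≠ [] := hc R (by simp)
    have hc' : ∀ g ∈ c, g ≠ [] := fun g hg => hc g (by simp [hg])
    have hRc : ∀ g ∈ R :: c, g ≠ [] := fun g hg => hc g (by simp at hg ⊢; tauto)
    have hhead : ∀ u v : List AC, u ≠ [] → (u ++ v).head? = u.head? := by
      intro u v hu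
      cases u with
      | nil => exact absurd rfl hu
      | cons a u => rfl
    have lift : ∀ (L' : List AC) (c' : List (List AC)),
        (∀ a, L'.head? = some a → (∃ g' ∈ L :: Y :: R :: c, g'.head? = some a) ∨ a.N = th a.r) →
        (∀ g ∈ c', g ∈ L :: Y :: R :: c) →
        (∀ g ∈ crossG L' c', ∀ a, g.head? = some a →
          (∃ g' ∈ L' :: c', g'.head? = some a) ∨ (a.N = th a.r)) →
        ∀ g ∈ crossG L' c', ∀ a, g.head? = some a →
          (∃ g' ∈ L :: Y :: R :: c, g'.head? = some a) ∨ (a.N = th a.r) := by
      intro L' c' h1 h2 h3 g hg a ha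
      rcases h3 g hg a ha with ⟨g', hg', ha'⟩ | h
      · rcases List.mem_cons.1 hg' with h | h
        · rw [h] at ha'
          exact h1 a ha'
        · exact Or.inl ⟨g', h2 g' h, ha'⟩
      · exact Or.inr h
    have self : ∀ a, L.head? = some a →
        (∃ g' ∈ L :: Y :: R :: c, g'.head? = some a) ∨ a.N = th a.r :=
      fun a ha => Or.inl ⟨L, by simp, ha⟩
    by_cases hev : evG Y = true
    · have hY2 : ∀ v a, (crs Y ++ v).head? = some a → a.N = th a.r := by
        obtain ⟨y, rfl, _, hN⟩ := D8_evG_cases hev
        intro v a ha
        simp only [crs, List.map_cons, List.map_nil, List.cons_append, List.head?_cons,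
          Option.some.injEq] at ha
        rw [← ha]
        exact hN
      have hcr : crs Y ≠ [] := by simpa [crs] using hY
      by_cases hOL : isO L = true
      · by_cases hOR : isO R = true
        · simp only [crossG, hev, hOL, hOR, if_true]
          apply lift
          · intro a ha
            rw [hhead _ _ hL] at ha
            exact self a ha
          · intro g hg; simp [hg]
          · exact D8_leaders _ c (by simp [hL]) hc'
        · have hOR' : isO R = false := by simpa using hOR
          simp only [crossG, hev, hOL, hOR', if_true, Bool.false_eq_true, if_false]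
          apply lift
          · intro a ha
            rw [hhead _ _ hL] at ha
            exact self a ha
          · intro g hg; simp at hg ⊢; tauto
          · exact D8_leaders _ (R :: c) (by simp [hL]) hRc
      · have hOL' : isO L = false := by simpa using hOL
        by_cases hOR : isO R = true
        · simp only [crossG, hev, hOL', hOR, if_true, Bool.false_eq_true, if_false]
          intro g hg a ha
          rcases List.mem_cons.1 hg with h | h
          · rw [h] at ha; exact self a ha
          · revert g
            intro g _ ha h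
            exact lift _ _ (fun a ha => Or.inr (hY2 _ a ha)) (by intro g hg; simp [hg])
              (D8_leaders _ c (by simp [hcr]) hc') g h a ha
        · have hOR' : isO R = false := by simpa using hOR
          by_cases hGG : (isG L && isG R) = true
          · simp only [crossG, hev, hOL', hOR', hGG, if_true, Bool.false_eq_true, if_false]
            apply lift
            · intro a ha
              rw [hhead _ _ hL] at ha
              exact self a ha
            · intro g hg; simp at hg ⊢; tauto
            · exact D8_leaders _ (R :: c) (by simp [hL]) hRc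
          · have hGG' : (isG L && isG R) = false := by simpa using hGG
            simp only [crossG, hev, hOL', hOR', hGG', if_true, Bool.false_eq_true, if_false]
            intro g hg a ha
            rcases List.mem_cons.1 hg with h | h
            · rw [h] at ha; exact self a ha
            · revert g
              intro g _ ha h
              exact lift _ _ (fun a ha => Or.inr (hY2 [] a (by simpa using ha)))
                (by intro g hg; simp at hg ⊢; tauto) (D8_leaders _ (R :: c) hcr hRc) g h a ha
    · have hev' : evG Y = false := by simpa using hev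
      simp only [crossG, hev', Bool.false_eq_true, if_false]
      intro g hg a ha
      rcases List.mem_cons.1 hg with h | h
      · rw [h] at ha; exact self a ha
      · revert g
        intro g _ ha h
        exact lift _ _ (fun a ha => Or.inl ⟨Y, by simp, ha⟩)
          (by intro g hg; simp at hg ⊢; tauto) (D8_leaders _ (R :: c) hY hRc) g h a ha
  termination_by c.length

/-! ### Chains with ends -/

def D8_Chn : ℤ → List AC → ℤ → Prop
  | s, [], e => s = e
  | s, a :: l, e => a.N = s ∧ D8_Chn (s + a.disp) l e

theorem D8_Chn_append {s e : ℤ} {u v : List AC} :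
    D8_Chn s (u ++ v) e ↔ ∃ m, D8_Chn s u m ∧ D8_Chn m v e := by
  induction u generalizing s with
  | nil => simp [D8_Chn]
  | cons a u ih =>
    simp only [List.cons_append, D8_Chn, ih]
    constructor
    · rintro ⟨h, m, h1, h2⟩; exact ⟨m, ⟨h, h1⟩, h2⟩
    · rintro ⟨m, ⟨h, h1⟩, h2⟩; exact ⟨h, m, h1, h2⟩

theorem D8_Chn.chain {s e : ℤ} {l : List AC} (h : D8_Chn s l e) : D8_Chain l := by
  induction l generalizing s with
  | nil => simp [D8_Chain]
  | cons a l ih =>
    have h2 := ih h.2
    cases l with
    | nil => simp [D8_Chain]
    | cons b l =>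
      unfold D8_Chain at h2 ⊢
      rw [List.map_cons, List.map_cons, List.isChain_cons_cons]
      refine ⟨?_, h2⟩
      show b.N = a.N + a.disp
      rw [h.2.1, h.1]

theorem D8_Chn.toCh {s e : ℤ} {l : List AC} (h : D8_Chn s l e) : Ch s l := by
  induction l generalizing s with
  | nil => trivial
  | cons a l ih => exact ⟨h.1, ih h.2⟩

theorem D8_Chn_congr {s e : ℤ} {l : List AC} (f : AC → AC) (hN : ∀ a, (f a).N = a.N)
    (hm : ∀ a, (f a).mem = a.mem) : D8_Chn s (l.map f) e ↔ D8_Chn s l e := by
  induction l generalizing s with
  | nil => rfl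
  | cons a l ih =>
    simp only [List.map_cons, D8_Chn, hN]
    have : (f a).disp = a.disp := by simp [AC.disp, AC.pos, hm]
    rw [this, ih]

theorem D8_Chn_tick {s e : ℤ} {l : List AC} (h : D8_Chn s l e) :
    D8_Chn (s + 1) (l.map tickA) (e + 1) := by
  induction l generalizing s with
  | nil => simp only [D8_Chn] at h ⊢; simp [D8_Chn, h]
  | cons a l ih =>
    refine ⟨by simp [tickA, h.1], ?_⟩
    have h2 := ih h.2
    have : (tickA a).disp = a.disp := by simp [AC.disp, AC.pos, tickA]
    rw [this]
    have e1 : s + 1 + a.disp = s + a.disp + 1 := by ring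
    rw [e1]
    exact h2

theorem D8_Chn_last {s e : ℤ} {u : List AC} {a : AC} (h : D8_Chn s (u ++ [a]) e) :
    a.N + a.disp = e := by
  obtain ⟨m, _, h2⟩ := D8_Chn_append.1 h
  rw [h2.1]
  exact h2.2

/-! ### Upper bounds in groups -/

theorem D8_up {a : AC} {t : List AC} {q s e : ℤ} (hc : D8_Chn s (a :: t) e)
    (hd : ∀ b ∈ a :: t, b.disp ≤ q) (hq : 0 ≤ q) :
    ∀ b ∈ a :: t, b.N ≤ a.N + t.length * q := by
  induction t generalizing a s with
  | nil =>
    intro b hb
    rw [List.mem_singleton] at hb
    simp [hb]
  | cons c t ih =>
    intro b hb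
    rcases List.mem_cons.1 hb with h | h
    · rw [h]
      have : (0 : ℤ) ≤ ((c :: t).length : ℤ) * q := by positivity
      linarith
    · have h1 := ih hc.2 (fun b hb => hd b (by simp at hb ⊢; tauto)) b h
      have h2 : c.N = a.N + a.disp := by rw [hc.2.1, hc.1]
      have h3 := hd a (by simp)
      have h4 : (((c :: t).length : ℕ) : ℤ) = t.length + 1 := by simp
      rw [h4]
      nlinarith

/-- In a group of at most four crossed cells whose leader has clock at most `2 th r`, all clocks
are smaller than `3 th r`. -/
theorem D8_up3 {g : List AC} {s e : ℤ} (hc : D8_Chn s g e) (hm : ∀ a ∈ g, MemOk a.r a.mem)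
    (hs : ∀ a ∈ g, ∀ b ∈ g, a.r = b.r) (hl : g.length ≤ 4)
    (hh : ∀ a, g.head? = some a → a.N ≤ 2 * th a.r) : ∀ b ∈ g, b.N < 3 * th b.r := by
  cases g with
  | nil => simp
  | cons a t =>
    intro b hb
    have h1 := D8_up (q := 4 ^ a.r) hc (fun b hb => by
      have := D8_disp (hm b hb)
      rw [abs_le] at this
      rw [hs a (by simp) b hb]
      exact this.2) (by positivity) b hb
    have h2 := hh a rfl
    have h3 : ((t.length : ℕ) : ℤ) ≤ 3 := by
      have : t.length ≤ 3 := by simp only [List.length_cons] at hl; omega
      exact_mod_cast this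
    rw [hs b hb a (by simp)]
    rw [D8_th] at h2 ⊢
    have hp := D8_pow_pos a.r
    nlinarith

/-! ### The inductive invariant -/

structure D8_Inv (s : ℤ) (c : List (List AC)) : Prop where
  sok : D8_Sok none c
  chn : D8_Chn s c.flatten (s - 1)
  mem : ∀ g ∈ c, ∀ a ∈ g, MemOk a.r a.mem
  unc : ∀ g ∈ c, ∀ a ∈ g, a.x = false →
    0 ≤ a.N ∧ a.N < th a.r ∧ ∀ s, a.r = s + 1 → 2 * th s ≤ a.N
  crs : ∀ g ∈ c, ∀ a ∈ g, a.x = true → th a.r ≤ a.N
  lead : ∀ g ∈ c, ∀ a, g.head? = some a → a.x = true → a.N < 2 * th a.r

theorem D8_group_chn {s e : ℤ} {c : List (List AC)} (h : D8_Chn s c.flatten e) :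
    ∀ g ∈ c, ∃ s' e', D8_Chn s' g e' := by
  induction c generalizing s with
  | nil => simp
  | cons g c ih =>
    rw [List.flatten_cons, D8_Chn_append] at h
    obtain ⟨m, h1, h2⟩ := h
    intro u hu
    rcases List.mem_cons.1 hu with h | h
    · rw [h]; exact ⟨s, m, h1⟩
    · exact ih h2 u h

theorem D8_Inv.rng {s : ℤ} {c : List (List AC)} (h : D8_Inv s c) :
    ∀ g ∈ c, ∀ a ∈ g, Rng a := by
  intro g hg a ha
  refine ⟨h.mem g hg a ha, h.unc g hg a ha, fun hx => ⟨h.crs g hg a ha hx, ?_⟩⟩
  obtain ⟨s', e', hch⟩ := D8_group_chn h.chn g hg
  have hsame := h.sok.same g hg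
  apply D8_up3 hch (h.mem g hg) hsame.1 hsame.2 ?_ a ha
  intro b hb
  rcases h.sok.shape g hg with ⟨y, rfl, hy⟩ | ⟨y, t, rfl, hy, _⟩
  · simp only [List.head?_cons, Option.some.injEq] at hb
    rw [List.mem_singleton] at ha
    rw [ha] at hx
    rw [hx] at hy
    exact absurd hy (by simp)
  · simp only [List.head?_cons, Option.some.injEq] at hb
    rw [← hb]
    exact le_of_lt (h.lead _ hg y rfl hy)

/-! ### The tick -/

theorem D8_unc_tick {g : List AC} : D8_Unc (g.map tickA) ↔ D8_Unc g := by
  constructor
  · rintro ⟨a, ha, hx⟩
    cases g with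
    | nil => simp at ha
    | cons b g =>
      cases g with
      | nil =>
        refine ⟨b, rfl, ?_⟩
        simp only [List.map_cons, List.map_nil, List.cons.injEq, and_true] at ha
        rw [← ha] at hx
        exact hx
      | cons c g => simp at ha
  · rintro ⟨a, rfl, hx⟩
    exact ⟨tickA a, rfl, hx⟩

theorem D8_isO_tick (g : List AC) : isO (g.map tickA) = isO g := by
  match g with
  | [] => rfl
  | [a] => rfl
  | _ :: _ :: _ => rfl

theorem D8_nb_tick {g : List AC} {o : Option (List AC)} :
    D8_nb (g.map tickA) (o.map (List.map tickA)) ↔ D8_nb g o := by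
  cases o with
  | none => simp [D8_nb]
  | some u =>
    simp only [D8_nb, Option.map_some, Option.some.injEq, exists_eq_left']
    rw [D8_unc_tick]
    simp [tickA]

theorem D8_SC_tick {p n : Option (List AC)} {g : List AC} (h : D8_SC p g n) :
    D8_SC (p.map (List.map tickA)) (g.map tickA) (n.map (List.map tickA)) := by
  obtain ⟨h1, h2, h3, h4, h5⟩ := h
  refine ⟨?_, ?_, by simpa using h3, ?_, ?_⟩
  · rcases h1 with h | ⟨a, t, rfl, hx, ht⟩
    · exact Or.inl (D8_unc_tick.2 h)
    · refine Or.inr ⟨tickA a, t.map tickA, rfl, hx, ?_⟩
      intro b hb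
      obtain ⟨b', hb', rfl⟩ := List.mem_map.1 hb
      exact ht b' hb'
  · intro a ha b hb
    obtain ⟨a', ha', rfl⟩ := List.mem_map.1 ha
    obtain ⟨b', hb', rfl⟩ := List.mem_map.1 hb
    exact h2 a' ha' b' hb'
  · rw [D8_isO_tick, D8_nb_tick, D8_nb_tick]
    exact h4
  · rw [D8_nb_tick, List.length_map]
    exact h5

theorem D8_Sok_tick {p : Option (List AC)} {c : List (List AC)} (h : D8_Sok p c) :
    D8_Sok (p.map (List.map tickA)) (tickG c) := by
  induction c generalizing p with
  | nil => trivial
  | cons g c ih =>
    obtain ⟨h1, h2⟩ := h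
    refine ⟨?_, ih h2⟩
    have e1 : (tickG c).head? = c.head?.map (List.map tickA) := by
      cases c <;> rfl
    show D8_SC _ _ (tickG c).head?
    rw [e1]
    exact D8_SC_tick h1

/-! ### Formation -/

theorem D8_dsp_ext (c : S3) (u : List Pos) : dsp (extP c u) = dsp u := by
  simp [dsp, extP, Function.comp_def]

theorem D8_dsp_setFL (F L : Bool) (u : List Pos) : dsp (setFL F L u) = dsp u := by
  cases u <;> simp [dsp, setFL]

theorem D8_dsp_flatten (us : List (List Pos)) : dsp us.flatten = (us.map dsp).sum := by
  induction us with
  | nil => rfl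
  | cons u us ih => rw [List.flatten_cons, dsp_append, ih]; simp

theorem D8_dsp_glueT (f : Bool) (us : List (List Pos)) :
    dsp (glueT f us).flatten = (us.map dsp).sum := by
  induction us generalizing f with
  | nil => rfl
  | cons u us ih =>
    cases us with
    | nil => simp [glueT, D8_dsp_setFL, D8_dsp_ext]
    | cons v us =>
      rw [glueT, List.flatten_cons, dsp_append, ih, D8_dsp_setFL, D8_dsp_ext]
      simp

theorem D8_dsp_glue (us : List (List Pos)) : dsp (glue us).flatten = (us.map dsp).sum := by
  cases us with
  | nil => rfl
  | cons u us => rw [glue, List.flatten_cons, dsp_append, D8_dsp_glueT, D8_dsp_ext]; simp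

theorem D8_Chn_sum {s e : ℤ} {l : List AC} (h : D8_Chn s l e) :
    e = s + (l.map AC.disp).sum := by
  induction l generalizing s with
  | nil => simp only [D8_Chn] at h; simp [h]
  | cons a l ih =>
    have := ih h.2
    rw [this]
    simp
    ring

/-- The leader event of formation. -/
def D8_fe (g : List AC) : Prop :=
  ∃ a t, g = a :: t ∧ a.x = true ∧ a.N = 2 * th a.r

theorem D8_formG_yes {a : AC} {t : List AC} (hx : a.x = true) (hN : a.N = 2 * th a.r) :
    formG (a :: t) =
      [{ r := a.r + 1, mem := glue ((a :: t).map AC.pos), N := a.N, x := false }] := by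
  simp [formG, hx, hN]

theorem D8_formG_no {g : List AC} (h : ¬ D8_fe g) : formG g = g := by
  cases g with
  | nil => rfl
  | cons a t =>
    by_cases hx : a.x = true
    · by_cases hN : a.N = 2 * th a.r
      · exact absurd ⟨a, t, rfl, hx, hN⟩ h
      · simp [formG, hN]
    · simp [formG, hx]

theorem D8_formG_unc {g : List AC} (h : D8_Unc g) : formG g = g := by
  apply D8_formG_no
  rintro ⟨a, t, rfl, hx, _⟩
  exact D8_not_unc_of hx h

theorem D8_Chn_formG {s e : ℤ} {g : List AC} (h : D8_Chn s g e) : D8_Chn s (formG g) e := by
  by_cases hf : D8_fe g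
  · obtain ⟨a, t, rfl, hx, hN⟩ := hf
    rw [D8_formG_yes hx hN]
    have h1 := D8_Chn_sum h
    refine ⟨h.1, ?_⟩
    show s + dsp (glue ((a :: t).map AC.pos)).flatten = e
    rw [D8_dsp_glue, h1, List.map_map]
    rfl
  · rw [D8_formG_no hf]
    exact h

theorem D8_Chn_formC {s e : ℤ} {c : List (List AC)} (h : D8_Chn s c.flatten e) :
    D8_Chn s (formC c).flatten e := by
  induction c generalizing s with
  | nil => exact h
  | cons g c ih =>
    rw [List.flatten_cons, D8_Chn_append] at h
    obtain ⟨m, h1, h2⟩ := h
    show D8_Chn s (formG g ++ (formC c).flatten) e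
    rw [D8_Chn_append]
    exact ⟨m, D8_Chn_formG h1, ih h2⟩

/-- Structural invariant after formation. -/
theorem D8_Sok_form {p : Option (List AC)} {c : List (List AC)} (h : D8_Sok p c)
    (hm : ∀ g ∈ c, ∀ a ∈ g, MemOk a.r a.mem)
    (hx : ∀ g ∈ c, ∀ a ∈ g, a.x = true → th a.r ≤ a.N) (hch : D8_Chain c.flatten) :
    D8_Sok (p.map formG) (formC c) := by
  induction c generalizing p with
  | nil => trivial
  | cons g c ih =>
    obtain ⟨⟨h1, h2, h3, h4, h5⟩, h6⟩ := h
    have hch' : D8_Chain c.flatten := by
      have e : (g :: c).flatten = g ++ c.flatten ++ [] := by simp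
      rw [e] at hch
      exact D8_chain_infix hch
    have ih' := ih h6 (fun u hu => hm u (by simp [hu])) (fun u hu => hx u (by simp [hu])) hch'
    have e1 : (formC c).head? = c.head?.map formG := by
      cases c <;> rfl
    refine ⟨?_, ih'⟩
    show D8_SC _ _ (formC c).head?
    rw [e1]
    by_cases hf : D8_fe g
    · obtain ⟨a, t, rfl, hax, hN⟩ := hf
      rw [D8_formG_yes hax hN]
      refine ⟨Or.inl ⟨_, rfl, rfl⟩, by simp, by simp, fun h => by simp [isO] at h,
        fun h => by simp at h⟩
    · rw [D8_formG_no hf]
      refine ⟨h1, h2, h3, fun ho => ?_, fun hlen hn => ?_⟩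
      · rcases h4 ho with ⟨u, hu, hu2, hu3⟩ | ⟨u, hu, hu2, hu3⟩
        · left
          refine ⟨u, ?_, hu2, hu3⟩
          rw [hu, Option.map_some, D8_formG_unc hu2]
        · right
          refine ⟨u, ?_, hu2, hu3⟩
          rw [hu, Option.map_some, D8_formG_unc hu2]
      · obtain ⟨v, hv, hv2, hv3⟩ := hn
        cases c with
        | nil => simp at hv
        | cons k c =>
          simp only [List.head?_cons, Option.map_some, Option.some.injEq] at hv
          by_cases hk : D8_fe k
          · obtain ⟨a, t, rfl, hax, hN⟩ := hk
            rw [D8_formG_yes hax hN] at hv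
            have hgne : g ≠ [] := h1.ne
            obtain ⟨u, b, rfl⟩ : ∃ u b, g = u ++ [b] := ⟨g.dropLast, g.getLast hgne,
              (List.dropLast_append_getLast hgne).symm⟩
            have hadj : a.N = b.N + b.disp := by
              apply D8_chain_mid (u := u) (a := b) (v := t ++ c.flatten)
              simpa using hch
            have hbr : b.r = a.r + 1 := by
              have := hv3 b (by simp) _ (by rw [← hv]; exact List.mem_singleton_self _)
              exact this
            have hbx : b.x = true := by
              rcases h1 with ⟨y, hy, _⟩ | ⟨y, t', hy, hyx, ht'⟩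
              · rw [hy] at hlen; simp at hlen
              · have : b ∈ y :: t' := by rw [← hy]; simp
                rcases List.mem_cons.1 this with h | h
                · rw [h]; exact hyx
                · exact ht' b h
            have h7 := hx (u ++ [b]) (by simp) b (by simp) hbx
            have h8 := D8_disp (hm (u ++ [b]) (by simp) b (by simp))
            rw [abs_le] at h8
            rw [D8_th, hbr, pow_succ] at h7
            rw [hbr, pow_succ] at h8
            rw [D8_th] at hN
            have hp := D8_pow_pos a.r
            linarith [h8.1, h8.2]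
          · rw [D8_formG_no hk] at hv
            exact h5 hlen ⟨k, rfl, hv ▸ hv2, hv ▸ hv3⟩

/-! ### One step -/

/-- What holds after the crossings. -/
structure D8_Mid (s : ℤ) (c : List (List AC)) : Prop where
  sok : D8_Sok none c
  chn : D8_Chn s c.flatten (s - 1)
  mem : ∀ g ∈ c, ∀ a ∈ g, MemOk a.r a.mem
  unc : ∀ g ∈ c, ∀ a ∈ g, a.x = false →
    0 ≤ a.N ∧ a.N < th a.r ∧ ∀ s, a.r = s + 1 → 2 * th s < a.N
  crs : ∀ g ∈ c, ∀ a ∈ g, a.x = true → th a.r ≤ a.N ∧ a.N < 3 * th a.r
  lead : ∀ g ∈ c, ∀ a, g.head? = some a → a.x = true → a.N ≤ 2 * th a.r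

theorem D8_Mid.single {s : ℤ} {c : List (List AC)} (h : D8_Mid s c) {a : AC}
    (hg : [a] ∈ c) (hx : a.x = true) : a.N < 2 * th a.r := by
  -- an open cell has an uncrossed neighbour of the same scale
  have key : ∀ (c : List (List AC)) (p : Option (List AC)) (u : List AC),
      D8_Sok p c → D8_Chain (u ++ c.flatten) → (∀ v, p = some v → ∃ u', u = u' ++ v) →
      (∀ g ∈ c, ∀ a ∈ g, MemOk a.r a.mem) → (∀ a ∈ u, MemOk a.r a.mem) →
      (∀ g ∈ c, ∀ a ∈ g, a.x = false → a.N < th a.r) → (∀ a ∈ u, a.x = false → a.N < th a.r) →
      [a] ∈ c → a.N < 2 * th a.r := by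
    intro c
    induction c with
    | nil => intro p u _ _ _ _ _ _ _ h; simp at h
    | cons g c ih =>
      intro p u hs hch hp hm hmu hN hNu hmem
      rcases List.mem_cons.1 hmem with h | h
      · subst h
        have ho : isO [a] = true := hx
        rcases hs.1.2.2.2.1 ho with ⟨v, hv, ⟨b, rfl, hbx⟩, hsc⟩ | ⟨v, hv, ⟨b, rfl, hbx⟩, hsc⟩
        · obtain ⟨u', rfl⟩ := hp [b] hv
          have hr : a.r = b.r := hsc a (by simp) b (by simp)
          have hadj : a.N = b.N + b.disp := by
            apply D8_chain_mid (u := u') (a := b) (v := c.flatten)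
            simpa using hch
          have h1 := hNu b (by simp) hbx
          have h2 := D8_disp (hmu b (by simp))
          rw [abs_le] at h2
          rw [hr]
          rw [D8_th] at h1 ⊢
          linarith [h2.2, D8_pow_pos b.r]
        · cases c with
          | nil => simp at hv
          | cons k c =>
            simp only [List.head?_cons, Option.some.injEq] at hv
            subst hv
            have hr : a.r = b.r := hsc a (by simp) b (by simp)
            have hadj : b.N = a.N + a.disp := by
              apply D8_chain_mid (u := u) (a := a) (v := c.flatten)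
              simpa using hch
            have h1 := hN [b] (by simp) b (by simp) hbx
            have h2 := D8_disp (hm [a] (by simp) a (by simp))
            rw [abs_le] at h2
            rw [D8_th, ← hr] at h1
            rw [D8_th]
            linarith [h2.1, D8_pow_pos a.r]
      · refine ih (some g) (u ++ g) hs.2 (by simpa using hch) ?_
          (fun g' hg' => hm g' (by simp [hg'])) ?_ (fun g' hg' => hN g' (by simp [hg'])) ?_ h
        · intro v hv
          exact ⟨u, by rw [Option.some.inj hv]⟩
        · intro b hb
          rcases List.mem_append.1 hb with h | h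
          · exact hmu b h
          · exact hm g (by simp) b h
        · intro b hb
          rcases List.mem_append.1 hb with h | h
          · exact hNu b h
          · exact hN g (by simp) b h
  exact key c none [] h.sok (by simpa using h.chn.chain) (by simp) h.mem (by simp)
    (fun g hg a ha hx => (h.unc g hg a ha hx).2.1) (by simp) hg

theorem D8_Mid.formOk {s : ℤ} {c : List (List AC)} (h : D8_Mid s c) :
    ∀ g ∈ c, FormOk g := by
  intro g hg
  refine ⟨(h.sok.shape g hg).ne, h.mem g hg, h.unc g hg, h.crs g hg, h.lead g hg, ?_⟩
  intro a ha hax hN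
  have hsame := h.sok.same g hg
  have hamem : a ∈ g := List.mem_of_mem_head? ha
  refine ⟨?_, hsame.2, ?_, ?_⟩
  · by_contra hlen
    rcases h.sok.shape g hg with ⟨y, rfl, hy⟩ | ⟨y, t, rfl, hy, _⟩
    · simp only [List.head?_cons, Option.some.injEq] at ha
      rw [← ha, hy] at hax
      exact absurd hax (by simp)
    · cases t with
      | nil =>
        simp only [List.head?_cons, Option.some.injEq] at ha
        subst ha
        have := h.single hg hy
        linarith
      | cons z t => simp at hlen
  · intro b hb
    refine ⟨hsame.1 b hb a hamem, ?_⟩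
    rcases h.sok.shape g hg with ⟨y, rfl, hy⟩ | ⟨y, t, rfl, hy, ht⟩
    · simp only [List.head?_cons, Option.some.injEq] at ha
      rw [← ha, hy] at hax
      exact absurd hax (by simp)
    · rcases List.mem_cons.1 hb with h | h
      · rw [h]; exact hy
      · exact ht b h
  · obtain ⟨s', e', hch⟩ := D8_group_chn h.chn g hg
    have : s' = a.N := by
      cases g with
      | nil => simp at ha
      | cons b g =>
        simp only [List.head?_cons, Option.some.injEq] at ha
        rw [← ha]
        exact hch.1.symm
    rw [← this]
    exact hch.toCh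

/-- Formation re-establishes the invariant. -/
theorem D8_Mid.form {s : ℤ} {c : List (List AC)} (h : D8_Mid s c) : D8_Inv s (formC c) := by
  have hF := h.formOk
  have hmemform : ∀ g' ∈ formC c, ∃ g ∈ c, g' = formG g := by
    intro g' hg'
    obtain ⟨g, hg, rfl⟩ := List.mem_map.1 hg'
    exact ⟨g, hg, rfl⟩
  refine ⟨D8_Sok_form h.sok h.mem (fun g hg a ha hx => (h.crs g hg a ha hx).1) h.chn.chain,
    D8_Chn_formC h.chn, ?_, ?_, ?_, ?_⟩
  · intro g' hg' a ha
    obtain ⟨g, hg, rfl⟩ := hmemform g' hg'
    by_cases hf : D8_fe g
    · obtain ⟨y, t, rfl, hyx, hyN⟩ := hf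
      obtain ⟨h2, h4, hr, _⟩ := (hF _ hg).grp y rfl hyx hyN
      rw [D8_formG_yes hyx hyN, List.mem_singleton] at ha
      subst ha
      show MemOk (y.r + 1) (glue ((y :: t).map AC.pos))
      have e : (y :: t).map AC.pos = ((y :: t).map AC.mem).map List.flatten := by
        rw [List.map_map]; rfl
      rw [e]
      apply MemOk.node
      · simpa using h2
      · simpa using h4
      · intro m hm
        obtain ⟨b, hb, rfl⟩ := List.mem_map.1 hm
        have := h.mem _ hg b hb
        rw [(hr b hb).1] at this
        exact this
    · rw [D8_formG_no hf] at ha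
      exact h.mem g hg a ha
  · intro g' hg' a ha hx
    obtain ⟨g, hg, rfl⟩ := hmemform g' hg'
    by_cases hf : D8_fe g
    · obtain ⟨y, t, rfl, hyx, hyN⟩ := hf
      rw [D8_formG_yes hyx hyN, List.mem_singleton] at ha
      subst ha
      have hp := D8_pow_pos y.r
      refine ⟨?_, ?_, ?_⟩
      · show 0 ≤ y.N
        rw [hyN, D8_th]; linarith
      · show y.N < th (y.r + 1)
        rw [hyN, D8_th, D8_th, pow_succ]; linarith
      · intro s' hs'
        have : y.r = s' := by
          have : y.r + 1 = s' + 1 := hs'
          omega
        show 2 * th s' ≤ y.N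
        rw [hyN, this]
    · rw [D8_formG_no hf] at ha
      have := h.unc g hg a ha hx
      exact ⟨this.1, this.2.1, fun s' hs' => le_of_lt (this.2.2 s' hs')⟩
  · intro g' hg' a ha hx
    obtain ⟨g, hg, rfl⟩ := hmemform g' hg'
    by_cases hf : D8_fe g
    · obtain ⟨y, t, rfl, hyx, hyN⟩ := hf
      rw [D8_formG_yes hyx hyN, List.mem_singleton] at ha
      subst ha
      exact absurd hx (by simp)
    · rw [D8_formG_no hf] at ha
      exact (h.crs g hg a ha hx).1
  · intro g' hg' a ha hx
    obtain ⟨g, hg, rfl⟩ := hmemform g' hg'
    by_cases hf : D8_fe g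
    · obtain ⟨y, t, rfl, hyx, hyN⟩ := hf
      rw [D8_formG_yes hyx hyN] at ha
      simp only [List.head?_cons, Option.some.injEq] at ha
      subst ha
      exact absurd hx (by simp)
    · rw [D8_formG_no hf] at ha
      have h1 := h.lead g hg a ha hx
      rcases lt_or_eq_of_le h1 with h2 | h2
      · exact h2
      · exfalso
        apply hf
        cases g with
        | nil => simp at ha
        | cons b g =>
          simp only [List.head?_cons, Option.some.injEq] at ha
          subst ha
          exact ⟨b, g, rfl, hx, h2⟩

theorem D8_th_ge (r : ℕ) : 16 ≤ th r := by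
  rw [D8_th]
  have : (1 : ℤ) ≤ 4 ^ r := one_le_pow₀ (by norm_num)
  linarith

/-- The crossings. -/
theorem D8_Inv.cross {c : List (List AC)} (h : D8_Inv 0 c) :
    D8_Mid 1 (crossC (tickG c)) ∧
    jl (crossC (tickG c)) = crossL ⟨false, false, false⟩ (jl (tickG c)) ∧
    UncOk (jl (tickG c)) := by
  have hR := h.rng
  have hsok1 : D8_Sok none (tickG c) := D8_Sok_tick (p := none) h.sok
  have hflat1 : (tickG c).flatten = c.flatten.map tickA := by
    simp [tickG, List.map_flatten]
  have hchn1 : D8_Chn 1 (tickG c).flatten 0 := by
    rw [hflat1]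
    have := D8_Chn_tick h.chn
    simpa using this
  have hCB : ∀ g ∈ tickG c, ∀ a ∈ g, D8_CB a := by
    intro g hg a ha
    obtain ⟨g0, hg0, rfl⟩ := List.mem_map.1 hg
    obtain ⟨a0, ha0, rfl⟩ := List.mem_map.1 ha
    obtain ⟨h1, h2, h3⟩ := hR g0 hg0 a0 ha0
    have hN : (tickA a0).N = a0.N + 1 := rfl
    have hr : (tickA a0).r = a0.r := rfl
    refine ⟨h1, fun hx => ?_, fun hx => ?_⟩
    · obtain ⟨h4, h5, h6⟩ := h2 hx
      rw [hN, hr]
      exact ⟨by linarith, by linarith [Int.add_one_le_of_lt h5], fun s hs => by
        linarith [h6 s hs]⟩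
    · have h4 := h3 hx
      rw [hN, hr]
      refine ⟨by linarith [h4.1], ?_⟩
      have hup : (tickA a0).N < 3 * th (tickA a0).r := by
        obtain ⟨s', e', hch⟩ := D8_group_chn hchn1 _ hg
        have hsame := hsok1.same _ hg
        refine D8_up3 hch ?_ hsame.1 hsame.2 ?_ _ ha
        · intro b hb
          obtain ⟨b0, hb0, rfl⟩ := List.mem_map.1 hb
          exact (hR g0 hg0 b0 hb0).1
        · intro b hb
          cases g0 with
          | nil => simp at hb
          | cons b0 t0 =>
            simp only [List.map_cons, List.head?_cons, Option.some.injEq] at hb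
            subst hb
            have hb0x : b0.x = true := by
              rcases h.sok.shape _ hg0 with ⟨y, hy, hyx⟩ | ⟨y, t, hy, hyx, _⟩
              · rw [hy, List.mem_singleton] at ha0
                rw [ha0] at hx
                have : y.x = true := hx
                rw [this] at hyx
                exact absurd hyx (by simp)
              · rw [List.cons_eq_cons] at hy
                rw [hy.1]; exact hyx
            have := h.lead _ hg0 b0 rfl hb0x
            show b0.N + 1 ≤ 2 * th b0.r
            exact Int.add_one_le_of_lt this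
      rw [hN, hr] at hup
      exact hup
  -- first and last groups
  have hfirst : ∀ g c', tickG c = g :: c' → evG g = false := by
    intro g c' hgc
    by_contra hcon
    have hev : evG g = true := by simpa using hcon
    obtain ⟨y, rfl, _, hN⟩ := D8_evG_cases hev
    rw [hgc] at hchn1
    have h1 : y.N = 1 := hchn1.1
    have := D8_th_ge y.r
    rw [← hN, h1] at this
    norm_num at this
  have hlastOk : ∀ g, (tickG c).getLast? = some g → evG g = false := by
    intro g hg
    by_contra hcon
    have hev : evG g = true := by simpa using hcon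
    obtain ⟨y, rfl, _, hN⟩ := D8_evG_cases hev
    obtain ⟨c', hc'⟩ : ∃ c', tickG c = c' ++ [[y]] := by
      rw [List.getLast?_eq_some_iff] at hg
      exact hg
    have hmem : MemOk y.r y.mem := (hCB [y] (by rw [hc']; simp) y (by simp)).1
    rw [hc', List.flatten_append] at hchn1
    have h1 : y.N + y.disp = 0 := D8_Chn_last (u := c'.flatten) (by simpa using hchn1)
    have h2 := D8_disp hmem
    rw [abs_le] at h2
    rw [D8_th] at hN
    have := D8_pow_pos y.r
    linarith [h2.1]
  have hunc : UncOk (jl (tickG c)) := by
    have key : ∀ c' : List (List AC), (∀ g ∈ c', D8_Shape g) → UncOk (jl c') := by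
      intro c'
      induction c' with
      | nil => intro _; trivial
      | cons g c' ih =>
        intro hsh
        have hg := hsh g (by simp)
        have ih' := ih (fun u hu => hsh u (by simp [hu]))
        rw [D8_jl_cons]
        rcases hg with ⟨a, rfl, hx⟩ | ⟨a, t, rfl, hx, ht⟩
        · exact ⟨fun _ => ⟨rfl, D8_hJ_jl c' (fun u hu => (hsh u (by simp [hu])).ne)⟩, ih'⟩
        · refine ⟨fun he => ?_, ?_⟩
          · simp [evA, hx] at he
          · show UncOk (t.map (fun b => (true, b)) ++ jl c')
            clear hsh
            induction t with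
            | nil => exact ih'
            | cons b t iht =>
              refine ⟨fun he => ?_, iht (fun b hb => ht b (by simp [hb]))⟩
              have := ht b (by simp)
              simp [evA, this] at he
    exact key _ hsok1.shape
  cases hc1 : tickG c with
  | nil =>
    rw [hc1] at hchn1
    simp [D8_Chn] at hchn1
  | cons L c1 =>
    rw [hc1] at hsok1 hchn1 hCB hlastOk hunc
    have hLe := hfirst L c1 hc1
    have hl : D8_lastOk c1 := by
      intro g hg
      apply hlastOk g
      cases c1 with
      | nil => simp at hg
      | cons d c1 => simpa [List.getLast?_cons_cons] using hg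
    have hshape := hsok1.shape
    have hLs : D8_Shape L := hshape L (by simp)
    have hc1s : ∀ g ∈ c1, D8_Shape g := fun g hg => hshape g (by simp [hg])
    have hsok2 : D8_Sok none (crossG L c1) :=
      D8_cross_sok none L c1 hsok1 hCB (by simpa using hchn1.chain) hLe hl
    have hflat2 : (crossG L c1).flatten = (L :: c1).flatten.map D8_crossA := by
      rw [D8_flat L c1 hc1s hl, List.flatten_cons, List.map_append, D8_map_crossA hLs hLe]
    have hcell : ∀ g ∈ crossG L c1, ∀ a ∈ g, ∃ b ∈ (L :: c1).flatten, a = D8_crossA b := by
      intro g hg a ha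
      have h1 : a ∈ (crossG L c1).flatten := List.mem_flatten.2 ⟨g, hg, ha⟩
      rw [hflat2] at h1
      obtain ⟨b, hb, rfl⟩ := List.mem_map.1 h1
      exact ⟨b, hb, rfl⟩
    have hCBf : ∀ b ∈ (L :: c1).flatten, D8_CB b := by
      intro b hb
      obtain ⟨g, hg, hbg⟩ := List.mem_flatten.1 hb
      exact hCB g hg b hbg
    refine ⟨⟨hsok2, ?_, ?_, ?_, ?_, ?_⟩, ?_, hunc⟩
    · show D8_Chn 1 (crossG L c1).flatten (1 - 1)
      rw [hflat2, D8_Chn_congr D8_crossA (fun _ => rfl) (fun _ => rfl)]
      simpa using hchn1
    · intro g hg a ha
      obtain ⟨b, hb, rfl⟩ := hcell g hg a ha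
      exact (hCBf b hb).1
    · intro g hg a ha hx
      obtain ⟨b, hb, rfl⟩ := hcell g hg a ha
      have hx' : b.x = false ∧ evA b = false := by
        simpa [D8_crossA] using hx
      obtain ⟨h1, h2, h3⟩ := (hCBf b hb).2.1 hx'.1
      refine ⟨h1, lt_of_le_of_ne h2 ?_, h3⟩
      intro hcon
      have : evA b = true := by
        have hcon' : b.N = th b.r := hcon
        simp [evA, hx'.1, hcon']
      rw [this] at hx'
      exact absurd hx'.2 (by simp)
    · intro g hg a ha hx
      obtain ⟨b, hb, rfl⟩ := hcell g hg a ha
      cases hbx : b.x with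
      | true => exact (hCBf b hb).2.2 hbx
      | false =>
        have he : evA b = true := by simpa [D8_crossA, hbx] using hx
        have hN : b.N = th b.r := by
          simpa [evA, hbx] using he
        show th b.r ≤ b.N ∧ b.N < 3 * th b.r
        rw [hN]
        have := D8_th_ge b.r
        exact ⟨le_refl _, by linarith⟩
    · intro g hg a ha hx
      rcases D8_leaders L c1 hLs.ne (fun u hu => (hc1s u hu).ne) g hg a ha with
        ⟨g', hg', ha'⟩ | h1
      · -- leader of a group of the ticked configuration
        have hg'' : g' ∈ tickG c := by rw [hc1]; exact hg'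
        obtain ⟨g0, hg0, rfl⟩ := List.mem_map.1 hg''
        cases g0 with
        | nil => simp at ha'
        | cons b0 t0 =>
          simp only [List.map_cons, List.head?_cons, Option.some.injEq] at ha'
          subst ha'
          have := h.lead _ hg0 b0 rfl hx
          exact Int.add_one_le_of_lt this
      · rw [h1]
        have := D8_th_ge a.r
        linarith
    · show jl (crossG L c1) = _
      rw [D8_link L c1 hLs hc1s hl, D8_jl_cons,
        D8_pass L hLs hLe (jl c1) (D8_hJ_jl c1 (fun u hu => (hc1s u hu).ne)) _ rfl]

theorem D8_Inv.stepOk {c : List (List AC)} (h : D8_Inv 0 c) : StepOk c := by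
  obtain ⟨h1, h2, h3⟩ := h.cross
  refine ⟨h.rng, ?_, h2, h3, h1.formOk⟩
  intro g hg a ha
  obtain ⟨hm, hu, hx⟩ := h.rng g hg a ha
  refine ⟨hm, fun hf => ?_, fun hf => ?_⟩
  · obtain ⟨h4, h5, h6⟩ := hu hf
    refine ⟨?_, ?_, fun s hs => ?_⟩
    · show 0 ≤ a.N + 1
      linarith
    · show a.N + 1 ≤ th a.r
      exact Int.add_one_le_of_lt h5
    · show 2 * th s < a.N + 1
      linarith [h6 s hs]
  · obtain ⟨h4, h5⟩ := hx hf
    refine ⟨?_, ?_⟩
    · show th a.r < a.N + 1
      linarith
    · show a.N + 1 < 4 * th a.r
      have := D8_th_ge a.r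
      linarith

theorem D8_Inv.sh {c : List (List AC)} (h : D8_Inv 0 c) : D8_Inv 1 (shG c) :=
  h.cross.1.form

/-! ### Concatenation -/

theorem D8_nb_none (g : List AC) : ¬ D8_nb g none := by
  rintro ⟨u, hu, _⟩
  exact absurd hu (by simp)

theorem D8_Sok_mono {p : Option (List AC)} {c : List (List AC)} (h : D8_Sok none c) :
    D8_Sok p c := by
  cases c with
  | nil => trivial
  | cons g c =>
    obtain ⟨⟨h1, h2, h3, h4, h5⟩, h6⟩ := h
    refine ⟨⟨h1, h2, h3, fun ho => ?_, h5⟩, h6⟩
    rcases h4 ho with h | h
    · exact absurd h (D8_nb_none g)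
    · exact Or.inr h

theorem D8_Sok_append {p : Option (List AC)} {c1 c2 : List (List AC)} (h1 : D8_Sok p c1)
    (h2 : D8_Sok none c2) (hl : ∀ g, c1.getLast? = some g → g.length ≠ 4) :
    D8_Sok p (c1 ++ c2) := by
  induction c1 generalizing p with
  | nil => exact D8_Sok_mono h2
  | cons g c1 ih =>
    obtain ⟨⟨a1, a2, a3, a4, a5⟩, a6⟩ := h1
    cases c1 with
    | nil =>
      refine ⟨⟨a1, a2, a3, fun ho => ?_, fun h4 => ?_⟩, D8_Sok_mono h2⟩
      · rcases a4 ho with h | h
        · exact Or.inl h
        · exact absurd h (D8_nb_none g)
      · exact absurd h4 (hl g rfl)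
    | cons k c1 =>
      refine ⟨⟨a1, a2, a3, a4, a5⟩, ?_⟩
      apply ih a6
      intro u hu
      exact hl u (by simpa [List.getLast?_cons_cons] using hu)

theorem D8_Inv.last {s : ℤ} {c : List (List AC)} (h : D8_Inv s c) (hs : s ≤ 1) :
    ∀ g, c.getLast? = some g → g.length ≠ 4 := by
  intro g hg hlen
  obtain ⟨c', rfl⟩ : ∃ c', c = c' ++ [g] := by
    rw [List.getLast?_eq_some_iff] at hg
    exact hg
  have hgne : g ≠ [] := by
    intro hcon
    rw [hcon] at hlen
    simp at hlen
  obtain ⟨u, b, rfl⟩ : ∃ u b, g = u ++ [b] := ⟨g.dropLast, g.getLast hgne,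
    (List.dropLast_append_getLast hgne).symm⟩
  have hbx : b.x = true := by
    rcases h.sok.shape (u ++ [b]) (by simp) with ⟨y, hy, _⟩ | ⟨y, t', hy, hyx, ht'⟩
    · rw [hy] at hlen; simp at hlen
    · have : b ∈ y :: t' := by rw [← hy]; simp
      rcases List.mem_cons.1 this with h | h
      · rw [h]; exact hyx
      · exact ht' b h
  have h1 : b.N + b.disp = s - 1 := by
    have := h.chn
    have e : (c' ++ [u ++ [b]]).flatten = (c'.flatten ++ u) ++ [b] := by simp
    rw [e] at this
    exact D8_Chn_last this
  have h2 := D8_disp (h.mem (u ++ [b]) (by simp) b (by simp))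
  rw [abs_le] at h2
  have h3 := h.crs (u ++ [b]) (by simp) b (by simp) hbx
  rw [D8_th] at h3
  have := D8_pow_pos b.r
  have h4 : (1 : ℤ) ≤ 4 ^ b.r := one_le_pow₀ (by norm_num)
  linarith [h2.1]

theorem D8_Inv_node {c1 c2 : List (List AC)} (h1 : D8_Inv 1 c1) (h2 : D8_Inv 0 c2) :
    D8_Inv 0 ([pc .lp] :: (c1 ++ c2)) := by
  have hpc : MemOk 0 (pc .lp).mem := MemOk.leaf .lp
  have hmem : ∀ g ∈ [pc .lp] :: (c1 ++ c2), g = [pc .lp] ∨ g ∈ c1 ∨ g ∈ c2 := by
    intro g hg
    simpa using hg
  refine ⟨⟨⟨Or.inl ⟨_, rfl, rfl⟩, by simp, by simp, fun h => by simp [isO, pc] at h,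
    fun h => by simp at h⟩, ?_⟩, ?_, ?_, ?_, ?_, ?_⟩
  · exact D8_Sok_append (D8_Sok_mono h1.sok) h2.sok (h1.last le_rfl)
  · have e : ([pc .lp] :: (c1 ++ c2)).flatten = pc .lp :: (c1.flatten ++ c2.flatten) := by simp
    rw [e]
    refine ⟨rfl, ?_⟩
    rw [D8_Chn_append]
    have hd : (pc .lp).disp = 1 := by simp [AC.disp, AC.pos, pc, dsp, Bs.step]
    rw [hd]
    refine ⟨0, ?_, by simpa using h2.chn⟩
    simpa using h1.chn
  · intro g hg a ha
    rcases hmem g hg with rfl | h | h
    · rw [List.mem_singleton] at ha
      rw [ha]
      exact hpc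
    · exact h1.mem g h a ha
    · exact h2.mem g h a ha
  · intro g hg a ha hx
    rcases hmem g hg with rfl | h | h
    · rw [List.mem_singleton] at ha
      rw [ha]
      refine ⟨le_refl _, ?_, fun s hs => by simp [pc] at hs⟩
      exact th_pos _
    · exact h1.unc g h a ha hx
    · exact h2.unc g h a ha hx
  · intro g hg a ha hx
    rcases hmem g hg with rfl | h | h
    · rw [List.mem_singleton] at ha
      rw [ha] at hx
      exact absurd hx (by simp [pc])
    · exact h1.crs g h a ha hx
    · exact h2.crs g h a ha hx
  · intro g hg a ha hx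
    rcases hmem g hg with rfl | h | h
    · simp only [List.head?_cons, Option.some.injEq] at ha
      rw [← ha] at hx
      exact absurd hx (by simp [pc])
    · exact h1.lead g h a ha hx
    · exact h2.lead g h a ha hx

theorem D8_Inv_leaf (n : ℕ) : D8_Inv 0 (cfg (.leaf n)) := by
  have hmem : ∀ g ∈ cfg (.leaf n), ∃ b, g = [pc b] := by
    intro g hg
    simp only [cfg, List.mem_append, List.mem_replicate, List.mem_singleton] at hg
    rcases hg with ⟨_, rfl⟩ | rfl
    · exact ⟨_, rfl⟩
    · exact ⟨_, rfl⟩
  refine ⟨?_, ?_, ?_, ?_, ?_, ?_⟩
  · have key : ∀ (c : List (List AC)) (p : Option (List AC)), (∀ g ∈ c, ∃ b, g = [pc b]) →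
        D8_Sok p c := by
      intro c
      induction c with
      | nil => intro _ _; trivial
      | cons g c ih =>
        intro p hg
        obtain ⟨b, rfl⟩ := hg g (by simp)
        exact ⟨⟨Or.inl ⟨_, rfl, rfl⟩, by simp, by simp, fun h => by simp [isO, pc] at h,
          fun h => by simp at h⟩, ih _ (fun u hu => hg u (by simp [hu]))⟩
    exact key _ _ hmem
  · show D8_Chn 0 (List.replicate n [pc .br] ++ [[pc .lf]]).flatten (0 - 1)
    have hbr : (pc .br).disp = 0 := by simp [AC.disp, AC.pos, pc, dsp, Bs.step]
    have hlf : (pc .lf).disp = -1 := by simp [AC.disp, AC.pos, pc, dsp, Bs.step]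
    induction n with
    | zero =>
      simp only [List.replicate_zero, List.nil_append, List.flatten_cons, List.flatten_nil,
        List.append_nil, D8_Chn, hlf]
      exact ⟨rfl, by norm_num⟩
    | succ n ih =>
      have hmem' : ∀ g ∈ cfg (.leaf n), ∃ b, g = [pc b] := by
        intro g hg
        simp only [cfg, List.mem_append, List.mem_replicate, List.mem_singleton] at hg
        rcases hg with ⟨_, rfl⟩ | rfl
        · exact ⟨_, rfl⟩
        · exact ⟨_, rfl⟩
      have e : (List.replicate (n + 1) [pc .br] ++ [[pc .lf]]).flatten =
          pc .br :: (List.replicate n [pc .br] ++ [[pc .lf]]).flatten := by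
        simp [List.replicate_succ]
      rw [e]
      refine ⟨rfl, ?_⟩
      rw [hbr]
      simpa using ih hmem'
  · intro g hg a ha
    obtain ⟨b, rfl⟩ := hmem g hg
    rw [List.mem_singleton] at ha
    rw [ha]
    exact MemOk.leaf b
  · intro g hg a ha hx
    obtain ⟨b, rfl⟩ := hmem g hg
    rw [List.mem_singleton] at ha
    rw [ha]
    exact ⟨le_refl _, th_pos _, fun s hs => by simp [pc] at hs⟩
  · intro g hg a ha hx
    obtain ⟨b, rfl⟩ := hmem g hg
    rw [List.mem_singleton] at ha
    rw [ha] at hx
    exact absurd hx (by simp [pc])
  · intro g hg a ha hx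
    obtain ⟨b, rfl⟩ := hmem g hg
    simp only [List.head?_cons, Option.some.injEq] at ha
    rw [← ha] at hx
    exact absurd hx (by simp [pc])

theorem D8_Inv_cfg (t : DT) : D8_Inv 0 (cfg t) := by
  induction t with
  | leaf n => exact D8_Inv_leaf n
  | node l r ihl ihr => exact D8_Inv_node ihl.sh ihr

theorem stepOk_cfg (t : DT) : StepOk (cfg t) := (D8_Inv_cfg t).stepOk

end TF
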