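import Mathlib
import Pool.Agent.LibTF.D1
import Pool.Agent.LibTF.D2

/-! TASK D3: the pass `tickM` on a block. (Only `Blk` is used from `D2`.) -/

namespace TF

/-- Running a machine on an indexed word, with the states given in advance. -/
theorem D3_run {A B C : Type} (m : BM A B) (w : List C) (F : ℕ → C → A) (G : ℕ → C → B)
    (Qs : ℕ → m.Q) (Ps : ℕ → m.P)
    (h : ∀ i a, w[i]? = some a → m.e (F i a) (Ps (i + 1)) = Ps i ∧
      m.d (Qs i) (F i a) (Ps (i + 1)) = Qs (i + 1) ∧
      m.out (Qs i) (F i a) (Ps (i + 1)) = G i a) :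
    (w.mapIdx F).foldr m.e (Ps w.length) = Ps 0 ∧
      m.run (Qs 0) (w.mapIdx F) (Ps w.length) = w.mapIdx G := by
  induction w generalizing F G Qs Ps with
  | nil => exact ⟨rfl, rfl⟩
  | cons a w ih =>
    obtain ⟨h1, h2⟩ := ih (fun i => F (i + 1)) (fun i => G (i + 1)) (fun i => Qs (i + 1))
      (fun i => Ps (i + 1)) (fun i b hb => h (i + 1) b (by simpa using hb))
    obtain ⟨e0, d0, o0⟩ := h 0 a rfl
    have h1' : (w.mapIdx (fun i => F (i + 1))).foldr m.e (Ps (w.length + 1)) = Ps 1 := h1
    have h2' : m.run (Qs 1) (w.mapIdx (fun i => F (i + 1))) (Ps (w.length + 1)) =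
        w.mapIdx (fun i => G (i + 1)) := h2
    constructor
    · rw [List.mapIdx_cons, List.foldr_cons, List.length_cons, h1', e0]
    · rw [List.mapIdx_cons, List.mapIdx_cons, List.length_cons]
      simp only [BM.run]
      rw [h1', d0, o0, h2']

theorem D3_blk {w : List Ltr} (hw : Blk w) {i : ℕ} {a : Ltr} (h : w[i]? = some a) :
    (i = 0 ∧ a.hd = .A) ∨ (1 ≤ i ∧ a.hd ≠ .A) := by
  obtain ⟨b, u, rfl, h1, h2⟩ := hw
  cases i with
  | zero =>
    left
    simp only [List.getElem?_cons_zero, Option.some.injEq] at h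
    exact ⟨rfl, h ▸ h1⟩
  | succ i =>
    right
    simp only [List.getElem?_cons_succ] at h
    exact ⟨by omega, h2 a (List.mem_of_getElem? h)⟩

/-- The carries. -/
def D3_C (x : ℤ) (c : Mv) : ℕ → Mv
  | 0 => c
  | j + 1 => cyD (decide (j = 0)) (if j = 0 then ug x else 0) (dg x j) (D3_C x c j)

theorem D3_step (x : ℤ) (c : Mv) (j : ℕ) :
    newU (decide (j = 0)) (if j = 0 then ug x else 0) (D3_C x c j) =
      (if j = 0 then ug (x + c.val) else 0) ∧
    newD (decide (j = 0)) (if j = 0 then ug x else 0) (dg x j) (D3_C x c j) =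
      dg (x + c.val) j ∧
    (D3_C x c (j + 1)).val = (x + c.val) / th (j + 1) - x / th (j + 1) := by
  induction j with
  | zero => simpa [D3_C] using add_bot x c
  | succ j ih =>
    have h := add_mid x (x + c.val) (j + 1) (D3_C x c (j + 1)) ih.2.2 0
    have hj : ¬ (j + 1 = 0) := by omega
    have h3 : D3_C x c (j + 1 + 1) = cyD false 0 (dg x (j + 1)) (D3_C x c (j + 1)) := by
      rw [D3_C]
      simp
    rw [h3]
    simpa using h

theorem D3_val (x : ℤ) (c : Mv) {j : ℕ} (hj : 1 ≤ j) :
    (D3_C x c j).val = (x + c.val) / th j - x / th j := by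
  obtain ⟨i, rfl⟩ := Nat.exists_eq_add_of_le' hj
  exact (D3_step x c i).2.2

theorem D3_mv_z {c : Mv} (h : c.val = 0) : c = .z := by
  cases c <;> simp_all [Mv.val]

theorem D3_mv_p {c : Mv} (h : c.val = 1) : c = .p := by
  cases c <;> simp_all [Mv.val]

theorem D3_mv_n {c : Mv} (h : c.val = -1) : c = .n := by
  cases c <;> simp_all [Mv.val]

/-- The new letter at digit `j`. -/
def D3_o (δ : Mv) (l : ℕ) (n k h : ℤ) (s : ℕ → S3) (j : ℕ) : Option ML :=
  if j + 1 = l ∧ j ≠ 0 ∧ dg n j = 1 ∧ D3_C n δ j = .n then none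
  else some ⟨if j = 0 then ug (n + δ.val) else 0, if j = 0 then ug k else 0,
    if j = 0 then ug (h + δ.val) else 0, dg (n + δ.val) j, dg k j, dg (h + δ.val) j, s j,
    (decide (j + 1 = l) && !decide (D3_C n δ (j + 1) = .p)) ||
      (decide (j + 2 = l ∧ dg n (l - 1) = 1) && decide (D3_C n δ (j + 1) = .n)),
    decide (j = 0), .z⟩

def D3_new : ML := ⟨0, 0, 0, 1, 0, 1, .f, true, false, .z⟩

def D3_Qs (δ : Mv) (l K : ℕ) (n h : ℤ) (i : ℕ) : TQ :=
  if K < i ∧ i ≤ K + l then
    ⟨D3_C n δ (i - K), .z, D3_C h δ (i - K), decide (i = K + l) && decide (D3_C n δ l = .p)⟩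
  else ⟨.z, .z, .z, false⟩

def D3_Ps (l K : ℕ) (n : ℤ) (i : ℕ) : Bool :=
  decide (i = K + (l - 1) ∧ l ≠ 1 ∧ dg n (l - 1) = 1)

theorem D3_main (δ : Mv) (w : List Ltr) (hw : Blk w) (l K : ℕ) (hl : 1 ≤ l)
    (hK : K + l ≤ w.length) (n k h : ℤ) (s : ℕ → S3) (M' : ℕ → Option ML)
    (hin : ∀ j < l, D3_o δ l n k h s j = M' (K + j))
    (hout : ∀ i, i < w.length → (i < K ∨ K + l ≤ i) →
      (if i = K + l ∧ D3_C n δ l = .p then some D3_new else none) = M' i) :
    (tickM δ).eval (putM l K n k h s .z w) = w.mapIdx (fun i a => { a with M := M' i }) := by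
  have h0 : (tickM δ).q0 = D3_Qs δ l K n h 0 := by
    simp [D3_Qs, tickM]
  have h1 : (tickM δ).p0 = D3_Ps l K n w.length := by
    have : ¬ (w.length = K + (l - 1)) := by omega
    simp [D3_Ps, tickM, this]
  unfold BM.eval putM
  rw [h0, h1]
  refine (D3_run (tickM δ) w _ (fun i a => { a with M := M' i }) (D3_Qs δ l K n h)
    (D3_Ps l K n) ?_).2
  intro i a hi
  have hil : i < w.length := by
    by_contra hcon
    rw [List.getElem?_eq_none (by omega)] at hi
    exact absurd hi (by simp)
  have hb := D3_blk hw hi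
  by_cases hr : K ≤ i ∧ i < K + l
  · obtain ⟨j, rfl⟩ := Nat.exists_eq_add_of_le hr.1
    have hj : j < l := by omega
    have hsub : K + j - K = j := by omega
    have hcon : (K ≤ K + j ∧ K + j < K + l) := ⟨by omega, by omega⟩
    obtain ⟨nu, nd, _⟩ := D3_step n δ j
    obtain ⟨hu, hd', _⟩ := D3_step h δ j
    have htin : tIn δ (D3_Qs δ l K n h (K + j)) (mlet l j n k h s .z) =
        ⟨D3_C n δ j, .z, D3_C h δ j, (tIn δ (D3_Qs δ l K n h (K + j))
          (mlet l j n k h s .z)).grow⟩ := by
      by_cases hj0 : j = 0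
      · subst hj0
        simp [tIn, mlet, D3_C]
      · have h3 : K < K + j ∧ K + j ≤ K + l := ⟨by omega, by omega⟩
        simp only [tIn, mlet, hj0, decide_false, Bool.false_eq_true, if_false, D3_Qs, h3,
          and_self, if_true, hsub]
    have hcn : (tIn δ (D3_Qs δ l K n h (K + j)) (mlet l j n k h s .z)).cn = D3_C n δ j := by
      rw [htin]
    have hch : (tIn δ (D3_Qs δ l K n h (K + j)) (mlet l j n k h s .z)).ch = D3_C h δ j := by
      rw [htin]
    have hcy : cyD (mlet l j n k h s .z).bot (mlet l j n k h s .z).un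
        (mlet l j n k h s .z).dn (D3_C n δ j) = D3_C n δ (j + 1) := rfl
    have hcyh : cyD (mlet l j n k h s .z).bot (mlet l j n k h s .z).uh
        (mlet l j n k h s .z).dh (D3_C h δ j) = D3_C h δ (j + 1) := rfl
    refine ⟨?_, ?_, ?_⟩
    · simp only [hcon, and_self, if_true, hsub]
      rcases hb with ⟨hb1, hb2⟩ | ⟨hb1, hb2⟩
      · have hj0 : j = 0 := by omega
        have hK0 : K = 0 := by omega
        subst hj0 hK0
        simp only [tickM, hb2, D3_Ps]
        symm
        rw [decide_eq_false_iff_not]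
        rintro ⟨h4, h5, _⟩
        omega
      · have h5 : (tickM δ).e { a with M := some (mlet l j n k h s .z) }
            (D3_Ps l K n (K + j + 1)) =
            ((mlet l j n k h s .z).top && !(mlet l j n k h s .z).bot &&
              decide ((mlet l j n k h s .z).dn = 1)) := by
          simp only [tickM]
        rw [h5]
        simp only [mlet, D3_Ps]
        by_cases hjl : j + 1 = l
        · have h6 : l - 1 = j := by omega
          by_cases hj0 : j = 0
          · have : l = 1 := by omega
            simp [hj0, this]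
            try rfl
          · have : l ≠ 1 := by omega
            simp [hjl, hj0, this, h6]
            rfl
        · have h6 : ¬ (j = l - 1) := by omega
          simp [hjl, h6]
          try rfl
    · simp only [hcon, and_self, if_true, hsub]
      have h5 : (tickM δ).d (D3_Qs δ l K n h (K + j)) { a with M := some (mlet l j n k h s .z) }
          (D3_Ps l K n (K + j + 1)) = ⟨D3_C n δ (j + 1), .z, D3_C h δ (j + 1),
          decide (j + 1 = l) && decide (D3_C n δ (j + 1) = .p)⟩ := by
        simp only [tickM]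
        rw [hcn, hch, hcy, hcyh]
        rfl
      rw [h5]
      have h6 : K < K + j + 1 ∧ K + j + 1 ≤ K + l := ⟨by omega, by omega⟩
      have h7 : K + j + 1 - K = j + 1 := by omega
      simp only [D3_Qs, h6, and_self, if_true, h7]
      by_cases hjl : j + 1 = l
      · have h8 : K + j + 1 = K + l := by omega
        simp [hjl, h8]
        try rfl
      · have h8 : ¬ (K + j + 1 = K + l) := by omega
        simp [hjl, h8]
        try rfl
    · simp only [hcon, and_self, if_true, hsub]
      have h5 : (tickM δ).out (D3_Qs δ l K n h (K + j))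
          { a with M := some (mlet l j n k h s .z) } (D3_Ps l K n (K + j + 1)) =
          { a with M := D3_o δ l n k h s j } := by
        simp only [tickM]
        rw [hcn, hch, hcy]
        have hps : D3_Ps l K n (K + j + 1) = decide (j + 2 = l ∧ dg n (l - 1) = 1) := by
          unfold D3_Ps
          rw [decide_eq_decide]
          constructor
          · rintro ⟨h6, h7, h8⟩
            exact ⟨by omega, h8⟩
          · rintro ⟨h6, h8⟩
            exact ⟨by omega, by omega, h8⟩
        rw [hps]
        have hcd : ((mlet l j n k h s .z).top && !(mlet l j n k h s .z).bot &&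
            decide ((mlet l j n k h s .z).dn = 1) && decide (D3_C n δ j = .n)) = true ↔
            (j + 1 = l ∧ j ≠ 0 ∧ dg n j = 1 ∧ D3_C n δ j = .n) := by
          simp only [mlet, Bool.and_eq_true, decide_eq_true_eq, Bool.not_eq_true',
            decide_eq_false_iff_not]
          constructor
          · rintro ⟨⟨⟨q1, q2⟩, q3⟩, q4⟩
            exact ⟨q1, q2, by simpa using q3, q4⟩
          · rintro ⟨q1, q2, q3, q4⟩
            exact ⟨⟨⟨q1, q2⟩, by simpa using q3⟩, q4⟩
        by_cases hc : (j + 1 = l ∧ j ≠ 0 ∧ dg n j = 1 ∧ D3_C n δ j = .n)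
        · rw [if_pos (hcd.mpr hc)]
          simp only [D3_o, if_pos hc]
        · rw [if_neg (fun h9 => hc (hcd.mp h9))]
          simp only [D3_o, if_neg hc]
          have e1 : newU (mlet l j n k h s .z).bot (mlet l j n k h s .z).un (D3_C n δ j) =
            (if j = 0 then ug (n + δ.val) else 0) := nu
          have e2 : newD (mlet l j n k h s .z).bot (mlet l j n k h s .z).un
            (mlet l j n k h s .z).dn (D3_C n δ j) = dg (n + δ.val) j := nd
          have e3 : newU (mlet l j n k h s .z).bot (mlet l j n k h s .z).uh (D3_C h δ j) =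
            (if j = 0 then ug (h + δ.val) else 0) := hu
          have e4 : newD (mlet l j n k h s .z).bot (mlet l j n k h s .z).uh
            (mlet l j n k h s .z).dh (D3_C h δ j) = dg (h + δ.val) j := hd'
          rw [e1, e2, e3, e4]
          rfl
      rw [h5, hin j hj]
  · have hrn : ¬ (K ≤ i ∧ i < K + l) := hr
    have hio : i < K ∨ K + l ≤ i := by omega
    have hq' : D3_Qs δ l K n h (i + 1) = ⟨.z, .z, .z, false⟩ := by
      have : ¬ (K < i + 1 ∧ i + 1 ≤ K + l) := by omega
      rw [D3_Qs, if_neg this]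
    have hgrow : (D3_Qs δ l K n h i).grow = decide (i = K + l ∧ D3_C n δ l = .p) := by
      unfold D3_Qs
      by_cases h3 : K < i ∧ i ≤ K + l
      · have h4 : i = K + l := by omega
        rw [if_pos h3]
        simp [h4]
      · have h4 : ¬ (i = K + l) := by omega
        rw [if_neg h3]
        simp [h4]
    refine ⟨?_, ?_, ?_⟩
    · simp only [hrn, if_false]
      have h6 : ¬ (i = K + (l - 1)) := by omega
      have h7 : D3_Ps l K n i = false := by
        simp [D3_Ps, h6]
      rw [h7]
      simp only [tickM]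
      cases a.hd <;> rfl
    · simp only [hrn, if_false]
      rw [hq']
      rfl
    · simp only [hrn, if_false]
      rw [← hout i hil hio]
      simp only [tickM]
      rw [hgrow]
      by_cases h8 : i = K + l ∧ D3_C n δ l = .p
      · have h9 : a.hd ≠ .A := by
          rcases hb with ⟨hb1, _⟩ | ⟨_, hb2⟩
          · omega
          · exact hb2
        simp [h8, h9, D3_new]
      · simp [h8]

theorem D3_dg_th (l : ℕ) : dg (th l) l = 1 := by
  unfold dg
  rw [Int.ediv_self (th_pos l).ne']
  rfl

theorem D3_nonneg (n : ℤ) (j : ℕ) : D3_C n .p j ≠ .n := by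
  intro hc
  cases j with
  | zero => simp [D3_C] at hc
  | succ j =>
    have h := D3_val n .p (j := j + 1) (by omega)
    rw [hc] at h
    have h1 : n / th (j + 1) ≤ (n + Mv.p.val) / th (j + 1) := by
      apply Int.ediv_le_ediv (th_pos _)
      simp [Mv.val]
    have h2 : Mv.n.val = -1 := rfl
    omega

theorem D3_nonpos (n : ℤ) (j : ℕ) : D3_C n .n j ≠ .p := by
  intro hc
  cases j with
  | zero => simp [D3_C] at hc
  | succ j =>
    have h := D3_val n .n (j := j + 1) (by omega)
    rw [hc] at h
    have h1 : (n + Mv.n.val) / th (j + 1) ≤ n / th (j + 1) := by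
      apply Int.ediv_le_ediv (th_pos _)
      simp [Mv.val]
    have h2 : Mv.p.val = 1 := rfl
    omega

theorem D3_Cl_z (n : ℤ) (c : Mv) (l : ℕ) (hl : 1 ≤ l) (h0 : 0 ≤ n) (h1 : n < th l)
    (h2 : 0 ≤ n + c.val) (h3 : n + c.val < th l) : D3_C n c l = .z := by
  apply D3_mv_z
  rw [D3_val n c hl, Int.ediv_eq_zero_of_lt h0 h1, Int.ediv_eq_zero_of_lt h2 h3]
  rfl

theorem D3_th_dvd {j l : ℕ} (h : j ≤ l) : th j ∣ th l := by
  unfold th
  exact mul_dvd_mul_left _ (pow_dvd_pow _ h)

theorem D3_th_sub (j l : ℕ) (h : j ≤ l) : (th l - 1) / th j = th l / th j - 1 := by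
  obtain ⟨c, hc⟩ := D3_th_dvd h
  have hp := th_pos j
  rw [hc, Int.mul_ediv_cancel_left _ hp.ne']
  have : th j * c - 1 = (th j - 1) + th j * (c - 1) := by ring
  rw [this, Int.add_mul_ediv_left _ _ hp.ne', Int.ediv_eq_zero_of_lt (by omega) (by omega)]
  ring

theorem D3_C_grow (l j : ℕ) (h : j ≤ l) : D3_C (th l - 1) .p j = .p := by
  cases j with
  | zero => rfl
  | succ j =>
    apply D3_mv_p
    rw [D3_val _ _ (by omega)]
    have h1 : th l - 1 + Mv.p.val = th l := by
      simp [Mv.val]
    rw [h1, D3_th_sub (j + 1) l h]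
    ring

theorem D3_C_shrink (l j : ℕ) (h : j ≤ l) : D3_C (th l) .n j = .n := by
  cases j with
  | zero => rfl
  | succ j =>
    apply D3_mv_n
    rw [D3_val _ _ (by omega)]
    have h1 : th l + Mv.n.val = th l - 1 := by
      simp [Mv.val]
      rfl
    rw [h1, D3_th_sub (j + 1) l h]
    ring

/-- The standard value of a letter. -/
theorem D3_mlet_eq (l j : ℕ) (n k h : ℤ) (s : ℕ → S3) :
    mlet l j n k h s .z = ⟨if j = 0 then ug n else 0, if j = 0 then ug k else 0,
      if j = 0 then ug h else 0, dg n j, dg k j, dg h j, s j, decide (j + 1 = l),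
      decide (j = 0), .z⟩ := rfl

theorem tickM_p (w : List Ltr) (hw : Blk w) (l K : ℕ) (hl : 1 ≤ l) (hK : K + l ≤ w.length)
    (n k h : ℤ) (s : ℕ → S3) (h0 : 0 ≤ n) (h1 : n + 1 < th l) :
    (tickM .p).eval (putM l K n k h s .z w) = putM l K (n + 1) k (h + 1) s .z w := by
  have hv : Mv.p.val = 1 := rfl
  have hCl : D3_C n .p l = .z :=
    D3_Cl_z n .p l hl h0 (by omega) (by rw [hv]; omega) (by rw [hv]; omega)
  refine D3_main .p w hw l K hl hK n k h s
    (fun i => if K ≤ i ∧ i < K + l then some (mlet l (i - K) (n + 1) k (h + 1) s .z) else none)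
    ?_ ?_
  · intro j hj
    have hr : K ≤ K + j ∧ K + j < K + l := ⟨by omega, by omega⟩
    have hsub : K + j - K = j := by omega
    have hn1 := D3_nonneg n j
    have hn2 := D3_nonneg n (j + 1)
    have hc : ¬ (j + 1 = l ∧ j ≠ 0 ∧ dg n j = 1 ∧ D3_C n .p j = .n) := fun h => hn1 h.2.2.2
    simp only [hr, and_self, if_true, hsub, D3_o, if_neg hc, D3_mlet_eq, hv]
    have ht : ((decide (j + 1 = l) && !decide (D3_C n .p (j + 1) = .p)) ||
        (decide (j + 2 = l ∧ dg n (l - 1) = 1) && decide (D3_C n .p (j + 1) = .n))) =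
        decide (j + 1 = l) := by
      by_cases hjl : j + 1 = l
      · rw [hjl, hCl]
        simp
      · simp [hjl, hn2]
    rw [ht]
  · intro i _ hi
    have hr : ¬ (K ≤ i ∧ i < K + l) := by omega
    simp [hCl, hr]

theorem tickM_p_grow (w : List Ltr) (hw : Blk w) (l K : ℕ) (hl : 1 ≤ l) (hK : K + l < w.length)
    (s : ℕ → S3) (hs : s l = .f) :
    (tickM .p).eval (putM l K (th l - 1) 0 (th l - 1) s .z w) =
      putM (l + 1) K (th l) 0 (th l) s .z w := by
  have hv : th l - 1 + Mv.p.val = th l := by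
    simp [Mv.val]
  refine D3_main .p w hw l K hl (by omega) _ _ _ s
    (fun i => if K ≤ i ∧ i < K + (l + 1) then some (mlet (l + 1) (i - K) (th l) 0 (th l) s .z)
      else none) ?_ ?_
  · intro j hj
    have hr : K ≤ K + j ∧ K + j < K + (l + 1) := ⟨by omega, by omega⟩
    have hsub : K + j - K = j := by omega
    have hn1 := D3_nonneg (th l - 1) j
    have hn2 := D3_C_grow l (j + 1) (by omega)
    have hc : ¬ (j + 1 = l ∧ j ≠ 0 ∧ dg (th l - 1) j = 1 ∧ D3_C (th l - 1) .p j = .n) :=
      fun h => hn1 h.2.2.2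
    simp only [hr, and_self, if_true, hsub, D3_o, if_neg hc, D3_mlet_eq, hv]
    have ht : ((decide (j + 1 = l) && !decide (D3_C (th l - 1) .p (j + 1) = .p)) ||
        (decide (j + 2 = l ∧ dg (th l - 1) (l - 1) = 1) &&
          decide (D3_C (th l - 1) .p (j + 1) = .n))) =
        decide (j + 1 = l + 1) := by
      rw [hn2]
      have : ¬ (j = l) := by omega
      simp [this]
    rw [ht]
  · intro i hiw hi
    have hCl := D3_C_grow l l le_rfl
    by_cases hil : i = K + l
    · have hr : K ≤ i ∧ i < K + (l + 1) := ⟨by omega, by omega⟩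
      have hsub : i - K = l := by omega
      have hl0 : l ≠ 0 := by omega
      have hd0 : dg 0 l = 0 := by simp [dg]
      simp only [hil, hCl, and_self, if_true, D3_new, D3_mlet_eq]
      have h3 : K ≤ K + l ∧ K + l < K + (l + 1) := ⟨by omega, by omega⟩
      have h4 : K + l - K = l := by omega
      simp only [h3, and_self, if_true, h4, hl0, if_false, D3_dg_th, hd0, hs, decide_true,
        decide_false]
    · have hr : ¬ (K ≤ i ∧ i < K + (l + 1)) := by omega
      simp only [hil, false_and, if_false, hr]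

theorem tickM_n (w : List Ltr) (hw : Blk w) (l K : ℕ) (hl : 1 ≤ l) (hK : K + l ≤ w.length)
    (n k h : ℤ) (s : ℕ → S3) (h0 : 1 ≤ n) (h1 : n < th l) (h2 : l = 1 ∨ n ≠ th (l - 1)) :
    (tickM .n).eval (putM l K n k h s .z w) = putM l K (n - 1) k (h - 1) s .z w := by
  have hv : ∀ x : ℤ, x + Mv.n.val = x - 1 := fun x => rfl
  have hCl : D3_C n .n l = .z :=
    D3_Cl_z n .n l hl (by omega) h1 (by rw [hv]; omega) (by rw [hv]; omega)
  have hkey : ¬ (l ≠ 1 ∧ dg n (l - 1) = 1 ∧ D3_C n .n (l - 1) = .n) := by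
    rintro ⟨q1, q2, q3⟩
    have hn : n ≠ th (l - 1) := by
      rcases h2 with h2 | h2
      · exact absurd h2 q1
      · exact h2
    have q4 := D3_val n .n (j := l - 1) (by omega)
    rw [q3, hv] at q4
    have q5 : Mv.n.val = -1 := rfl
    rw [q5] at q4
    have hp := th_pos (l - 1)
    have hth : th l = 4 * th (l - 1) := by
      have := th_succ (l - 1)
      rwa [Nat.sub_add_cancel hl] at this
    -- the quotient of `n` by `th (l - 1)`
    have hdm := Int.emod_add_mul_ediv n (th (l - 1))
    have hr0 := Int.emod_nonneg n hp.ne'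
    have hr1 := Int.emod_lt_of_pos n hp
    have hrem : n % th (l - 1) = 0 := by
      by_contra hne
      have h7 : (n - 1) / th (l - 1) = n / th (l - 1) := by
        have h8 : n - 1 = (n % th (l - 1) - 1) + th (l - 1) * (n / th (l - 1)) := by
          linarith
        conv_lhs => rw [h8]
        rw [Int.add_mul_ediv_left _ _ hp.ne', Int.ediv_eq_zero_of_lt (by omega) (by omega)]
        ring
      omega
    have hq4 : n / th (l - 1) < 4 := by
      apply Int.ediv_lt_of_lt_mul hp
      linarith
    have hq0 : 0 ≤ n / th (l - 1) := Int.ediv_nonneg (by omega) hp.le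
    unfold dg at q2
    have hq1 : n / th (l - 1) = 1 := by
      generalize n / th (l - 1) = x at q2 hq4 hq0
      interval_cases x
      · exact absurd q2 (by decide)
      · rfl
      · exact absurd q2 (by decide)
      · exact absurd q2 (by decide)
    rw [hrem, hq1] at hdm
    apply hn
    linarith
  refine D3_main .n w hw l K hl hK n k h s
    (fun i => if K ≤ i ∧ i < K + l then some (mlet l (i - K) (n - 1) k (h - 1) s .z) else none)
    ?_ ?_
  · intro j hj
    have hr : K ≤ K + j ∧ K + j < K + l := ⟨by omega, by omega⟩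
    have hsub : K + j - K = j := by omega
    have hc : ¬ (j + 1 = l ∧ j ≠ 0 ∧ dg n j = 1 ∧ D3_C n .n j = .n) := by
      rintro ⟨q1, q2, q3, q4⟩
      have : j = l - 1 := by omega
      subst this
      exact hkey ⟨by omega, q3, q4⟩
    simp only [hr, and_self, if_true, hsub, D3_o, if_neg hc, D3_mlet_eq, hv]
    have hn2 := D3_nonpos n (j + 1)
    have ht : ((decide (j + 1 = l) && !decide (D3_C n .n (j + 1) = .p)) ||
        (decide (j + 2 = l ∧ dg n (l - 1) = 1) && decide (D3_C n .n (j + 1) = .n))) =
        decide (j + 1 = l) := by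
      by_cases hjl : j + 1 = l
      · simp [hjl, hCl]
      · by_cases hj2 : j + 2 = l ∧ dg n (l - 1) = 1 ∧ D3_C n .n (j + 1) = .n
        · exfalso
          obtain ⟨q1, q2, q3⟩ := hj2
          have : l - 1 = j + 1 := by omega
          apply hkey
          rw [this] at q2 ⊢
          exact ⟨by omega, q2, q3⟩
        · simp only [hjl, decide_false, Bool.false_and, Bool.false_or]
          rw [← Bool.decide_and]
          rw [decide_eq_false_iff_not]
          tauto
    rw [ht]
  · intro i _ hi
    have hr : ¬ (K ≤ i ∧ i < K + l) := by omega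
    simp [hCl, hr]

theorem tickM_n_shrink (w : List Ltr) (hw : Blk w) (l K : ℕ) (hl : 1 ≤ l)
    (hK : K + l < w.length) (s : ℕ → S3) :
    (tickM .n).eval (putM (l + 1) K (th l) 0 (th l) s .z w) =
      putM l K (th l - 1) 0 (th l - 1) s .z w := by
  have hv : th l + Mv.n.val = th l - 1 := rfl
  have hp := th_pos l
  have hlt : th l < th (l + 1) := by
    rw [th_succ]
    linarith
  have hCl : D3_C (th l) .n (l + 1) = .z :=
    D3_Cl_z (th l) .n (l + 1) (by omega) (by omega) hlt (by rw [hv]; omega) (by rw [hv]; omega)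
  refine D3_main .n w hw (l + 1) K (by omega) (by omega) _ _ _ s
    (fun i => if K ≤ i ∧ i < K + l then some (mlet l (i - K) (th l - 1) 0 (th l - 1) s .z)
      else none) ?_ ?_
  · intro j hj
    have hsub : K + j - K = j := by omega
    by_cases hjl : j = l
    · have hr : ¬ (K ≤ K + j ∧ K + j < K + l) := by omega
      have hc : (j + 1 = l + 1 ∧ j ≠ 0 ∧ dg (th l) j = 1 ∧ D3_C (th l) .n j = .n) := by
        subst hjl
        exact ⟨rfl, by omega, D3_dg_th j, D3_C_shrink j j le_rfl⟩
      simp only [hr, if_false, D3_o, if_pos hc]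
    · have hr : K ≤ K + j ∧ K + j < K + l := ⟨by omega, by omega⟩
      have hc : ¬ (j + 1 = l + 1 ∧ j ≠ 0 ∧ dg (th l) j = 1 ∧ D3_C (th l) .n j = .n) := by
        rintro ⟨q1, _⟩
        omega
      simp only [hr, and_self, if_true, hsub, D3_o, if_neg hc, D3_mlet_eq, hv]
      have hn2 := D3_C_shrink l (j + 1) (by omega)
      have ht : ((decide (j + 1 = l + 1) && !decide (D3_C (th l) .n (j + 1) = .p)) ||
          (decide (j + 2 = l + 1 ∧ dg (th l) (l + 1 - 1) = 1) &&
            decide (D3_C (th l) .n (j + 1) = .n))) =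
          decide (j + 1 = l) := by
        rw [hn2]
        have h5 : l + 1 - 1 = l := by omega
        rw [h5]
        have h6 : (j + 2 = l + 1 ∧ dg (th l) l = 1) ↔ j + 1 = l := by
          constructor
          · rintro ⟨q1, _⟩
            omega
          · intro q1
            exact ⟨by omega, D3_dg_th l⟩
        simp [hjl, D3_dg_th]
      rw [ht]
  · intro i _ hi
    have hr : ¬ (K ≤ i ∧ i < K + l) := by omega
    simp [hCl, hr]

end TF
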