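import Mathlib
import Pool.Agent.LibTF.D2
import Pool.Agent.LibTF.D3
import Pool.Agent.LibTF.D4
import Pool.Agent.LibTF.D5
import Pool.Agent.LibTF.D8

/-! TASK D9: one tick of one cell. -/

namespace TF

theorem D9_roomFl (m : List (List Pos)) (X J : Bool) (l v : ℕ) (g : ℤ) (K : ℕ) :
    roomFl l K (bw X J l v g m) =
      (if K + l < m.flatten.length then { fl0 with room := true } else fl0) := by
  simp only [roomFl, bw_length]

theorem D9_stepAt (m : List (List Pos)) (X J : Bool) (l v : ℕ) (g : ℤ) (K : ℕ) :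
    stepAt (bw X J l v g m) K = (m.flatten[K]?.map (fun p => p.b.step)).getD 0 := by
  have h := congrArg (Option.map (fun t : Bs × Bool × Bool => t.1.step))
    (bw_get X J l v g m K)
  simp only [Option.map_map] at h
  unfold stepAt
  exact congrArg (fun o => o.getD 0) h

theorem D9_LAt (m : List (List Pos)) (X J : Bool) (l v : ℕ) (g : ℤ) (K : ℕ) :
    LAt (bw X J l v g m) K = (m.flatten[K]?.map Pos.L).getD false := by
  have h := congrArg (Option.map (fun t : Bs × Bool × Bool => t.2.2))
    (bw_get X J l v g m K)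
  simp only [Option.map_map] at h
  unfold LAt
  exact congrArg (fun o => o.getD false) h

theorem D9_FAt (m : List (List Pos)) (X J : Bool) (l v : ℕ) (g : ℤ) (K : ℕ) :
    FAt (bw X J l v g m) K = (m.flatten[K]?.map Pos.F).getD false := by
  have h := congrArg (Option.map (fun t : Bs × Bool × Bool => t.2.1))
    (bw_get X J l v g m K)
  simp only [Option.map_map] at h
  unfold FAt
  exact congrArg (fun o => o.getD false) h

theorem D9_dsp_succ (u : List Pos) (K : ℕ) :
    dsp (u.take (K + 1)) = dsp (u.take K) + (u[K]?.map (fun p => p.b.step)).getD 0 := by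
  rw [List.take_add_one, dsp_append]
  congr 1
  cases u[K]? <;> simp [dsp]

/-- The first two passes on a cell. -/
theorem D9_us (dec : Bool → Fl → Mv) (m : List (List Pos)) (X J : Bool) (g : ℤ) (l K v K' : ℕ)
    (u : List Pos) (us : List (List Pos)) (hm : m = u :: us) (hu : u ≠ [])
    (hl : 1 ≤ l) (hKl : K + l ≤ m.flatten.length)
    (c : Mv) (hc : c = dec X (rawFl m g l K))
    (hz : c = .z → K' = K)
    (hp : c = .p → K' = K + 1 ∧ K + l < m.flatten.length ∧
      stkF .p ((m.flatten[K + 1]?.map Pos.L).getD false) (stkAt m.flatten K) =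
        stkAt m.flatten (K + 1))
    (hn : c = .n → K = K' + 1 ∧
      stkF .n ((m.flatten[K]?.map Pos.F).getD false) (stkAt m.flatten K) =
        stkAt m.flatten K') :
    shiftM.eval ((updM dec).eval (raw m X J g l K v)) = raw m X J g l K' v := by
  obtain ⟨hblk, hx⟩ := bw_blk X J l v g m u us hm hu
  have hlen : (bw X J l v g m).length = m.flatten.length := bw_length X J l v g m
  have hKw : K + l ≤ (bw X J l v g m).length := by rw [hlen]; exact hKl
  have hc' : c = dec (hX1 (bw X J l v g m))
      ((pkgL l g K (g + dsp (m.flatten.take K)) (stkAt m.flatten K)).foldr Fl.upd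
        (roomFl l K (bw X J l v g m))) := by
    rw [hx, D9_roomFl]; exact hc
  unfold raw
  rw [updM_putM dec _ hblk l K hl hKw g K _ _ c hc' (by
    intro h; obtain ⟨h1, _⟩ := hn h; omega)]
  cases c with
  | z =>
    have h1 : K' = K := hz rfl
    subst h1
    rw [shiftM_z _ hblk l _ hl hKw]
    have h2 : stkF .z (btOf .z K' (bw X J l v g m)) (stkAt m.flatten K') =
        stkAt m.flatten K' := by
      funext j; simp [stkF]
    rw [h2]
    simp [Mv.val, chOf]
  | p =>
    obtain ⟨h1, h2, h3⟩ := hp rfl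
    subst h1
    rw [shiftM_p _ hblk l K hl (by rw [hlen]; exact h2)]
    simp only [btOf, D9_LAt, chOf, D9_stepAt]
    rw [h3, D9_dsp_succ]
    simp only [Mv.val]
    congr 1
    ring
  | n =>
    obtain ⟨h1, h2⟩ := hn rfl
    subst h1
    rw [shiftM_n _ hblk l _ hl (by omega) hKw]
    simp only [btOf, D9_FAt, chOf, D9_stepAt]
    rw [h2, D9_dsp_succ]
    simp only [Mv.val, Nat.add_sub_cancel]
    congr 1
    · push_cast; ring
    · ring

theorem D9_decF_z {x : Bool} {p : Fl} (h : x = true ∨ p.tn ≠ 2) : decF x p = .z := by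
  rcases h with h | h
  · simp [decF, h]
  · simp [decF, h]

theorem D9_decB_z {x : Bool} {p : Fl} (h : x = true ∨ p.tn ≠ 2) : decB x p = .z := by
  rcases h with h | h
  · simp [decB, h]
  · simp [decB, h]

theorem D9_emDec_f {x : Bool} {p : Fl} (h : x = true ∨ p.tn ≠ 2) : emDec x p = false := by
  rcases h with h | h
  · simp [emDec, h]
  · simp [emDec, h]

theorem D9_rawFl_tn (m : List (List Pos)) (g : ℤ) (l K : ℕ) (hl : 1 ≤ l) :
    (rawFl m g l K).tn = dg g (l - 1) := (pkg_flags l hl _ _ _ _ _).1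

theorem D9_rawFl_room (m : List (List Pos)) (g : ℤ) (l K : ℕ) (hl : 1 ≤ l) :
    (rawFl m g l K).room = decide (K + l < m.flatten.length) := by
  unfold rawFl
  rw [(pkg_flags l hl _ _ _ _ _).2.1]
  split_ifs with h
  · exact (decide_eq_true h).symm
  · exact (decide_eq_false h).symm

theorem D9_rawFl_kz (m : List (List Pos)) (g : ℤ) (l K : ℕ) (hl : 1 ≤ l) :
    (rawFl m g l K).kz = true ↔ (K : ℤ) % th l = 0 := (pkg_flags l hl _ _ _ _ _).2.2.1

theorem D9_rawFl_eq (m : List (List Pos)) (g : ℤ) (l K : ℕ) (hl : 1 ≤ l) :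
    (rawFl m g l K).eq = true ↔ (g - K) % th (l - 1) = 0 ∧ dg K (l - 1) = 0 :=
  (pkg_flags l hl _ _ _ _ _).2.2.2.2.1

theorem D9_rawFl_co (m : List (List Pos)) (g : ℤ) (l K : ℕ) (hl : 1 ≤ l) :
    (rawFl m g l K).co = true ↔ (g + K + 1) % th (l - 1) = 0 ∧ dg K (l - 1) = 0 :=
  (pkg_flags l hl _ _ _ _ _).2.2.2.2.2.1

theorem D9_rawFl_tr (m : List (List Pos)) (g : ℤ) (l K : ℕ) (hl : 1 ≤ l) :
    (rawFl m g l K).tr = true ↔ stkAt m.flatten K (l - 1) ≠ .f ∧
      ∀ j < l - 1, stkAt m.flatten K j = .f :=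
  (pkg_flags l hl _ _ _ _ _).2.2.2.2.2.2

/-- Hidden cells may be considered as having one member. -/
theorem D9_hid (m : List (List Pos)) (X J : Bool) (g : ℤ) (l K v v' : ℕ)
    (hv : m.flatten.length ≤ v) (hm : ∀ u ∈ m, u ≠ []) :
    raw m X J g l K v = raw [m.flatten] X J g l K v' := by
  unfold raw
  rw [bw_hidden X J l v g m hv hm]
  simp [bw, bwT]

theorem D9_bw1 (u : List Pos) (X J : Bool) (l l' v v' : ℕ) (g g' : ℤ) :
    bw X J l v g [u] = bw X J l' v' g' [u] := by
  simp [bw, bwT]

theorem D9_off1 (u : List Pos) (o : ℕ) : ¬ IsOff [u] o := by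
  rintro ⟨i, h1, h2, -⟩
  simp at h2
  omega

/-- Hidden cell, no move. -/
theorem D9_fz0 (u : List Pos) (hu : u ≠ []) (X J : Bool) (g : ℤ) (l : ℕ) (hl : 1 ≤ l)
    (hlu : l ≤ u.length) (hx : X = true ∨ dg g (l - 1) ≠ 2) (v v' : ℕ) :
    absorb.eval (shiftM.eval ((updM decF).eval (raw [u] X J g l 0 v))) =
      raw [u] X J g l 0 v' := by
  have hf : [u].flatten = u := by simp
  rw [D9_us decF [u] X J g l 0 v 0 u [] rfl hu hl (by simpa using hlu) .z
    ((D9_decF_z (by rw [D9_rawFl_tn _ _ _ _ hl]; exact hx)).symm) (fun _ => rfl)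
    (by intro h; cases h) (by intro h; cases h)]
  rw [absorb_raw [u] X J g l 0 v hl (by
      intro w hw; simp at hw; subst hw; exact List.length_pos_iff.mpr hu)
    (by simp) (by simpa using hlu) (by omega) (fun h => (D9_off1 u _ h).elim)]
  unfold raw
  rw [D9_bw1 u X J l l (v + 1) v' g g]

theorem D9_bz0 (u : List Pos) (hu : u ≠ []) (X J : Bool) (g : ℤ) (l : ℕ) (hl : 1 ≤ l)
    (hlu : l ≤ u.length) (hx : X = true ∨ dg g (l - 1) ≠ 2) (v v' : ℕ) :
    shiftM.eval ((updM decB).eval (emit.eval (raw [u] X J g l 0 v))) =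
      raw [u] X J g l 0 v' := by
  have hf : [u].flatten = u := by simp
  have hfl : X = true ∨ (rawFl [u] g l 0).tn ≠ 2 := by rw [D9_rawFl_tn _ _ _ _ hl]; exact hx
  have e1 : raw [u] X J g l 0 v = raw [u] X J g l 0 (v + 1) := by
    unfold raw
    rw [D9_bw1 u X J l l (v + 1) v g g]
  rw [e1, emit_raw [u] X J g l 0 v hl (by
      intro w hw; simp at hw; subst hw; exact List.length_pos_iff.mpr hu)
    (by simp) (by simpa using hlu) (by
      rw [D9_emDec_f hfl]
      simp only [Bool.false_eq_true, false_iff]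
      exact D9_off1 u _) (fun h => (D9_off1 u _ h).elim)]
  rw [D9_us decB [u] X J g l 0 v 0 u [] rfl hu hl (by simpa using hlu) .z
    ((D9_decB_z hfl).symm) (fun _ => rfl)
    (by intro h; cases h) (by intro h; cases h)]
  unfold raw
  rw [D9_bw1 u X J l l v v' g g]

/-- The last two passes, forward, without growth. -/
theorem D9_tp (m : List (List Pos)) (X J : Bool) (g : ℤ) (l K v : ℕ)
    (u : List Pos) (us : List (List Pos)) (hm : m = u :: us) (hu : u ≠ [])
    (hl : 1 ≤ l) (hKl : K + l ≤ m.flatten.length) (h0 : 0 ≤ g) (h1 : g + 1 < th l) :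
    (tickS .p).eval ((tickM .p).eval (raw m X J g l K v)) = raw m X J (g + 1) l K v := by
  obtain ⟨hblk, hx⟩ := bw_blk X J l v g m u us hm hu
  unfold raw
  rw [tickM_p _ hblk l K hl (by rw [bw_length]; exact hKl) g _ _ _ h0 h1, tickS_putM, tickS_bw]
  simp only [Mv.val]
  congr 1
  ring

/-- The last two passes, backward, without shrinking. -/
theorem D9_tn (m : List (List Pos)) (X J : Bool) (g : ℤ) (l K v : ℕ)
    (u : List Pos) (us : List (List Pos)) (hm : m = u :: us) (hu : u ≠ [])
    (hl : 1 ≤ l) (hKl : K + l ≤ m.flatten.length) (h0 : 0 ≤ g) (h1 : g + 1 < th l)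
    (h2 : l = 1 ∨ g + 1 ≠ th (l - 1)) :
    (tickS .n).eval ((tickM .n).eval (raw m X J (g + 1) l K v)) = raw m X J g l K v := by
  obtain ⟨hblk, hx⟩ := bw_blk X J l v (g + 1) m u us hm hu
  unfold raw
  rw [tickM_n _ hblk l K hl (by rw [bw_length]; exact hKl) (g + 1) _ _ _ (by omega) h1 h2,
    tickS_putM, tickS_bw]
  simp only [Mv.val]
  congr 1
  · ring
  · ring
  · congr 1; ring

/-- Growth of the package at the crossing. -/
theorem D9_tpg (u : List Pos) (hu : u ≠ []) (X J : Bool) (l v : ℕ) (hl : 1 ≤ l)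
    (hlu : l < u.length) (hs : stkAt u 0 l = .f) :
    (tickS .p).eval ((tickM .p).eval (raw [u] X J (th l - 1) l 0 v)) =
      raw [u] X J (th l) (l + 1) 0 v := by
  obtain ⟨hblk, hx⟩ := bw_blk X J l v (th l - 1) [u] u [] rfl hu
  have hf : [u].flatten = u := by simp
  have e0 : dsp (u.take 0) = 0 := by simp [dsp]
  unfold raw
  rw [hf, e0, add_zero, add_zero]
  have := tickM_p_grow _ hblk l 0 hl (by rw [bw_length, hf]; omega) (stkAt u 0) hs
  simp only [Nat.cast_zero]
  rw [this, tickS_putM, tickS_bw, D9_bw1 u X J l (l + 1) v v _ (th l)]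

theorem D9_tns (u : List Pos) (hu : u ≠ []) (X J : Bool) (l v : ℕ) (hl : 1 ≤ l)
    (hlu : l < u.length) :
    (tickS .n).eval ((tickM .n).eval (raw [u] X J (th l) (l + 1) 0 v)) =
      raw [u] X J (th l - 1) l 0 v := by
  obtain ⟨hblk, hx⟩ := bw_blk X J (l + 1) v (th l) [u] u [] rfl hu
  have hf : [u].flatten = u := by simp
  have e0 : dsp (u.take 0) = 0 := by simp [dsp]
  unfold raw
  rw [hf, e0, add_zero, add_zero]
  have := tickM_n_shrink _ hblk l 0 hl (by rw [bw_length, hf]; omega) (stkAt u 0)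
  simp only [Nat.cast_zero]
  rw [this, tickS_putM, tickS_bw, D9_bw1 u X J (l + 1) l v v _ (th l - 1)]

theorem D9_ne {r : ℕ} {m : List (List Pos)} (h : MemOk r m) :
    (∃ u us, m = u :: us ∧ u ≠ []) ∧ ∀ w ∈ m, w ≠ [] := by
  cases r with
  | zero =>
    cases h with
    | leaf b => simp
  | succ r =>
    have h1 := h.mlen
    have h2 := h.card
    have h3 : ∀ w ∈ m, w ≠ [] := by
      intro w hw he
      have := (h1 w hw).1
      rw [he] at this
      have h4 : 0 < 2 ^ r := by positivity
      simp at this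
    refine ⟨?_, h3⟩
    cases m with
    | nil => simp at h2
    | cons u us => exact ⟨u, us, rfl, h3 u (by simp)⟩

/-- A member boundary leaves room for the package. -/
theorem D9_off_room (m : List (List Pos)) (l o : ℕ) (hm : ∀ u ∈ m, l ≤ u.length)
    (h : IsOff m o) : o + l ≤ m.flatten.length := by
  obtain ⟨i, h1, h2, h3⟩ := h
  have e : m.flatten.length = (m.take i).flatten.length + (m.drop i).flatten.length := by
    conv_lhs => rw [← List.take_append_drop i m]
    rw [List.flatten_append, List.length_append]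
  have h4 : m.drop i = m[i] :: m.drop (i + 1) := by
    exact List.drop_eq_getElem_cons h2
  have h5 := hm m[i] (List.getElem_mem h2)
  rw [e, h4, h3, List.flatten_cons, List.length_append]
  omega

theorem D9_dg2 {s : ℕ} {g : ℤ} (h1 : 2 * th s ≤ g) (h2 : g < 3 * th s) : dg g s = 2 := by
  have hT := th_pos s
  have : g / th s = 2 := by
    apply le_antisymm
    · have : g / th s < 3 := Int.ediv_lt_of_lt_mul hT (by linarith)
      omega
    · exact Int.le_ediv_of_mul_le hT (by linarith)
  unfold dg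
  rw [this]
  rfl

theorem D9_dg3 {s : ℕ} {g : ℤ} (h1 : 3 * th s ≤ g) (h2 : g < 4 * th s) : dg g s = 3 := by
  have hT := th_pos s
  have : g / th s = 3 := by
    apply le_antisymm
    · have : g / th s < 4 := Int.ediv_lt_of_lt_mul hT (by linarith)
      omega
    · exact Int.le_ediv_of_mul_le hT (by linarith)
  unfold dg
  rw [this]
  rfl

theorem D9_dg1 {s : ℕ} {g : ℤ} (h1 : th s ≤ g) (h2 : g < 2 * th s) : dg g s = 1 := by
  have hT := th_pos s
  have : g / th s = 1 := by
    apply le_antisymm
    · have : g / th s < 2 := Int.ediv_lt_of_lt_mul hT (by linarith)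
      omega
    · exact Int.le_ediv_of_mul_le hT (by linarith)
  unfold dg
  rw [this]
  rfl

/-- The flags of the package in its window. -/
theorem D9_flags (m : List (List Pos)) (s τ K : ℕ) (h1 : (τ : ℤ) < th s) (h2 : K ≤ τ)
    (h3 : (K : ℤ) + τ + 1 ≤ th s) :
    (rawFl m (2 * th s + τ) (s + 1) K).tn = 2 ∧
    (rawFl m (2 * th s + τ) (s + 1) K).eq = decide (K = τ) ∧
    (rawFl m (2 * th s + τ) (s + 1) K).co = decide ((K : ℤ) + τ + 1 = th s) ∧
    (rawFl m (2 * th s + τ) (s + 1) K).kz = decide (K = 0) ∧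
    (rawFl m (2 * th s + τ) (s + 1) K).room = decide (K + (s + 1) < m.flatten.length) := by
  have hT := th_pos s
  have hT' := th_succ s
  have hd : dg (K : ℤ) s = 0 := dg_zero_of_lt (by omega) (by omega)
  refine ⟨?_, ?_, ?_, ?_, ?_⟩
  · rw [D9_rawFl_tn _ _ _ _ (by omega)]
    simp only [Nat.add_sub_cancel]
    exact D9_dg2 (by omega) (by omega)
  · rw [Bool.eq_iff_iff, D9_rawFl_eq _ _ _ _ (by omega), decide_eq_true_iff]
    simp only [Nat.add_sub_cancel]
    rw [show (2 * th s + (τ : ℤ) - K) = ((τ : ℤ) - K) + th s * 2 by ring,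
      Int.add_mul_emod_self_left, Int.emod_eq_of_lt (by omega) (by omega)]
    constructor
    · rintro ⟨h, -⟩; omega
    · intro h; exact ⟨by omega, hd⟩
  · rw [Bool.eq_iff_iff, D9_rawFl_co _ _ _ _ (by omega), decide_eq_true_iff]
    simp only [Nat.add_sub_cancel]
    rw [show (2 * th s + (τ : ℤ) + K + 1) = ((K : ℤ) + τ + 1) + th s * 2 by ring,
      Int.add_mul_emod_self_left]
    constructor
    · rintro ⟨h, -⟩
      by_contra hne
      rw [Int.emod_eq_of_lt (by omega) (by omega)] at h
      omega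
    · intro h
      rw [h]
      exact ⟨Int.emod_self, hd⟩
  · rw [Bool.eq_iff_iff, D9_rawFl_kz _ _ _ _ (by omega), decide_eq_true_iff,
      Int.emod_eq_of_lt (by omega) (by rw [hT']; omega)]
    omega
  · rw [D9_rawFl_room _ _ _ _ (by omega)]

theorem D9_pow (s : ℕ) : th s = 16 * ((4 ^ s : ℕ) : ℤ) := by
  unfold th; push_cast; ring

theorem D9_two (s : ℕ) : s + 1 ≤ 2 ^ s := by
  have := Nat.lt_two_pow_self (n := s)
  omega

theorem D9_KK (s len τ : ℕ) :
    KK (s + 1) len (2 * th s + τ) =
      (min (τ : ℤ) (min (th s - 1 - τ) ((len : ℤ) - (s + 1)))).toNat := by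
  simp only [KK]
  congr 1
  congr 1
  · ring
  · congr 1; ring

theorem D9_VV (s τ : ℕ) : VV (s + 1) (2 * th s + τ) = τ := by
  simp only [VV]
  rw [show (2 * th s + (τ : ℤ) - 2 * th s) = τ by ring]
  simp

theorem D9_len4 {s : ℕ} {m : List (List Pos)} (hM : MemOk (s + 1) m) :
    4 * (m.flatten.length : ℤ) ≤ th s := by
  have hTp := D9_pow s
  have hlen := hM.len
  have h1 : (m.flatten.length : ℤ) ≤ 4 * ((4 ^ s : ℕ) : ℤ) := by
    have := hlen.2
    rw [pow_succ] at this
    exact_mod_cast (by omega : m.flatten.length ≤ 4 * 4 ^ s)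
  omega

theorem D9_len2 {s : ℕ} {m : List (List Pos)} (hM : MemOk (s + 1) m) :
    s + 2 ≤ m.flatten.length := by
  have h1 := D9_two (s + 1)
  have := hM.len.1
  omega

theorem D9_mem1 {s : ℕ} {m : List (List Pos)} (hM : MemOk (s + 1) m) :
    ∀ w ∈ m, s + 1 ≤ w.length := by
  intro w hw
  have h1 := D9_two s
  have := (hM.mlen w hw).1
  omega

/-- The hidden cells of positive scale. -/
theorem D9_enc_hid (m : List (List Pos)) (s : ℕ) (N : ℤ) (x J : Bool) (v : ℕ)
    (hM : MemOk (s + 1) m) (hN : 3 * th s - 1 ≤ N) :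
    encC J ⟨s + 1, m, N, x⟩ = raw [m.flatten] x J N (ell (s + 1) N) 0 v := by
  have h4 := D9_len4 hM
  have h2 := D9_len2 hM
  have hT := th_pos s
  have hK : KK (s + 1) m.flatten.length N = 0 := by
    simp only [KK]
    omega
  simp only [encC, AC.len, AC.pos, hK]
  refine D9_hid m x J N _ 0 _ v ?_ (D9_ne hM).2
  simp only [VV]
  omega

theorem D9_ell1 {s : ℕ} {N : ℤ} (h : N < th (s + 1)) : ell (s + 1) N = s + 1 := by
  unfold ell; rw [if_pos h]; omega

theorem D9_ell2 {s : ℕ} {N : ℤ} (h : th (s + 1) ≤ N) : ell (s + 1) N = s + 2 := by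
  unfold ell; rw [if_neg (by omega)]

/-- Forward tick of a hidden cell. -/
theorem D9_fwd_hid (m : List (List Pos)) (s : ℕ) (N : ℤ) (x J : Bool)
    (hM : MemOk (s + 1) m) (hN : 3 * th s ≤ N) (hx0 : x = false → N < th (s + 1))
    (hx1 : x = true → th (s + 1) ≤ N ∧ N < 3 * th (s + 1)) :
    (tickS .p).eval ((tickM .p).eval (absorb.eval (shiftM.eval ((updM decF).eval
      (encC J ⟨s + 1, m, N, x⟩))))) = encC J ⟨s + 1, m, N + 1, x⟩ := by
  have h4 := D9_len4 hM
  have h2 := D9_len2 hM
  have hT := th_pos s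
  have hT' := th_succ s
  have hT'' : th (s + 2) = 4 * th (s + 1) := th_succ (s + 1)
  have hfl : m.flatten ≠ [] := by
    intro h; rw [h] at h2; simp at h2
  have hff : [m.flatten].flatten.length = m.flatten.length := by simp
  rw [D9_enc_hid m s N x J 0 hM (by omega), D9_enc_hid m s (N + 1) x J 0 hM (by omega)]
  cases x with
  | true =>
    obtain ⟨h5, h6⟩ := hx1 rfl
    rw [D9_ell2 h5, D9_ell2 (by omega : th (s + 1) ≤ N + 1)]
    rw [D9_fz0 m.flatten hfl true J N (s + 2) (by omega) h2 (Or.inl rfl) 0 0]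
    exact D9_tp [m.flatten] true J N (s + 2) 0 0 m.flatten [] rfl hfl (by omega)
      (by rw [hff]; omega) (by omega) (by omega)
  | false =>
    have h5 := hx0 rfl
    rw [D9_ell1 h5]
    have hd : dg N (s + 1 - 1) ≠ 2 := by
      simp only [Nat.add_sub_cancel]
      rw [D9_dg3 hN (by omega)]; decide
    rw [D9_fz0 m.flatten hfl false J N (s + 1) (by omega) (by omega) (Or.inr hd) 0 0]
    by_cases h6 : N + 1 < th (s + 1)
    · rw [D9_ell1 h6]
      exact D9_tp [m.flatten] false J N (s + 1) 0 0 m.flatten [] rfl hfl (by omega)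
        (by rw [hff]; omega) (by omega) h6
    · have h7 : N + 1 = th (s + 1) := by omega
      rw [D9_ell2 (by omega : th (s + 1) ≤ N + 1), h7,
        show N = th (s + 1) - 1 by omega]
      exact D9_tpg m.flatten hfl false J (s + 1) 0 (by omega) (by omega)
        (hM.stk_zero (s + 1))

/-- Backward tick of a hidden cell. -/
theorem D9_bwd_hid (m : List (List Pos)) (s : ℕ) (N : ℤ) (x J : Bool)
    (hM : MemOk (s + 1) m) (hN : 3 * th s - 1 ≤ N) (hx0 : x = false → N < th (s + 1))
    (hx1 : x = true → th (s + 1) ≤ N ∧ N < 3 * th (s + 1)) :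
    (tickS .n).eval ((tickM .n).eval (shiftM.eval ((updM decB).eval (emit.eval
      (encC J ⟨s + 1, m, N + 1, x⟩))))) = encC J ⟨s + 1, m, N, x⟩ := by
  have h4 := D9_len4 hM
  have h2 := D9_len2 hM
  have hT := th_pos s
  have hT' := th_succ s
  have hT'' : th (s + 2) = 4 * th (s + 1) := th_succ (s + 1)
  have hfl : m.flatten ≠ [] := by
    intro h; rw [h] at h2; simp at h2
  have hff : [m.flatten].flatten.length = m.flatten.length := by simp
  rw [D9_enc_hid m s N x J 0 hM (by omega), D9_enc_hid m s (N + 1) x J 0 hM (by omega)]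
  cases x with
  | true =>
    obtain ⟨h5, h6⟩ := hx1 rfl
    rw [D9_ell2 h5, D9_ell2 (by omega : th (s + 1) ≤ N + 1)]
    rw [D9_bz0 m.flatten hfl true J (N + 1) (s + 2) (by omega) h2 (Or.inl rfl) 0 0]
    exact D9_tn [m.flatten] true J N (s + 2) 0 0 m.flatten [] rfl hfl (by omega)
      (by rw [hff]; omega) (by omega) (by omega) (Or.inr (by
        simp only [Nat.add_succ_sub_one]; omega))
  | false =>
    have h5 := hx0 rfl
    rw [D9_ell1 h5]
    by_cases h6 : N + 1 < th (s + 1)
    · rw [D9_ell1 h6]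
      have hd : dg (N + 1) (s + 1 - 1) ≠ 2 := by
        simp only [Nat.add_sub_cancel]
        rw [D9_dg3 (by omega) (by omega)]; decide
      rw [D9_bz0 m.flatten hfl false J (N + 1) (s + 1) (by omega) (by omega) (Or.inr hd) 0 0]
      exact D9_tn [m.flatten] false J N (s + 1) 0 0 m.flatten [] rfl hfl (by omega)
        (by rw [hff]; omega) (by omega) h6 (Or.inr (by
          simp only [Nat.add_sub_cancel]; omega))
    · have h7 : N + 1 = th (s + 1) := by omega
      have hd : dg (N + 1) (s + 2 - 1) ≠ 2 := by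
        simp only [Nat.add_succ_sub_one]
        rw [D9_dg1 (by omega) (by omega)]; decide
      rw [D9_ell2 (by omega : th (s + 1) ≤ N + 1)]
      rw [D9_bz0 m.flatten hfl false J (N + 1) (s + 2) (by omega) h2 (Or.inr hd) 0 0]
      rw [h7, show N = th (s + 1) - 1 by omega]
      exact D9_tns m.flatten hfl false J (s + 1) 0 (by omega) (by omega)

theorem D9_decF_win (p : Fl) (P Q R S : Prop) [Decidable P] [Decidable Q] [Decidable R]
    [Decidable S] (f1 : p.tn = 2) (f2 : p.eq = decide P) (f3 : p.co = decide Q)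
    (f4 : p.kz = decide R) (f5 : p.room = decide S) :
    decF false p = if P ∧ S then .p else if Q ∧ ¬R then .n else .z := by
  unfold decF
  rw [f1, f2, f3, f4, f5]
  by_cases hP : P <;> by_cases hQ : Q <;> by_cases hR : R <;> by_cases hS : S <;>
    simp [hP, hQ, hR, hS]

theorem D9_decB_win (p : Fl) (P Q R S : Prop) [Decidable P] [Decidable Q] [Decidable R]
    [Decidable S] (f1 : p.tn = 2) (f2 : p.eq = decide P) (f3 : p.co = decide Q)
    (f4 : p.kz = decide R) (f5 : p.room = decide S) :
    decB false p = if P ∧ ¬R then .n else if Q ∧ S then .p else .z := by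
  unfold decB
  rw [f1, f2, f3, f4, f5]
  by_cases hP : P <;> by_cases hQ : Q <;> by_cases hR : R <;> by_cases hS : S <;>
    simp [hP, hQ, hR, hS]

/-- Forward tick of a cell in its window. -/
theorem D9_fwd_win (m : List (List Pos)) (s τ : ℕ) (J : Bool)
    (hM : MemOk (s + 1) m) (hτ : (τ : ℤ) < th s) :
    (tickS .p).eval ((tickM .p).eval (absorb.eval (shiftM.eval ((updM decF).eval
      (encC J ⟨s + 1, m, 2 * th s + τ, false⟩))))) =
        encC J ⟨s + 1, m, 2 * th s + τ + 1, false⟩ := by
  have h4 := D9_len4 hM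
  have h2 := D9_len2 hM
  have hm1 := D9_mem1 hM
  have hT := th_pos s
  have hT' := th_succ s
  have hTp := D9_pow s
  obtain ⟨⟨u, us, hmu, hu⟩, hne⟩ := D9_ne hM
  have e1 : (2 * th s + (τ : ℤ) + 1) = 2 * th s + ((τ + 1 : ℕ) : ℤ) := by push_cast; ring
  have hKd := D9_KK s m.flatten.length τ
  have hKd' := D9_KK s m.flatten.length (τ + 1)
  have hV := D9_VV s τ
  have hV' := D9_VV s (τ + 1)
  rw [e1]
  simp only [encC, AC.len, AC.pos]
  rw [hV, hV', D9_ell1 (by omega), D9_ell1 (by omega)]
  generalize KK (s + 1) m.flatten.length (2 * th s + (τ : ℤ)) = K at *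
  generalize KK (s + 1) m.flatten.length (2 * th s + ((τ + 1 : ℕ) : ℤ)) = K' at *
  generalize hlen : m.flatten.length = len at *
  have hK1 : K ≤ τ := by omega
  have hK2 : (K : ℤ) + τ + 1 ≤ th s := by omega
  have hK3 : K + (s + 1) ≤ len := by omega
  have hK1' : K' ≤ τ + 1 := by omega
  have hK3' : K' + (s + 1) ≤ len := by omega
  obtain ⟨f1, f2, f3, f4, f5⟩ := D9_flags m s τ K hτ hK1 hK2
  rw [hlen] at f5
  have hdec := D9_decF_win _ _ _ _ _ f1 f2 f3 f4 f5
  have hus : shiftM.eval ((updM decF).eval (raw m false J (2 * th s + τ) (s + 1) K τ)) =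
      raw m false J (2 * th s + τ) (s + 1) K' τ := by
    by_cases hA : K = τ ∧ K + (s + 1) < len
    · rw [if_pos hA] at hdec
      refine D9_us decF m false J _ (s + 1) K τ K' u us hmu hu (by omega) (by omega) .p
        hdec.symm (by intro h; cases h) ?_ (by intro h; cases h)
      intro _
      have h5 : K' = K + 1 := by omega
      exact ⟨h5, by omega, hM.stk_up K (by omega)⟩
    · rw [if_neg hA] at hdec
      by_cases hB : (K : ℤ) + τ + 1 = th s ∧ ¬ K = 0
      · rw [if_pos hB] at hdec
        refine D9_us decF m false J _ (s + 1) K τ K' u us hmu hu (by omega) (by omega) .n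
          hdec.symm (by intro h; cases h) (by intro h; cases h) ?_
        intro _
        have h5 : K = K' + 1 := by omega
        refine ⟨h5, ?_⟩
        rw [h5]
        exact hM.stk_dn K' (by omega)
      · rw [if_neg hB] at hdec
        refine D9_us decF m false J _ (s + 1) K τ K' u us hmu hu (by omega) (by omega) .z
          hdec.symm ?_ (by intro h; cases h) (by intro h; cases h)
        intro _
        omega
  have hoff : IsOff m (τ + 1) → K' = τ + 1 := by
    intro h
    have := D9_off_room m (s + 1) (τ + 1) hm1 h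
    omega
  rw [hus, absorb_raw m false J _ (s + 1) K' τ (by omega) (fun w hw => by
      have := hm1 w hw; omega) (fun w hw => hm1 w (List.mem_of_mem_tail hw)) (by omega) hK1' hoff,
    D9_tp m false J (2 * th s + τ) (s + 1) K' (τ + 1) u us hmu hu (by omega) (by omega)
      (by omega) (by omega), e1]

/-- Backward tick of a cell in its window. -/
theorem D9_bwd_win (m : List (List Pos)) (s τ : ℕ) (J : Bool)
    (hM : MemOk (s + 1) m) (hτ : (τ : ℤ) + 1 < th s) :
    (tickS .n).eval ((tickM .n).eval (shiftM.eval ((updM decB).eval (emit.eval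
      (encC J ⟨s + 1, m, 2 * th s + τ + 1, false⟩))))) =
        encC J ⟨s + 1, m, 2 * th s + τ, false⟩ := by
  have h4 := D9_len4 hM
  have h2 := D9_len2 hM
  have hm1 := D9_mem1 hM
  have hT := th_pos s
  have hT' := th_succ s
  have hTp := D9_pow s
  obtain ⟨⟨u, us, hmu, hu⟩, hne⟩ := D9_ne hM
  have e1 : (2 * th s + (τ : ℤ) + 1) = 2 * th s + ((τ + 1 : ℕ) : ℤ) := by push_cast; ring
  have hKd := D9_KK s m.flatten.length τ
  have hKd' := D9_KK s m.flatten.length (τ + 1)
  have hV := D9_VV s τ
  have hV' := D9_VV s (τ + 1)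
  rw [e1]
  simp only [encC, AC.len, AC.pos]
  rw [hV, hV', D9_ell1 (by omega), D9_ell1 (by omega)]
  generalize KK (s + 1) m.flatten.length (2 * th s + (τ : ℤ)) = K at *
  generalize KK (s + 1) m.flatten.length (2 * th s + ((τ + 1 : ℕ) : ℤ)) = K' at *
  generalize hlen : m.flatten.length = len at *
  have hK1 : K ≤ τ := by omega
  have hK3 : K + (s + 1) ≤ len := by omega
  have hK1' : K' ≤ τ + 1 := by omega
  have hK2' : (K' : ℤ) + ((τ + 1 : ℕ) : ℤ) + 1 ≤ th s := by omega
  have hK3' : K' + (s + 1) ≤ len := by omega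
  obtain ⟨f1, f2, f3, f4, f5⟩ := D9_flags m s (τ + 1) K' (by omega) hK1' hK2'
  rw [hlen] at f5
  have hdec := D9_decB_win _ _ _ _ _ f1 f2 f3 f4 f5
  have hoff : IsOff m (τ + 1) → K' = τ + 1 := by
    intro h
    have := D9_off_room m (s + 1) (τ + 1) hm1 h
    omega
  have hem : emDec false (rawFl m (2 * th s + ((τ + 1 : ℕ) : ℤ)) (s + 1) K') = true ↔
      IsOff m (τ + 1) := by
    have ftr := D9_rawFl_tr m (2 * th s + ((τ + 1 : ℕ) : ℤ)) (s + 1) K' (by omega)
    simp only [Nat.add_sub_cancel] at ftr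
    by_cases hE : K' = τ + 1
    · have h7 := hM.off_iff K' (by omega) (by omega)
      rw [← ftr, hE] at h7
      rw [hE] at f1 f2 f4 ⊢
      rw [h7]
      unfold emDec
      rw [f1, f2, f4]
      simp
    · have hnot : ¬ IsOff m (τ + 1) := fun h => hE (hoff h)
      unfold emDec
      rw [f1, f2, f4]
      simp [hE, hnot]
  have hus : shiftM.eval ((updM decB).eval (raw m false J (2 * th s + ((τ + 1 : ℕ) : ℤ))
      (s + 1) K' τ)) = raw m false J (2 * th s + ((τ + 1 : ℕ) : ℤ)) (s + 1) K τ := by
    by_cases hA : K' = τ + 1 ∧ ¬ K' = 0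
    · rw [if_pos hA] at hdec
      refine D9_us decB m false J _ (s + 1) K' τ K u us hmu hu (by omega) (by omega) .n
        hdec.symm (by intro h; cases h) (by intro h; cases h) ?_
      intro _
      have h5 : K' = K + 1 := by omega
      refine ⟨h5, ?_⟩
      rw [h5]
      exact hM.stk_dn K (by omega)
    · rw [if_neg hA] at hdec
      by_cases hB : (K' : ℤ) + ((τ + 1 : ℕ) : ℤ) + 1 = th s ∧ K' + (s + 1) < len
      · rw [if_pos hB] at hdec
        refine D9_us decB m false J _ (s + 1) K' τ K u us hmu hu (by omega) (by omega) .p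
          hdec.symm (by intro h; cases h) ?_ (by intro h; cases h)
        intro _
        have h5 : K = K' + 1 := by omega
        exact ⟨h5, by omega, hM.stk_up K' (by omega)⟩
      · rw [if_neg hB] at hdec
        refine D9_us decB m false J _ (s + 1) K' τ K u us hmu hu (by omega) (by omega) .z
          hdec.symm ?_ (by intro h; cases h) (by intro h; cases h)
        intro _
        omega
  rw [emit_raw m false J _ (s + 1) K' τ (by omega) (fun w hw => by
      have := hm1 w hw; omega) (fun w hw => hm1 w (List.mem_of_mem_tail hw)) (by omega) hem hoff,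
    hus, ← e1,
    D9_tn m false J (2 * th s + τ) (s + 1) K τ u us hmu hu (by omega) (by omega)
      (by omega) (by omega) (Or.inr (by simp only [Nat.add_sub_cancel]; omega))]

theorem tick_fwd (a : AC) (J : Bool) (h : Rng a) :
    (tickS .p).eval ((tickM .p).eval (absorb.eval (shiftM.eval ((updM decF).eval (encC J a))))) =
      encC J (tickA a) := by
  obtain ⟨r, m, N, x⟩ := a
  obtain ⟨hM, hf, ht⟩ := h
  simp only at hM hf ht
  cases r with
  | zero =>
    obtain ⟨⟨u, us, hmu, hu⟩, hne⟩ := D9_ne hM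
    have hfl : m.flatten ≠ [] := by
      rw [hmu, List.flatten_cons]
      intro h; exact hu (List.append_eq_nil_iff.mp h).1
    have hpos : 1 ≤ m.flatten.length := List.length_pos_iff.mpr hfl
    have hl1 : ell 0 N = 1 := by unfold ell; split_ifs <;> simp
    have hl2 : ell 0 (N + 1) = 1 := by unfold ell; split_ifs <;> simp
    have hm1 : m = [m.flatten] := by
      cases hM with
      | leaf b => simp
    have hx : x = true ∨ dg N (1 - 1) ≠ 2 := by
      cases x with
      | true => left; rfl
      | false =>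
        right
        obtain ⟨h0, h1, -⟩ := hf rfl
        rw [dg_zero_of_lt h0 h1]; decide
    have hN : 0 ≤ N ∧ N + 1 < th 1 := by
      have e0 : th 0 = 16 := by simp [th]
      have e1 : th 1 = 64 := by simp [th]
      rw [e0] at hf ht
      rw [e1]
      cases x with
      | true => obtain ⟨h0, h1⟩ := ht rfl; omega
      | false => obtain ⟨h0, h1, -⟩ := hf rfl; omega
    have hff : [m.flatten].flatten.length = m.flatten.length := by simp
    simp only [encC, tickA, hl1, hl2, KK, VV]
    rw [hm1, D9_fz0 m.flatten hfl x J N 1 le_rfl hpos hx 0 0,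
      D9_tp [m.flatten] x J N 1 0 0 m.flatten [] rfl hfl le_rfl (by rw [hff]; omega) hN.1 hN.2]
  | succ s =>
    by_cases hN : 3 * th s ≤ N
    · exact D9_fwd_hid m s N x J hM hN (fun hx => (hf hx).2.1) ht
    · have hT := th_pos s
      have hT' := th_succ s
      have hx : x = false := by
        cases x with
        | false => rfl
        | true => have := ht rfl; omega
      subst hx
      have h1 := (hf rfl).2.2 s rfl
      obtain ⟨τ, hτ⟩ := Int.eq_ofNat_of_zero_le (show 0 ≤ N - 2 * th s by omega)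
      have h2 : N = 2 * th s + τ := by omega
      subst h2
      exact D9_fwd_win m s τ J hM (by omega)

theorem tick_bwd (a : AC) (J : Bool) (h : Rng a) :
    (tickS .n).eval ((tickM .n).eval (shiftM.eval ((updM decB).eval (emit.eval
      (encC J (tickA a)))))) = encC J a := by
  obtain ⟨r, m, N, x⟩ := a
  obtain ⟨hM, hf, ht⟩ := h
  simp only at hM hf ht
  cases r with
  | zero =>
    obtain ⟨⟨u, us, hmu, hu⟩, hne⟩ := D9_ne hM
    have hfl : m.flatten ≠ [] := by
      rw [hmu, List.flatten_cons]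
      intro h; exact hu (List.append_eq_nil_iff.mp h).1
    have hpos : 1 ≤ m.flatten.length := List.length_pos_iff.mpr hfl
    have hl1 : ell 0 N = 1 := by unfold ell; split_ifs <;> simp
    have hl2 : ell 0 (N + 1) = 1 := by unfold ell; split_ifs <;> simp
    have hm1 : m = [m.flatten] := by
      cases hM with
      | leaf b => simp
    have e0 : th 0 = 16 := by simp [th]
    have hx : x = true ∨ dg (N + 1) (1 - 1) ≠ 2 := by
      cases x with
      | true => left; rfl
      | false =>
        right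
        obtain ⟨h0, h1, -⟩ := hf rfl
        rcases lt_or_ge (N + 1) (th 0) with h2 | h2
        · rw [dg_zero_of_lt (by omega) h2]; decide
        · rw [D9_dg1 h2 (by omega)]; decide
    have hN : 0 ≤ N ∧ N + 1 < th 1 := by
      have e1 : th 1 = 64 := by simp [th]
      rw [e0] at hf ht
      rw [e1]
      cases x with
      | true => obtain ⟨h0, h1⟩ := ht rfl; omega
      | false => obtain ⟨h0, h1, -⟩ := hf rfl; omega
    have hff : [m.flatten].flatten.length = m.flatten.length := by simp
    simp only [encC, tickA, hl1, hl2, KK, VV]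
    rw [hm1, D9_bz0 m.flatten hfl x J (N + 1) 1 le_rfl hpos hx 0 0,
      D9_tn [m.flatten] x J N 1 0 0 m.flatten [] rfl hfl le_rfl (by rw [hff]; omega) hN.1 hN.2
        (Or.inl rfl)]
  | succ s =>
    by_cases hN : 3 * th s - 1 ≤ N
    · exact D9_bwd_hid m s N x J hM hN (fun hx => (hf hx).2.1) ht
    · have hT := th_pos s
      have hT' := th_succ s
      have hx : x = false := by
        cases x with
        | false => rfl
        | true => have := ht rfl; omega
      subst hx
      have h1 := (hf rfl).2.2 s rfl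
      obtain ⟨τ, hτ⟩ := Int.eq_ofNat_of_zero_le (show 0 ≤ N - 2 * th s by omega)
      have h2 : N = 2 * th s + τ := by omega
      subst h2
      exact D9_bwd_win m s τ J hM (by omega)

end TF
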