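import Mathlib
import Pool.Agent.LibTF.A2
import Pool.Agent.LibTF.D8
import Pool.Agent.LibTF.D9

/-! Assembly of the `TreeCode`. -/

namespace TF

/-! ### Blockwise evaluation -/

/-- Letters at which all tick passes forget the past. -/
def D10_hd (a : Ltr) : Prop := a.hd = .A ∧ a.S = none ∧ ∀ μ, a.M = some μ → μ.bot = true

/-- Words starting with such a letter. -/
def D10_H (w : List Ltr) : Prop := ∃ a u, w = a :: u ∧ D10_hd a

theorem D10_upd1 (dec : Bool → Fl → Mv) : ∀ q q' a p, D10_hd a →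
    (updM dec).out q a p = (updM dec).out q' a p ∧ (updM dec).d q a p = (updM dec).d q' a p := by
  rintro q q' a p ⟨h1, _, h2⟩
  cases hM : a.M with
  | none => simp [updM, uIn, h1, hM]
  | some μ =>
    have hb := h2 μ hM
    simp [updM, uIn, h1, hM, hb]

theorem D10_upd2 (dec : Bool → Fl → Mv) : ∀ a p, D10_hd a →
    (updM dec).e a p = (updM dec).p0 := by
  rintro a p ⟨h1, _⟩
  simp [updM, flE, h1]

theorem D10_shift1 : ∀ q q' a p, D10_hd a →
    shiftM.out q a p = shiftM.out q' a p ∧ shiftM.d q a p = shiftM.d q' a p := by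
  rintro q q' a p ⟨h1, _⟩
  simp [shiftM, h1]

theorem D10_shift2 : ∀ a p, D10_hd a → shiftM.e a p = shiftM.p0 := by
  rintro a p ⟨h1, _⟩
  simp [shiftM, h1]

theorem D10_absorb1 : ∀ q q' a p, D10_hd a →
    absorb.out q a p = absorb.out q' a p ∧ absorb.d q a p = absorb.d q' a p := by
  rintro q q' a p ⟨h1, _⟩
  simp [absorb, h1]

theorem D10_tickM1 (δ : Mv) : ∀ q q' a p, D10_hd a →
    (tickM δ).out q a p = (tickM δ).out q' a p ∧ (tickM δ).d q a p = (tickM δ).d q' a p := by
  rintro q q' a p ⟨h1, _, h2⟩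
  cases hM : a.M with
  | none => simp [tickM, h1, hM]
  | some μ =>
    have hb := h2 μ hM
    simp [tickM, tIn, hM, hb]

theorem D10_tickM2 (δ : Mv) : ∀ a p, D10_hd a → (tickM δ).e a p = (tickM δ).p0 := by
  rintro a p ⟨h1, _⟩
  simp [tickM, h1]

theorem D10_tickS1 (δ : Mv) : ∀ q q' a p, D10_hd a →
    (tickS δ).out q a p = (tickS δ).out q' a p ∧ (tickS δ).d q a p = (tickS δ).d q' a p := by
  rintro q q' a p ⟨h1, h2, _⟩
  simp [tickS, h2]

theorem D10_emit1 : ∀ q q' a p, D10_hd a →
    emit.out q a p = emit.out q' a p ∧ emit.d q a p = emit.d q' a p := by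
  rintro q q' a p ⟨h1, _, h2⟩
  cases hM : a.M with
  | none => simp [emit, h1, hM]
  | some μ =>
    have hb := h2 μ hM
    simp [emit, h1, hM, hb]

theorem D10_emit2 : ∀ a p, D10_hd a → emit.e a p = emit.p0 := by
  rintro a p ⟨h1, _⟩
  simp [emit, flE, h1]

theorem D10_flatMap {α : Type} (m : BM Ltr Ltr)
    (h1 : ∀ q q' a p, D10_hd a → m.out q a p = m.out q' a p ∧ m.d q a p = m.d q' a p)
    (h2 : ∀ a p, D10_hd a → m.e a p = m.p0) (c : List α)
    (f : α → List Ltr) (hf : ∀ x ∈ c, D10_H (f x)) :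
    m.eval (c.flatMap f) = c.flatMap (fun x => m.eval (f x)) := by
  have h := BM.eval_blocks m D10_hd h1 h2 (c.map f) (by
    intro w hw
    obtain ⟨x, hx, rfl⟩ := List.mem_map.1 hw
    exact hf x hx)
  rw [List.flatMap_def, h, List.map_map, List.flatMap_def]
  rfl

/-! ### The passes preserve the shape of the first letter -/

theorem D10_H_upd (dec : Bool → Fl → Mv) {w : List Ltr} (h : D10_H w) :
    D10_H ((updM dec).eval w) := by
  obtain ⟨a, u, rfl, h1, h2, h3⟩ := h
  refine ⟨_, _, rfl, h1, h2, ?_⟩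
  intro μ hμ
  simp only [updM, Option.map_eq_some_iff] at hμ
  obtain ⟨ν, hν, rfl⟩ := hμ
  exact h3 ν hν

theorem D10_H_absorb {w : List Ltr} (h : D10_H w) : D10_H (absorb.eval w) := by
  obtain ⟨a, u, rfl, h1, h2, h3⟩ := h
  refine ⟨_, _, rfl, ?_⟩
  have e : absorb.out absorb.q0 a (List.foldr absorb.e absorb.p0 u) = a := by
    simp [absorb, h1]
  rw [e]
  exact ⟨h1, h2, h3⟩

theorem D10_H_tickM (δ : Mv) {w : List Ltr} (h : D10_H w) : D10_H ((tickM δ).eval w) := by
  obtain ⟨a, u, rfl, h1, h2, h3⟩ := h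
  refine ⟨_, _, rfl, ?_⟩
  cases hM : a.M with
  | none =>
    have e : ∀ p, (tickM δ).out (tickM δ).q0 a p = a := by
      intro p
      simp [tickM, hM]
    rw [e]
    exact ⟨h1, h2, h3⟩
  | some μ =>
    have hb := h3 μ hM
    refine ⟨?_, ?_, ?_⟩
    · simp [tickM, hM, hb, h1]
    · simp [tickM, hM, hb, h2]
    · intro ν hν
      simp only [tickM, hM, hb] at hν
      simp at hν
      rw [← hν]

theorem D10_putM_cons (l K : ℕ) (n k h : ℤ) (s : ℕ → S3) (mv : Mv) (a : Ltr) (u : List Ltr) :
    putM l K n k h s mv (a :: u) =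
      { a with M := if K ≤ 0 ∧ 0 < K + l then some (mlet l (0 - K) n k h s mv) else none } ::
        u.mapIdx (fun i a => { a with
          M := if K ≤ i + 1 ∧ i + 1 < K + l then some (mlet l (i + 1 - K) n k h s mv)
            else none }) := by
  rw [putM, List.mapIdx_cons]

/-- Putting a package on a word. -/
theorem D10_H_putM (l K : ℕ) (n k h : ℤ) (s : ℕ → S3) (mv : Mv) {w : List Ltr}
    (hw : ∃ a u, w = a :: u ∧ a.hd = .A ∧ a.S = none) : D10_H (putM l K n k h s mv w) := by
  obtain ⟨a, u, rfl, h1, h2⟩ := hw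
  refine ⟨_, _, D10_putM_cons l K n k h s mv a u, h1, h2, ?_⟩
  intro μ hμ
  simp only at hμ
  split_ifs at hμ with h3
  · have := Option.some.inj hμ
    rw [← this]
    simp [mlet]

/-- The two moving passes on a package whose decision is sound. -/
theorem D10_us (dec : Bool → Fl → Mv) (hn : ∀ x F, dec x F = .n → F.kz = false)
    (hp : ∀ x F, dec x F = .p → F.room = true) (w : List Ltr) (hw : Blk w)
    (hS : ∃ a u, w = a :: u ∧ a.hd = .A ∧ a.S = none) (l K : ℕ) (hl : 1 ≤ l)
    (hK : K + l ≤ w.length) (n h : ℤ) (s : ℕ → S3) :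
    D10_H (shiftM.eval ((updM dec).eval (putM l K n K h s .z w))) := by
  obtain ⟨c, hc⟩ : ∃ c, c = dec (hX1 w) ((pkgL l n K h s).foldr Fl.upd (roomFl l K w)) := ⟨_, rfl⟩
  have hfl := pkg_flags l hl n K h s (roomFl l K w)
  have h1 : c = .n → 1 ≤ K := by
    intro hcn
    have h2 := hn _ _ (hc.symm.trans hcn)
    by_contra hK0
    have : K = 0 := by omega
    subst this
    have h3 := hfl.2.2.1.2 (by simp)
    rw [h3] at h2
    exact absurd h2 (by simp)
  have h4 : c = .p → K + l < w.length := by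
    intro hcp
    have h2 := hp _ _ (hc.symm.trans hcp)
    rw [hfl.2.1] at h2
    unfold roomFl at h2
    split_ifs at h2 with h3
    · exact h3
    · simp [fl0] at h2
  rw [updM_putM dec w hw l K hl hK n K h s c hc h1]
  cases c with
  | z =>
    rw [shiftM_z w hw l K hl hK]
    exact D10_H_putM _ _ _ _ _ _ _ hS
  | p =>
    rw [shiftM_p w hw l K hl (h4 rfl)]
    exact D10_H_putM _ _ _ _ _ _ _ hS
  | n =>
    rw [shiftM_n w hw l K hl (h1 rfl) hK]
    exact D10_H_putM _ _ _ _ _ _ _ hS

theorem D10_decF_n (x : Bool) (F : Fl) (h : decF x F = .n) : F.kz = false := by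
  unfold decF at h
  split_ifs at h with h1 h2
  simp only [Bool.and_eq_true, Bool.not_eq_true'] at h2
  exact h2.2

theorem D10_decF_p (x : Bool) (F : Fl) (h : decF x F = .p) : F.room = true := by
  unfold decF at h
  split_ifs at h with h1 h2
  simp only [Bool.and_eq_true] at h1
  exact h1.2

theorem D10_decB_n (x : Bool) (F : Fl) (h : decB x F = .n) : F.kz = false := by
  unfold decB at h
  split_ifs at h with h1 h2
  simp only [Bool.and_eq_true, Bool.not_eq_true'] at h1
  exact h1.2

theorem D10_decB_p (x : Bool) (F : Fl) (h : decB x F = .p) : F.room = true := by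
  unfold decB at h
  split_ifs at h with h1 h2
  simp only [Bool.and_eq_true] at h2
  exact h2.2

/-! ### The pass `emit` on a block -/

theorem D10_emit_M (q : emit.Q) (w : List Ltr) (p : emit.P) :
    (emit.run q w p).map Ltr.M = w.map Ltr.M := by
  induction w generalizing q with
  | nil => rfl
  | cons a w ih =>
    rw [BM.run, List.map_cons, List.map_cons, ih]
    congr 1
    simp only [emit]
    cases hM : a.M with
    | none => simp [hM]
    | some μ =>
      simp only
      split_ifs <;> simp [hM]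

theorem D10_emit_hd (q : emit.Q) (w : List Ltr) (p : emit.P) (hw : ∀ b ∈ w, b.hd ≠ .A) :
    ∀ b ∈ emit.run q w p, b.hd ≠ .A := by
  induction w generalizing q with
  | nil => intro b hb; simp [BM.run] at hb
  | cons a w ih =>
    intro b hb
    rw [BM.run, List.mem_cons] at hb
    rcases hb with rfl | hb
    · have ha := hw a (by simp)
      simp only [emit]
      cases hM : a.M with
      | none => simpa using ha
      | some μ =>
        simp only
        split_ifs <;> simp_all
    · exact ih _ (fun b hb => hw b (by simp [hb])) b hb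

theorem D10_rep_kz (n : ℕ) (p : Fl) :
    ((List.replicate n (none : Option ML)).foldr D6_E p).kz = p.kz := by
  induction n with
  | zero => rfl
  | succ n ih =>
    rw [List.replicate_succ, List.foldr_cons]
    exact ih

theorem D10_flH_kz (a : Ltr) (p : Fl) : (flH a p).kz = (D6_E a.M p).kz := by
  unfold flH D6_E
  cases h2 : a.M <;> simp

theorem D10_emit_out (a : Ltr) (P : Fl) (h : a.M ≠ none → (flH a P).kz = true) :
    emit.out emit.q0 a P = a := by
  cases hM : a.M with
  | none => simp [emit, hM]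
  | some μ =>
    have h1 := h (by rw [hM]; simp)
    have hem : ∀ x, emDec x (flH a P) = false := by intro x; simp [emDec, h1]
    simp [emit, hM, hem]

/-- `emit` on a block carrying a package with `k = K`. -/
theorem D10_emit (w : List Ltr) (hw : Blk w) (hS : ∃ a u, w = a :: u ∧ a.hd = .A ∧ a.S = none)
    (l K : ℕ) (hl : 1 ≤ l) (hK : K + l ≤ w.length) (n h : ℤ) (s : ℕ → S3) :
    ∃ w', Blk w' ∧ (∃ a u, w' = a :: u ∧ a.hd = .A ∧ a.S = none) ∧ w'.length = w.length ∧
      emit.eval (putM l K n K h s .z w) = putM l K n K h s .z w' := by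
  refine ⟨emit.eval (putM l K n K h s .z w), ?_, ?_, ?_, ?_⟩
  rotate_left 2
  · rw [BM.eval, BM.length_run, putM, List.length_mapIdx]
  · -- the `M` track is unchanged
    have hM := D10_emit_M emit.q0 (putM l K n K h s .z w) emit.p0
    apply List.ext_getElem
    · simp [putM]
    · intro i hi hi2
      have hlen : (emit.eval (putM l K n K h s .z w)).length = w.length := by
        rw [BM.eval, BM.length_run, putM, List.length_mapIdx]
      have hi3 : i < w.length := by rw [← hlen]; exact hi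
      have h1 : ((emit.eval (putM l K n K h s .z w)).map Ltr.M)[i]'(by simpa using hi) =
          ((putM l K n K h s .z w).map Ltr.M)[i]'(by simpa [putM] using hi3) := by
        congr 1
      rw [List.getElem_map, List.getElem_map] at h1
      have h2 : ((putM l K n K h s .z w)[i]'(by simpa [putM] using hi3)).M =
          if K ≤ i ∧ i < K + l then some (mlet l (i - K) n K h s .z) else none := by
        simp [putM]
      rw [h2] at h1
      have h5 : (putM l K n K h s .z (emit.eval (putM l K n K h s .z w)))[i]'(by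
          simpa [putM] using hi) =
          { (emit.eval (putM l K n K h s .z w))[i]'hi with
            M := if K ≤ i ∧ i < K + l then some (mlet l (i - K) n K h s .z) else none } := by
        simp only [putM, List.getElem_mapIdx]
      rw [h5, ← h1]
  all_goals
    obtain ⟨a0, u0, hw0, hA0, hu0⟩ := hw
    obtain ⟨a1, u1, hw1, hA1, hS1⟩ := hS
    obtain ⟨rfl, rfl⟩ : a1 = a0 ∧ u1 = u0 := by
      rw [hw0] at hw1
      simpa using hw1.symm
    obtain ⟨h0, tl, hput, hh0A, hh0S, htl⟩ : ∃ (h0 : Ltr) (tl : List Ltr),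
        putM l K n K h s .z w = h0 :: tl ∧ h0.hd = .A ∧ h0.S = none ∧ ∀ b ∈ tl, b.hd ≠ .A := by
      refine ⟨_, _, (congrArg _ hw0).trans (D10_putM_cons l K n K h s .z a1 u1), hA0, hS1, ?_⟩
      apply D6_mapIdx_hd
      · intro i a; rfl
      · exact hu0
    have hkz : h0.M ≠ none → (flH h0 (tl.foldr flE fl0)).kz = true := by
      intro hne
      have hK0 : K = 0 := by
        by_contra hcon
        apply hne
        have h1 : putM l K n K h s .z w = putM l K n K h s .z (a1 :: u1) := by rw [hw0]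
        rw [hput, D10_putM_cons, List.cons_eq_cons] at h1
        rw [h1.1]
        simp only
        rw [if_neg]
        omega
      subst hK0
      have h2 := D6_M_putM l 0 n ((0 : ℕ) : ℤ) h s w (by simpa using hK)
      rw [hput, List.map_cons] at h2
      rw [D10_flH_kz, D6_foldr tl htl]
      have h3 : D6_E h0.M ((tl.map Ltr.M).foldr D6_E fl0) =
          ((h0.M :: tl.map Ltr.M).foldr D6_E fl0) := rfl
      rw [h3, h2, List.foldr_append, List.foldr_append, D6_somes, D10_rep_kz]
      exact (pkg_flags l hl n ((0 : ℕ) : ℤ) h s _).2.2.1.2 (by simp)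
    have hout : emit.out emit.q0 h0 (tl.foldr emit.e emit.p0) = h0 :=
      D10_emit_out h0 _ hkz
    have hev : emit.eval (putM l K n K h s .z w) = h0 ::
        emit.run (emit.d emit.q0 h0 (tl.foldr emit.e emit.p0)) tl emit.p0 := by
      rw [hput, BM.eval, BM.run, hout]
  · exact ⟨h0, _, hev, hh0A, D10_emit_hd _ _ _ htl⟩
  · exact ⟨h0, _, hev, hh0A, hh0S⟩

/-! ### Encoded cells -/

theorem D10_fit {r : ℕ} {m : List (List Pos)} (hM : MemOk r m) (N : ℤ) :
    1 ≤ ell r N ∧ KK r m.flatten.length N + ell r N ≤ m.flatten.length := by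
  have hlen := hM.len.1
  cases r with
  | zero =>
    have h1 : ell 0 N = 1 := by unfold ell; split_ifs <;> simp
    rw [h1]
    refine ⟨le_rfl, ?_⟩
    simp only [KK, pow_zero] at *
    omega
  | succ s =>
    have hp : s + 2 ≤ 2 ^ (s + 1) := by
      have : s + 1 < 2 ^ (s + 1) := Nat.lt_two_pow_self
      omega
    have hT := th_pos s
    have hT' := th_succ s
    unfold ell KK
    simp only
    split_ifs with h
    · refine ⟨by omega, ?_⟩
      have : max 1 (s + 1) = s + 1 := by omega
      rw [this]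
      omega
    · refine ⟨by omega, ?_⟩
      omega

theorem D10_bw {r : ℕ} {m : List (List Pos)} (hM : MemOk r m) (X J : Bool) (l v : ℕ) (g : ℤ) :
    Blk (bw X J l v g m) ∧ (∃ a u, bw X J l v g m = a :: u ∧ a.hd = .A ∧ a.S = none) ∧
      (bw X J l v g m).length = m.flatten.length := by
  obtain ⟨⟨u, us, hmu, hu⟩, _⟩ := D9_ne hM
  refine ⟨(bw_blk X J l v g m u us hmu hu).1, ?_, bw_length X J l v g m⟩
  cases u with
  | nil => exact absurd rfl hu
  | cons p u =>
    refine ⟨_, _, by rw [hmu]; rfl, rfl, rfl⟩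

theorem D10_encC_H {a : AC} (hM : MemOk a.r a.mem) (J : Bool) : D10_H (encC J a) :=
  D10_H_putM _ _ _ _ _ _ _ (D10_bw hM a.x J _ _ a.N).2.1

/-- Forward passes, blockwise. -/
theorem D10_fwd (c : List (Bool × AC)) (h : ∀ p ∈ c, Rng p.2) :
    (tickS .p).eval ((tickM .p).eval (absorb.eval (shiftM.eval ((updM decF).eval (encJ c))))) =
      encJ (c.map (fun p => (p.1, tickA p.2))) := by
  have h0 : ∀ p ∈ c, D10_H (encC p.1 p.2) := fun p hp => D10_encC_H (h p hp).1 p.1
  have h1 : ∀ p ∈ c, D10_H ((updM decF).eval (encC p.1 p.2)) :=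
    fun p hp => D10_H_upd decF (h0 p hp)
  have h2 : ∀ p ∈ c, D10_H (shiftM.eval ((updM decF).eval (encC p.1 p.2))) := by
    intro p hp
    have hM := (h p hp).1
    obtain ⟨hf1, hf2⟩ := D10_fit hM p.2.N
    obtain ⟨hb1, hb2, hb3⟩ := D10_bw hM p.2.x p.1 (ell p.2.r p.2.N) (VV p.2.r p.2.N) p.2.N
    exact D10_us decF D10_decF_n D10_decF_p _ hb1 hb2 _ _ hf1 (by rw [hb3]; exact hf2) _ _ _
  have h3 : ∀ p ∈ c, D10_H (absorb.eval (shiftM.eval ((updM decF).eval (encC p.1 p.2)))) :=
    fun p hp => D10_H_absorb (h2 p hp)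
  have h4 : ∀ p ∈ c, D10_H ((tickM .p).eval (absorb.eval (shiftM.eval
      ((updM decF).eval (encC p.1 p.2))))) :=
    fun p hp => D10_H_tickM .p (h3 p hp)
  unfold encJ
  rw [D10_flatMap (updM decF) (D10_upd1 _) (D10_upd2 _) c _ h0,
    D10_flatMap shiftM D10_shift1 D10_shift2 c _ h1,
    D10_flatMap absorb D10_absorb1 (fun _ _ _ => rfl) c _ h2,
    D10_flatMap (tickM .p) (D10_tickM1 _) (D10_tickM2 _) c _ h3,
    D10_flatMap (tickS .p) (D10_tickS1 _) (fun _ _ _ => rfl) c _ h4, List.flatMap_map]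
  apply List.flatMap_congr
  intro p hp
  exact tick_fwd p.2 p.1 (h p hp)

/-- Backward passes, blockwise. -/
theorem D10_bwd (c : List (Bool × AC)) (h : ∀ p ∈ c, Rng p.2) :
    (tickS .n).eval ((tickM .n).eval (shiftM.eval ((updM decB).eval (emit.eval
      (encJ (c.map (fun p => (p.1, tickA p.2)))))))) = encJ c := by
  have h0 : ∀ p ∈ c, D10_H (encC p.1 (tickA p.2)) :=
    fun p hp => D10_encC_H (a := tickA p.2) (h p hp).1 p.1
  have key : ∀ p ∈ c, ∃ w', Blk w' ∧ (∃ a u, w' = a :: u ∧ a.hd = .A ∧ a.S = none) ∧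
      ∃ l K n h s, 1 ≤ l ∧ K + l ≤ w'.length ∧
        emit.eval (encC p.1 (tickA p.2)) = putM l K n (K : ℕ) h s .z w' := by
    intro p hp
    have hM := (h p hp).1
    obtain ⟨hf1, hf2⟩ := D10_fit hM (tickA p.2).N
    obtain ⟨hb1, hb2, hb3⟩ := D10_bw hM (tickA p.2).x p.1 (ell (tickA p.2).r (tickA p.2).N)
      (VV (tickA p.2).r (tickA p.2).N) (tickA p.2).N
    obtain ⟨w', g1, g2, g3, g4⟩ := D10_emit _ hb1 hb2 _ _ hf1 (by rw [hb3]; exact hf2)
      (tickA p.2).N ((tickA p.2).N + dsp ((tickA p.2).mem.flatten.take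
        (KK (tickA p.2).r (tickA p.2).len (tickA p.2).N)))
      (stkAt (tickA p.2).mem.flatten (KK (tickA p.2).r (tickA p.2).len (tickA p.2).N))
    exact ⟨w', g1, g2, _, _, _, _, _, hf1, by rw [g3, hb3]; exact hf2, g4⟩
  have h1 : ∀ p ∈ c, D10_H (emit.eval (encC p.1 (tickA p.2))) := by
    intro p hp
    obtain ⟨w', g1, g2, l, K, n, h', s, _, _, g5⟩ := key p hp
    rw [g5]
    exact D10_H_putM _ _ _ _ _ _ _ g2
  have h2 : ∀ p ∈ c, D10_H ((updM decB).eval (emit.eval (encC p.1 (tickA p.2)))) :=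
    fun p hp => D10_H_upd decB (h1 p hp)
  have h3 : ∀ p ∈ c, D10_H (shiftM.eval ((updM decB).eval
      (emit.eval (encC p.1 (tickA p.2))))) := by
    intro p hp
    obtain ⟨w', g1, g2, l, K, n, h', s, g3, g4, g5⟩ := key p hp
    rw [g5]
    exact D10_us decB D10_decB_n D10_decB_p _ g1 g2 _ _ g3 g4 _ _ _
  have h4 : ∀ p ∈ c, D10_H ((tickM .n).eval (shiftM.eval ((updM decB).eval
      (emit.eval (encC p.1 (tickA p.2)))))) :=
    fun p hp => D10_H_tickM .n (h3 p hp)
  unfold encJ
  rw [List.flatMap_map, D10_flatMap emit D10_emit1 D10_emit2 c _ h0,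
    D10_flatMap (updM decB) (D10_upd1 _) (D10_upd2 _) c _ h1,
    D10_flatMap shiftM D10_shift1 D10_shift2 c _ h2,
    D10_flatMap (tickM .n) (D10_tickM1 _) (D10_tickM2 _) c _ h3,
    D10_flatMap (tickS .n) (D10_tickS1 _) (fun _ _ _ => rfl) c _ h4]
  apply List.flatMap_congr
  intro p hp
  exact tick_bwd p.2 p.1 (h p hp)

/-! ### The shift on configurations -/

theorem D10_jl_tick (c : List (List AC)) :
    jl (tickG c) = (jl c).map (fun p => (p.1, tickA p.2)) := by
  induction c with
  | nil => rfl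
  | cons g c ih =>
    have e : tickG (g :: c) = g.map tickA :: tickG c := rfl
    rw [e, D8_jl_cons, D8_jl_cons, ih, List.map_append]
    congr 1
    cases g with
    | nil => rfl
    | cons a g => simp [jg, Function.comp_def]

theorem D10_mem_jl {c : List (List AC)} {p : Bool × AC} (hp : p ∈ jl c) :
    ∃ g ∈ c, p.2 ∈ g := by
  rw [jl, List.mem_flatMap] at hp
  obtain ⟨g, hg, hpg⟩ := hp
  refine ⟨g, hg, ?_⟩
  cases g with
  | nil => simp [jg] at hpg
  | cons a g =>
    simp only [jg, List.mem_cons, List.mem_map] at hpg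
    rcases hpg with rfl | ⟨b, hb, rfl⟩
    · simp
    · simp [hb]

theorem D10_rng1 {c : List (List AC)} (h : StepOk c) : ∀ p ∈ jl (tickG c), Rng1 p.2 := by
  intro p hp
  obtain ⟨g, hg, hpg⟩ := D10_mem_jl hp
  obtain ⟨g0, hg0, rfl⟩ := List.mem_map.1 hg
  obtain ⟨a0, ha0, ha1⟩ := List.mem_map.1 hpg
  rw [← ha1]
  exact h.rng1 g0 hg0 a0 ha0

theorem Sh_encG (c : List (List AC)) (h : StepOk c) : Sh (encG c) = encG (shG c) := by
  have h1 : ∀ p ∈ jl c, Rng p.2 := by
    intro p hp
    obtain ⟨g, hg, hpg⟩ := D10_mem_jl hp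
    exact h.rng g hg _ hpg
  unfold Sh encG
  rw [D10_fwd (jl c) h1, ← D10_jl_tick, cross_encJ _ (D10_rng1 h), ← h.link]
  exact form_encG _ h.frm

theorem Un_Sh_encG (c : List (List AC)) (h : StepOk c) : Un (encG (shG c)) = encG c := by
  have h1 : ∀ p ∈ jl c, Rng p.2 := by
    intro p hp
    obtain ⟨g, hg, hpg⟩ := D10_mem_jl hp
    exact h.rng g hg _ hpg
  unfold Un shG
  rw [dissolve_encG _ h.frm]
  unfold encG
  rw [h.link, uncross_encJ _ (D10_rng1 h) h.unc, D10_jl_tick]
  exact D10_bwd (jl c) h1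

/-! ### Plain letters -/

theorem D10_jl_append (c d : List (List AC)) : jl (c ++ d) = jl c ++ jl d := by
  simp [jl]

theorem D10_encG_append (c d : List (List AC)) : encG (c ++ d) = encG c ++ encG d := by
  simp [encG, encJ, D10_jl_append]

theorem D10_encG_cons (g : List AC) (c : List (List AC)) : encG (g :: c) = encG [g] ++ encG c :=
  D10_encG_append [g] c

theorem D10_encG_pc (b : Bs) : encG [[pc b]] = [pl b] := by
  cases b <;> decide

theorem encG_cfg_ww (t : DT) :
    WW (pl .lp) (pl .br) (pl .lf) Sh t = encG (cfg t) := by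
  induction t with
  | leaf n =>
    simp only [WW, cfg]
    rw [D10_encG_append, D10_encG_pc]
    congr 1
    induction n with
    | zero => rfl
    | succ n ih => rw [List.replicate_succ, List.replicate_succ, D10_encG_cons, D10_encG_pc, ← ih]; rfl
  | node l r ihl ihr =>
    simp only [WW, cfg]
    rw [D10_encG_cons, D10_encG_pc, D10_encG_append, ihl, ihr, Sh_encG _ (stepOk_cfg l)]
    rfl

theorem D10_cross_N (q : CQ) (l : List (Bool × AC)) :
    ∀ p ∈ crossL q l, ∃ p' ∈ l, p.2.N = p'.2.N := by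
  induction l generalizing q with
  | nil => intro p hp; simp [crossL] at hp
  | cons x l ih =>
    obtain ⟨J, a⟩ := x
    intro p hp
    rw [crossL, List.mem_cons] at hp
    rcases hp with rfl | hp
    · exact ⟨(J, a), by simp, rfl⟩
    · obtain ⟨p', h1, h2⟩ := ih _ p hp
      exact ⟨p', by simp [h1], h2⟩

theorem D10_jg_mem {g : List AC} {a : AC} (ha : a ∈ g) : ∃ J, (J, a) ∈ jg g := by
  cases g with
  | nil => simp at ha
  | cons b g =>
    rcases List.mem_cons.1 ha with rfl | h
    · exact ⟨false, by simp [jg]⟩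
    · exact ⟨true, by simp [jg, h]⟩

/-- After the shift all clocks are positive. -/
theorem D10_pos {c : List (List AC)} (h : StepOk c) :
    ∀ g ∈ shG c, ∀ a ∈ g, 1 ≤ a.N := by
  have h1 : ∀ g ∈ crossC (tickG c), ∀ a ∈ g, 1 ≤ a.N := by
    intro g hg a ha
    obtain ⟨J, hJ⟩ := D10_jg_mem ha
    have h2 : (J, a) ∈ jl (crossC (tickG c)) := List.mem_flatMap.2 ⟨g, hg, hJ⟩
    rw [h.link] at h2
    obtain ⟨p', h3, h4⟩ := D10_cross_N _ _ _ h2
    obtain ⟨g', hg', hpg'⟩ := D10_mem_jl h3
    obtain ⟨g0, hg0, rfl⟩ := List.mem_map.1 hg'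
    obtain ⟨a0, ha0, ha1⟩ := List.mem_map.1 hpg'
    have h5 := h.rng g0 hg0 a0 ha0
    have h6 : 0 ≤ a0.N := by
      have := th_pos a0.r
      cases hx : a0.x with
      | false => exact (h5.2.1 hx).1
      | true => have := (h5.2.2 hx).1; omega
    have h7 : a.N = a0.N + 1 := by
      rw [show a.N = p'.2.N from h4, ← ha1]
      rfl
    omega
  intro g' hg' a ha
  obtain ⟨g, hg, rfl⟩ := List.mem_map.1 hg'
  cases g with
  | nil => simp [formG] at ha
  | cons b g =>
    simp only [formG] at ha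
    split_ifs at ha with h2
    · rw [List.mem_singleton] at ha
      rw [ha]
      exact h1 _ hg b (by simp)
    · exact h1 _ hg a ha

theorem D10_hd_mapIdx (f : ℕ → Ltr → Ltr) (hf : ∀ i a, (f i a).hd = a.hd) (a : Ltr)
    (u : List Ltr) (hu : ∀ b ∈ u, b.hd ≠ .A) :
    ∀ b ∈ (a :: u).mapIdx f, b.hd = .A → b = f 0 a := by
  intro b hb hA
  rw [List.mapIdx_cons, List.mem_cons] at hb
  rcases hb with h | h
  · exact h
  · exfalso
    exact D6_mapIdx_hd (fun i a => f (i + 1) a) (fun i a => hf (i + 1) a) u hu b h hA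

theorem D10_dg0 {N : ℤ} (h1 : ug N = 0) (h2 : dg N 0 = 0) : N % 64 = 0 := by
  unfold ug at h1
  unfold dg th at h2
  have e1 : N % 16 = 0 := by
    have := (ZMod.intCast_zmod_eq_zero_iff_dvd N 16).1 h1
    omega
  have e2 : (N / 16) % 4 = 0 := by
    have := (ZMod.intCast_zmod_eq_zero_iff_dvd (N / (16 * 4 ^ 0)) 4).1 h2
    norm_num at this
    omega
  omega

theorem D10_not_plain_cell {a : AC} (h : Rng a) (hN : 1 ≤ a.N) (J : Bool) (b : Bs) :
    pl b ∉ encC J a := by
  intro hmem
  obtain ⟨hM, hu, hx⟩ := h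
  obtain ⟨⟨a0, u0, hw0, hA0, hu0⟩, _, _⟩ :=
    D10_bw hM a.x J (ell a.r a.N) (VV a.r a.N) a.N
  unfold encC raw at hmem
  rw [hw0, putM] at hmem
  have h1 := D10_hd_mapIdx (fun i (a' : Ltr) => { a' with
    M := if KK a.r a.len a.N ≤ i ∧ i < KK a.r a.len a.N + ell a.r a.N then
      some (mlet (ell a.r a.N) (i - KK a.r a.len a.N) a.N (KK a.r a.len a.N)
        (a.N + dsp (a.mem.flatten.take (KK a.r a.len a.N)))
        (stkAt a.mem.flatten (KK a.r a.len a.N)) .z) else none }) (fun _ _ => rfl) a0 u0 hu0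
    (pl b) hmem rfl
  have h2 : (pl b).M = if KK a.r a.len a.N ≤ 0 ∧ 0 < KK a.r a.len a.N + ell a.r a.N then
      some (mlet (ell a.r a.N) (0 - KK a.r a.len a.N) a.N (KK a.r a.len a.N)
        (a.N + dsp (a.mem.flatten.take (KK a.r a.len a.N)))
        (stkAt a.mem.flatten (KK a.r a.len a.N)) .z) else none := by
    rw [h1]
  split_ifs at h2 with h3
  · have h4 : KK a.r a.len a.N = 0 := by omega
    rw [h4] at h2
    simp only [pl, Option.some.injEq, mlet, Nat.sub_zero, ML.mk.injEq, if_true] at h2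
    obtain ⟨e1, _, _, e2, _, _, _, e3, _⟩ := h2
    have e4 : ell a.r a.N = 1 := by
      have := e3.symm
      simp only [decide_eq_true_eq] at this
      omega
    have e5 := D10_dg0 e1.symm e2.symm
    have hr : a.N < 64 := by
      have t0 : th 0 = 16 := by simp [th]
      have t1 : th 1 = 64 := by simp [th]
      rcases Nat.lt_or_ge a.r 2 with h5 | h5
      · interval_cases hr : a.r
        · cases hax : a.x with
          | false => have := (hu hax).2.1; omega
          | true => have := (hx hax).2; omega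
        · unfold ell at e4
          split_ifs at e4 with h6 <;> omega
      · exfalso
        unfold ell at e4
        split_ifs at e4 <;> omega
    omega
  · simp [pl] at h2

theorem not_plain (t : DT) (a : Ltr) (ha : a ∈ encG (shG (cfg t))) (b : Bs) : a ≠ pl b := by
  rintro rfl
  unfold encG encJ at ha
  rw [List.mem_flatMap] at ha
  obtain ⟨p, hp, hp2⟩ := ha
  obtain ⟨g, hg, hpg⟩ := D10_mem_jl hp
  exact D10_not_plain_cell ((D8_Inv_cfg t).sh.rng g hg _ hpg)
    (D10_pos (stepOk_cfg t) g hg _ hpg) _ _ hp2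

theorem D10_regSh : Reg Sh := by
  have h1 : Reg (fun w => shiftM.eval ((updM decF).eval w)) :=
    Reg.comp inferInstance (Reg.bm _) (Reg.bm _)
  have h2 : Reg (fun w => absorb.eval (shiftM.eval ((updM decF).eval w))) :=
    Reg.comp inferInstance h1 (Reg.bm _)
  have h3 : Reg (fun w => (tickM .p).eval (absorb.eval (shiftM.eval ((updM decF).eval w)))) :=
    Reg.comp inferInstance h2 (Reg.bm _)
  have h4 : Reg (fun w => (tickS .p).eval ((tickM .p).eval (absorb.eval (shiftM.eval
      ((updM decF).eval w))))) :=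
    Reg.comp inferInstance h3 (Reg.bm _)
  have h5 : Reg (fun w => cross.eval ((tickS .p).eval ((tickM .p).eval (absorb.eval (shiftM.eval
      ((updM decF).eval w)))))) :=
    Reg.comp inferInstance h4 (Reg.bm _)
  have h6 : Reg (fun w => form.eval (cross.eval ((tickS .p).eval ((tickM .p).eval (absorb.eval
      (shiftM.eval ((updM decF).eval w))))))) :=
    Reg.comp inferInstance h5 (Reg.bm _)
  exact h6

theorem D10_regUn : Reg Un := by
  have h1 : Reg (fun w => uncross.eval (dissolve.eval w)) :=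
    Reg.comp inferInstance (Reg.bm _) (Reg.bm _)
  have h2 : Reg (fun w => emit.eval (uncross.eval (dissolve.eval w))) :=
    Reg.comp inferInstance h1 (Reg.bm _)
  have h3 : Reg (fun w => (updM decB).eval (emit.eval (uncross.eval (dissolve.eval w)))) :=
    Reg.comp inferInstance h2 (Reg.bm _)
  have h4 : Reg (fun w => shiftM.eval ((updM decB).eval (emit.eval
      (uncross.eval (dissolve.eval w))))) :=
    Reg.comp inferInstance h3 (Reg.bm _)
  have h5 : Reg (fun w => (tickM .n).eval (shiftM.eval ((updM decB).eval (emit.eval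
      (uncross.eval (dissolve.eval w)))))) :=
    Reg.comp inferInstance h4 (Reg.bm _)
  have h6 : Reg (fun w => (tickS .n).eval ((tickM .n).eval (shiftM.eval ((updM decB).eval
      (emit.eval (uncross.eval (dissolve.eval w))))))) :=
    Reg.comp inferInstance h5 (Reg.bm _)
  exact h6

noncomputable def treeCode : TreeCode Ltr where
  fin := inferInstance
  lp := pl .lp
  br := pl .br
  lf := pl .lf
  ne1 := by decide
  ne2 := by decide
  ne3 := by decide
  Sh := Sh
  Un := Un
  regSh := D10_regSh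
  regUn := D10_regUn
  unSh := by
    intro t
    rw [encG_cfg_ww, Sh_encG _ (stepOk_cfg t), Un_Sh_encG _ (stepOk_cfg t)]
  plain := by
    intro t a ha
    rw [encG_cfg_ww, Sh_encG _ (stepOk_cfg t)] at ha
    exact ⟨not_plain t a ha .lp, not_plain t a ha .br, not_plain t a ha .lf⟩

end TF
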